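import Mathlib

/-!
Tensor calculus over a commutative ring with three commuting derivations.
-/

open Matrix

namespace Pool.Agent.Lib.MP_40de08_gt.Alg

abbrev MA (A : Type) : Type := Matrix (Fin 3) (Fin 3) A

theorem fin3 {P : Fin 3 → Prop} (h0 : P 0) (h1 : P 1) (h2 : P 2) : ∀ i, P i := by
  intro i
  fin_cases i
  exacts [h0, h1, h2]

section Defs

variable {A : Type} [CommRing A]

/-- Christoffel symbols of the first kind. -/
def low (D : Fin 3 → A → A) (h : A) (G : MA A) (i : Fin 3) : MA A :=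
  Matrix.of fun l j => h * (D i (G j l) + D j (G i l) - D l (G i j))

/-- Connection matrices. -/
def om (D : Fin 3 → A → A) (h : A) (G H : MA A) (i : Fin 3) : MA A :=
  Matrix.of fun k j => h * ∑ l, H k l * (D i (G j l) + D j (G i l) - D l (G i j))

/-- Curvature matrices. -/
def rm (D : Fin 3 → A → A) (w : Fin 3 → MA A) (a b : Fin 3) : MA A :=
  (w b).map (D a) - (w a).map (D b) + w a * w b - w b * w a

/-- Ricci tensor. -/
def ricA (D : Fin 3 → A → A) (w : Fin 3 → MA A) : MA A :=
  Matrix.of fun j k => ∑ i, (D i (w j i k) - D j (w i i k) +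
    ∑ m, (w i i m * w j m k - w j i m * w i m k))

/-- Differential. -/
def dif (D : Fin 3 → A → A) (f : A) : Fin 3 → A := fun i => D i f

/-- Hessian. -/
def hesA (D : Fin 3 → A → A) (w : Fin 3 → MA A) (f : A) : MA A :=
  Matrix.of fun i j => D i (D j f) - ∑ k, w i k j * D k f

/-- Divergence. -/
def dvg (D : Fin 3 → A → A) (w : Fin 3 → MA A) (X : Fin 3 → A) : A :=
  ∑ i, D i (X i) + ∑ k, (∑ i, w i i k) * X k

/-- Covariant derivative of a vector field. -/
def cov (D : Fin 3 → A → A) (w : Fin 3 → MA A) (X : Fin 3 → A) : MA A :=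
  Matrix.of fun k i => D i (X k) + ∑ m, w i k m * X m

/-- Three commuting derivations. -/
structure Der (D : Fin 3 → A → A) : Prop where
  add : ∀ i a b, D i (a + b) = D i a + D i b
  mul : ∀ i a b, D i (a * b) = D i a * b + a * D i b
  comm : ∀ i j a, D i (D j a) = D j (D i a)

/-- A metric with its inverse. -/
structure Mt (h : A) (G H : MA A) : Prop where
  hh : h + h = 1
  symm : ∀ i j, G i j = G j i
  inv : G * H = 1

end Defs

variable {A : Type} [CommRing A] {D : Fin 3 → A → A} {h : A} {G H : MA A} {w : Fin 3 → MA A}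

namespace Der

def hom (hD : Der D) (i : Fin 3) : A →+ A := AddMonoidHom.mk' (D i) (hD.add i)

theorem zero (hD : Der D) (i : Fin 3) : D i 0 = 0 := (hD.hom i).map_zero

theorem neg (hD : Der D) (i : Fin 3) (a : A) : D i (-a) = -D i a := (hD.hom i).map_neg a

theorem sub (hD : Der D) (i : Fin 3) (a b : A) : D i (a - b) = D i a - D i b :=
  (hD.hom i).map_sub a b

theorem sum (hD : Der D) (i : Fin 3) (f : Fin 3 → A) : D i (∑ k, f k) = ∑ k, D i (f k) :=
  map_sum (hD.hom i) f Finset.univ

theorem one (hD : Der D) (i : Fin 3) : D i 1 = 0 := by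
  have := hD.mul i 1 1
  simp only [mul_one, one_mul] at this
  linear_combination -this

theorem half (hD : Der D) (hh : h + h = 1) (i : Fin 3) : D i h = 0 := by
  have h1 := hD.add i h h
  rw [hh, hD.one] at h1
  linear_combination (-h) * h1 - D i h * hh

theorem mmul (hD : Der D) (i : Fin 3) (M N : MA A) :
    (M * N).map (D i) = M.map (D i) * N + M * N.map (D i) := by
  ext a b
  simp [Matrix.mul_apply, hD.sum, hD.mul, Finset.sum_add_distrib]

theorem madd (hD : Der D) (i : Fin 3) (M N : MA A) :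
    (M + N).map (D i) = M.map (D i) + N.map (D i) := by
  ext a b
  simp [hD.add]

theorem msub (hD : Der D) (i : Fin 3) (M N : MA A) :
    (M - N).map (D i) = M.map (D i) - N.map (D i) := by
  ext a b
  simp [hD.sub]

theorem msmul (hD : Der D) (i : Fin 3) (c : A) (N : MA A) :
    (c • N).map (D i) = D i c • N + c • N.map (D i) := by
  ext a b
  simp [hD.mul]

theorem msum (hD : Der D) (i : Fin 3) (N : Fin 3 → MA A) :
    (∑ k, N k).map (D i) = ∑ k, (N k).map (D i) := by
  ext a b
  simp [Matrix.sum_apply, hD.sum]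

theorem mcomm (hD : Der D) (i j : Fin 3) (M : MA A) :
    (M.map (D j)).map (D i) = (M.map (D i)).map (D j) := by
  ext a b
  simp [hD.comm i j]

theorem mone (hD : Der D) (i : Fin 3) : (1 : MA A).map (D i) = 0 := by
  ext a b
  by_cases e : a = b <;> simp [e, hD.one, hD.zero]

end Der

namespace Mt

theorem tr (hM : Mt h G H) : Gᵀ = G := by
  ext i j
  exact hM.symm j i

theorem inv' (hM : Mt h G H) : H * G = 1 := mul_eq_one_comm.1 hM.inv

theorem trH (hM : Mt h G H) : Hᵀ = H := by
  have h1 : Hᵀ * G = 1 := by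
    have := congrArg Matrix.transpose hM.inv
    rwa [Matrix.transpose_mul, hM.tr, Matrix.transpose_one] at this
  calc Hᵀ = Hᵀ * (G * H) := by rw [hM.inv, Matrix.mul_one]
    _ = H := by rw [← Matrix.mul_assoc, h1, Matrix.one_mul]

theorem symmH (hM : Mt h G H) (i j : Fin 3) : H i j = H j i :=
  (congrFun (congrFun hM.trH j) i)

theorem cancel (hM : Mt h G H) {a : A} (e : a = -a) : a = 0 := by
  linear_combination h * e - a * hM.hh

end Mt

theorem om_eq (i : Fin 3) : om D h G H i = H * low D h G i := by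
  ext k j
  simp only [om, low, Matrix.mul_apply, Matrix.of_apply, Finset.mul_sum]
  exact Finset.sum_congr rfl fun l _ => by ring

theorem om_symm (hM : Mt h G H) (i k j : Fin 3) : om D h G H i k j = om D h G H j k i := by
  simp only [om, Matrix.of_apply]
  congr 1
  exact Finset.sum_congr rfl fun l _ => by rw [hM.symm i j]; ring

theorem mul_om (hM : Mt h G H) (i : Fin 3) : G * om D h G H i = low D h G i := by
  rw [om_eq, ← Matrix.mul_assoc, hM.inv, Matrix.one_mul]

/-- The Levi-Civita property. -/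
structure LC (D : Fin 3 → A → A) (G : MA A) (w : Fin 3 → MA A) : Prop where
  symm : ∀ i k j, w i k j = w j k i
  compat : ∀ i, G.map (D i) = (w i)ᵀ * G + G * w i

theorem lc_om (hM : Mt h G H) : LC D G (om D h G H) := by
  refine ⟨om_symm hM, fun i => ?_⟩
  have h1 : (om D h G H i)ᵀ * G = (low D h G i)ᵀ := by
    rw [← mul_om hM, Matrix.transpose_mul, hM.tr]
  rw [h1, mul_om hM]
  ext j k
  simp only [low, Matrix.map_apply, Matrix.add_apply, Matrix.transpose_apply, Matrix.of_apply]
  rw [hM.symm k j]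
  linear_combination (-D i (G j k)) * hM.hh

theorem lc_unique (hM : Mt h G H) (hw : LC D G w) : w = om D h G H := by
  funext i
  have hs : ∀ a l b, (G * w a) l b = (G * w b) l a := by
    intro a l b
    simp only [Matrix.mul_apply]
    exact Finset.sum_congr rfl fun m _ => by rw [hw.symm a m b]
  have hc : ∀ a j k, D a (G j k) = (G * w a) k j + (G * w a) j k := by
    intro a j k
    have h1 : (w a)ᵀ * G = (G * w a)ᵀ := by rw [Matrix.transpose_mul, hM.tr]
    have := congrFun (congrFun (hw.compat a) j) k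
    rw [h1] at this
    exact this
  have h2 : G * w i = low D h G i := by
    ext l j
    simp only [low, Matrix.of_apply, hc]
    rw [hs j l i, hs l j i, hs l i j]
    linear_combination (-(G * w i) l j) * hM.hh
  rw [om_eq, ← h2, ← Matrix.mul_assoc, hM.inv', Matrix.one_mul]

theorem LC.dH (hw : LC D G w) (hD : Der D) (hM : Mt h G H) (i : Fin 3) :
    H.map (D i) = -(w i * H + H * (w i)ᵀ) := by
  have h1 := hD.mmul i G H
  rw [hM.inv, hD.mone, hw.compat] at h1
  have h2 : H * (((w i)ᵀ * G + G * w i) * H + G * H.map (D i)) = 0 := by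
    rw [← h1, Matrix.mul_zero]
  have h3 : H * (((w i)ᵀ * G + G * w i) * H + G * H.map (D i)) =
      H * (w i)ᵀ * (G * H) + (H * G) * w i * H + (H * G) * H.map (D i) := by noncomm_ring
  rw [h3, hM.inv, hM.inv'] at h2
  simp only [Matrix.mul_one, Matrix.one_mul] at h2
  rw [eq_neg_iff_add_eq_zero, ← h2]
  abel

theorem ricA_eq (j k : Fin 3) : ricA D w j k = ∑ i, rm D w i j i k := by
  simp only [ricA, rm, Matrix.of_apply, Matrix.sub_apply, Matrix.add_apply, Matrix.map_apply,
    Matrix.mul_apply, Finset.sum_sub_distrib, Finset.sum_add_distrib]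
  ring

theorem rm_anti (a b : Fin 3) : rm D w a b = -rm D w b a := by
  simp only [rm]
  abel

theorem rm_self (a : Fin 3) : rm D w a a = 0 := by
  simp only [rm]
  abel

theorem LC.rm_skew (hw : LC D G w) (hD : Der D) (a b : Fin 3) :
    (rm D w a b)ᵀ * G + G * rm D w a b = 0 := by
  have h1 := hD.mcomm a b G
  rw [hw.compat b, hw.compat a, hD.madd, hD.madd, hD.mmul, hD.mmul, hD.mmul, hD.mmul,
    hw.compat b, hw.compat a] at h1
  simp only [rm, Matrix.transpose_sub, Matrix.transpose_add, Matrix.transpose_mul,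
    ← Matrix.transpose_map]
  rw [← sub_eq_zero] at h1
  rw [← h1]
  noncomm_ring

theorem LC.q_skew (hw : LC D G w) (hD : Der D) (hM : Mt h G H) (a b : Fin 3) :
    (rm D w a b * H)ᵀ = -(rm D w a b * H) := by
  have h1 := hw.rm_skew hD a b
  have h2 : H * ((rm D w a b)ᵀ * G + G * rm D w a b) * H =
      H * (rm D w a b)ᵀ * (G * H) + (H * G) * rm D w a b * H := by noncomm_ring
  rw [h1, hM.inv, hM.inv'] at h2
  simp only [Matrix.mul_zero, Matrix.zero_mul, Matrix.mul_one, Matrix.one_mul] at h2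
  rw [Matrix.transpose_mul, hM.trH, eq_neg_iff_add_eq_zero, ← h2]

theorem LC.trace_rm (hw : LC D G w) (hD : Der D) (hM : Mt h G H) (a b : Fin 3) :
    (rm D w a b).trace = 0 := by
  have h1 := hw.rm_skew hD a b
  have h2 : (H * ((rm D w a b)ᵀ * G + G * rm D w a b)).trace = 0 := by
    rw [h1, Matrix.mul_zero, Matrix.trace_zero]
  rw [Matrix.mul_add, Matrix.trace_add, Matrix.trace_mul_comm H, Matrix.mul_assoc, hM.inv,
    ← Matrix.mul_assoc, hM.inv', Matrix.mul_one, Matrix.one_mul, Matrix.trace_transpose] at h2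
  exact hM.cancel (by linear_combination h2)

theorem LC.ric_symm (hw : LC D G w) (hD : Der D) (hM : Mt h G H) (j k : Fin 3) :
    ricA D w j k = ricA D w k j := by
  have h1 := hw.trace_rm hD hM j k
  simp only [rm, Matrix.trace, Matrix.diag, Matrix.sub_apply, Matrix.add_apply, Matrix.map_apply,
    Matrix.mul_apply, Fin.sum_univ_three] at h1
  simp only [ricA, Matrix.of_apply, Fin.sum_univ_three]
  have hs := hw.symm
  revert j k
  refine fin3 (fin3 ?_ ?_ ?_) (fin3 ?_ ?_ ?_) (fin3 ?_ ?_ ?_) <;> intro h1 <;>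
    simp only [hs 1 _ 0, hs 2 _ 0, hs 2 _ 1] at h1 ⊢ <;> linear_combination -h1

theorem hesA_symm (hD : Der D) (hs : ∀ i k j, w i k j = w j k i) (f : A) (i j : Fin 3) :
    hesA D w f i j = hesA D w f j i := by
  simp only [hesA, Matrix.of_apply, hD.comm i j, hs i _ j]

theorem trace_cov (X : Fin 3 → A) : (cov D w X).trace = dvg D w X := by
  simp only [cov, dvg, Matrix.trace, Matrix.diag, Matrix.of_apply, Fin.sum_univ_three]
  ring

theorem LC.cov_grad (hw : LC D G w) (hD : Der D) (hM : Mt h G H) (f : A) :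
    cov D w (H *ᵥ dif D f) = H * hesA D w f := by
  ext k i
  have h1 : ∀ l, D i (H k l) = -((w i * H) k l + (H * (w i)ᵀ) k l) := fun l =>
    congrFun (congrFun (hw.dH hD hM i) k) l
  simp only [cov, hesA, dif, Matrix.of_apply, Matrix.mulVec, dotProduct, Matrix.mul_apply,
    Matrix.transpose_apply, hD.add, hD.mul, h1, Fin.sum_univ_three, hD.comm i, hw.symm i]
  ring

theorem dvg_smul (hD : Der D) (φ : A) (X : Fin 3 → A) :
    dvg D w (φ • X) = φ * dvg D w X + X ⬝ᵥ dif D φ := by
  simp only [dvg, dif, Pi.smul_apply, smul_eq_mul, hD.mul, dotProduct, Fin.sum_univ_three]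
  ring

theorem bochner (hD : Der D) (hs : ∀ i k j, w i k j = w j k i) (X Y : Fin 3 → A) :
    dvg D w (dvg D w X • Y - cov D w X *ᵥ Y) =
      dvg D w X * dvg D w Y - (cov D w X * cov D w Y).trace - Y ⬝ᵥ ricA D w *ᵥ X := by
  simp only [dvg, cov, ricA, Pi.sub_apply, Pi.smul_apply, smul_eq_mul, Matrix.mulVec, dotProduct,
    Matrix.trace, Matrix.diag, Matrix.mul_apply, Matrix.of_apply, Fin.sum_univ_three, hD.add,
    hD.sub, hD.mul, hD.comm 1 0, hD.comm 2 0, hD.comm 2 1, hs 1 _ 0, hs 2 _ 0, hs 2 _ 1]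
  ring

theorem bianchi2 (hD : Der D) (a b c : Fin 3) :
    ((rm D w b c).map (D a) + w a * rm D w b c - rm D w b c * w a) +
    ((rm D w c a).map (D b) + w b * rm D w c a - rm D w c a * w b) +
    ((rm D w a b).map (D c) + w c * rm D w a b - rm D w a b * w c) = 0 := by
  simp only [rm, hD.msub, hD.madd, hD.mmul]
  rw [hD.mcomm a b (w c), hD.mcomm c a (w b), hD.mcomm b c (w a)]
  noncomm_ring

theorem LC.bianchiQ (hw : LC D G w) (hD : Der D) (hM : Mt h G H) (a b c : Fin 3) :
    ((rm D w b c * H).map (D a) + w a * (rm D w b c * H) + rm D w b c * H * (w a)ᵀ) +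
    ((rm D w c a * H).map (D b) + w b * (rm D w c a * H) + rm D w c a * H * (w b)ᵀ) +
    ((rm D w a b * H).map (D c) + w c * (rm D w a b * H) + rm D w a b * H * (w c)ᵀ) = 0 := by
  have h1 := congrArg (· * H) (bianchi2 (w := w) hD a b c)
  simp only [Matrix.zero_mul] at h1
  rw [← h1]
  simp only [hD.mmul, hw.dH hD hM]
  noncomm_ring

theorem LC.bianchiC (hw : LC D G w) (hD : Der D) (hM : Mt h G H) (a : Fin 3) :
    D a (H * ricA D w).trace = 2 * (∑ b, D b ((H * ricA D w) b a) +
      ∑ m, (∑ i, w i i m) * (H * ricA D w) m a - ∑ b, ∑ m, w b m a * (H * ricA D w) b m) := by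
  obtain ⟨Q, hQ⟩ : ∃ Q : Fin 3 → Fin 3 → MA A, ∀ b c, Q b c = rm D w b c * H := ⟨_, fun _ _ => rfl⟩
  have hP : ∀ b a, (H * ricA D w) b a = ∑ c, Q c a c b := by
    intro b a
    simp only [hQ, Matrix.mul_apply, hw.ric_symm hD hM _ a, ricA_eq, Fin.sum_univ_three,
      hM.symmH b]
    ring
  have hB := fun b c => congrFun (congrFun (hw.bianchiQ hD hM a b c) b) c
  simp only [← hQ] at hB
  have q1 : ∀ b c l k, Q b c l k = -Q c b l k := by
    intro b c l k
    rw [hQ, hQ, rm_anti, Matrix.neg_mul, Matrix.neg_apply]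
  have q2 : ∀ b l k, Q b b l k = 0 := by
    intro b l k
    rw [hQ, rm_self, Matrix.zero_mul, Matrix.zero_apply]
  have q3 : ∀ b c l k, Q b c l k = -Q b c k l := by
    intro b c l k
    have := congrFun (congrFun (hw.q_skew hD hM b c) k) l
    rwa [← hQ] at this
  have q4 : ∀ b c l, Q b c l l = 0 := fun b c l => hM.cancel (q3 b c l l)
  have hs := hw.symm
  have hE : ∑ b, ∑ c, (((Q b c).map (D a) + w a * Q b c + Q b c * (w a)ᵀ) +
      ((Q c a).map (D b) + w b * Q c a + Q c a * (w b)ᵀ) +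
      ((Q a b).map (D c) + w c * Q a b + Q a b * (w c)ᵀ)) b c = 0 := by
    simp only [hB, Matrix.zero_apply, Finset.sum_const_zero]
  simp only [Matrix.trace, Matrix.diag, hP]
  clear hB hP hQ
  revert a
  refine fin3 ?_ ?_ ?_ <;> intro hE <;>
    simp only [Matrix.add_apply, Matrix.map_apply, Matrix.mul_apply, Matrix.transpose_apply,
      Fin.sum_univ_three, q1 1 0, q1 2 0, q1 2 1, q2, q3 _ _ 1 0, q3 _ _ 2 0, q3 _ _ 2 1, q4,
      hD.neg, hD.zero, hD.add, hs 1 _ 0, hs 2 _ 0, hs 2 _ 1, neg_neg, neg_zero] at hE ⊢ <;>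
    linear_combination hE

theorem LC.bianchi (hw : LC D G w) (hD : Der D) (hM : Mt h G H) (Y : Fin 3 → A) :
    dvg D w ((H * ricA D w) *ᵥ Y - (h * (H * ricA D w).trace) • Y) =
      (H * ricA D w * cov D w Y).trace - h * (H * ricA D w).trace * dvg D w Y := by
  have h0 := hw.bianchiC hD hM 0
  have h1 := hw.bianchiC hD hM 1
  have h2 := hw.bianchiC hD hM 2
  have hh := hM.hh
  have hd := hD.half hh
  generalize (H * ricA D w).trace = R at *
  generalize H * ricA D w = P at *
  have hs := hw.symm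
  simp only [dvg, cov, Pi.sub_apply, Pi.smul_apply, smul_eq_mul, Matrix.mulVec, dotProduct,
    Matrix.trace, Matrix.diag, Matrix.mul_apply, Matrix.of_apply, Fin.sum_univ_three, hD.add,
    hD.sub, hD.mul, hd, hs 1 _ 0, hs 2 _ 0, hs 2 _ 1] at h0 h1 h2 ⊢
  have e2 : ∀ x : A, h * (2 * x) = x := fun x => by linear_combination x * hh
  have g0 := congrArg (h * ·) h0
  have g1 := congrArg (h * ·) h1
  have g2 := congrArg (h * ·) h2
  simp only [e2] at g0 g1 g2
  linear_combination (-Y 0) * g0 - Y 1 * g1 - Y 2 * g2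

theorem LC.jacobi (hw : LC D G w) (hD : Der D) (k : Fin 3) :
    D k G.det = 2 * (∑ i, w i i k) * G.det := by
  have hc : ∀ i j, D k (G i j) = ((w k)ᵀ * G + G * w k) i j := fun i j =>
    congrFun (congrFun (hw.compat k) i) j
  simp only [Matrix.det_fin_three, hD.add, hD.sub, hD.mul, hc, Matrix.add_apply, Matrix.mul_apply,
    Matrix.transpose_apply, Fin.sum_univ_three, hw.symm k]
  ring

theorem LC.rho_dvg (hw : LC D G w) (hD : Der D) (hM : Mt h G H) {ρ σ : A} (h1 : ρ * ρ = G.det)
    (h2 : ρ * σ = 1) (X : Fin 3 → A) : ρ * dvg D w X = ∑ i, D i (ρ * X i) := by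
  have hρ : ∀ k, D k ρ = (∑ i, w i i k) * ρ := by
    intro k
    have e := hw.jacobi hD k
    rw [← h1, hD.mul] at e
    generalize (∑ i, w i i k) = τ at *
    linear_combination (h * σ) * e - (D k ρ - τ * ρ) * hM.hh - 2 * h * (D k ρ - τ * ρ) * h2
  simp only [dvg, hD.mul, hρ, Fin.sum_univ_three]
  ring

theorem hesA_add (hD : Der D) (f g : A) : hesA D w (f + g) = hesA D w f + hesA D w g := by
  ext i j
  simp only [hesA, Matrix.of_apply, Matrix.add_apply, hD.add, Fin.sum_univ_three]
  ring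

theorem hesA_mul (hD : Der D) (f g : A) : hesA D w (f * g) = f • hesA D w g + g • hesA D w f +
    vecMulVec (dif D f) (dif D g) + vecMulVec (dif D g) (dif D f) := by
  ext i j
  simp only [hesA, dif, Matrix.of_apply, Matrix.add_apply, Matrix.smul_apply, smul_eq_mul,
    vecMulVec_apply, hD.add, hD.mul, Fin.sum_univ_three]
  ring

theorem hesA_chain (hD : Der D) {V u c : A} (hc : ∀ i, D i c = 0)
    (hV : ∀ i, D i V = c * V * D i u) :
    hesA D w V = (c * V) • hesA D w u + (c * c * V) • vecMulVec (dif D u) (dif D u) := by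
  ext i j
  simp only [hesA, dif, Matrix.of_apply, Matrix.add_apply, Matrix.smul_apply, smul_eq_mul,
    vecMulVec_apply, hD.mul, hV, hc, Fin.sum_univ_three]
  ring

end Pool.Agent.Lib.MP_40de08_gt.Alg
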