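import Pool.Agent.Lib.MP_40de08_gt.Alg

/-!
Conformal change and change of coordinates, over a commutative ring with derivations.
-/

open Matrix

namespace Pool.Agent.Lib.MP_40de08_gt.Alg

variable {A : Type} [CommRing A] {D : Fin 3 → A → A} {h : A} {G H : MA A} {w : Fin 3 → MA A}

/-- Difference tensor of the connections of conformal metrics. -/
def cT (D : Fin 3 → A → A) (G H : MA A) (u : A) (i : Fin 3) : MA A :=
  Matrix.of fun k j => (if k = i then D j u else 0) + (if k = j then D i u else 0) -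
    G i j * (H *ᵥ dif D u) k

theorem Mt.lower (hM : Mt h G H) (v : Fin 3 → A) (k : Fin 3) :
    v k = ∑ m, G k m * (H *ᵥ v) m := by
  have : G *ᵥ (H *ᵥ v) = v := by rw [Matrix.mulVec_mulVec, hM.inv, Matrix.one_mulVec]
  exact (congrFun this k).symm

theorem LC.conf (hw : LC D G w) (hD : Der D) (hM : Mt h G H) {φ u : A}
    (hφ : ∀ i, D i φ = -2 * φ * D i u) : LC D (φ • G) (fun i => w i - cT D G H u i) := by
  constructor
  · intro i k j
    simp only [cT, Matrix.sub_apply, Matrix.of_apply, hw.symm i k j, hM.symm i j]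
    ring
  · intro i
    have hu : ∀ k, D k u = ∑ m, G k m * (H *ᵥ dif D u) m := hM.lower (dif D u)
    have hT : (cT D G H u i)ᵀ * G + G * cT D G H u i = (2 * D i u) • G := by
      have hs := hM.symm
      ext j k
      simp only [cT, Matrix.add_apply, Matrix.mul_apply, Matrix.transpose_apply, Matrix.of_apply,
        Matrix.smul_apply, smul_eq_mul]
      generalize H *ᵥ dif D u = U at *
      simp only [hu]
      revert i j k
      refine fin3 (fin3 (fin3 ?_ ?_ ?_) (fin3 ?_ ?_ ?_) (fin3 ?_ ?_ ?_))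
        (fin3 (fin3 ?_ ?_ ?_) (fin3 ?_ ?_ ?_) (fin3 ?_ ?_ ?_))
        (fin3 (fin3 ?_ ?_ ?_) (fin3 ?_ ?_ ?_) (fin3 ?_ ?_ ?_)) <;>
      simp only [Fin.sum_univ_three, hs 1 0, hs 2 0, hs 2 1, Fin.reduceEq, if_true, if_false] <;>
      ring
    rw [hD.msmul, hw.compat, hφ]
    have e : (w i - cT D G H u i)ᵀ * φ • G + φ • G * (w i - cT D G H u i) =
        φ • ((w i)ᵀ * G + G * w i) - φ • ((cT D G H u i)ᵀ * G + G * cT D G H u i) := by
      simp only [Matrix.transpose_sub, Matrix.mul_smul, Matrix.smul_mul, Matrix.sub_mul,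
        Matrix.mul_sub, smul_add, smul_sub]
      abel
    rw [e, hT, smul_smul]
    ext a b
    simp only [Matrix.add_apply, Matrix.sub_apply, Matrix.smul_apply, smul_eq_mul]
    ring

theorem LC.ric_conf (hw : LC D G w) (hD : Der D) (hM : Mt h G H) (u : A) :
    ricA D (fun i => w i - cT D G H u i) = ricA D w + hesA D w u +
      vecMulVec (dif D u) (dif D u) +
      ((H * hesA D w u).trace - dif D u ⬝ᵥ H *ᵥ dif D u) • G := by
  have hu : ∀ k, D k u = ∑ m, G k m * (H *ᵥ dif D u) m := hM.lower (dif D u)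
  have hL : dvg D w (H *ᵥ dif D u) = (H * hesA D w u).trace := by
    rw [← trace_cov, hw.cov_grad hD hM]
  have hc : ∀ k i j, D k (G i j) = ((w k)ᵀ * G + G * w k) i j := fun k i j =>
    congrFun (congrFun (hw.compat k) i) j
  have hH : ∀ i j, D i (D j u) = hesA D w u i j + ∑ k, w i k j * D k u := by
    intro i j
    simp only [hesA, Matrix.of_apply]
    ring
  have hHs := hesA_symm hD hw.symm u
  have hs := hw.symm
  have hg := hM.symm
  rw [← hL]
  ext j k
  simp only [ricA, cT, dvg, Matrix.add_apply, Matrix.sub_apply, Matrix.of_apply, vecMulVec_apply,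
    Matrix.smul_apply, smul_eq_mul, dotProduct]
  generalize H *ᵥ dif D u = U at *
  generalize hesA D w u = Hs at *
  simp only [dif]
  have hd : D j (D k u) = D j (∑ m, G k m * U m) := by rw [← hu]
  revert j k
  refine fin3 (fin3 ?_ ?_ ?_) (fin3 ?_ ?_ ?_) (fin3 ?_ ?_ ?_) <;> intro hd <;>
    simp only [Fin.sum_univ_three, Fin.reduceEq, if_true, if_false, hD.add, hD.sub, hD.mul, hD.zero,
      hH, hc, Matrix.add_apply, Matrix.mul_apply, Matrix.transpose_apply] at hd ⊢ <;>
    simp only [hu, Fin.sum_univ_three, hHs 1 0, hHs 2 0, hHs 2 1, hs 1 _ 0, hs 2 _ 0, hs 2 _ 1,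
      hg 1 0, hg 2 0, hg 2 1] at hd ⊢ <;>
    linear_combination hd

section Nat

variable {B : Type} [CommRing B] {D' : Fin 3 → B → B} {π : B →+* A} {J K : MA A}
  {w' : Fin 3 → MA B} {G' H' : MA B}

/-- `π` is a substitution with Jacobian matrix `J`. -/
structure Sub (D : Fin 3 → A → A) (D' : Fin 3 → B → B) (π : B →+* A) (J K : MA A) : Prop where
  chain : ∀ a f, D a (π f) = ∑ i, π (D' i f) * J i a
  symm : ∀ a b i, D a (J i b) = D b (J i a)
  inv : K * J = 1

/-- The pulled back connection matrices. -/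
def pull (π : B →+* A) (J : MA A) (w' : Fin 3 → MA B) (a : Fin 3) : MA A :=
  ∑ i, J i a • (w' i).map π

theorem Sub.inv' (hS : Sub D D' π J K) : J * K = 1 := mul_eq_one_comm.1 hS.inv

theorem Sub.dmap (hS : Sub D D' π J K) (a : Fin 3) (M : MA B) :
    (M.map π).map (D a) = ∑ i, J i a • (M.map (D' i)).map π := by
  ext k l
  simp only [Matrix.map_apply, Matrix.sum_apply, Matrix.smul_apply, smul_eq_mul, hS.chain]
  exact Finset.sum_congr rfl fun i _ => mul_comm _ _

theorem Sub.lc (hS : Sub D D' π J K) (hD : Der D) (hw : LC D' G' w') :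
    LC D (Jᵀ * G'.map π * J) (fun a => K * (J.map (D a) + pull π J w' a * J)) := by
  constructor
  · intro a c b
    have hs := hw.symm
    simp only [pull, Matrix.mul_apply, Matrix.add_apply, Matrix.map_apply,
      Matrix.smul_apply, smul_eq_mul, hS.symm a b, Fin.sum_univ_three, hs 1 _ 0, hs 2 _ 0,
      hs 2 _ 1]
    ring
  · intro a
    have h1 : (G'.map π).map (D a) = (pull π J w' a)ᵀ * G'.map π + G'.map π * pull π J w' a := by
      rw [hS.dmap]
      simp only [pull, hw.compat, Matrix.transpose_sum, Matrix.sum_mul, Matrix.mul_sum,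
        ← Finset.sum_add_distrib]
      refine Finset.sum_congr rfl fun i _ => ?_
      rw [Matrix.map_add _ (map_add π), Matrix.map_mul, Matrix.map_mul, Matrix.transpose_smul,
        Matrix.smul_mul, Matrix.mul_smul, smul_add, Matrix.transpose_map]
    have h2 : Kᵀ * Jᵀ = 1 := by rw [← Matrix.transpose_mul, hS.inv', Matrix.transpose_one]
    rw [hD.mmul, hD.mmul, h1]
    have e : (K * (J.map (D a) + pull π J w' a * J))ᵀ * (Jᵀ * G'.map π * J) +
        Jᵀ * G'.map π * J * (K * (J.map (D a) + pull π J w' a * J)) =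
        ((J.map (D a))ᵀ + Jᵀ * (pull π J w' a)ᵀ) * (Kᵀ * Jᵀ) * G'.map π * J +
        Jᵀ * G'.map π * (J * K) * (J.map (D a) + pull π J w' a * J) := by
      simp only [Matrix.transpose_mul, Matrix.transpose_add]
      noncomm_ring
    rw [e, h2, hS.inv', Matrix.transpose_map]
    noncomm_ring

theorem Sub.dif (hS : Sub D D' π J K) (f : B) : dif D (π f) = Jᵀ *ᵥ (π ∘ dif D' f) := by
  funext a
  simp only [Alg.dif, hS.chain, Matrix.mulVec, dotProduct, Matrix.transpose_apply,
    Function.comp_apply]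
  exact Finset.sum_congr rfl fun i _ => mul_comm _ _

theorem Sub.hes (hS : Sub D D' π J K) (hD : Der D)
    (hw : ∀ a, J * w a = J.map (D a) + pull π J w' a * J) (f : B) :
    hesA D w (π f) = Jᵀ * (hesA D' w' f).map π * J := by
  ext i j
  have h1 : ∀ k, D i (J k j) = (J * w i) k j - (pull π J w' i * J) k j := by
    intro k
    rw [hw]
    simp
  simp only [hesA, Matrix.of_apply, hS.chain, hD.add, hD.mul, h1, pull, Matrix.mul_apply,
    Matrix.map_apply, Matrix.transpose_apply, Matrix.add_apply, Matrix.smul_apply, smul_eq_mul,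
    Fin.sum_univ_three, map_add, map_sub, map_mul]
  ring

theorem Sub.rm (hS : Sub D D' π J K) (hD : Der D)
    (hw : ∀ a, J * w a = J.map (D a) + pull π J w' a * J) (a b : Fin 3) :
    J * rm D w a b = (∑ i, ∑ j, (J i a * J j b) • (rm D' w' i j).map π) * J := by
  have h1 : ∀ a b, J * ((w b).map (D a) + w a * w b) = (J.map (D b)).map (D a) +
      (pull π J w' b).map (D a) * J + pull π J w' b * J.map (D a) + pull π J w' a * J.map (D b) +
      pull π J w' a * pull π J w' b * J := by
    intro a b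
    have e := congrArg (fun M : MA A => M.map (D a)) (hw b)
    simp only [hD.mmul, hD.madd] at e
    have e2 : J * ((w b).map (D a) + w a * w b) = (J.map (D a) * w b + J * (w b).map (D a)) +
      (J * w a - J.map (D a)) * w b := by noncomm_ring
    rw [e2, e, hw a, add_sub_cancel_left, Matrix.mul_assoc (pull π J w' a), hw b]
    noncomm_ring
  have h2 : J * Alg.rm D w a b = J * ((w b).map (D a) + w a * w b) -
      J * ((w a).map (D b) + w b * w a) := by
    simp only [Alg.rm]
    noncomm_ring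
  have h3 : (pull π J w' b).map (D a) - (pull π J w' a).map (D b) +
      pull π J w' a * pull π J w' b - pull π J w' b * pull π J w' a =
      ∑ i, ∑ j, (J i a * J j b) • (Alg.rm D' w' i j).map π := by
    simp only [pull, hD.msum, hD.msmul, hS.dmap, hS.symm a b]
    ext k l
    simp only [Alg.rm, Matrix.sub_apply, Matrix.add_apply, Matrix.mul_apply, Matrix.map_apply,
      Matrix.smul_apply, smul_eq_mul, Fin.sum_univ_three, map_add, map_sub, map_mul]
    ring
  rw [h2, h1, h1, ← h3, hD.mcomm a b J]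
  noncomm_ring

theorem Sub.ric (hS : Sub D D' π J K) (hD : Der D)
    (hw : ∀ a, J * w a = J.map (D a) + pull π J w' a * J) :
    ricA D w = Jᵀ * (ricA D' w').map π * J := by
  have h1 : ∀ a b, Alg.rm D w a b =
      K * ((∑ i, ∑ j, (J i a * J j b) • (Alg.rm D' w' i j).map π) * J) := by
    intro a b
    rw [← hS.rm hD hw, ← Matrix.mul_assoc, hS.inv, Matrix.one_mul]
  have h2 : ∀ i l, ∑ a, J i a * K a l = (1 : MA A) i l := fun i l =>
    congrFun (congrFun hS.inv' i) l
  ext b c
  rw [ricA_eq]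
  simp only [h1]
  have h3 : (ricA D' w').map π = Matrix.of fun j m => ∑ i, (Alg.rm D' w' i j).map π i m := by
    ext j m
    simp only [Matrix.map_apply, ricA_eq, map_sum, Matrix.of_apply]
  rw [h3]
  obtain ⟨Rm, hR⟩ : ∃ Rm : Fin 3 → Fin 3 → MA A, ∀ i j, (Alg.rm D' w' i j).map π = Rm i j :=
    ⟨_, fun _ _ => rfl⟩
  simp only [hR]
  have h4 : ∑ a, (K * ((∑ i, ∑ j, (J i a * J j b) • Rm i j) * J)) a c =
      ∑ i, ∑ l, (∑ a, J i a * K a l) * ∑ j, ∑ m, J j b * Rm i j l m * J m c := by
    simp only [Matrix.mul_apply, Matrix.add_apply, Matrix.smul_apply, smul_eq_mul,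
      Fin.sum_univ_three]
    ring
  rw [h4]
  simp only [h2]
  simp only [Matrix.mul_apply, Matrix.transpose_apply, Matrix.of_apply, Matrix.one_apply,
    Fin.sum_univ_three, Fin.reduceEq, if_true, if_false]
  ring

end Nat

end Pool.Agent.Lib.MP_40de08_gt.Alg
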