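import Pool.Agent.Lib.MP_40de08_gt.Loc

/-!
A bump function which is a subsolution away from a small ball.
-/

open scoped ContDiff Topology
open Matrix Metric

namespace Pool.Agent.Lib.MP_40de08_gt

/-- The chain rule for the Laplacian. -/
theorem bumploc_lap_comp (G : E3 → Mat) {φ φ₁ φ₂ : ℝ → ℝ} (h₁ : ∀ t, HasDerivAt φ (φ₁ t) t)
    (h₂ : ∀ t, HasDerivAt φ₁ (φ₂ t) t) {f : E3 → ℝ} (hf : ContDiff ℝ ∞ f) (p : E3) :
    lap G (fun x => φ (f x)) p = φ₂ (f p) * grd G f f p + φ₁ (f p) * lap G f p := by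
  have hd : ∀ q, DifferentiableAt ℝ f q := fun q => diffAt hf.contDiffAt
  have e1 : ∀ j, pd j (fun x => φ (f x)) = fun q => φ₁ (f q) * pd j f q := fun j =>
    funext fun q => pd_comp (h₁ _) (hd q) j
  have e2 : ∀ i j, pd i (pd j (fun x => φ (f x))) p =
      φ₂ (f p) * pd i f p * pd j f p + φ₁ (f p) * pd i (pd j f) p := by
    intro i j
    have hφ : DifferentiableAt ℝ (fun q => φ₁ (f q)) p :=
      (h₂ (f p)).differentiableAt.comp p (hd p)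
    rw [e1 j, pd_mul hφ (diffAt (contDiff_pd hf j).contDiffAt), pd_comp (h₂ _) (hd p)]
  simp only [lap, grd, hes, dv, Matrix.trace, Matrix.diag, Matrix.mul_apply, Matrix.of_apply,
    dotProduct, Matrix.mulVec, e2, Fin.sum_univ_three]
  simp only [e1]
  ring

theorem bumploc_deriv_one (t : ℝ) :
    HasDerivAt expNegInvGlue (t⁻¹ ^ 2 * expNegInvGlue t) t := by
  simpa using expNegInvGlue.hasDerivAt_polynomial_eval_inv_mul 1 t

theorem bumploc_deriv_two (t : ℝ) :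
    HasDerivAt (fun t : ℝ => t⁻¹ ^ 2 * expNegInvGlue t)
      ((t⁻¹ ^ 4 - 2 * t⁻¹ ^ 3) * expNegInvGlue t) t := by
  have h := expNegInvGlue.hasDerivAt_polynomial_eval_inv_mul (Polynomial.X ^ 2) t
  simp only [Polynomial.eval_pow, Polynomial.eval_X, Polynomial.eval_mul, Polynomial.eval_sub,
    Polynomial.derivative_X_pow, Polynomial.eval_C] at h
  convert h using 1
  push_cast
  ring

/-- The real inequality behind the choice of the parameter. -/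
theorem bumploc_ineq {s M κ A Q L c μ : ℝ} (hs : 0 < s) (hsM : s ≤ M) (hκ : 0 < κ) (hA : 0 ≤ A)
    (hQ : κ ≤ Q) (hL : -A ≤ L) (hc : c ≤ A) (hμ : 1 + 2 * M + (A * M ^ 2 + (A + 1) * M ^ 4) / κ ≤ μ) :
    c + 1 ≤ ((s / μ)⁻¹ ^ 4 - 2 * (s / μ)⁻¹ ^ 3) * μ⁻¹ * μ⁻¹ * Q + (s / μ)⁻¹ ^ 2 * μ⁻¹ * L := by
  have hM : 0 < M := hs.trans_le hsM
  have hT : 0 ≤ (A * M ^ 2 + (A + 1) * M ^ 4) / κ := by positivity
  have hμ1 : 1 ≤ μ := by linarith
  have hμ0 : 0 < μ := by linarith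
  have e : ((s / μ)⁻¹ ^ 4 - 2 * (s / μ)⁻¹ ^ 3) * μ⁻¹ * μ⁻¹ * Q + (s / μ)⁻¹ ^ 2 * μ⁻¹ * L =
      μ * ((μ - 2 * s) * Q + s ^ 2 * L) / s ^ 4 := by
    field_simp
  rw [e, le_div_iff₀ (by positivity)]
  have h1 : A * M ^ 2 + (A + 1) * M ^ 4 ≤ (μ - 2 * M) * κ := by
    rw [← div_le_iff₀ hκ]
    linarith
  have h2 : (μ - 2 * M) * κ ≤ (μ - 2 * s) * Q :=
    mul_le_mul (by linarith) hQ hκ.le (by linarith)
  have h3 : s ^ 2 ≤ M ^ 2 := pow_le_pow_left₀ hs.le hsM 2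
  have h4 : s ^ 4 ≤ M ^ 4 := pow_le_pow_left₀ hs.le hsM 4
  have h5 : -(A * M ^ 2) ≤ s ^ 2 * L := by
    have h6 : s ^ 2 * (-A) ≤ s ^ 2 * L := mul_le_mul_of_nonneg_left hL (by positivity)
    have h7 : A * s ^ 2 ≤ A * M ^ 2 := mul_le_mul_of_nonneg_left h3 hA
    linarith
  have h8 : (c + 1) * s ^ 4 ≤ (A + 1) * M ^ 4 :=
    calc (c + 1) * s ^ 4 ≤ (A + 1) * s ^ 4 :=
          mul_le_mul_of_nonneg_right (by linarith) (by positivity)
      _ ≤ (A + 1) * M ^ 4 := mul_le_mul_of_nonneg_left h4 (by linarith)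
  have h9 : (A + 1) * M ^ 4 ≤ (μ - 2 * s) * Q + s ^ 2 * L := by linarith
  have h10 : 0 ≤ (μ - 2 * s) * Q + s ^ 2 * L := le_trans (by positivity) h9
  calc (c + 1) * s ^ 4 ≤ 1 * ((μ - 2 * s) * Q + s ^ 2 * L) := by linarith
    _ ≤ μ * ((μ - 2 * s) * Q + s ^ 2 * L) := mul_le_mul_of_nonneg_right hμ1 h10

/-- The gradient of `a - ‖y - z'‖ ^ 2` has positive length away from `z'`. -/
theorem bumploc_grd_pos {G : E3 → Mat} {U : Set E3} (hG : Good G U) (a : ℝ) {z' p : E3}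
    (hp : p ∈ U) (hne : p ≠ z') :
    0 < grd G (fun y => a - ‖y - z'‖ ^ 2) (fun y => a - ‖y - z'‖ ^ 2) p := by
  have hd : HasFDerivAt (fun y : E3 => a - ‖y - z'‖ ^ 2)
      (-(2 • (innerSL ℝ (p - z')).comp (ContinuousLinearMap.id ℝ E3))) p :=
    (((hasFDerivAt_id p).sub_const z').norm_sq).const_sub a
  have hv : dv (fun y : E3 => a - ‖y - z'‖ ^ 2) p ≠ 0 := by
    intro h0
    have h1 := fderiv_eq_sum (fun y : E3 => a - ‖y - z'‖ ^ 2) p (p - z')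
    have h2 : ∀ i, pd i (fun y : E3 => a - ‖y - z'‖ ^ 2) p = 0 := fun i => congrFun h0 i
    rw [hd.fderiv] at h1
    simp [h2] at h1
    rw [← inner_sub_left, inner_self_eq_zero] at h1
    exact hne (sub_eq_zero.1 h1)
  have h := (hG.pos p hp).inv.dotProduct_mulVec_pos hv
  simpa [grd] using h

/- Proof. Choose `R` with `closedBall z (4 R) ⊆ U`. Given `z', r`, put
`s y = 9 R² - ‖y - z'‖²` and `ψ y = expNegInvGlue (s y / μ)` with `μ` large. By compactness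
`grd G s s ≥ κ > 0` on `closedBall z (4 R) \ ball z' r`, and `lap G s`, `c` are bounded on the
closed ball. The chain rule then gives `lap G ψ - c ψ ≥ ψ` where `s > 0` off `ball z' r`, and
`lap G ψ = ψ = 0` where `s ≤ 0`. -/
theorem bump_loc {G : E3 → Mat} {U : Set E3} (hG : Good G U) {z : E3} (hz : z ∈ U)
    (h1 : G z = 1) (c : E3 → ℝ) (hc : ContinuousOn c U) :
    ∃ R : ℝ, 0 < R ∧ closedBall z (4 * R) ⊆ U ∧ ∀ z' ∈ ball z R, ∀ r : ℝ, 0 < r →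
      ∃ (ψ : E3 → ℝ) (c₀ K : ℝ), 0 < c₀ ∧ 0 ≤ K ∧ ContDiff ℝ ∞ ψ ∧ (∀ p, 0 ≤ ψ p) ∧
        (∀ p, p ∉ closedBall z (4 * R) → ψ p = 0) ∧
        ∀ p ∈ U, (ball z R).indicator (fun _ => c₀) p - (ball z' r).indicator (fun _ => K) p ≤
          lap G ψ p - c p * ψ p := by
  obtain ⟨ε, hε, hεU⟩ := Metric.nhds_basis_closedBall.mem_iff.1 (hG.isOpen.mem_nhds hz)
  obtain ⟨R, hR, hRU⟩ : ∃ R : ℝ, 0 < R ∧ closedBall z (4 * R) ⊆ U :=
    ⟨ε / 4, by positivity, by rwa [mul_div_cancel₀ ε (by norm_num)]⟩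
  refine ⟨R, hR, hRU, fun z' hz' r hr => ?_⟩
  obtain ⟨s, hs⟩ : ∃ s : E3 → ℝ, s = fun y => 9 * R ^ 2 - ‖y - z'‖ ^ 2 := ⟨_, rfl⟩
  have hsm : ContDiff ℝ ∞ s := by
    rw [hs]
    exact contDiff_const.sub ((contDiff_id.sub contDiff_const).norm_sq ℝ)
  have hzz : ‖z' - z‖ < R := by rwa [mem_ball, dist_eq_norm] at hz'
  have hsle : ∀ p, s p ≤ 9 * R ^ 2 := fun p => by
    rw [hs]
    exact sub_le_self _ (by positivity)
  have hsin : ∀ p, 0 < s p → p ∈ closedBall z (4 * R) := by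
    intro p hp
    rw [hs] at hp
    have h2 : ‖p - z'‖ < 3 * R := lt_of_pow_lt_pow_left₀ 2 (by positivity) (by
      have : (3 * R) ^ 2 = 9 * R ^ 2 := by ring
      simp only at hp
      linarith)
    rw [mem_closedBall, dist_eq_norm]
    have h3 : ‖p - z‖ ≤ ‖p - z'‖ + ‖z' - z‖ := norm_sub_le_norm_sub_add_norm_sub _ _ _
    linarith
  have hsge : ∀ p ∈ ball z R, 5 * R ^ 2 ≤ s p := by
    intro p hp
    rw [mem_ball, dist_eq_norm] at hp
    have h3 : ‖p - z'‖ ≤ ‖p - z‖ + ‖z - z'‖ := norm_sub_le_norm_sub_add_norm_sub _ _ _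
    rw [norm_sub_rev z z'] at h3
    have h4 : ‖p - z'‖ ^ 2 ≤ (2 * R) ^ 2 := pow_le_pow_left₀ (norm_nonneg _) (by linarith) 2
    rw [hs]
    simp only
    nlinarith
  have hK : IsCompact (closedBall z (4 * R)) := isCompact_closedBall _ _
  obtain ⟨κ, hκ, hκle⟩ := (hK.diff (isOpen_ball (x := z') (ε := r))).exists_forall_le'
    (f := grd G s s) (a := 0)
    ((hG.smooth_grd hsm.contDiffOn hsm.contDiffOn).continuousOn.mono
      (Set.sdiff_subset.trans hRU)) (by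
      intro p hp
      rw [hs]
      refine bumploc_grd_pos hG _ (hRU hp.1) ?_
      rintro rfl
      exact hp.2 (mem_ball_self hr))
  obtain ⟨A₁, hA₁⟩ := hK.exists_bound_of_continuousOn
    ((hG.smooth_lap hsm.contDiffOn).continuousOn.mono hRU)
  obtain ⟨A₂, hA₂⟩ := hK.exists_bound_of_continuousOn (hc.mono hRU)
  obtain ⟨A, hA0, hAL, hAc⟩ : ∃ A : ℝ, 0 ≤ A ∧ (∀ p ∈ closedBall z (4 * R), -A ≤ lap G s p) ∧
      ∀ p ∈ closedBall z (4 * R), c p ≤ A := by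
    refine ⟨|A₁| + |A₂|, by positivity, fun p hp => ?_, fun p hp => ?_⟩
    · have h2 := (abs_le.1 (hA₁ p hp)).1
      linarith [le_abs_self A₁, abs_nonneg A₂]
    · have h2 := (abs_le.1 (hA₂ p hp)).2
      linarith [le_abs_self A₂, abs_nonneg A₁]
  obtain ⟨μ, hμ⟩ : ∃ μ : ℝ, μ = 1 + 2 * (9 * R ^ 2) +
    (A * (9 * R ^ 2) ^ 2 + (A + 1) * (9 * R ^ 2) ^ 4) / κ := ⟨_, rfl⟩
  have hμ0 : 0 < μ := by
    rw [hμ]
    positivity
  obtain ⟨ψ, hψ⟩ : ∃ ψ : E3 → ℝ, ψ = fun y => expNegInvGlue (s y / μ) := ⟨_, rfl⟩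
  have hψp : ∀ p, ψ p = expNegInvGlue (s p / μ) := fun p => by rw [hψ]
  have hψm : ContDiff ℝ ∞ ψ := by
    rw [hψ]
    exact expNegInvGlue.contDiff.comp (hsm.div_const μ)
  have hψ0 : ∀ p, 0 ≤ ψ p := fun p => by
    rw [hψp]
    exact expNegInvGlue.nonneg _
  have hψz : ∀ p, s p ≤ 0 → ψ p = 0 := fun p hp => by
    rw [hψp]
    exact expNegInvGlue.zero_of_nonpos (div_nonpos_of_nonpos_of_nonneg hp hμ0.le)
  have hlap : ∀ p, lap G ψ p =
      (((s p / μ)⁻¹ ^ 4 - 2 * (s p / μ)⁻¹ ^ 3) * μ⁻¹ * μ⁻¹ * grd G s s p +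
        (s p / μ)⁻¹ ^ 2 * μ⁻¹ * lap G s p) * ψ p := by
    intro p
    have hq : ∀ t : ℝ, HasDerivAt (fun t : ℝ => t / μ) μ⁻¹ t := fun t => by
      simpa using (hasDerivAt_id t).div_const μ
    have h := bumploc_lap_comp G (φ := fun t => expNegInvGlue (t / μ))
      (φ₁ := fun t => (t / μ)⁻¹ ^ 2 * expNegInvGlue (t / μ) * μ⁻¹)
      (φ₂ := fun t => ((t / μ)⁻¹ ^ 4 - 2 * (t / μ)⁻¹ ^ 3) * expNegInvGlue (t / μ) * μ⁻¹ * μ⁻¹)
      (fun t => HasDerivAt.comp (h := fun t : ℝ => t / μ) t (bumploc_deriv_one (t / μ)) (hq t))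
      (fun t => (HasDerivAt.comp (h := fun t : ℝ => t / μ) t (bumploc_deriv_two (t / μ))
        (hq t)).mul_const μ⁻¹) hsm p
    rw [hψp, hψ, h]
    ring
  obtain ⟨B, hB⟩ := hK.exists_bound_of_continuousOn
    ((((hG.smooth_lap hψm.contDiffOn).continuousOn).sub
      (hc.mul hψm.continuous.continuousOn)).mono hRU)
  have hc₀ : 0 < expNegInvGlue (5 * R ^ 2 / μ) := expNegInvGlue.pos_of_pos (by positivity)
  refine ⟨ψ, expNegInvGlue (5 * R ^ 2 / μ), expNegInvGlue (5 * R ^ 2 / μ) + |B|, hc₀,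
    by positivity, hψm, hψ0, fun p hp => hψz p (not_lt.1 fun h => hp (hsin p h)),
    fun p hp => ?_⟩
  have hi : (ball z R).indicator (fun _ => expNegInvGlue (5 * R ^ 2 / μ)) p ≤ ψ p := by
    by_cases hpz : p ∈ ball z R
    · rw [Set.indicator_of_mem hpz, hψp]
      exact expNegInvGlue.monotone (div_le_div_of_nonneg_right (hsge p hpz) hμ0.le)
    · rw [Set.indicator_of_notMem hpz]
      exact hψ0 p
  have hi' : (ball z R).indicator (fun _ => expNegInvGlue (5 * R ^ 2 / μ)) p ≤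
      expNegInvGlue (5 * R ^ 2 / μ) := Set.indicator_le_self' (fun _ _ => hc₀.le) p
  have hj : 0 ≤ (ball z' r).indicator (fun _ => expNegInvGlue (5 * R ^ 2 / μ) + |B|) p :=
    Set.indicator_nonneg (fun _ _ => by positivity) p
  rcases le_or_gt (s p) 0 with hsp | hsp
  · rw [hlap, hψz p hsp]
    rw [hψz p hsp] at hi
    linarith
  · by_cases hpr : p ∈ ball z' r
    · rw [Set.indicator_of_mem hpr]
      have h2 := (abs_le.1 (hB p (hsin p hsp))).1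
      simp only [Pi.sub_apply, Pi.mul_apply] at h2
      linarith [le_abs_self B]
    · have h2 := bumploc_ineq hsp (hsle p) hκ hA0 (hκle p ⟨hsin p hsp, hpr⟩)
        (hAL p (hsin p hsp)) (hAc p (hsin p hsp)) hμ.ge
      have h3 := mul_le_mul_of_nonneg_right h2 (hψ0 p)
      rw [hlap]
      linarith

end Pool.Agent.Lib.MP_40de08_gt
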