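import Pool.Agent.Lib.MP_40de08_gt.Loc

/-!
The Poincare inequality on a Euclidean ball.
-/

open scoped ContDiff Topology
open MeasureTheory Metric

namespace Pool.Agent.Lib.MP_40de08_gt

/-- Jensen's inequality for the square on the unit interval. -/
theorem poincloc_jensen {g : ℝ → ℝ} (hg : ContinuousOn g (Set.Icc 0 1)) :
    (∫ t in (0 : ℝ)..1, g t) ^ 2 ≤ ∫ t in (0 : ℝ)..1, g t ^ 2 := by
  set a := ∫ t in (0 : ℝ)..1, g t with ha
  have h1 : IntervalIntegrable g volume 0 1 := hg.intervalIntegrable_of_Icc zero_le_one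
  have h2 : IntervalIntegrable (fun t => g t ^ 2) volume 0 1 :=
    (hg.pow 2).intervalIntegrable_of_Icc zero_le_one
  have h3 : 0 ≤ ∫ t in (0 : ℝ)..1, (g t - a) ^ 2 :=
    intervalIntegral.integral_nonneg zero_le_one fun t _ => sq_nonneg _
  have h4 : ∀ t, (g t - a) ^ 2 = (g t ^ 2 - 2 * a * g t) + a ^ 2 := fun t => by ring
  simp only [h4] at h3
  have h5 : IntervalIntegrable (fun t => g t ^ 2 - 2 * a * g t) volume 0 1 :=
    h2.sub (h1.const_mul _)
  rw [intervalIntegral.integral_add h5 intervalIntegrable_const,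
    intervalIntegral.integral_sub h2 (h1.const_mul _), intervalIntegral.integral_const_mul,
    intervalIntegral.integral_const, ← ha] at h3
  simp only [sub_zero, smul_eq_mul, one_mul] at h3
  nlinarith

theorem poincloc_cs (f : E3 → ℝ) (p v : E3) :
    fderiv ℝ f p v ^ 2 ≤ ‖v‖ ^ 2 * ∑ i, pd i f p ^ 2 := by
  rw [fderiv_eq_sum, EuclideanSpace.real_norm_sq_eq]
  exact Finset.sum_mul_sq_le_sq_mul_sq _ _ _

theorem poincloc_meas (f : E3 → ℝ) : Measurable fun p => ∑ i, pd i f p ^ 2 :=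
  Finset.measurable_sum _ fun i _ => (measurable_fderiv_apply_const ℝ f (bas i)).pow_const 2

/-- The pointwise bound along a segment. -/
theorem poincloc_seg {z : E3} {R : ℝ} {f : E3 → ℝ} {U : Set E3} (hU : IsOpen U)
    (hB : closedBall z R ⊆ U) (hf : ContDiffOn ℝ ∞ f U) {x y : E3} (hx : x ∈ ball z R)
    (hy : y ∈ ball z R) :
    ENNReal.ofReal ((f x - f y) ^ 2) ≤ ENNReal.ofReal ((2 * R) ^ 2) *
      ∫⁻ t in Set.Ioc (0 : ℝ) 1, (ball z R).indicator
        (fun p => ENNReal.ofReal (∑ i, pd i f p ^ 2)) (y + t • (x - y)) := by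
  have hmem : ∀ t ∈ Set.Icc (0 : ℝ) 1, y + t • (x - y) ∈ ball z R := fun t ht =>
    (convex_ball z R).add_smul_sub_mem hy hx ht
  have hmemU : ∀ t ∈ Set.Icc (0 : ℝ) 1, y + t • (x - y) ∈ U := fun t ht =>
    hB (ball_subset_closedBall (hmem t ht))
  have hγ : Continuous fun t : ℝ => y + t • (x - y) := by fun_prop
  have hd : ∀ t ∈ Set.uIcc (0 : ℝ) 1, HasDerivAt (fun t : ℝ => f (y + t • (x - y)))
      (fderiv ℝ f (y + t • (x - y)) (x - y)) t := by
    intro t ht
    rw [Set.uIcc_of_le zero_le_one] at ht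
    have h1 : HasDerivAt (fun t : ℝ => y + t • (x - y)) (x - y) t := by
      simpa using ((hasDerivAt_id t).smul_const (x - y)).const_add y
    exact (diffAt (hf.contDiffAt (hU.mem_nhds (hmemU t ht)))).hasFDerivAt.comp_hasDerivAt t h1
  have hc : ContinuousOn (fun t : ℝ => fderiv ℝ f (y + t • (x - y)) (x - y)) (Set.Icc 0 1) :=
    ((hf.continuousOn_fderiv_of_isOpen hU (by simp)).comp hγ.continuousOn hmemU).clm_apply
      continuousOn_const
  have hD : ContinuousOn (fun t : ℝ => ∑ i, pd i f (y + t • (x - y)) ^ 2) (Set.Icc 0 1) :=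
    continuousOn_finsetSum _ fun i _ =>
      (((contDiffOn_pd hU hf i).continuousOn.comp hγ.continuousOn hmemU).pow 2)
  have e1 := intervalIntegral.integral_eq_sub_of_hasDerivAt hd
    (hc.intervalIntegrable_of_Icc zero_le_one)
  simp only [one_smul, add_sub_cancel, zero_smul, add_zero] at e1
  have hxy : ‖x - y‖ ^ 2 ≤ (2 * R) ^ 2 := by
    refine pow_le_pow_left₀ (norm_nonneg _) ?_ 2
    have h1 := dist_triangle_right x y z
    rw [mem_ball] at hx hy
    rw [← dist_eq_norm]
    linarith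
  have e2 : (f x - f y) ^ 2
      ≤ (2 * R) ^ 2 * ∫ t in (0 : ℝ)..1, ∑ i, pd i f (y + t • (x - y)) ^ 2 := by
    rw [← e1, ← intervalIntegral.integral_const_mul]
    refine (poincloc_jensen hc).trans (intervalIntegral.integral_mono_on zero_le_one
      ((hc.pow 2).intervalIntegrable_of_Icc zero_le_one)
      ((hD.intervalIntegrable_of_Icc zero_le_one).const_mul _) fun t _ => ?_)
    exact (poincloc_cs f _ _).trans (mul_le_mul_of_nonneg_right hxy
      (Finset.sum_nonneg fun i _ => sq_nonneg _))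
  refine (ENNReal.ofReal_le_ofReal e2).trans (le_of_eq ?_)
  rw [ENNReal.ofReal_mul (sq_nonneg _), intervalIntegral.integral_of_le zero_le_one,
    ofReal_integral_eq_lintegral_ofReal (hD.intervalIntegrable_of_Icc zero_le_one).1
      (Filter.Eventually.of_forall fun t => Finset.sum_nonneg fun i _ => sq_nonneg _)]
  congr 1
  refine setLIntegral_congr_fun measurableSet_Ioc fun t ht => ?_
  simp only [Set.indicator_of_mem (hmem t (Set.Ioc_subset_Icc_self ht))]

/-- Averaging over translates. -/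
theorem poincloc_avg {D : E3 → ENNReal} (hD : Measurable D) (S : Set E3) :
    Measurable (fun y => ∫⁻ h in S, ∫⁻ t in Set.Ioc (0 : ℝ) 1, D (y + t • h)) ∧
    ∫⁻ y, ∫⁻ h in S, ∫⁻ t in Set.Ioc (0 : ℝ) 1, D (y + t • h) = (∫⁻ p, D p) * volume S := by
  have h1 : Measurable fun q : (E3 × E3) × ℝ => D (q.1.1 + q.2 • q.1.2) := hD.comp (by fun_prop)
  have h2 : Measurable fun q : E3 × E3 => ∫⁻ t in Set.Ioc (0 : ℝ) 1, D (q.1 + t • q.2) :=
    h1.lintegral_prod_right'
  refine ⟨h2.lintegral_prod_right', ?_⟩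
  rw [lintegral_lintegral_swap h2.aemeasurable]
  have h3 : ∀ h : E3, ∫⁻ y, ∫⁻ t in Set.Ioc (0 : ℝ) 1, D (y + t • h) = ∫⁻ p, D p := by
    intro h
    have h4 : Measurable fun q : E3 × ℝ => D (q.1 + q.2 • h) := hD.comp (by fun_prop)
    rw [lintegral_lintegral_swap h4.aemeasurable]
    simp only [lintegral_add_right_eq_self]
    simp
  simp only [h3]
  rw [setLIntegral_const]

/- Sketch. Let `B = ball z R`, `D p = ∑ i, pd i f p ^ 2` (so `|fderiv f p v|² ≤ ‖v‖² D p` by
`fderiv_eq_sum` and Cauchy-Schwarz), `D' = B.indicator D`. For `x, y ∈ B`: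
`f x - f y = ∫_0^1 fderiv f (y + t (x - y)) (x - y) dt`, so
`(f x - f y)² ≤ (2R)² ∫_0^1 D' (y + t (x - y)) dt` (Jensen or Cauchy-Schwarz, `B` convex). Work
with `lintegral`: `∫_y ∫_x 1_B(x) 1_B(y) (f x - f y)² ≤ (2R)² ∫_y ∫_{h ∈ ball 0 (2R)} ∫_t D'(y + t h)`
(substitute `x = y + h`, `lintegral_add_left_eq_self`), swap (Tonelli) and use translation
invariance in `y`: this is `(2R)² |ball 0 (2R)| ∫ D'`. Then some `y ∈ B` is below the average
(`exists_le_setLAverage` or a direct contradiction argument); take `c = f y`. All functions are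
continuous on the compact `closedBall z R`, hence integrable on `B`. -/
theorem poincare_ball (z : E3) {R : ℝ} (hR : 0 < R) :
    ∃ C : ℝ, 0 ≤ C ∧ ∀ (f : E3 → ℝ) (U : Set E3), IsOpen U → closedBall z R ⊆ U →
      ContDiffOn ℝ ∞ f U →
      ∃ c : ℝ, ∫ p in ball z R, (f p - c) ^ 2 ≤ C * ∫ p in ball z R, ∑ i, pd i f p ^ 2 := by
  set K : ENNReal := ENNReal.ofReal ((2 * R) ^ 2) * volume (ball (0 : E3) (2 * R)) /
    volume (ball z R) with hK
  have hB0 : volume (ball z R) ≠ 0 := (measure_ball_pos volume z hR).ne'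
  have hB1 : volume (ball z R) ≠ ⊤ := measure_ball_lt_top.ne
  have hK1 : K ≠ ⊤ :=
    ENNReal.div_ne_top (ENNReal.mul_ne_top ENNReal.ofReal_ne_top measure_ball_lt_top.ne) hB0
  refine ⟨K.toReal, ENNReal.toReal_nonneg, fun f U hU hB hf => ?_⟩
  set D : E3 → ENNReal := (ball z R).indicator fun p => ENNReal.ofReal (∑ i, pd i f p ^ 2)
    with hDdef
  have hD : Measurable D := (poincloc_meas f).ennreal_ofReal.indicator measurableSet_ball
  obtain ⟨hW, hWint⟩ := poincloc_avg hD (ball (0 : E3) (2 * R))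
  obtain ⟨y, hy, hyle⟩ := exists_le_setLAverage hB0 hB1 hW.aemeasurable
  refine ⟨f y, ?_⟩
  have i1 : IntegrableOn (fun p => (f p - f y) ^ 2) (ball z R) :=
    ((((hf.continuousOn.mono hB).sub continuousOn_const).pow 2).integrableOn_compact
      (isCompact_closedBall z R)).mono_set ball_subset_closedBall
  have i2 : IntegrableOn (fun p => ∑ i, pd i f p ^ 2) (ball z R) :=
    ((continuousOn_finsetSum _ fun i _ =>
      ((contDiffOn_pd hU hf i).continuousOn.mono hB).pow 2).integrableOn_compact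
      (isCompact_closedBall z R)).mono_set ball_subset_closedBall
  have n2 : 0 ≤ ∫ p in ball z R, ∑ i, pd i f p ^ 2 :=
    integral_nonneg fun p => Finset.sum_nonneg fun i _ => sq_nonneg _
  have e1 : ∫⁻ p, D p = ENNReal.ofReal (∫ p in ball z R, ∑ i, pd i f p ^ 2) := by
    rw [hDdef, lintegral_indicator measurableSet_ball, ofReal_integral_eq_lintegral_ofReal i2
      (Filter.Eventually.of_forall fun p => Finset.sum_nonneg fun i _ => sq_nonneg _)]
  have e2 : ENNReal.ofReal (∫ p in ball z R, (f p - f y) ^ 2) ≤ ENNReal.ofReal ((2 * R) ^ 2) *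
      ∫⁻ h in ball (0 : E3) (2 * R), ∫⁻ t in Set.Ioc (0 : ℝ) 1, D (y + t • h) := by
    rw [ofReal_integral_eq_lintegral_ofReal i1 (Filter.Eventually.of_forall fun p => sq_nonneg _),
      ← lintegral_const_mul' _ _ ENNReal.ofReal_ne_top, ← lintegral_indicator measurableSet_ball,
      ← lintegral_indicator measurableSet_ball, ← lintegral_sub_right_eq_self
        ((ball (0 : E3) (2 * R)).indicator fun h => ENNReal.ofReal ((2 * R) ^ 2) *
          ∫⁻ t in Set.Ioc (0 : ℝ) 1, D (y + t • h)) y]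
    refine lintegral_mono fun x => ?_
    by_cases hx : x ∈ ball z R
    · have hxy : x - y ∈ ball (0 : E3) (2 * R) := by
        have h1 := dist_triangle_right x y z
        rw [mem_ball] at hx hy
        rw [mem_ball_zero_iff, ← dist_eq_norm]
        linarith
      simp only [Set.indicator_of_mem hx, Set.indicator_of_mem hxy]
      exact poincloc_seg hU hB hf hx hy
    · simp only [Set.indicator_of_notMem hx]
      exact zero_le
  have e3 : ∫⁻ h in ball (0 : E3) (2 * R), ∫⁻ t in Set.Ioc (0 : ℝ) 1, D (y + t • h)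
      ≤ (∫⁻ p, D p) * volume (ball (0 : E3) (2 * R)) / volume (ball z R) := by
    refine hyle.trans ?_
    rw [setLAverage_eq, ← hWint]
    exact ENNReal.div_le_div_right (setLIntegral_le_lintegral _ _) _
  have e4 : ENNReal.ofReal (∫ p in ball z R, (f p - f y) ^ 2)
      ≤ ENNReal.ofReal (K.toReal * ∫ p in ball z R, ∑ i, pd i f p ^ 2) := by
    rw [ENNReal.ofReal_mul ENNReal.toReal_nonneg, ENNReal.ofReal_toReal hK1, ← e1]
    refine e2.trans ((mul_le_mul_right e3 _).trans (le_of_eq ?_))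
    rw [hK, div_eq_mul_inv, div_eq_mul_inv]
    ring
  exact (ENNReal.ofReal_le_ofReal_iff (mul_nonneg ENNReal.toReal_nonneg n2)).mp e4

end Pool.Agent.Lib.MP_40de08_gt
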