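import Pool.Agent.Lib.MP_40de08_gt.Chart

/-!
The Riemannian volume measure in charts.
-/

open scoped Manifold ContDiff Topology
open Matrix Filter Set MeasureTheory

namespace Pool.Agent.Lib.MP_40de08_gt

theorem vol_det_jac {τ : E3 → E3} {p : E3} (h : DifferentiableAt ℝ τ p) :
    (fderiv ℝ τ p).det = (jac τ p).det := by
  rw [ContinuousLinearMap.det,
    ← LinearMap.det_toMatrix (EuclideanSpace.basisFun (Fin 3) ℝ).toBasis]
  refine congrArg Matrix.det (Matrix.ext fun i a => ?_)
  have h1 := ((EuclideanSpace.proj i : E3 →L[ℝ] ℝ).hasFDerivAt.comp p h.hasFDerivAt).fderiv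
  have h2 : jac τ p i a = fderiv ℝ τ p (bas a) i := congrArg (fun L => L (bas a)) h1
  rw [h2, LinearMap.toMatrix_apply]
  simp [bas]

theorem vol_meas {α β : Type} [TopologicalSpace α] [TopologicalSpace β] [MeasurableSpace α]
    [MeasurableSpace β] [BorelSpace α] [BorelSpace β] {f : α → β} {t : Set α}
    (hf : ContinuousOn f t) (ht : MeasurableSet t) {s : Set β} (hs : MeasurableSet s) :
    MeasurableSet (t ∩ f ⁻¹' s) := by
  rw [← Subtype.image_preimage_coe]
  exact ht.subtype_image (hf.domRestrict.measurable hs)

variable {M : Type} [TopologicalSpace M] [ChartedSpace E3 M] [IsManifold (𝓡 3) ∞ M]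
  [T2Space M] [CompactSpace M] [MeasurableSpace M] [BorelSpace M]

omit [ChartedSpace E3 M] [IsManifold (𝓡 3) ∞ M] [T2Space M] [CompactSpace M] in
theorem vol_aem (e : OpenPartialHomeomorph M E3) {S : Set E3} (hS : MeasurableSet S)
    (hSe : S ⊆ e.target) (f : E3 → ENNReal) :
    AEMeasurable e.symm ((volume.restrict S).withDensity f) :=
  ((e.continuousOn_symm.mono hSe).aemeasurable hS).mono_ac (withDensity_absolutelyContinuous _ _)

omit [ChartedSpace E3 M] [IsManifold (𝓡 3) ∞ M] [T2Space M] [CompactSpace M] in
theorem vol_map_apply (e : OpenPartialHomeomorph M E3) {S : Set E3} (hS : MeasurableSet S)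
    (hSe : S ⊆ e.target) (f : E3 → ENNReal) {s : Set M} (hs : MeasurableSet s) :
    Measure.map e.symm ((volume.restrict S).withDensity f) s = ∫⁻ p in S ∩ e.symm ⁻¹' s, f p := by
  rw [Measure.map_apply_of_aemeasurable (vol_aem e hS hSe f) hs, withDensity_apply',
    Measure.restrict_restrict' hS, inter_comm]

omit [T2Space M] [CompactSpace M] in
theorem vol_chart_apply (g : Met M) (e : OpenPartialHomeomorph M E3) {s : Set M}
    (hs : MeasurableSet s) : chartVol g e s =
      ∫⁻ p in e.target ∩ e.symm ⁻¹' s, ENNReal.ofReal (rho (coef g e) p) :=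
  vol_map_apply e e.open_target.measurableSet subset_rfl _ hs

omit [T2Space M] [CompactSpace M] in
theorem vol_chart_inter (g : Met M) (e : OpenPartialHomeomorph M E3) {s : Set M}
    (hs : MeasurableSet s) : chartVol g e (s ∩ e.source) = chartVol g e s := by
  rw [vol_chart_apply g e hs, vol_chart_apply g e (hs.inter e.open_source.measurableSet)]
  refine congrArg (fun t => ∫⁻ p in t, ENNReal.ofReal (rho (coef g e) p)) (Set.ext fun p => ?_)
  exact ⟨fun h => ⟨h.1, h.2.1⟩, fun h => ⟨h.1, h.2, e.map_target h.1⟩⟩

omit [T2Space M] [CompactSpace M] in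
theorem vol_overlap {e e' : OpenPartialHomeomorph M E3} (he : SC e) (he' : SC e') (g : Met M)
    {s : Set M} (hs : MeasurableSet s) (h1 : s ⊆ e.source) (h2 : s ⊆ e'.source) :
    chartVol g e s = chartVol g e' s := by
  have hA := vol_meas e.continuousOn_symm e.open_target.measurableSet hs
  have hd : ∀ p ∈ e.target ∩ e.symm ⁻¹' s, DifferentiableAt ℝ (e' ∘ e.symm) p := fun p hp =>
    (he.smooth_trans he' hp.1 (h2 hp.2)).differentiableAt (by simp)
  have him : (e' ∘ e.symm) '' (e.target ∩ e.symm ⁻¹' s) = e'.target ∩ e'.symm ⁻¹' s := by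
    ext q
    constructor
    · rintro ⟨p, hp, rfl⟩
      refine ⟨e'.map_source (h2 hp.2), ?_⟩
      rw [mem_preimage, Function.comp_apply, e'.left_inv (h2 hp.2)]
      exact hp.2
    · rintro ⟨hq, hq'⟩
      refine ⟨e (e'.symm q), ⟨e.map_source (h1 hq'), ?_⟩, ?_⟩
      · rw [mem_preimage, e.left_inv (h1 hq')]
        exact hq'
      · rw [Function.comp_apply, e.left_inv (h1 hq'), e'.right_inv hq]
  rw [vol_chart_apply g e hs, vol_chart_apply g e' hs, ← him,
    lintegral_image_eq_lintegral_abs_det_fderiv_mul volume hA
      (fun p hp => (hd p hp).hasFDerivAt.hasFDerivWithinAt)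
      fun p hp q hq h => e.symm.injOn hp.1 hq.1 (e'.injOn (h2 hp.2) (h2 hq.2) h)]
  refine setLIntegral_congr_fun hA fun p hp => ?_
  have h3 := (he.coef_trans he' g hp.1 (h2 hp.2)).eq_of_nhds
  rw [← ENNReal.ofReal_mul (abs_nonneg _), vol_det_jac (hd p hp), rho, rho, h3, det_mul, det_mul,
    det_transpose, mul_right_comm, Real.sqrt_mul (mul_self_nonneg _), Real.sqrt_mul_self_eq_abs]

omit [T2Space M] [CompactSpace M] in
theorem vol_overlap' {e e' : OpenPartialHomeomorph M E3} (he : SC e) (he' : SC e') (g : Met M) :
    (chartVol g e).restrict e'.source = (chartVol g e').restrict e.source := by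
  ext s hs
  have m := e.open_source.measurableSet
  have m' := e'.open_source.measurableSet
  rw [Measure.restrict_apply hs, Measure.restrict_apply hs, ← vol_chart_inter g e (hs.inter m'),
    ← vol_chart_inter g e' (hs.inter m), inter_right_comm]
  exact vol_overlap he he' g ((hs.inter m).inter m') (fun _ h => h.1.2) fun _ h => h.2

omit [T2Space M] [CompactSpace M] in
theorem vol_restrict_chartAt (g : Met M) (x : M) :
    (vol g).restrict (chartAt E3 x).source = chartVol g (chartAt E3 x) := by
  have m := (chartAt E3 x).open_source.measurableSet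
  have h0 : (chartVol g (chartAt E3 x)).restrict (chartAt E3 x).source =
      chartVol g (chartAt E3 x) := by
    ext s hs
    rw [Measure.restrict_apply hs, vol_chart_inter g _ hs]
  have h1 : ∀ y, chartVol g (chartAt E3 y) ≤ vol g := fun y =>
    le_iSup (fun y => chartVol g (chartAt E3 y)) y
  refine le_antisymm ?_ (h0.symm.le.trans (Measure.restrict_mono subset_rfl (h1 x)))
  have h2 : vol g ≤ chartVol g (chartAt E3 x) + (vol g).restrict (chartAt E3 x).sourceᶜ := by
    refine iSup_le fun y => ?_
    rw [← Measure.restrict_add_restrict_compl (μ := chartVol g (chartAt E3 y)) m,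
      vol_overlap' (sc_chartAt y) (sc_chartAt x)]
    exact add_le_add Measure.restrict_le_self (Measure.restrict_mono subset_rfl (h1 y))
  refine (Measure.restrict_mono subset_rfl h2).trans_eq ?_
  rw [Measure.restrict_add, h0, Measure.restrict_restrict m, inter_compl_self,
    Measure.restrict_empty, add_zero]

omit [IsManifold (𝓡 3) ∞ M] [T2Space M] [BorelSpace M] in
theorem vol_ext {μ ν : Measure M}
    (h : ∀ x, μ.restrict (chartAt E3 x).source = ν.restrict (chartAt E3 x).source) : μ = ν := by
  obtain ⟨t, -, ht⟩ := isCompact_univ.elim_nhds_subcover (fun x : M => (chartAt E3 x).source)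
    fun x _ => chart_source_mem_nhds E3 x
  exact Measure.ext_of_biUnion_eq_univ t.countable_toSet (univ_subset_iff.1 ht) fun x _ => h x

theorem SC.vol_restrict {e : OpenPartialHomeomorph M E3} (he : SC e) (g : Met M) :
    (vol g).restrict e.source = chartVol g e := by
  refine vol_ext fun x => ?_
  rw [Measure.restrict_comm (chartAt E3 x).open_source.measurableSet, vol_restrict_chartAt,
    vol_overlap' (sc_chartAt x) he]

theorem vol_apply {e : OpenPartialHomeomorph M E3} (he : SC e) (g : Met M) {s : Set M}
    (hs : MeasurableSet s) (h : s ⊆ e.source) :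
    vol g s = ∫⁻ p in e.target ∩ e.symm ⁻¹' s, ENNReal.ofReal (rho (coef g e) p) := by
  rw [← vol_chart_apply g e hs, ← he.vol_restrict g, Measure.restrict_eq_self _ h]

theorem vol_restrict_sub {e : OpenPartialHomeomorph M E3} (he : SC e) (g : Met M) {S : Set E3}
    (hS : MeasurableSet S) (hSe : S ⊆ e.target) : (vol g).restrict (e.source ∩ e ⁻¹' S) =
      Measure.map e.symm
        ((volume.restrict S).withDensity fun p => ENNReal.ofReal (rho (coef g e) p)) := by
  have m := vol_meas e.continuousOn e.open_source.measurableSet hS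
  ext s hs
  rw [vol_map_apply e hS hSe _ hs, Measure.restrict_apply hs,
    vol_apply he g (hs.inter m) fun _ h => h.2.1]
  refine congrArg (fun t => ∫⁻ p in t, ENNReal.ofReal (rho (coef g e) p)) (Set.ext fun p => ?_)
  constructor
  · rintro ⟨h1, h2, -, h3⟩
    rw [mem_preimage, e.right_inv h1] at h3
    exact ⟨h3, h2⟩
  · rintro ⟨h1, h2⟩
    refine ⟨hSe h1, h2, e.map_target (hSe h1), ?_⟩
    rwa [mem_preimage, e.right_inv (hSe h1)]

omit [T2Space M] [CompactSpace M] [MeasurableSpace M] [BorelSpace M] in
theorem vol_dens_aem {e : OpenPartialHomeomorph M E3} (he : SC e) (g : Met M) {S : Set E3}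
    (hS : MeasurableSet S) (hSe : S ⊆ e.target) :
    AEMeasurable (fun p => ENNReal.ofReal (rho (coef g e) p)) (volume.restrict S) :=
  (((he.good g).smooth_rho.continuousOn.mono hSe).aemeasurable hS).ennreal_ofReal

/- Integration over the part of `M` lying over a measurable subset of a chart. -/
theorem SC.setIntegral_eq {e : OpenPartialHomeomorph M E3} (he : SC e) (g : Met M) {F : M → ℝ}
    (hF : Measurable F) {S : Set E3} (hS : MeasurableSet S) (hSe : S ⊆ e.target) :
    ∫ x in e.source ∩ e ⁻¹' S, F x ∂(vol g) = ∫ p in S, rho (coef g e) p * F (e.symm p) := by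
  rw [vol_restrict_sub he g hS hSe, integral_map (vol_aem e hS hSe _) hF.aestronglyMeasurable,
    integral_withDensity_eq_integral_toReal_smul₀ (vol_dens_aem he g hS hSe)
      (Eventually.of_forall fun _ => ENNReal.ofReal_lt_top)]
  refine integral_congr_ae (Eventually.of_forall fun p => ?_)
  exact congrArg (· * F (e.symm p)) (ENNReal.toReal_ofReal (Real.sqrt_nonneg _))

theorem SC.integral_eq {e : OpenPartialHomeomorph M E3} (he : SC e) (g : Met M) {F : M → ℝ}
    (hF : Measurable F) (h0 : ∀ x, x ∉ e.source → F x = 0) :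
    ∫ x, F x ∂(vol g) = ∫ p in e.target, rho (coef g e) p * F (e.symm p) := by
  rw [← he.setIntegral_eq g hF e.open_target.measurableSet subset_rfl,
    inter_eq_left.2 e.mapsTo.subset_preimage, setIntegral_eq_integral_of_forall_compl_eq_zero h0]

/- Each point has a neighbourhood of finite volume (a small closed ball in a chart, on which the
density is bounded); compactness. -/
instance vol_finite (g : Met M) : IsFiniteMeasure (vol g) := by
  have : IsLocallyFiniteMeasure (vol g) := ⟨fun x => by
    obtain ⟨K, hK, h1, h2⟩ := local_compact_nhds (chart_target_mem_nhds E3 x)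
    refine ⟨(chartAt E3 x).source ∩ chartAt E3 x ⁻¹' K, inter_mem (chart_source_mem_nhds E3 x)
      (((chartAt E3 x).continuousAt (mem_chart_source E3 x)).preimage_mem_nhds hK), ?_⟩
    rw [← Measure.restrict_apply_univ, vol_restrict_sub (sc_chartAt x) g h2.measurableSet h1,
      vol_map_apply _ h2.measurableSet h1 _ MeasurableSet.univ, preimage_univ, inter_univ]
    exact Integrable.lintegral_lt_top
      ((((sc_chartAt x).good g).smooth_rho.continuousOn.mono h1).integrableOn_compact h2)⟩
  exact ⟨isCompact_univ.measure_lt_top⟩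

instance vol_openPos (g : Met M) : (vol g).IsOpenPosMeasure := by
  refine ⟨fun U hU ⟨x, hx⟩ h0 => ?_⟩
  have hV := hU.inter (chartAt E3 x).open_source
  have hW := (chartAt E3 x).continuousOn_symm.isOpen_inter_preimage (chartAt E3 x).open_target hV
  have h1 := measure_mono_null (inter_subset_left (t := (chartAt E3 x).source)) h0
  rw [vol_apply (sc_chartAt x) g hV.measurableSet inter_subset_right, lintegral_eq_zero_iff'
    (vol_dens_aem (sc_chartAt x) g hW.measurableSet inter_subset_left)] at h1
  have h2 : ∀ᵐ p ∂(volume.restrict ((chartAt E3 x).target ∩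
      (chartAt E3 x).symm ⁻¹' (U ∩ (chartAt E3 x).source))), False := by
    filter_upwards [h1, ae_restrict_mem hW.measurableSet] with p h hp
    exact (ENNReal.ofReal_pos.2 (((sc_chartAt x).good g).rho_pos hp.1)).ne' h
  rw [eventually_false_iff_eq_bot, ae_eq_bot, Measure.restrict_eq_zero] at h2
  refine hW.measure_ne_zero volume ⟨chartAt E3 x x, mem_chart_target E3 x, ?_⟩ h2
  rw [mem_preimage, (chartAt E3 x).left_inv (mem_chart_source E3 x)]
  exact ⟨hx, mem_chart_source E3 x⟩

theorem integrable_of_continuous (g : Met M) {F : M → ℝ} (hF : Continuous F) :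
    Integrable F (vol g) :=
  hF.integrable_of_hasCompactSupport (HasCompactSupport.of_compactSpace F)

/- Conformal change: `coef g e p = exp (-2 u) • coef g₀ e p`, so `√det` is multiplied by
`exp (-3 u)`; hence `vol g = (vol g₀).withDensity (exp (-3 u))` (compare the restrictions to the
finitely many chart sources covering `M`). -/
theorem integral_conf {g g₀ : Met M} {u : M → ℝ} (hu : Continuous u)
    (hg : ∀ x v w, g.inner x v w = Real.exp (-2 * u x) * g₀.inner x v w) (F : M → ℝ) :
    ∫ x, F x ∂(vol g) = ∫ x, Real.exp (-3 * u x) * F x ∂(vol g₀) := by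
  have hm : Measurable fun x => ENNReal.ofReal (Real.exp (-3 * u x)) :=
    (Real.continuous_exp.comp (continuous_const.mul hu)).measurable.ennreal_ofReal
  have h1 : vol g = (vol g₀).withDensity fun x => ENNReal.ofReal (Real.exp (-3 * u x)) := by
    refine vol_ext fun x => ?_
    have mt := (chartAt E3 x).open_target.measurableSet
    rw [restrict_withDensity (chartAt E3 x).open_source.measurableSet, vol_restrict_chartAt,
      vol_restrict_chartAt]
    generalize hx : chartAt E3 x = e at mt
    have he : SC e := hx ▸ sc_chartAt x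
    have ha := e.continuousOn_symm.aemeasurable (μ := volume) mt
    ext s hs
    rw [withDensity_apply _ hs, ← lintegral_indicator hs, ← lintegral_indicator_one hs, chartVol,
      chartVol, lintegral_map' (measurable_one.indicator hs).aemeasurable
        (vol_aem e mt subset_rfl _), lintegral_map' (hm.indicator hs).aemeasurable
        (vol_aem e mt subset_rfl _)]
    refine (lintegral_withDensity_eq_lintegral_mul₀ (vol_dens_aem he g mt subset_rfl)
      ((measurable_one.indicator hs).comp_aemeasurable ha)).trans (Eq.trans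
        (lintegral_congr fun p => ?_) (lintegral_withDensity_eq_lintegral_mul₀
          (vol_dens_aem he g₀ mt subset_rfl) ((hm.indicator hs).comp_aemeasurable ha)).symm)
    have h2 : coef g e p = Real.exp (-2 * u (e.symm p)) • coef g₀ e p :=
      Matrix.ext fun i j => hg _ _ _
    have h3 : Real.exp (-2 * u (e.symm p)) ^ 3 =
        Real.exp (-3 * u (e.symm p)) * Real.exp (-3 * u (e.symm p)) := by
      rw [← Real.exp_nat_mul, ← Real.exp_add]
      exact congrArg Real.exp (by push_cast; ring)
    by_cases hp : e.symm p ∈ s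
    · simp only [Pi.mul_apply, Function.comp_apply, indicator_of_mem hp, Pi.one_apply, mul_one]
      rw [rho, rho, h2, det_smul, Fintype.card_fin, h3, Real.sqrt_mul (mul_self_nonneg _),
        Real.sqrt_mul_self (Real.exp_pos _).le, ENNReal.ofReal_mul (Real.exp_pos _).le, mul_comm]
    · simp only [Pi.mul_apply, Function.comp_apply, indicator_of_notMem hp, mul_zero]
  rw [h1, integral_withDensity_eq_integral_toReal_smul₀ hm.aemeasurable
    (Eventually.of_forall fun _ => ENNReal.ofReal_lt_top)]
  refine integral_congr_ae (Eventually.of_forall fun x => ?_)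
  exact congrArg (· * F x) (ENNReal.toReal_ofReal (Real.exp_pos _).le)

end Pool.Agent.Lib.MP_40de08_gt
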