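import Pool.Agent.Lib.MP_40de08_gt.Inv
import Pool.Agent.Lib.MP_40de08_gt.Vol
import Pool.Agent.Lib.MP_40de08_gt.PoincLoc

/-!
The Poincare inequality on a closed connected manifold.
-/

open scoped Manifold ContDiff Topology
open Matrix Filter Set MeasureTheory Metric

namespace Pool.Agent.Lib.MP_40de08_gt

variable {M : Type} [TopologicalSpace M] [ChartedSpace E3 M] [IsManifold (𝓡 3) ∞ M]
  [T2Space M] [CompactSpace M] [MeasurableSpace M] [BorelSpace M]

omit [ChartedSpace E3 M] [IsManifold (𝓡 3) ∞ M] [T2Space M] [MeasurableSpace M] [BorelSpace M] in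
/- Sketch: `S = {x | ∃ N, IsOpen N ∧ x ∈ N ∧ P N}` is open, nonempty and closed; connectedness,
then a finite subcover. -/
theorem spread [ConnectedSpace M] (P : Set M → Prop)
    (hU : ∀ N N', IsOpen N → IsOpen N' → P N → P N' → P (N ∪ N'))
    (h0 : ∃ O, IsOpen O ∧ O.Nonempty ∧ P O)
    (hloc : ∀ z, ∃ B, IsOpen B ∧ z ∈ B ∧ ∀ N, IsOpen N → P N → (N ∩ B).Nonempty → P B) :
    P univ := by
  have hS : IsClopen {x : M | ∃ N, IsOpen N ∧ x ∈ N ∧ P N} := by
    refine ⟨isClosed_of_closure_subset fun z hz => ?_, isOpen_iff_forall_mem_open.mpr ?_⟩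
    · obtain ⟨B, hB, hzB, h⟩ := hloc z
      obtain ⟨x, hxB, N, hN, hxN, hP⟩ := mem_closure_iff.mp hz B hB hzB
      exact ⟨B, hB, hzB, h N hN hP ⟨x, hxN, hxB⟩⟩
    · rintro x ⟨N, hN, hxN, hP⟩
      exact ⟨N, fun y hy => ⟨N, hN, hy, hP⟩, hN, hxN⟩
  obtain ⟨O, hO, ⟨x0, hx0⟩, hPO⟩ := h0
  have hall := hS.eq_univ ⟨x0, O, hO, hx0, hPO⟩
  have key : ∃ N, IsOpen N ∧ univ ⊆ N ∧ P N := by
    refine isCompact_univ.induction_on (p := fun s => ∃ N, IsOpen N ∧ s ⊆ N ∧ P N)
      ⟨O, hO, empty_subset _, hPO⟩ ?_ ?_ ?_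
    · rintro s t hst ⟨N, h1, h2, h3⟩
      exact ⟨N, h1, hst.trans h2, h3⟩
    · rintro s t ⟨N, h1, h2, h3⟩ ⟨N', h4, h5, h6⟩
      exact ⟨N ∪ N', h1.union h4, union_subset_union h2 h5, hU N N' h1 h4 h3 h6⟩
    · intro x _
      have hx : x ∈ {x : M | ∃ N, IsOpen N ∧ x ∈ N ∧ P N} := hall.symm ▸ mem_univ x
      obtain ⟨N, h1, h2, h3⟩ := hx
      exact ⟨N, mem_nhdsWithin_of_mem_nhds (h1.mem_nhds h2), N, h1, subset_rfl, h3⟩
  obtain ⟨N, _, h2, h3⟩ := key
  rwa [univ_subset_iff.mp h2] at h3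

theorem poinc_sum_le {G : Mat} (hG : G.PosDef) (a : Fin 3 → ℝ) :
    ∑ i, a i ^ 2 ≤ (a ⬝ᵥ G⁻¹ *ᵥ a) * G.trace := by
  rw [Matrix.trace, Finset.mul_sum]
  refine Finset.sum_le_sum fun i _ => ?_
  simpa using la_cs hG a (Pi.single i 1)

theorem poinc_local (g : Met M) (z : M) : ∃ B, IsOpen B ∧ z ∈ B ∧ ∃ C : ℝ, 0 ≤ C ∧
    ∀ f : M → ℝ, Sm f →
      ∃ c : ℝ, ∫ x in B, (f x - c) ^ 2 ∂(vol g) ≤ C * ∫ x, Grd g f f x ∂(vol g) := by
  have he : SC (chartAt E3 z) := sc_chartAt z
  have hz : z ∈ (chartAt E3 z).source := mem_chart_source E3 z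
  generalize chartAt E3 z = e at he hz
  have hG := he.good g
  obtain ⟨R, hR, hRe⟩ := nhds_basis_closedBall.mem_iff.mp (e.open_target.mem_nhds (e.map_source hz))
  obtain ⟨C, hC, hP⟩ := poincare_ball (e z) hR
  have hK : IsCompact (closedBall (e z) R) := isCompact_closedBall _ _
  have hrho : ContinuousOn (rho (coef g e)) (closedBall (e z) R) :=
    hG.smooth_rho.continuousOn.mono hRe
  have htr : ContinuousOn (fun p => (coef g e p).trace / rho (coef g e) p) (closedBall (e z) R) :=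
    ((smooth_trace hG.smooth).continuousOn.mono hRe).div hrho fun p hp => (hG.rho_pos (hRe hp)).ne'
  obtain ⟨A1, hA1⟩ := hK.exists_bound_of_continuousOn hrho
  obtain ⟨A2, hA2⟩ := hK.exists_bound_of_continuousOn htr
  have hz0 : e z ∈ closedBall (e z) R := mem_closedBall_self hR.le
  have hA10 : 0 ≤ A1 := (norm_nonneg _).trans (hA1 _ hz0)
  have hA20 : 0 ≤ A2 := (norm_nonneg _).trans (hA2 _ hz0)
  have hball : ball (e z) R ⊆ e.target := ball_subset_closedBall.trans hRe
  refine ⟨e.source ∩ e ⁻¹' ball (e z) R, e.isOpen_inter_preimage isOpen_ball,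
    ⟨hz, mem_ball_self hR⟩, A1 * (C * A2), by positivity, fun f hf => ?_⟩
  have hfl := he.smooth_loc hf
  obtain ⟨c, hc⟩ := hP (f ∘ e.symm) e.target e.open_target hRe hfl
  refine ⟨c, ?_⟩
  have hint : ∀ {φ : E3 → ℝ}, ContinuousOn φ (closedBall (e z) R) →
      IntegrableOn φ (ball (e z) R) := fun h =>
    (h.integrableOn_compact hK).mono_set ball_subset_closedBall
  have c1 : ContinuousOn (fun p => ((f ∘ e.symm) p - c) ^ 2) (closedBall (e z) R) :=
    ((hfl.continuousOn.mono hRe).sub continuousOn_const).pow 2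
  have c2 : ContinuousOn (fun p => ∑ i, pd i (f ∘ e.symm) p ^ 2) (closedBall (e z) R) :=
    continuousOn_finsetSum _ fun i _ =>
      ((contDiffOn_pd e.open_target hfl i).continuousOn.mono hRe).pow 2
  have hgc : Continuous (Grd g f f) := (sm_grd g hf hf).continuous
  have c3 : ContinuousOn (fun p => rho (coef g e) p * Grd g f f (e.symm p))
      (closedBall (e z) R) :=
    hrho.mul (hgc.comp_continuousOn (e.continuousOn_symm.mono hRe))
  have h1 : ∫ p in ball (e z) R, rho (coef g e) p * (f (e.symm p) - c) ^ 2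
      ≤ A1 * ∫ p in ball (e z) R, ((f ∘ e.symm) p - c) ^ 2 := by
    rw [← integral_const_mul]
    refine setIntegral_mono_on (hint (hrho.mul c1)) (hint (continuousOn_const.mul c1))
      measurableSet_ball fun p hp => ?_
    exact mul_le_mul_of_nonneg_right
      ((le_abs_self _).trans (hA1 p (ball_subset_closedBall hp))) (sq_nonneg _)
  have h2 : ∫ p in ball (e z) R, ∑ i, pd i (f ∘ e.symm) p ^ 2
      ≤ A2 * ∫ p in ball (e z) R, rho (coef g e) p * Grd g f f (e.symm p) := by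
    rw [← integral_const_mul]
    refine setIntegral_mono_on (hint c2) (hint (continuousOn_const.mul c3))
      measurableSet_ball fun p hp => ?_
    have hp' := hball hp
    have a1 := poinc_sum_le (hG.pos p hp') (dv (f ∘ e.symm) p)
    have a2 : Grd g f f (e.symm p) = grd (coef g e) (f ∘ e.symm) (f ∘ e.symm) p := by
      rw [he.grd_eq g hf hf (e.map_target hp'), e.right_inv hp']
    have a3 := grd_self_nonneg g f (e.symm p)
    have a4 := hG.rho_pos hp'
    have a5 : (coef g e p).trace ≤ A2 * rho (coef g e) p :=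
      (div_le_iff₀ a4).mp ((le_abs_self _).trans (hA2 p (ball_subset_closedBall hp)))
    calc ∑ i, pd i (f ∘ e.symm) p ^ 2 ≤ Grd g f f (e.symm p) * (coef g e p).trace := by
          rw [a2]; exact a1
      _ ≤ Grd g f f (e.symm p) * (A2 * rho (coef g e) p) := mul_le_mul_of_nonneg_left a5 a3
      _ = _ := by ring
  have h3 : ∫ p in ball (e z) R, rho (coef g e) p * Grd g f f (e.symm p)
      ≤ ∫ x, Grd g f f x ∂(vol g) := by
    rw [← he.setIntegral_eq g hgc.measurable measurableSet_ball hball]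
    exact setIntegral_le_integral (integrable_of_continuous g hgc)
      (Eventually.of_forall (grd_self_nonneg g f))
  have hm : Measurable fun x => (f x - c) ^ 2 :=
    ((hf.continuous.sub continuous_const).pow 2).measurable
  rw [he.setIntegral_eq g hm measurableSet_ball hball]
  calc _ ≤ A1 * ∫ p in ball (e z) R, ((f ∘ e.symm) p - c) ^ 2 := h1
    _ ≤ A1 * (C * (A2 * ∫ x, Grd g f f x ∂(vol g))) :=
      mul_le_mul_of_nonneg_left (hc.trans (mul_le_mul_of_nonneg_left
        (h2.trans (mul_le_mul_of_nonneg_left h3 hA20)) hC)) hA10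
    _ = _ := by ring

/- Sketch. Local statement: each `z` has an open neighbourhood `B` (over a small ball in a
normalised chart, on whose closure `1/2 ≤ rho ≤ 2` and `grd G f f ≥ (1/2) ∑ (∂_i f)²`) and `C` with:
for all smooth `f` there is `c` with `∫_B (f - c)² ≤ C ∫_M Grd g f f` (`poincare_ball`,
`SC.setIntegral_eq`, `SC.grd_eq`, `grd_self_nonneg`). Choose `c f` for a base point and apply
`spread` to `P N := ∃ C ≥ 0, ∀ f smooth, ∫_N (f - c f)² ≤ C ∫_M Grd g f f`: if `P N` and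
`O = N ∩ B` is nonempty then `vol O * (c - c')² ≤ 2 ∫_N (f - c)² + 2 ∫_B (f - c')²`, `vol O > 0`. -/
theorem poincare [ConnectedSpace M] (g : Met M) : ∃ C : ℝ, 0 ≤ C ∧ ∀ f : M → ℝ, Sm f →
    ∃ c : ℝ, ∫ x, (f x - c) ^ 2 ∂(vol g) ≤ C * ∫ x, Grd g f f x ∂(vol g) := by
  obtain ⟨z0⟩ : Nonempty M := inferInstance
  obtain ⟨B0, hB0, hz0, C0, hC0, h0⟩ := poinc_local g z0
  choose! c0 hc0 using h0
  have hint : ∀ {f : M → ℝ}, Sm f → ∀ c : ℝ, Integrable (fun x => (f x - c) ^ 2) (vol g) :=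
    fun hf c => integrable_of_continuous g ((hf.continuous.sub continuous_const).pow 2)
  have key := spread (fun N : Set M => ∃ C : ℝ, 0 ≤ C ∧ ∀ f : M → ℝ, Sm f →
    ∫ x in N, (f x - c0 f) ^ 2 ∂(vol g) ≤ C * ∫ x, Grd g f f x ∂(vol g)) ?_
    ⟨B0, hB0, ⟨z0, hz0⟩, C0, hC0, hc0⟩ ?_
  · obtain ⟨C, hC, h⟩ := key
    refine ⟨C, hC, fun f hf => ⟨c0 f, ?_⟩⟩
    have := h f hf
    rwa [Measure.restrict_univ] at this
  · rintro N N' _ _ ⟨C, hC, h⟩ ⟨C', hC', h'⟩
    refine ⟨C + C', add_nonneg hC hC', fun f hf => ?_⟩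
    have i1 := (hint hf (c0 f)).restrict (s := N)
    have i2 := (hint hf (c0 f)).restrict (s := N')
    have a1 := integral_mono_measure (Measure.restrict_union_le (μ := vol g) N N')
      (Eventually.of_forall fun x => sq_nonneg (f x - c0 f)) (i1.add_measure i2)
    rw [integral_add_measure i1 i2] at a1
    have a2 := h f hf
    have a3 := h' f hf
    linarith
  · intro z
    obtain ⟨B, hB, hz, C2, hC2, h2⟩ := poinc_local g z
    refine ⟨B, hB, hz, ?_⟩
    rintro N hN ⟨C1, hC1, h1⟩ hne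
    have hv : 0 < (vol g).real (N ∩ B) :=
      ENNReal.toReal_pos ((hN.inter hB).measure_pos _ hne).ne' (measure_ne_top _ _)
    have hvB : 0 ≤ (vol g).real B := measureReal_nonneg
    refine ⟨2 * C2 + 2 * ((vol g).real B * ((2 * C1 + 2 * C2) / (vol g).real (N ∩ B))),
      by positivity, fun f hf => ?_⟩
    obtain ⟨c, hc⟩ := h2 f hf
    have a1 := h1 f hf
    have i1 := hint hf (c0 f)
    have i2 := hint hf c
    have b1 : (vol g).real (N ∩ B) * (c0 f - c) ^ 2
        ≤ 2 * ∫ x in N ∩ B, (f x - c0 f) ^ 2 ∂(vol g) + 2 * ∫ x in N ∩ B, (f x - c) ^ 2 ∂(vol g) := by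
      rw [← integral_const_mul, ← integral_const_mul, ← integral_add (i1.restrict.const_mul 2)
        (i2.restrict.const_mul 2), ← smul_eq_mul, ← setIntegral_const]
      refine integral_mono (integrable_const _)
        ((i1.restrict.const_mul 2).add (i2.restrict.const_mul 2)) fun x => ?_
      show (c0 f - c) ^ 2 ≤ 2 * (f x - c0 f) ^ 2 + 2 * (f x - c) ^ 2
      nlinarith [sq_nonneg (f x - c0 f + (f x - c))]
    have b2 : ∫ x in N ∩ B, (f x - c0 f) ^ 2 ∂(vol g) ≤ ∫ x in N, (f x - c0 f) ^ 2 ∂(vol g) :=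
      setIntegral_mono_set i1.restrict (Eventually.of_forall fun x => sq_nonneg _)
        inter_subset_left.eventuallyLE
    have b3 : ∫ x in N ∩ B, (f x - c) ^ 2 ∂(vol g) ≤ ∫ x in B, (f x - c) ^ 2 ∂(vol g) :=
      setIntegral_mono_set i2.restrict (Eventually.of_forall fun x => sq_nonneg _)
        inter_subset_right.eventuallyLE
    have b4 : ∫ x in B, (f x - c0 f) ^ 2 ∂(vol g)
        ≤ 2 * ∫ x in B, (f x - c) ^ 2 ∂(vol g) + 2 * ((vol g).real B * (c0 f - c) ^ 2) := by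
      rw [← smul_eq_mul ((vol g).real B), ← setIntegral_const, ← integral_const_mul,
        ← integral_const_mul, ← integral_add (i2.restrict.const_mul 2)
        ((integrable_const _).const_mul 2)]
      refine integral_mono i1.restrict
        ((i2.restrict.const_mul 2).add ((integrable_const _).const_mul 2)) fun x => ?_
      show (f x - c0 f) ^ 2 ≤ 2 * (f x - c) ^ 2 + 2 * (c0 f - c) ^ 2
      nlinarith [sq_nonneg (f x - c + (c0 f - c))]
    have b5 : (c0 f - c) ^ 2
        ≤ (2 * C1 + 2 * C2) / (vol g).real (N ∩ B) * ∫ x, Grd g f f x ∂(vol g) := by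
      rw [div_mul_eq_mul_div, le_div_iff₀ hv]
      nlinarith
    have b6 := mul_le_mul_of_nonneg_left b5 hvB
    nlinarith

end Pool.Agent.Lib.MP_40de08_gt
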