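import Pool.Agent.Lib.MP_40de08_gt.Glob
import Pool.Agent.Lib.MP_40de08_gt.Poinc
import Pool.Agent.Lib.MP_40de08_gt.BumpLoc

/-!
Nonnegative supersolutions: the total integral is controlled by the integral over any fixed open set.
-/

open scoped Manifold ContDiff Topology
open Matrix Filter Set MeasureTheory Metric

namespace Pool.Agent.Lib.MP_40de08_gt

variable {M : Type} [TopologicalSpace M] [ChartedSpace E3 M] [IsManifold (𝓡 3) ∞ M]
  [T2Space M] [CompactSpace M] [MeasurableSpace M] [BorelSpace M]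

theorem bumpg_loc (g : Met M) {c : M → ℝ} (hc : Continuous c) (z : M) :
    ∃ B, IsOpen B ∧ z ∈ B ∧ ∀ N, IsOpen N → (N ∩ B).Nonempty → ∃ K : ℝ, 0 ≤ K ∧
      ∀ w : M → ℝ, Sm w → (∀ x, 0 ≤ w x) → (∀ x, Lap g w x ≤ c x * w x) →
        ∫ x in B, w x ∂(vol g) ≤ K * ∫ x in N, w x ∂(vol g) := by
  obtain ⟨e, he, hz, h1⟩ := exists_norm_chart g z
  obtain ⟨R, hR, hRU, H⟩ := bump_loc (he.good g) (e.map_source hz) h1 (c ∘ e.symm)
    (hc.comp_continuousOn e.continuousOn_symm)
  have hBo : IsOpen (e.source ∩ e ⁻¹' ball (e z) R) := e.isOpen_inter_preimage isOpen_ball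
  refine ⟨e.source ∩ e ⁻¹' ball (e z) R, hBo, ⟨hz, mem_ball_self hR⟩, ?_⟩
  rintro N hN ⟨y, hyN, hys, hyb⟩
  obtain ⟨r, hr, hrN⟩ := Metric.isOpen_iff.1 (e.symm.isOpen_inter_preimage hN) (e y)
    ⟨e.map_source hys, by simpa [e.left_inv hys] using hyN⟩
  have hB'o : IsOpen (e.source ∩ e ⁻¹' ball (e y) r) := e.isOpen_inter_preimage isOpen_ball
  have hB'N : e.source ∩ e ⁻¹' ball (e y) r ⊆ N := by
    rintro x ⟨hx, hxb⟩
    simpa [e.left_inv hx] using (hrN hxb).2
  obtain ⟨ψ, c₀, K, hc₀, hK, hψ, hψ0, hψs, hψl⟩ := H (e y) hyb r hr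
  set B := e.source ∩ e ⁻¹' ball (e z) R with hB
  set B' := e.source ∩ e ⁻¹' ball (e y) r with hB'
  set Ψ : M → ℝ := e.source.indicator (ψ ∘ e) with hΨ
  have hΨs : Sm Ψ := he.sm_ext hψ.contDiffOn (isCompact_closedBall _ _) hRU
    fun p _ hp => hψs p hp
  have hΨ0 : ∀ x, 0 ≤ Ψ x := fun x => indicator_nonneg (fun x _ => hψ0 (e x)) x
  have hpt : ∀ x, B.indicator (fun _ => c₀) x - B'.indicator (fun _ => K) x ≤
      Lap g Ψ x - c x * Ψ x := by
    intro x
    by_cases hx : x ∈ e.source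
    · have e1 : Ψ ∘ e.symm =ᶠ[𝓝 (e x)] ψ := by
        filter_upwards [e.open_target.mem_nhds (e.map_source hx)] with p hp
        simp only [Function.comp, hΨ, indicator_of_mem (e.map_target hp), e.right_inv hp]
      have e2 : Lap g Ψ x = lap (coef g e) ψ (e x) := by
        rw [he.lap_eq g hΨs hx]
        unfold lap
        rw [hes_congr _ e1]
      have e3 : B.indicator (fun _ => c₀) x = (ball (e z) R).indicator (fun _ => c₀) (e x) := by
        by_cases h : e x ∈ ball (e z) R
        · rw [indicator_of_mem h, indicator_of_mem (show x ∈ B from ⟨hx, h⟩)]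
        · rw [indicator_of_notMem h, indicator_of_notMem (fun h' : x ∈ B => h h'.2)]
      have e4 : B'.indicator (fun _ => K) x = (ball (e y) r).indicator (fun _ => K) (e x) := by
        by_cases h : e x ∈ ball (e y) r
        · rw [indicator_of_mem h, indicator_of_mem (show x ∈ B' from ⟨hx, h⟩)]
        · rw [indicator_of_notMem h, indicator_of_notMem (fun h' : x ∈ B' => h h'.2)]
      have e5 : Ψ x = ψ (e x) := by simp only [hΨ, indicator_of_mem hx, Function.comp]
      have := hψl (e x) (e.map_source hx)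
      rw [e2, e3, e4, e5]
      simpa only [Function.comp, e.left_inv hx] using this
    · have hC : IsClosed (e.symm '' closedBall (e z) (4 * R)) :=
        ((isCompact_closedBall _ _).image_of_continuousOn
          (e.continuousOn_symm.mono hRU)).isClosed
      have hxC : x ∈ (e.symm '' closedBall (e z) (4 * R))ᶜ := by
        rintro ⟨p, hp, rfl⟩
        exact hx (e.map_target (hRU hp))
      have e1 : Ψ =ᶠ[𝓝 x] fun _ => 0 := by
        filter_upwards [hC.isOpen_compl.mem_nhds hxC] with x' hx'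
        by_cases h : x' ∈ e.source
        · simp only [hΨ, indicator_of_mem h, Function.comp]
          exact hψs _ fun hb => hx' ⟨e x', hb, e.left_inv h⟩
        · exact indicator_of_notMem h _
      rw [(vanish g Ψ e1).1, e1.eq_of_nhds, indicator_of_notMem (fun h' : x ∈ B => hx h'.1),
        indicator_of_notMem (fun h' : x ∈ B' => hx h'.1)]
      simp
  refine ⟨K / c₀, by positivity, fun w hw hw0 hwl => ?_⟩
  have hwc := hw.continuous
  have hwi := integrable_of_continuous g hwc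
  have i1 : Integrable (fun x => w x * Lap g Ψ x) (vol g) :=
    integrable_of_continuous g (hwc.mul (sm_lap g hΨs).continuous)
  have i2 : Integrable (fun x => Ψ x * Lap g w x) (vol g) :=
    integrable_of_continuous g (hΨs.continuous.mul (sm_lap g hw).continuous)
  have i3 : Integrable (fun x => Ψ x * (c x * w x)) (vol g) :=
    integrable_of_continuous g (hΨs.continuous.mul (hc.mul hwc))
  have i4 : Integrable (B.indicator fun x => c₀ * w x) (vol g) :=
    (hwi.const_mul c₀).indicator hBo.measurableSet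
  have i5 : Integrable (B'.indicator fun x => K * w x) (vol g) :=
    (hwi.const_mul K).indicator hB'o.measurableSet
  have a1 : ∫ x, Ψ x * Lap g w x ∂(vol g) ≤ ∫ x, Ψ x * (c x * w x) ∂(vol g) :=
    integral_mono i2 i3 fun x => mul_le_mul_of_nonneg_left (hwl x) (hΨ0 x)
  have a2 : ∫ x, (B.indicator (fun x => c₀ * w x) x - B'.indicator (fun x => K * w x) x) ∂(vol g)
      ≤ ∫ x, (w x * Lap g Ψ x - Ψ x * (c x * w x)) ∂(vol g) := by
    refine integral_mono (i4.sub i5) (i1.sub i3) fun x => ?_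
    have := mul_le_mul_of_nonneg_right (hpt x) (hw0 x)
    simp only [indicator_mul_left]
    linarith
  rw [integral_sub i4 i5, integral_sub i1 i3, integral_indicator hBo.measurableSet,
    integral_indicator hB'o.measurableSet, integral_const_mul, integral_const_mul,
    int_lap_symm g hw hΨs] at a2
  have a3 : ∫ x in B', w x ∂(vol g) ≤ ∫ x in N, w x ∂(vol g) :=
    setIntegral_mono_set hwi.integrableOn (Eventually.of_forall hw0) hB'N.eventuallyLE
  rw [div_mul_eq_mul_div, le_div_iff₀ hc₀]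
  have := mul_le_mul_of_nonneg_left a3 hK
  linarith

/- Sketch. Call `w` admissible if it is smooth, `0 ≤ w` and `Lap g w ≤ c w`. Apply `spread` to
`P N := ∃ K ≥ 0, ∀ admissible w, ∫_N w ≤ K ∫_O w`. For `z` take a normalised chart `e`, `R` from
`bump_loc` (for `c ∘ e.symm`), `B = e.source ∩ e ⁻¹' ball (e z) R`. If `P N` and `N ∩ B` is nonempty,
it contains `B' = e.source ∩ e ⁻¹' ball z' r` for some `z' ∈ ball (e z) R`, `r > 0`. With `ψ` from
`bump_loc` and `Ψ = e.source.indicator (ψ ∘ e)` (`SC.sm_ext`), `int_lap_symm` gives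
`0 ≥ ∫ Ψ (Lap w - c w) = ∫ w (Lap Ψ - c Ψ) ≥ c₀ ∫_B w - K ∫_{B'} w`; the pointwise bound
`c₀ 1_B - K 1_{B'} ≤ Lap Ψ - c Ψ` holds on `e.source` by `SC.lap_eq` (and `hes_congr`), and off
`e.source` since `Ψ` vanishes near such points (`vanish`). -/
theorem bump_glob [ConnectedSpace M] (g : Met M) {c : M → ℝ} (hc : Continuous c) {O : Set M}
    (hO : IsOpen O) (hne : O.Nonempty) :
    ∃ K : ℝ, 0 ≤ K ∧ ∀ w : M → ℝ, Sm w → (∀ x, 0 ≤ w x) → (∀ x, Lap g w x ≤ c x * w x) →
      ∫ x, w x ∂(vol g) ≤ K * ∫ x in O, w x ∂(vol g) := by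
  have key := spread (M := M) (fun N => ∃ K : ℝ, 0 ≤ K ∧ ∀ w : M → ℝ, Sm w → (∀ x, 0 ≤ w x) →
    (∀ x, Lap g w x ≤ c x * w x) → ∫ x in N, w x ∂(vol g) ≤ K * ∫ x in O, w x ∂(vol g)) ?_
    ⟨O, hO, hne, 1, zero_le_one, fun w _ _ _ => by rw [one_mul]⟩ ?_
  · simpa only [Measure.restrict_univ] using key
  · rintro N N' hN hN' ⟨K, hK, h⟩ ⟨K', hK', h'⟩
    refine ⟨K + K', by positivity, fun w hw hw0 hwl => ?_⟩
    have hwi := integrable_of_continuous g hw.continuous
    have a1 : ∫ x in N ∪ N', w x ∂(vol g) =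
        ∫ x in N, w x ∂(vol g) + ∫ x in N' \ N, w x ∂(vol g) := by
      rw [← setIntegral_union disjoint_sdiff_right (hN'.measurableSet.diff hN.measurableSet)
        hwi.integrableOn hwi.integrableOn, union_sdiff_self]
    have a2 : ∫ x in N' \ N, w x ∂(vol g) ≤ ∫ x in N', w x ∂(vol g) :=
      setIntegral_mono_set hwi.integrableOn (Eventually.of_forall hw0) sdiff_subset.eventuallyLE
    have := h w hw hw0 hwl
    have := h' w hw hw0 hwl
    rw [a1, add_mul]
    linarith
  · intro z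
    obtain ⟨B, hB, hz, H⟩ := bumpg_loc g hc z
    refine ⟨B, hB, hz, ?_⟩
    rintro N hN ⟨K, hK, h⟩ hNB
    obtain ⟨K', hK', h'⟩ := H N hN hNB
    refine ⟨K' * K, by positivity, fun w hw hw0 hwl => ?_⟩
    rw [mul_assoc]
    exact (h' w hw hw0 hwl).trans (mul_le_mul_of_nonneg_left (h w hw hw0 hwl) hK')

end Pool.Agent.Lib.MP_40de08_gt
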