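import Pool.Agent.Lib.MP_40de08_gt.Defs

/-!
Linear algebra of 3 by 3 matrices.
-/

open Matrix

namespace Pool.Agent.Lib.MP_40de08_gt

open scoped MatrixOrder in
/- A positive definite matrix is `Bᵀ B` with `B` invertible. -/
theorem la_sqrt {G : Mat} (hG : G.PosDef) : ∃ B : Mat, IsUnit B.det ∧ G = Bᵀ * B := by
  obtain ⟨B, hB⟩ := CStarAlgebra.nonneg_iff_eq_star_mul_self.mp hG.posSemidef.nonneg
  have hB' : G = Bᵀ * B := by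
    rw [hB, star_eq_conjTranspose, conjTranspose_eq_transpose_of_trivial]
  refine ⟨B, isUnit_iff_ne_zero.2 fun h => ?_, hB'⟩
  have := hG.det_pos
  rw [hB', det_mul, h, mul_zero] at this
  exact lt_irrefl _ this

theorem linalg_red {G S : Mat} (hG : G.PosDef) (hS : S.IsSymm) : ∃ B T : Mat, T.IsSymm ∧
    G = Bᵀ * B ∧ S = Bᵀ * T * B ∧ (G⁻¹ * S).trace = T.trace ∧
    (G⁻¹ * S * (G⁻¹ * S)).trace = (T * T).trace := by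
  obtain ⟨B, hB, rfl⟩ := la_sqrt hG
  have hBt : IsUnit Bᵀ.det := by rwa [det_transpose]
  have h1 : (Bᵀ * B)⁻¹ * S = B⁻¹ * (Bᵀ⁻¹ * S * B⁻¹) * B := by
    rw [Matrix.mul_inv_rev]
    simp only [Matrix.mul_assoc, nonsing_inv_mul B hB, Matrix.mul_one]
  refine ⟨B, Bᵀ⁻¹ * S * B⁻¹, ?_, rfl, ?_, ?_, ?_⟩
  · unfold Matrix.IsSymm
    rw [transpose_mul, transpose_mul, hS.eq, transpose_nonsing_inv, transpose_nonsing_inv,
      transpose_transpose, Matrix.mul_assoc]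
  · simp only [Matrix.mul_assoc, nonsing_inv_mul B hB, Matrix.mul_one]
    rw [← Matrix.mul_assoc, mul_nonsing_inv _ hBt, Matrix.one_mul]
  · rw [h1, trace_mul_cycle, mul_nonsing_inv B hB, Matrix.one_mul]
  · rw [h1]
    generalize Bᵀ⁻¹ * S * B⁻¹ = T
    have : B⁻¹ * T * B * (B⁻¹ * T * B) = B⁻¹ * (T * T) * B := by
      simp only [Matrix.mul_assoc]
      rw [← Matrix.mul_assoc B B⁻¹, mul_nonsing_inv B hB, Matrix.one_mul]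
    rw [this, trace_mul_cycle, mul_nonsing_inv B hB, Matrix.one_mul]

theorem linalg_quad (B T : Mat) (ξ : Fin 3 → ℝ) :
    ξ ⬝ᵥ (Bᵀ * T * B) *ᵥ ξ = (B *ᵥ ξ) ⬝ᵥ T *ᵥ (B *ᵥ ξ) := by
  rw [← mulVec_mulVec, ← mulVec_mulVec, dotProduct_mulVec, vecMul_transpose]

theorem linalg_quad' (B : Mat) (ξ : Fin 3 → ℝ) :
    ξ ⬝ᵥ (Bᵀ * B) *ᵥ ξ = (B *ᵥ ξ) ⬝ᵥ (B *ᵥ ξ) := by
  rw [← mulVec_mulVec, dotProduct_mulVec, vecMul_transpose]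

theorem linalg_poly (a b c d e f x y z : ℝ) (h1 : 0 ≤ a + b + c)
    (h2 : a ^ 2 + b ^ 2 + c ^ 2 + 2 * (d ^ 2 + e ^ 2 + f ^ 2) ≤ (a + b + c) ^ 2) :
    0 ≤ (a + b + c) * (x ^ 2 + y ^ 2 + z ^ 2) +
      3 * (a * x ^ 2 + b * y ^ 2 + c * z ^ 2 + 2 * (d * x * y + e * x * z + f * y * z)) := by
  obtain ⟨n, hn⟩ : ∃ n, n = x ^ 2 + y ^ 2 + z ^ 2 := ⟨_, rfl⟩
  obtain ⟨L, hL⟩ : ∃ L, L =
    a * x ^ 2 + b * y ^ 2 + c * z ^ 2 + 2 * (d * x * y + e * x * z + f * y * z) := ⟨_, rfl⟩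
  obtain ⟨σ, hσ⟩ : ∃ σ, σ = a + b + c := ⟨_, rfl⟩
  obtain ⟨t, ht⟩ : ∃ t, t = a ^ 2 + b ^ 2 + c ^ 2 + 2 * (d ^ 2 + e ^ 2 + f ^ 2) := ⟨_, rfl⟩
  have key : 2 * n ^ 2 * (2 * n ^ 2 * t - 2 * L ^ 2 - (σ * n - L) ^ 2) =
      (2 * n ^ 2 * a - (3 * L - σ * n) * x ^ 2 - n * (σ * n - L)) ^ 2 +
      (2 * n ^ 2 * b - (3 * L - σ * n) * y ^ 2 - n * (σ * n - L)) ^ 2 +
      (2 * n ^ 2 * c - (3 * L - σ * n) * z ^ 2 - n * (σ * n - L)) ^ 2 +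
      2 * ((2 * n ^ 2 * d - (3 * L - σ * n) * (x * y)) ^ 2 +
        (2 * n ^ 2 * e - (3 * L - σ * n) * (x * z)) ^ 2 +
        (2 * n ^ 2 * f - (3 * L - σ * n) * (y * z)) ^ 2) := by
    rw [hn, hL, hσ, ht]
    ring
  rw [← ht, ← hσ] at h2
  rw [← hσ] at h1
  rw [← hn, ← hL, ← hσ]
  have hn0 : 0 ≤ n := by rw [hn]; positivity
  rcases hn0.eq_or_lt with h0 | h0
  · have hs : x ^ 2 + y ^ 2 + z ^ 2 = 0 := hn.symm.trans h0.symm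
    have hx : x = 0 := pow_eq_zero_iff two_ne_zero |>.1
      (by linarith only [hs, sq_nonneg x, sq_nonneg y, sq_nonneg z])
    have hy : y = 0 := pow_eq_zero_iff two_ne_zero |>.1
      (by linarith only [hs, sq_nonneg x, sq_nonneg y, sq_nonneg z])
    have hz : z = 0 := pow_eq_zero_iff two_ne_zero |>.1
      (by linarith only [hs, sq_nonneg x, sq_nonneg y, sq_nonneg z])
    rw [← h0, hL, hx, hy, hz]
    simp
  · have h3 : 0 ≤ 2 * n ^ 2 * t - 2 * L ^ 2 - (σ * n - L) ^ 2 := by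
      refine le_of_mul_le_mul_left ?_ (show 0 < 2 * n ^ 2 by positivity)
      rw [key, mul_zero]
      positivity
    have h4 : n ^ 2 * t ≤ n ^ 2 * σ ^ 2 := mul_le_mul_of_nonneg_left h2 (by positivity)
    have h5 : 0 ≤ σ * n := by positivity
    have h6 : 0 ≤ (σ * n + 3 * L) * (σ * n - L) := by linarith only [h3, h4]
    by_contra hneg
    have h7 : σ * n + 3 * L < 0 := not_le.1 hneg
    have h8 : 0 < σ * n - L := by linarith only [h5, h7]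
    exact absurd h6 (not_le.2 (mul_neg_of_neg_of_pos h7 h8))

/- Sketch: with `G = Bᵀ B`, `G⁻¹ S` is conjugate to the symmetric matrix `T = B⁻¹ᵀ S B⁻¹`, so both
traces are those of `T`; then `(T₀₀ + T₁₁ + T₂₂)² ≤ 3 ∑ T_ii² ≤ 3 ∑ T_ij²`. -/
theorem la_trace_sq {G S : Mat} (hG : G.PosDef) (hS : S.IsSymm) :
    (G⁻¹ * S).trace ^ 2 ≤ 3 * (G⁻¹ * S * (G⁻¹ * S)).trace := by
  obtain ⟨B, T, hT, -, -, h1, h2⟩ := linalg_red hG hS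
  rw [h1, h2]
  simp only [trace_fin_three, mul_apply, Fin.sum_univ_three, hT.apply 0 1, hT.apply 0 2,
    hT.apply 1 2]
  nlinarith [sq_nonneg (T 0 0 - T 1 1), sq_nonneg (T 0 0 - T 2 2), sq_nonneg (T 1 1 - T 2 2),
    sq_nonneg (T 0 1), sq_nonneg (T 0 2), sq_nonneg (T 1 2)]

/- Sketch: reduce to `G = 1`, `S = T` symmetric as above (`η = B ξ`). For a unit vector `η` put
`l = η ⬝ᵥ T η`, `σ = tr T`. Either diagonalise `T` (spectral theorem; for eigenvalues with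
`σ₁ ≥ 0`, `σ₂ ≥ 0` one has `σ₁ + 3 λ_i ≥ 0`), or directly: `tr T² ≥ l² + (σ - l)² / 2` (apply
`∑ X_ij² ≥ 0` to `X = T - a η ηᵀ - b 1` with suitable `a, b`), so `l² + (σ - l)² / 2 ≤ σ²`, that is
`(σ + 3 l) (σ - l) ≥ 0`, which with `σ ≥ 0` gives `σ + 3 l ≥ 0`. -/
theorem la_cone {G S : Mat} (hG : G.PosDef) (hS : S.IsSymm) (h1 : 0 ≤ (G⁻¹ * S).trace)
    (h2 : (G⁻¹ * S * (G⁻¹ * S)).trace ≤ (G⁻¹ * S).trace ^ 2) (ξ : Fin 3 → ℝ) :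
    0 ≤ (G⁻¹ * S).trace * (ξ ⬝ᵥ G *ᵥ ξ) + 3 * (ξ ⬝ᵥ S *ᵥ ξ) := by
  obtain ⟨B, T, hT, e1, e2, e3, e4⟩ := linalg_red hG hS
  rw [e3] at h1
  rw [e3, e4] at h2
  rw [e3, e1, e2, linalg_quad, linalg_quad']
  generalize B *ᵥ ξ = η
  simp only [trace_fin_three, mul_apply, Fin.sum_univ_three, hT.apply 0 1, hT.apply 0 2,
    hT.apply 1 2, dotProduct, mulVec] at h1 h2 ⊢
  have := linalg_poly (T 0 0) (T 1 1) (T 2 2) (T 0 1) (T 0 2) (T 1 2) (η 0) (η 1) (η 2) h1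
    (by linarith)
  linarith

/- Cauchy-Schwarz between a covector and a vector. -/
theorem la_cs {G : Mat} (hG : G.PosDef) (a ξ : Fin 3 → ℝ) :
    (a ⬝ᵥ ξ) ^ 2 ≤ (a ⬝ᵥ G⁻¹ *ᵥ a) * (ξ ⬝ᵥ G *ᵥ ξ) := by
  obtain ⟨B, hB, rfl⟩ := la_sqrt hG
  have h1 : (Bᵀ * B)⁻¹ = (B⁻¹ᵀ)ᵀ * B⁻¹ᵀ := by
    rw [Matrix.mul_inv_rev, transpose_transpose, transpose_nonsing_inv]
  have h2 : a ⬝ᵥ ξ = (B⁻¹ᵀ *ᵥ a) ⬝ᵥ (B *ᵥ ξ) := by
    rw [mulVec_transpose, ← dotProduct_mulVec, mulVec_mulVec, nonsing_inv_mul B hB, one_mulVec]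
  rw [h1, linalg_quad', linalg_quad', h2]
  generalize B⁻¹ᵀ *ᵥ a = v
  generalize B *ᵥ ξ = w
  simp only [dotProduct, Fin.sum_univ_three]
  nlinarith [sq_nonneg (v 0 * w 1 - v 1 * w 0), sq_nonneg (v 0 * w 2 - v 2 * w 0),
    sq_nonneg (v 1 * w 2 - v 2 * w 1)]

end Pool.Agent.Lib.MP_40de08_gt
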