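import Pool.Agent.Lib.MP_40de08_gt.Ident
import Pool.Agent.Lib.MP_40de08_gt.LinAlg

/-!
Smooth charts, metric coefficients in them, cut-off functions.
-/

open scoped Manifold ContDiff Topology
open Matrix Filter Set

namespace Pool.Agent.Lib.MP_40de08_gt

variable {M : Type} [TopologicalSpace M] [ChartedSpace E3 M]

/-- Smooth real functions on `M`. -/
abbrev Sm (f : M → ℝ) : Prop := ContMDiff (𝓡 3) 𝓘(ℝ, ℝ) ∞ f

/-- Smooth charts (not necessarily from the atlas). -/
structure SC (e : OpenPartialHomeomorph M E3) : Prop where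
  fwd : ContMDiffOn (𝓡 3) (𝓡 3) ∞ e e.source
  bwd : ContMDiffOn (𝓡 3) (𝓡 3) ∞ e.symm e.target

theorem SC.chart_fwdAt {e : OpenPartialHomeomorph M E3} (he : SC e) {x : M} (hx : x ∈ e.source) :
    ContMDiffAt (𝓡 3) (𝓡 3) ∞ e x := he.fwd.contMDiffAt (e.open_source.mem_nhds hx)

theorem SC.chart_bwdAt {e : OpenPartialHomeomorph M E3} (he : SC e) {p : E3} (hp : p ∈ e.target) :
    ContMDiffAt (𝓡 3) (𝓡 3) ∞ e.symm p := he.bwd.contMDiffAt (e.open_target.mem_nhds hp)

theorem SC.smooth_loc {e : OpenPartialHomeomorph M E3} (he : SC e) {f : M → ℝ} (hf : Sm f) :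
    ContDiffOn ℝ ∞ (f ∘ e.symm) e.target := by
  exact contMDiffOn_iff_contDiffOn.1 (hf.comp_contMDiffOn he.bwd)

theorem SC.smooth_trans {e e' : OpenPartialHomeomorph M E3} (he : SC e) (he' : SC e') {p : E3}
    (hp : p ∈ e.target) (hp' : e.symm p ∈ e'.source) : ContDiffAt ℝ ∞ (e' ∘ e.symm) p := by
  exact contMDiffAt_iff_contDiffAt.1 ((he'.chart_fwdAt hp').comp p (he.chart_bwdAt hp))

theorem SC.chart_smAt {e : OpenPartialHomeomorph M E3} (he : SC e) {F : M → ℝ} {φ : E3 → ℝ}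
    {z : M} (hz : z ∈ e.source) (hφ : ContDiffOn ℝ ∞ φ e.target)
    (hF : ∀ x ∈ e.source, F x = φ (e x)) : ContMDiffAt (𝓡 3) 𝓘(ℝ, ℝ) ∞ F z := by
  have h1 : ContMDiffAt (𝓡 3) 𝓘(ℝ, ℝ) ∞ φ (e z) :=
    (hφ.contDiffAt (e.open_target.mem_nhds (e.map_source hz))).contMDiffAt
  refine (h1.comp z (he.chart_fwdAt hz)).congr_of_eventuallyEq ?_
  filter_upwards [e.open_source.mem_nhds hz] with x hx using hF x hx

/- A function on `M` given near each point by a smooth function in a smooth chart is smooth. -/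
theorem sm_of_loc {F : M → ℝ} (h : ∀ z, ∃ (e : OpenPartialHomeomorph M E3) (φ : E3 → ℝ),
    SC e ∧ z ∈ e.source ∧ ContDiffOn ℝ ∞ φ e.target ∧ ∀ x ∈ e.source, F x = φ (e x)) : Sm F := by
  intro z
  obtain ⟨e, φ, he, hz, hφ, hF⟩ := h z
  exact he.chart_smAt hz hφ hF

/- Extension by zero from a chart to `M`. -/
theorem SC.sm_ext [T2Space M] {e : OpenPartialHomeomorph M E3} (he : SC e) {φ : E3 → ℝ}
    (hφ : ContDiffOn ℝ ∞ φ e.target) {K : Set E3} (hK : IsCompact K) (hKe : K ⊆ e.target)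
    (h0 : ∀ p ∈ e.target, p ∉ K → φ p = 0) : Sm (e.source.indicator (φ ∘ e)) := by
  intro z
  by_cases hz : z ∈ e.source
  · exact he.chart_smAt hz hφ fun x hx => indicator_of_mem hx _
  · have hc : IsCompact (e.symm '' K) :=
      hK.image_of_continuousOn (e.continuousOn_symm.mono hKe)
    have hzK : z ∈ (e.symm '' K)ᶜ := by
      rintro ⟨p, hp, rfl⟩
      exact hz (e.map_target (hKe hp))
    refine (contMDiffAt_const (c := (0 : ℝ))).congr_of_eventuallyEq ?_
    filter_upwards [hc.isClosed.isOpen_compl.mem_nhds hzK] with x hx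
    by_cases hxs : x ∈ e.source
    · rw [indicator_of_mem hxs]
      exact h0 _ (e.map_source hxs) fun hk => hx ⟨e x, hk, e.left_inv hxs⟩
    · exact indicator_of_notMem hxs _

/- Extension by zero from `M` to the whole model space. -/
theorem SC.smooth_push [CompactSpace M] {e : OpenPartialHomeomorph M E3} (he : SC e) {f : M → ℝ}
    (hf : Sm f) (hs : tsupport f ⊆ e.source) :
    ContDiff ℝ ∞ (e.target.indicator (f ∘ e.symm)) ∧
      HasCompactSupport (e.target.indicator (f ∘ e.symm)) := by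
  have hc : IsCompact (e '' tsupport f) :=
    (isClosed_tsupport f).isCompact.image_of_continuousOn (e.continuousOn.mono hs)
  have h0 : ∀ p, p ∉ e '' tsupport f → e.target.indicator (f ∘ e.symm) p = 0 := by
    intro p hp
    by_cases hpt : p ∈ e.target
    · rw [indicator_of_mem hpt]
      by_contra hne
      exact hp ⟨e.symm p, subset_tsupport f hne, e.right_inv hpt⟩
    · exact indicator_of_notMem hpt _
  refine ⟨contDiff_iff_contDiffAt.2 fun p => ?_, HasCompactSupport.intro hc h0⟩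
  by_cases hpt : p ∈ e.target
  · refine ((he.smooth_loc hf).contDiffAt (e.open_target.mem_nhds hpt)).congr_of_eventuallyEq ?_
    filter_upwards [e.open_target.mem_nhds hpt] with q hq using indicator_of_mem hq _
  · have hp : p ∈ (e '' tsupport f)ᶜ := by
      rintro ⟨x, hx, rfl⟩
      exact hpt (e.map_source (hs hx))
    refine (contDiffAt_const (c := (0 : ℝ))).congr_of_eventuallyEq ?_
    filter_upwards [hc.isClosed.isOpen_compl.mem_nhds hp] with q hq using h0 q hq

theorem chart_sum_bas (v : E3) : ∑ i, v i • bas i = v := by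
  simpa [bas] using (EuclideanSpace.basisFun (Fin 3) ℝ).sum_repr v

theorem chart_bilin {F : Type} [AddCommGroup F] [Module ℝ F] [TopologicalSpace F]
    (β : F →L[ℝ] F →L[ℝ] ℝ) (D : E3 →L[ℝ] F) (v w : E3) :
    β (D v) (D w) = ∑ i, ∑ j, v i * β (D (bas i)) (D (bas j)) * w j := by
  conv_lhs => rw [← chart_sum_bas v, ← chart_sum_bas w]
  simp only [map_sum, map_smul, _root_.sum_apply, _root_.smul_apply,
    smul_eq_mul]
  rw [Finset.sum_comm]
  refine Finset.sum_congr rfl fun i _ => ?_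
  rw [Finset.mul_sum]
  refine Finset.sum_congr rfl fun j _ => ?_
  ring

theorem SC.chart_inj {e : OpenPartialHomeomorph M E3} (he : SC e) {p : E3} (hp : p ∈ e.target)
    {v : E3} (hv : mfderiv (𝓡 3) (𝓡 3) e.symm p v = 0) : v = 0 := by
  have h1 := mfderiv_comp_apply p
    ((he.chart_fwdAt (e.map_target hp)).mdifferentiableAt (by simp))
    ((he.chart_bwdAt hp).mdifferentiableAt (by simp)) v
  have h2 : (e ∘ e.symm) =ᶠ[𝓝 p] id := by
    filter_upwards [e.open_target.mem_nhds hp] with q hq using e.right_inv hq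
  rw [hv, map_zero, h2.mfderiv_eq, mfderiv_id] at h1
  exact h1

theorem chart_jac {τ : E3 → E3} {y : E3} (h : DifferentiableAt ℝ τ y) (i a : Fin 3) :
    jac τ y i a = fderiv ℝ τ y (bas a) i := by
  have h1 := ((EuclideanSpace.proj i : E3 →L[ℝ] ℝ).hasFDerivAt.comp y h.hasFDerivAt).fderiv
  have h2 : (fun y => τ y i) = (EuclideanSpace.proj i : E3 →L[ℝ] ℝ) ∘ τ := rfl
  simp only [jac, Matrix.of_apply, pd]
  rw [h2, h1]
  rfl

variable [IsManifold (𝓡 3) ∞ M]

theorem sc_chartAt (x : M) : SC (chartAt E3 x) := by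
  exact ⟨contMDiffOn_chart, contMDiffOn_chart_symm⟩

theorem SC.chart_field {e : OpenPartialHomeomorph M E3} (he : SC e) (v : E3) :
    ContMDiffOn (𝓡 3) (𝓡 3).tangent ∞
      (fun p => (Bundle.TotalSpace.mk' E3 (e.symm p) (mfderiv (𝓡 3) (𝓡 3) e.symm p v) :
        TangentBundle (𝓡 3) M)) e.target := by
  have h1 := he.bwd.contMDiffOn_tangentMapWithin (m := ∞) (by simp) e.open_target.uniqueMDiffOn
  have h2 : ContMDiff (𝓡 3) (𝓡 3).tangent ∞
      (fun p : E3 => (Bundle.TotalSpace.mk' E3 p v : TangentBundle (𝓡 3) E3)) :=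
    contMDiff_vectorSpace_iff_contDiff.2 contDiff_const
  refine (h1.comp h2.contMDiffOn fun p hp => hp).congr fun p hp => ?_
  simp only [Function.comp, tangentMapWithin]
  rw [mfderivWithin_of_isOpen e.open_target hp]

/- Sketch: smoothness from `g.contMDiff` and smoothness of
`p ↦ TotalSpace.mk' E3 (e.symm p) (mfderiv e.symm p (bas i))` (tangent map of `e.symm`, see
`ContMDiffOn.contMDiffOn_tangentMapWithin`, `ContMDiffWithinAt.clm_bundle_apply₂` or
`ContMDiffWithinAt.inner_bundle`); positivity since `mfderiv e.symm p` is injective (chain rule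
for `e ∘ e.symm = id` near `p`), `g.pos`, `g.symm`. -/
theorem SC.good {e : OpenPartialHomeomorph M E3} (he : SC e) (g : Met M) :
    Good (coef g e) e.target := by
  refine ⟨e.open_target, fun i j => ?_, fun p hp => ?_⟩
  · refine contMDiffOn_iff_contDiffOn.1 fun p hp => ?_
    have h : ContMDiffWithinAt (𝓡 3) ((𝓡 3).prod 𝓘(ℝ, ℝ)) ∞
        (fun m => Bundle.TotalSpace.mk' ℝ (E := Bundle.Trivial M ℝ) (e.symm m)
          (g.inner (e.symm m) (mfderiv (𝓡 3) (𝓡 3) e.symm m (bas i))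
            (mfderiv (𝓡 3) (𝓡 3) e.symm m (bas j)))) e.target p := by
      apply ContMDiffWithinAt.clm_bundle_apply₂ (F₁ := E3) (F₂ := E3)
      · exact ContMDiffAt.comp_contMDiffWithinAt p g.contMDiff.contMDiffAt (he.bwd p hp)
      · exact he.chart_field (bas i) p hp
      · exact he.chart_field (bas j) p hp
    simp only [Bundle.contMDiffWithinAt_totalSpace] at h
    exact h.2
  · refine Matrix.posDef_iff_dotProduct_mulVec.2 ⟨?_, fun x hx => ?_⟩
    · ext i j
      simp only [conjTranspose_apply, star_trivial, coef, Matrix.of_apply]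
      exact g.symm _ _ _
    · have hv : mfderiv (𝓡 3) (𝓡 3) e.symm p (WithLp.toLp 2 x) ≠ 0 := fun h =>
        hx (by simpa using congrArg WithLp.ofLp (he.chart_inj hp h))
      have h1 := g.pos _ _ hv
      have h2 := chart_bilin (F := TangentSpace (𝓡 3) (e.symm p)) (g.inner (e.symm p))
        (mfderiv (𝓡 3) (𝓡 3) e.symm p) (WithLp.toLp 2 x) (WithLp.toLp 2 x)
      refine h1.trans_eq (h2.trans ?_)
      simp only [dotProduct, mulVec, star_trivial, coef, Matrix.of_apply, Finset.mul_sum,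
        mul_assoc]
      rfl

/- Sketch: near `p`, `e.symm = e'.symm ∘ τ`; chain rule, `mfderiv_eq_fderiv`, expand
`fderiv τ y (bas a) = ∑ i, jac τ y i a • bas i`, bilinearity. -/
theorem SC.coef_trans {e e' : OpenPartialHomeomorph M E3} (he : SC e) (he' : SC e') (g : Met M)
    {p : E3} (hp : p ∈ e.target) (hp' : e.symm p ∈ e'.source) :
    coef g e =ᶠ[𝓝 p] fun y =>
      (jac (e' ∘ e.symm) y)ᵀ * coef g e' ((e' ∘ e.symm) y) * jac (e' ∘ e.symm) y := by
  have ho : IsOpen (e.target ∩ e.symm ⁻¹' e'.source) :=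
    e.continuousOn_symm.isOpen_inter_preimage e.open_target e'.open_source
  filter_upwards [ho.mem_nhds ⟨hp, hp'⟩] with y hy
  have hτ := he.smooth_trans he' hy.1 hy.2
  have hd : DifferentiableAt ℝ (e' ∘ e.symm) y := hτ.differentiableAt (by simp)
  have h1 : e.symm =ᶠ[𝓝 y] e'.symm ∘ (e' ∘ e.symm) := by
    filter_upwards [ho.mem_nhds hy] with q hq using (e'.left_inv hq.2).symm
  have hq : (e' ∘ e.symm) y ∈ e'.target := e'.map_source hy.2
  have h2 : ∀ v : E3, (mfderiv (𝓡 3) (𝓡 3) e.symm y v : E3) =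
      mfderiv (𝓡 3) (𝓡 3) e'.symm ((e' ∘ e.symm) y) (fderiv ℝ (e' ∘ e.symm) y v) := by
    intro v
    have h3 := mfderiv_comp_apply y ((he'.chart_bwdAt hq).mdifferentiableAt (by simp))
      (mdifferentiableAt_iff_differentiableAt.2 hd) v
    rw [mfderiv_eq_fderiv, ← h1.mfderiv_eq] at h3
    exact h3
  have h4 : ∀ (x x' : M) (v w : E3), x = x' → g.inner x v w = g.inner x' v w := by
    rintro x _ v w rfl
    rfl
  ext a b
  have h5 := chart_bilin (F := TangentSpace (𝓡 3) (e'.symm ((e' ∘ e.symm) y)))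
    (g.inner (e'.symm ((e' ∘ e.symm) y))) (mfderiv (𝓡 3) (𝓡 3) e'.symm ((e' ∘ e.symm) y))
    (fderiv ℝ (e' ∘ e.symm) y (bas a)) (fderiv ℝ (e' ∘ e.symm) y (bas b))
  have h6 : coef g e y a b = g.inner (e'.symm ((e' ∘ e.symm) y))
      (mfderiv (𝓡 3) (𝓡 3) e'.symm ((e' ∘ e.symm) y) (fderiv ℝ (e' ∘ e.symm) y (bas a)))
      (mfderiv (𝓡 3) (𝓡 3) e'.symm ((e' ∘ e.symm) y) (fderiv ℝ (e' ∘ e.symm) y (bas b))) := by
    rw [← h2, ← h2]
    exact h4 _ _ _ _ h1.eq_of_nhds
  refine h6.trans (h5.trans ?_)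
  rw [Finset.sum_comm]
  simp only [Matrix.mul_apply, transpose_apply, chart_jac hd, Finset.sum_mul]
  rfl

/- Sketch: `coef g e₀ (e₀ z) = Bᵀ B` (`la_sqrt`); compose `e₀ = chartAt E3 z` with the linear
homeomorphism of `E3` given by `B` (`e₀.transHomeomorph`, `Matrix.toEuclideanCLM` or
`Matrix.toEuclideanLin`), and use `SC.coef_trans`. -/
theorem exists_norm_chart (g : Met M) (z : M) :
    ∃ e : OpenPartialHomeomorph M E3, SC e ∧ z ∈ e.source ∧ coef g e (e z) = 1 := by
  have he₀ := sc_chartAt z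
  have hz : z ∈ (chartAt E3 z).source := mem_chart_source E3 z
  have hp : chartAt E3 z z ∈ (chartAt E3 z).target := (chartAt E3 z).map_source hz
  obtain ⟨B, hB, hG⟩ := la_sqrt ((he₀.good g).pos _ hp)
  let L : E3 ≃L[ℝ] E3 := ContinuousLinearEquiv.equivOfInverse
    (Matrix.toEuclideanCLM (n := Fin 3) (𝕜 := ℝ) B)
    (Matrix.toEuclideanCLM (n := Fin 3) (𝕜 := ℝ) B⁻¹)
    (fun x => by
      rw [← mul_apply_eq_comp, ← map_mul, Matrix.nonsing_inv_mul _ hB, map_one]
      rfl)
    (fun x => by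
      rw [← mul_apply_eq_comp, ← map_mul, Matrix.mul_nonsing_inv _ hB, map_one]
      rfl)
  let e := (chartAt E3 z).transHomeomorph L.toHomeomorph
  have he : SC e := by
    refine ⟨L.contDiff.contMDiff.comp_contMDiffOn he₀.fwd, ?_⟩
    exact he₀.bwd.comp L.symm.contDiff.contMDiff.contMDiffOn fun q hq => hq
  have hzz : (chartAt E3 z).symm (chartAt E3 z z) = z := (chartAt E3 z).left_inv hz
  refine ⟨e, he, hz, ?_⟩
  have h1 := (he₀.coef_trans he g hp (by rw [hzz]; exact hz)).eq_of_nhds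
  have h2 : (e ∘ (chartAt E3 z).symm) =ᶠ[𝓝 (chartAt E3 z z)] L := by
    filter_upwards [(chartAt E3 z).open_target.mem_nhds hp] with q hq
    exact congrArg L ((chartAt E3 z).right_inv hq)
  have h3 : jac (e ∘ (chartAt E3 z).symm) (chartAt E3 z z) = B := by
    ext i a
    rw [chart_jac (L.differentiableAt.congr_of_eventuallyEq h2), h2.fderiv_eq, L.fderiv]
    change (B *ᵥ (WithLp.ofLp (bas a))) i = B i a
    simp [bas]
  have h4 : (e ∘ (chartAt E3 z).symm) (chartAt E3 z z) = e z := congrArg e hzz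
  simp only [h3, h4] at h1
  rw [hG] at h1
  have hBt : IsUnit Bᵀ.det := by rwa [Matrix.det_transpose]
  calc coef g e (e z) = (Bᵀ)⁻¹ * (Bᵀ * coef g e (e z) * B) * B⁻¹ := by
        rw [Matrix.mul_assoc Bᵀ, Matrix.nonsing_inv_mul_cancel_left _ _ hBt,
          Matrix.mul_nonsing_inv_cancel_right _ _ hB]
    _ = 1 := by
        rw [← h1, Matrix.nonsing_inv_mul_cancel_left _ _ hBt, Matrix.mul_nonsing_inv _ hB]

/- Sketch: smooth bumps `b z` with `b z z = 1` and `tsupport (b z) ⊆ U z`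
(`exists_contMDiff_tsupport_subset` or `SmoothBumpFunction`), finite subcover of the sets
`{b z ≠ 0}`, and `χ z = b z / √(∑ b²)`. -/
theorem exists_sq_partition [T2Space M] [CompactSpace M] (U : M → Set M) (hU : ∀ z, U z ∈ 𝓝 z) :
    ∃ (t : Finset M) (χ : M → M → ℝ), (∀ z, Sm (χ z)) ∧ (∀ z, tsupport (χ z) ⊆ U z) ∧
      ∀ x, ∑ z ∈ t, χ z x ^ 2 = 1 := by
  have h1 : ∀ z : M, ∃ b : SmoothBumpFunction (𝓡 3) z, tsupport b ⊆ U z := fun z => by
    obtain ⟨b, _, hb⟩ := (SmoothBumpFunction.nhds_basis_tsupport (I := 𝓡 3) z).mem_iff.1 (hU z)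
    exact ⟨b, hb⟩
  choose b hb using h1
  obtain ⟨t, ht⟩ := CompactSpace.elim_nhds_subcover (fun z => Function.support (b z))
    fun z => (b z).support_mem_nhds
  set S : M → ℝ := fun x => ∑ z ∈ t, b z x ^ 2 with hS
  have hpos : ∀ x, 0 < S x := by
    intro x
    have hx : x ∈ ⋃ z ∈ t, Function.support (b z) := by rw [ht]; exact mem_univ x
    obtain ⟨z, hz, hxz⟩ := mem_iUnion₂.1 hx
    exact Finset.sum_pos' (fun _ _ => sq_nonneg _) ⟨z, hz, sq_pos_of_ne_zero hxz⟩
  have hSm : Sm S := contMDiff_finsetSum fun z _ => (b z).contMDiff.pow 2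
  have hR : Sm fun x => (√(S x))⁻¹ := by
    intro x
    have h2 : ContDiffAt ℝ ∞ (fun y : ℝ => (√y)⁻¹) (S x) :=
      (Real.contDiffAt_sqrt (hpos x).ne').inv (Real.sqrt_pos.2 (hpos x)).ne'
    exact h2.contMDiffAt.comp x (hSm x)
  refine ⟨t, fun z x => b z x * (√(S x))⁻¹, fun z => (b z).contMDiff.mul hR,
    fun z => (tsupport_mul_subset_left).trans (hb z), fun x => ?_⟩
  simp only [mul_pow, ← Finset.sum_mul, inv_pow, Real.sq_sqrt (hpos x).le]
  exact mul_inv_cancel₀ (hpos x).ne'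

end Pool.Agent.Lib.MP_40de08_gt
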