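import Pool.Agent.Lib.MP_40de08_gt.Loc

/-!
A barrier argument: one-sided Hoelder estimate with exponent 1/2.
-/

open scoped ContDiff Topology
open Matrix Metric

namespace Pool.Agent.Lib.MP_40de08_gt

theorem holderloc_dot {v w : Fin 3 → ℝ} {a c : ℝ} (hv : ∀ i, |v i| ≤ a) (hw : ∀ i, |w i| ≤ c) :
    |v ⬝ᵥ w| ≤ 3 * (a * c) := by
  refine (Finset.abs_sum_le_sum_abs _ _).trans ((Finset.sum_le_sum (g := fun _ => a * c)
    fun i _ => ?_).trans (by simp))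
  rw [abs_mul]
  exact mul_le_mul (hv i) (hw i) (abs_nonneg _) ((abs_nonneg _).trans (hv i))

theorem holderloc_form {M : Mat} {v : Fin 3 → ℝ} {a c : ℝ} (hM : ∀ i j, |M i j| ≤ c)
    (hv : ∀ i, |v i| ≤ a) : |v ⬝ᵥ M *ᵥ v| ≤ 9 * c * a ^ 2 :=
  (holderloc_dot hv fun i => holderloc_dot (hM i) hv).trans_eq (by ring)

theorem holderloc_trace {M N : Mat} {a c : ℝ} (hM : ∀ i j, |M i j| ≤ a) (hN : ∀ i j, |N i j| ≤ c) :
    |(M * N).trace| ≤ 9 * a * c := by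
  refine (Finset.abs_sum_le_sum_abs _ _).trans ((Finset.sum_le_sum (g := fun _ => 3 * (a * c))
    fun i _ => holderloc_dot (hM i) fun j => hN j i).trans_eq ?_)
  simp
  ring

theorem holderloc_trace_nonpos {H T : Mat} (hH : H.PosSemidef) (hT : ∀ η, η ⬝ᵥ T *ᵥ η ≤ 0) :
    (H * T).trace ≤ 0 := by
  open scoped MatrixOrder in
  obtain ⟨B, rfl⟩ := CStarAlgebra.nonneg_iff_eq_star_mul_self.mp hH.nonneg
  rw [Matrix.mul_assoc, trace_mul_comm, Matrix.mul_assoc]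
  refine Finset.sum_nonpos fun i _ => (hT (B i)).trans_eq' ?_
  simp [mul_apply, dotProduct, mulVec]

theorem holderloc_second {g g' : ℝ → ℝ} {g'' : ℝ} (h0 : IsLocalMax g 0)
    (h1 : ∀ᶠ τ in 𝓝 0, HasDerivAt g (g' τ) τ) (h2 : HasDerivAt g' g'' 0) : g' 0 = 0 ∧ g'' ≤ 0 := by
  have e1 : deriv g =ᶠ[𝓝 0] g' := h1.mono fun _ h => h.deriv
  have e2 : deriv (deriv g) 0 = g'' := e1.deriv_eq.trans h2.deriv
  refine ⟨h0.hasDerivAt_eq_zero h1.self_of_nhds, le_of_not_gt fun h => ?_⟩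
  have h3 := isLocalMin_of_deriv_deriv_pos (e2 ▸ h) h0.deriv_eq_zero h1.self_of_nhds.continuousAt
  have h4 : g =ᶠ[𝓝 0] fun _ => g 0 := by
    filter_upwards [h0, h3] with τ a b using le_antisymm a b
  rw [← e2, h4.deriv.deriv_eq] at h
  simp at h

theorem holderloc_line {V : E3 → ℝ} {x : E3} (hV : ContDiffAt ℝ ∞ V x) (η : E3) {h h' : ℝ → ℝ}
    {h'' : ℝ} (h0 : IsLocalMax (fun τ : ℝ => V (x + τ • η) - h τ) 0)
    (h1 : ∀ᶠ τ in 𝓝 0, HasDerivAt h (h' τ) τ) (h2 : HasDerivAt h' h'' 0) :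
    η.ofLp ⬝ᵥ dv V x = h' 0 ∧
      η.ofLp ⬝ᵥ (Matrix.of fun i j => pd i (pd j V) x) *ᵥ η.ofLp ≤ h'' := by
  have l : ∀ τ : ℝ, HasDerivAt (fun τ : ℝ => x + τ • η) η τ := fun τ => by
    simpa using ((hasDerivAt_id τ).smul_const η).const_add x
  have k : ∀ (f : E3 → ℝ) (τ : ℝ), DifferentiableAt ℝ f (x + τ • η) →
      HasDerivAt (fun τ : ℝ => f (x + τ • η)) (∑ i, η i * pd i f (x + τ • η)) τ := fun f τ hf => by
    rw [← fderiv_eq_sum]
    exact hf.hasFDerivAt.comp_hasDerivAt τ (l τ)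
  have t : Filter.Tendsto (fun τ : ℝ => x + τ • η) (𝓝 0) (𝓝 x) := by
    simpa using (l 0).continuousAt.tendsto
  have h3 : ∀ᶠ τ in 𝓝 (0 : ℝ), HasDerivAt (fun τ : ℝ => V (x + τ • η) - h τ)
      (∑ i, η i * pd i V (x + τ • η) - h' τ) τ := by
    filter_upwards [h1, t.eventually ((hV.of_le (m := 1) (by simp)).eventually (by simp))] with τ a b
    exact (k V τ (b.differentiableAt one_ne_zero)).sub a
  have h4 := (HasDerivAt.fun_sum (u := Finset.univ) fun j _ => (k (pd j V) 0 (by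
    simpa using diffAt (contDiffAt_pd hV j))).const_mul (η j)).sub h2
  obtain ⟨h5, h6⟩ := holderloc_second h0 h3 h4
  simp only [zero_smul, add_zero, sub_eq_zero, sub_nonpos] at h5 h6
  refine ⟨h5, le_trans (le_of_eq ?_) h6⟩
  simp only [dotProduct, mulVec, of_apply, Fin.sum_univ_three]
  ring

/-- First and second order conditions at a maximum of `V` minus the barrier. -/
theorem holderloc_max {V : E3 → ℝ} {x q : E3} (hV : ContDiffAt ℝ ∞ V x) {N : Mat}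
    (hN : ∀ i j, N i j = N j i) {b t : ℝ} (ht : 0 < t)
    (hQ : (x - q).ofLp ⬝ᵥ N *ᵥ (x - q).ofLp = t ^ 4)
    (h0 : IsLocalMax (fun y : E3 => V y - b * (√√((y - q).ofLp ⬝ᵥ N *ᵥ (y - q).ofLp) -
      √((y - q).ofLp ⬝ᵥ N *ᵥ (y - q).ofLp))) x) (η : Fin 3 → ℝ) :
    η ⬝ᵥ dv V x = b * (1 / (2 * t ^ 3) - 1 / t ^ 2) * (η ⬝ᵥ N *ᵥ (x - q).ofLp) ∧
      η ⬝ᵥ (Matrix.of fun i j => pd i (pd j V) x) *ᵥ η ≤
        b * ((-3 / (4 * t ^ 7) + 1 / t ^ 6) * (η ⬝ᵥ N *ᵥ (x - q).ofLp) ^ 2 +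
          (1 / (2 * t ^ 3) - 1 / t ^ 2) * (η ⬝ᵥ N *ᵥ η)) := by
  set μ := η ⬝ᵥ N *ᵥ (x - q).ofLp with hμ
  set ν := η ⬝ᵥ N *ᵥ η with hν
  let P : ℝ → ℝ := fun τ => t ^ 4 + 2 * μ * τ + ν * τ ^ 2
  have hP : ∀ τ, HasDerivAt P (2 * μ + 2 * ν * τ) τ := fun τ => by
    refine HasDerivAt.congr_deriv ((((hasDerivAt_id τ).const_mul (2 * μ)).const_add (t ^ 4)).add
      ((hasDerivAt_pow 2 τ).const_mul ν)) ?_
    simp
    ring
  have e : ∀ τ : ℝ, (x + τ • WithLp.toLp 2 η - q).ofLp ⬝ᵥ N *ᵥ (x + τ • WithLp.toLp 2 η - q).ofLp =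
      P τ := fun τ => by
    simp only [P, ← hQ, hμ, hν, dotProduct, mulVec, Fin.sum_univ_three, PiLp.sub_apply,
      PiLp.add_apply, PiLp.smul_apply, smul_eq_mul, hN 1 0, hN 2 0, hN 2 1]
    ring
  have p0 : P 0 = t ^ 4 := by simp [P]
  have s1 : √(P 0) = t ^ 2 := by
    rw [p0, show t ^ 4 = (t ^ 2) ^ 2 by ring, Real.sqrt_sq (by positivity)]
  have s2 : √(t ^ 2) = t := Real.sqrt_sq ht.le
  have hc : ContinuousAt (fun τ : ℝ => x + τ • WithLp.toLp 2 η) 0 := by fun_prop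
  have h1 := IsLocalMax.comp_continuous (g := fun τ : ℝ => x + τ • WithLp.toLp 2 η)
    (by simpa only [zero_smul, add_zero] using h0) hc
  simp only [Function.comp_def, e] at h1
  have h2 : ∀ᶠ τ in 𝓝 (0 : ℝ), 0 < P τ :=
    (hP 0).continuousAt.eventually (lt_mem_nhds (by rw [p0]; positivity))
  have d1 := fun τ (h : 0 < P τ) => (hP τ).sqrt h.ne'
  have d2 := fun τ (h : 0 < P τ) => (d1 τ h).sqrt (Real.sqrt_pos.2 h).ne'
  have p1 := h2.self_of_nhds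
  have d0 : HasDerivAt (fun τ => 2 * μ + 2 * ν * τ) (2 * ν) 0 := by
    simpa using ((hasDerivAt_id (0 : ℝ)).const_mul (2 * ν)).const_add (2 * μ)
  have d3 := d0.div ((d1 0 p1).const_mul 2) (by rw [s1]; positivity)
  have d4 := d3.div ((d2 0 p1).const_mul 2) (by rw [s1, s2]; positivity)
  obtain ⟨g1, g2⟩ := holderloc_line hV _ h1
    (h2.mono fun τ h => ((d2 τ h).sub (d1 τ h)).const_mul b) ((d4.sub d3).const_mul b)
  simp only [Pi.div_apply, s1, s2] at g1 g2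
  refine ⟨g1.trans ?_, g2.trans_eq ?_⟩
  · field_simp
    ring
  · field_simp
    ring

theorem holderloc_real {t E α β γ δ c : ℝ} (ht : 0 < t) (hE : 1 ≤ E) (h : t * E ≤ 1 / 10)
    (h1 : |α - t ^ 4| ≤ E * t ^ 6) (h2 : |β - t ^ 4| ≤ E * t ^ 6) (h3 : |γ - 3| ≤ E * t ^ 2)
    (h4 : |δ| ≤ E * t ^ 6) (h5 : c ≤ E * t ^ 4) :
    α * ((-3 / (4 * t ^ 7) + 1 / t ^ 6) * β + (1 / (2 * t ^ 3) - 1 / t ^ 2) * γ) +
      3 * ((-3 / (4 * t ^ 7) + 1 / t ^ 6) * (t ^ 4) ^ 2 +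
        (1 / (2 * t ^ 3) - 1 / t ^ 2) * (t ^ 4 - δ)) + c < 0 := by
  have k : ∀ (n : ℕ) (y : ℝ), |y| ≤ E * t ^ (n + 1) → ∃ a, |a| ≤ 1 / 10 ∧ y = a * t ^ n := fun n y hy =>
    ⟨y / t ^ n, by
      rw [abs_div, abs_of_pos (pow_pos ht n), div_le_iff₀ (pow_pos ht n)]
      refine hy.trans ?_
      rw [pow_succ']
      nlinarith [pow_pos ht n], by field_simp⟩
  obtain ⟨a1, b1, e1⟩ := k 5 _ h1
  obtain ⟨a2, b2, e2⟩ := k 5 _ h2
  obtain ⟨a3, b3, e3⟩ := k 1 _ h3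
  obtain ⟨a4, b4, rfl⟩ := k 5 _ h4
  rw [sub_eq_iff_eq_add] at e1 e2 e3
  subst e1 e2 e3
  have t1 : t ≤ 1 / 10 := by nlinarith
  have h6 : c ≤ t ^ 2 * (1 / 100) := by
    refine h5.trans ?_
    have : t * (t * E) ≤ 1 / 100 := by nlinarith
    nlinarith [pow_pos ht 2]
  rw [abs_le] at b1 b2 b3 b4
  set u := (-3 / 4 + t) * a2 + (1 / 2 - t) * a3 with hu
  have u1 : u ≤ 1 / 5 := by nlinarith
  have u2 : -(1 / 5) ≤ u := by nlinarith
  have w : -2 + (u + a1 * (3 / 4 - 2 * t) + t * a1 * u - 3 * (1 / 2 - t) * a4) ≤ -1 := by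
    have : a1 * u ≤ 1 := by nlinarith
    nlinarith
  have e : (a1 * t ^ 5 + t ^ 4) * ((-3 / (4 * t ^ 7) + 1 / t ^ 6) * (a2 * t ^ 5 + t ^ 4) +
      (1 / (2 * t ^ 3) - 1 / t ^ 2) * (a3 * t ^ 1 + 3)) +
      3 * ((-3 / (4 * t ^ 7) + 1 / t ^ 6) * (t ^ 4) ^ 2 +
        (1 / (2 * t ^ 3) - 1 / t ^ 2) * (t ^ 4 - a4 * t ^ 5)) =
      t ^ 2 * (-2 + (u + a1 * (3 / 4 - 2 * t) + t * a1 * u - 3 * (1 / 2 - t) * a4)) := by
    rw [hu]
    field_simp
    ring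
  rw [e]
  nlinarith [pow_pos ht 2]

theorem holderloc_bounds {G : E3 → Mat} {U : Set E3} (hG : Good G U) {z : E3} (hz : z ∈ U)
    (h1 : G z = 1) (Cm : E3 → Mat) (hC : ∀ i j, ContinuousOn (fun p => Cm p i j) U) :
    ∃ A : ℝ, 1 ≤ A ∧ ∃ R : ℝ, 0 < R ∧ ∀ p ∈ ball z R, p ∈ U ∧ (∀ i j, |(G p - 1) i j| ≤ 1 / 18) ∧
      (∀ i j, |(G p)⁻¹ i j| ≤ A) ∧ (∀ k i j, |chr G k i j p| ≤ A) ∧ (∀ i j, |Cm p i j| ≤ A) ∧
      ∀ q ∈ ball z R, (∀ i j, |(G p - G q) i j| ≤ A * dist p q) ∧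
        ∀ i j, |((G p)⁻¹ - (G q)⁻¹) i j| ≤ A * dist p q := by
  have hU := hG.isOpen.mem_nhds hz
  let F : E3 → (Fin 3 → Fin 3 → ℝ) × (Fin 3 → Fin 3 → ℝ) := fun p =>
    (fun i j => G p i j, fun i j => (G p)⁻¹ i j)
  have hF : ContDiffAt ℝ 1 F z :=
    (contDiffAt_pi.2 fun i => contDiffAt_pi.2 fun j =>
      ((hG.smooth i j).contDiffAt hU).of_le (by simp)).prodMk
      (contDiffAt_pi.2 fun i => contDiffAt_pi.2 fun j =>
        ((hG.smooth_inv i j).contDiffAt hU).of_le (by simp))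
  obtain ⟨K, s, hs, hK⟩ := hF.exists_lipschitzOnWith
  let B : E3 → (Fin 3 → Fin 3 → ℝ) × (Fin 3 → Fin 3 → Fin 3 → ℝ) × (Fin 3 → Fin 3 → ℝ) := fun p =>
    (fun i j => (G p)⁻¹ i j, fun k i j => chr G k i j p, fun i j => Cm p i j)
  have hB : ContinuousAt B z :=
    (continuousAt_pi.2 fun i => continuousAt_pi.2 fun j =>
      (hG.smooth_inv i j).continuousOn.continuousAt hU).prodMk
      ((continuousAt_pi.2 fun k => continuousAt_pi.2 fun i => continuousAt_pi.2 fun j =>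
        (hG.smooth_chr k i j).continuousOn.continuousAt hU).prodMk
        (continuousAt_pi.2 fun i => continuousAt_pi.2 fun j => (hC i j).continuousAt hU))
  have e1 : ∀ᶠ p in 𝓝 z, ‖B p‖ < ‖B z‖ + 1 := hB.norm.eventually (gt_mem_nhds (lt_add_one _))
  have e2 : ∀ᶠ p in 𝓝 z, ∀ i j, |(G p - 1) i j| ≤ 1 / 18 := by
    simp only [Filter.eventually_all]
    intro i j
    have := ((hG.smooth i j).continuousOn.continuousAt hU).eventually
      (closedBall_mem_nhds (G z i j) (ε := 1 / 18) (by norm_num))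
    simpa only [mem_closedBall, Real.dist_eq, h1, Matrix.sub_apply] using this
  obtain ⟨R, hR, h⟩ := Metric.eventually_nhds_iff_ball.1
    (e1.and (e2.and (Filter.Eventually.and hU hs)))
  have n0 := norm_nonneg (B z)
  have n1 := K.coe_nonneg
  refine ⟨‖B z‖ + 1 + K, by linarith, R, hR, fun p hp => ?_⟩
  obtain ⟨g1, g2, g3, g4⟩ := h p hp
  have g5 : ‖B p‖ ≤ ‖B z‖ + 1 + K := by linarith
  refine ⟨g3, g2, fun i j => ?_, fun k i j => ?_, fun i j => ?_, fun q hq => ?_⟩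
  · exact ((norm_le_pi_norm _ j).trans ((norm_le_pi_norm _ i).trans (norm_fst_le (B p)))).trans g5
  · exact ((norm_le_pi_norm _ j).trans ((norm_le_pi_norm _ i).trans ((norm_le_pi_norm _ k).trans
      ((norm_fst_le _).trans (norm_snd_le (B p)))))).trans g5
  · exact ((norm_le_pi_norm _ j).trans ((norm_le_pi_norm _ i).trans
      ((norm_snd_le _).trans (norm_snd_le (B p))))).trans g5
  · have g6 : ‖F p - F q‖ ≤ (‖B z‖ + 1 + K) * dist p q := by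
      rw [← dist_eq_norm]
      refine (hK.dist_le_mul p g4 q (h q hq).2.2.2).trans ?_
      gcongr
      linarith
    exact ⟨fun i j => ((norm_le_pi_norm _ j).trans ((norm_le_pi_norm _ i).trans
      (norm_fst_le (F p - F q)))).trans g6, fun i j => ((norm_le_pi_norm _ j).trans
      ((norm_le_pi_norm _ i).trans (norm_snd_le (F p - F q)))).trans g6⟩

theorem holderloc_quad {N : Mat} (hN : ∀ i j, |(N - 1) i j| ≤ 1 / 18) (ξ : E3) :
    ‖ξ‖ ^ 2 / 2 ≤ ξ.ofLp ⬝ᵥ N *ᵥ ξ.ofLp ∧ ξ.ofLp ⬝ᵥ N *ᵥ ξ.ofLp ≤ 2 * ‖ξ‖ ^ 2 := by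
  have h1 := abs_le.1 (holderloc_form hN (v := ξ.ofLp) fun i => PiLp.norm_apply_le ξ i)
  have h2 : ξ.ofLp ⬝ᵥ ξ.ofLp = ‖ξ‖ ^ 2 := by
    rw [EuclideanSpace.norm_sq_eq]
    simp [dotProduct, sq]
  rw [sub_mulVec, dotProduct_sub, one_mulVec, h2] at h1
  constructor <;> nlinarith [sq_nonneg ‖ξ‖]

/-- One-sided Hoelder estimate, by comparison with the barrier `b (√s - s)`. -/
theorem holder_loc {G : E3 → Mat} {U : Set E3} (hG : Good G U) {z : E3} (hz : z ∈ U)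
    (h1 : G z = 1) (Cm : E3 → Mat) (hC : ∀ i j, ContinuousOn (fun p => Cm p i j) U) :
    ∃ r : ℝ, 0 < r ∧ ∃ K : ℝ, 0 < K ∧ ball z r ⊆ U ∧
      ∀ (V : E3 → ℝ) (Mx : ℝ), ContDiffOn ℝ ∞ V U → (∀ p ∈ U, 0 < V p ∧ V p ≤ Mx) →
        (∀ p ∈ U, ∀ ξ : Fin 3 → ℝ, 0 ≤ (ξ ⬝ᵥ G p *ᵥ ξ) * lap G V p +
          3 * (ξ ⬝ᵥ hes G V p *ᵥ ξ) + (ξ ⬝ᵥ Cm p *ᵥ ξ) * V p) →
        ∀ q ∈ ball z r, ∀ x ∈ ball z r, V x ≤ V q + K * Real.sqrt (dist x q) * Mx := by
  obtain ⟨A, hA, R, hR, hb⟩ := holderloc_bounds hG hz h1 Cm hC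
  obtain ⟨E, hE⟩ : ∃ E, E = 2592 * A ^ 2 := ⟨_, rfl⟩
  have hE1 : 1 ≤ E := by nlinarith
  obtain ⟨r, r0, r1, r2⟩ : ∃ r : ℝ, 0 < r ∧ 3 * r ≤ R ∧ r * (400 * E ^ 2) ≤ 1 :=
    ⟨min (R / 3) (1 / (400 * E ^ 2)), by positivity, by linarith [min_le_left (R / 3) (1 / (400 * E ^ 2))],
      (le_div_iff₀ (by positivity)).1 (min_le_right _ _)⟩
  have r3 := Real.sqrt_pos.2 r0
  refine ⟨r, r0, 4 / √r, by positivity, fun p hp => (hb p (ball_subset_ball (by linarith) hp)).1,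
    fun V Mx hV hM hL q hq x₀ hx₀ => ?_⟩
  have hq' : q ∈ ball z R := ball_subset_ball (by linarith) hq
  have hD : closedBall q (2 * r) ⊆ ball z R := fun y hy => by
    rw [mem_ball] at hq ⊢
    linarith [dist_triangle y q z, mem_closedBall.1 hy]
  obtain ⟨qU, n1, -⟩ := hb q hq'
  have M0 : 0 < Mx := (hM q qU).1.trans_le (hM q qU).2
  obtain ⟨b, hb0⟩ : ∃ b, b = 2 * Mx / √r := ⟨_, rfl⟩
  have b0 : 0 < b := by rw [hb0]; positivity
  have b1 : b * √r = 2 * Mx := by rw [hb0]; field_simp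
  have b2 : Mx ≤ b := by
    have : √r ≤ 1 := Real.sqrt_le_one.2 (by nlinarith)
    nlinarith
  set N := G q with hN
  let Q : E3 → ℝ := fun y => (y - q).ofLp ⬝ᵥ N *ᵥ (y - q).ofLp
  have hQ : ∀ y, ∃ t, 0 ≤ t ∧ Q y = t ^ 4 ∧ √√(Q y) - √(Q y) = t - t ^ 2 ∧ dist y q ≤ 2 * t ^ 2 ∧
      t ^ 2 ≤ 2 * dist y q := fun y => by
    obtain ⟨g1, g2⟩ := holderloc_quad n1 (y - q)
    rw [← dist_eq_norm] at g1 g2
    have g3 : 0 ≤ Q y := le_trans (by positivity) g1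
    have g4 := Real.sq_sqrt (Real.sqrt_nonneg (Q y))
    have g5 := Real.sq_sqrt g3
    refine ⟨√√(Q y), Real.sqrt_nonneg _, by rw [show 4 = 2 * 2 from rfl, pow_mul, g4, g5],
      by rw [g4], ?_, ?_⟩
    · rw [g4]
      exact abs_le_of_sq_le_sq' (by nlinarith) (by positivity) |>.2
    · rw [g4]
      exact abs_le_of_sq_le_sq' (by nlinarith) (by positivity) |>.2
  have cQ : Continuous Q := by
    simp only [Q, dotProduct, mulVec]
    fun_prop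
  obtain ⟨x, hx, hmax⟩ := (isCompact_closedBall q (2 * r)).exists_isMaxOn
    (f := fun y => V y - b * (√√(Q y) - √(Q y))) ⟨q, mem_closedBall_self (by positivity)⟩
    ((hV.continuousOn.mono fun y hy => (hb y (hD hy)).1).sub (by fun_prop))
  have Q0 : Q q = 0 := by simp [Q]
  obtain rfl : q = x := by
    by_contra hne
    obtain ⟨t, t0, t1, t2, t3, t4⟩ := hQ x
    have d0 : 0 < dist x q := dist_pos.2 (Ne.symm hne)
    have d1 := mem_closedBall.1 hx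
    have ht : 0 < t := lt_of_le_of_ne t0 (by rintro rfl; linarith)
    have hE2 : t * E ≤ 1 / 10 := abs_le_of_sq_le_sq' (by nlinarith) (by norm_num) |>.2
    obtain ⟨xU, -, c1, c2, c3, c4⟩ := hb x (hD hx)
    obtain ⟨c4, c5⟩ := c4 q hq'
    rcases d1.eq_or_lt with d1 | d1
    · have g1 := hmax (mem_closedBall_self (by positivity))
      simp only [Set.mem_ofPred_eq, Q0, Real.sqrt_zero, t2] at g1
      have g2 : √r ≤ t := Real.sqrt_le_iff.2 ⟨t0, by linarith⟩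
      have g3 : t ≤ 1 / 10 := by nlinarith
      have g4 : √r / 2 ≤ t - t ^ 2 := by nlinarith
      nlinarith [(hM q qU).1, (hM x xU).2]
    have hS := hG.symm qU
    have key := holderloc_max (hV.contDiffAt (hG.isOpen.mem_nhds xU)) hS ht t1
      (hmax.isLocalMax (closedBall_mem_nhds_of_mem d1))
    set ξ := (x - q).ofLp with hξ
    set m := N *ᵥ ξ with hm
    set c' := 1 / (2 * t ^ 3) - 1 / t ^ 2 with hc'
    set c'' := -3 / (4 * t ^ 7) + 1 / t ^ 6 with hc''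
    let Γ : Mat := Matrix.of fun i j => (fun k => chr G k i j x) ⬝ᵥ m
    let W : Mat := b • (c'' • vecMulVec m m + c' • (N - Γ))
    have k1 : ∀ η, η ⬝ᵥ (hes G V x - W) *ᵥ η ≤ 0 := fun η => by
      have k0 : ∀ i j, ∑ k, chr G k i j x * pd k V x = b * c' * Γ i j := fun i j => (key _).1
      refine (sub_nonpos.2 (key η).2).trans_eq' ?_
      simp only [hes, k0, W, dotProduct, mulVec, of_apply, Matrix.sub_apply, Matrix.add_apply,
        Matrix.smul_apply, vecMulVec_apply, smul_eq_mul, Fin.sum_univ_three]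
      ring
    have k2 := holderloc_trace_nonpos (hG.pos x xU).inv.posSemidef k1
    have k3 := k1 ξ
    have k4 := hL x xU ξ
    have k5 : 0 ≤ ξ ⬝ᵥ G x *ᵥ ξ := by simpa using (hG.pos x xU).posSemidef.dotProduct_mulVec_nonneg ξ
    have t5 : ξ ⬝ᵥ m = t ^ 4 := t1
    have x1 : ∀ i, |ξ i| ≤ 2 * t ^ 2 := fun i =>
      (PiLp.norm_apply_le (x - q) i).trans (by rwa [← dist_eq_norm])
    have n2 : ∀ i j, |N i j| ≤ 2 := fun i j => by
      have := abs_le.1 (n1 i j)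
      rw [Matrix.sub_apply, one_apply] at this
      rw [abs_le]
      split_ifs at this <;> constructor <;> linarith [this.1, this.2]
    have m1 : ∀ i, |m i| ≤ 3 * (2 * (2 * t ^ 2)) := fun i => holderloc_dot (n2 i) x1
    have G1 : ∀ i j, |Γ i j| ≤ 3 * (A * (3 * (2 * (2 * t ^ 2)))) := fun i j =>
      holderloc_dot (fun k => c2 k i j) m1
    have a0 : A * dist x q ≤ A * (2 * t ^ 2) := by gcongr
    have A2 : A ≤ A ^ 2 := by nlinarith
    have p2 := pow_pos ht 2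
    have p4 := pow_pos ht 4
    have p6 := pow_pos ht 6
    have u : IsUnit N.det := (hG.det_pos qU).ne'.isUnit
    have a1 := holderloc_form (fun i j => (c4 i j).trans a0) x1
    have a2 := holderloc_form (fun i j => (c5 i j).trans a0) m1
    have a3 := holderloc_trace (fun i j => (c5 i j).trans a0) n2
    have a3' := holderloc_trace c1 G1
    have a4 := holderloc_form G1 x1
    have a5 := (abs_le.1 (holderloc_form c3 x1)).2
    rw [sub_mulVec, dotProduct_sub, t5] at a1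
    rw [sub_mulVec, dotProduct_sub, hm, mulVec_mulVec ξ N⁻¹, nonsing_inv_mul _ u, one_mulVec, ← hm,
      dotProduct_comm m ξ, t5] at a2
    rw [Matrix.sub_mul, nonsing_inv_mul _ u, trace_sub, trace_one] at a3
    have fin := holderloc_real (γ := ((G x)⁻¹ * N).trace - ((G x)⁻¹ * Γ).trace)
      (c := 36 * A * t ^ 4) ht hE1 hE2 (a1.trans (by nlinarith))
      (a2.trans (by nlinarith)) (by
        rw [sub_right_comm]
        refine (abs_sub _ _).trans ((add_le_add (by simpa using a3) a3').trans ?_)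
        nlinarith) (a4.trans (by nlinarith)) (by nlinarith)
    have e1 : ((G x)⁻¹ * W).trace = b * (c'' * (m ⬝ᵥ (G x)⁻¹ *ᵥ m) +
        c' * (((G x)⁻¹ * N).trace - ((G x)⁻¹ * Γ).trace)) := by
      simp only [W, Matrix.mul_smul, Matrix.mul_add, Matrix.mul_sub, trace_smul, trace_add, trace_sub,
        smul_eq_mul, mul_vecMulVec, trace_vecMulVec, dotProduct_comm m]
    have e2 : ξ ⬝ᵥ W *ᵥ ξ = b * (c'' * (t ^ 4) ^ 2 + c' * (t ^ 4 - ξ ⬝ᵥ Γ *ᵥ ξ)) := by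
      simp only [W, smul_mulVec, add_mulVec, sub_mulVec, dotProduct_smul, dotProduct_add,
        dotProduct_sub, smul_eq_mul, vecMulVec_mulVec, ← hm, dotProduct_comm m, t5, op_smul_eq_smul, sq]
    rw [Matrix.mul_sub, trace_sub, e1] at k2
    rw [sub_mulVec, dotProduct_sub, e2] at k3
    have k6 : ξ ⬝ᵥ Cm x *ᵥ ξ * V x ≤ 36 * A * t ^ 4 * b :=
      (mul_le_mul_of_nonneg_right a5 (hM x xU).1.le).trans
        (mul_le_mul (by nlinarith) ((hM x xU).2.trans b2) (hM x xU).1.le (by positivity))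
    have k7 := mul_le_mul_of_nonneg_left (sub_nonpos.1 k2) k5
    rw [← hc', ← hc''] at fin
    rw [lap] at k4
    nlinarith [mul_neg_of_pos_of_neg b0 fin]
  obtain ⟨t, t0, -, t2, -, t4⟩ := hQ x₀
  have g1 := hmax (show x₀ ∈ closedBall q (2 * r) by
    rw [mem_ball] at hq hx₀
    rw [mem_closedBall]
    linarith [dist_triangle_right x₀ q z])
  simp only [Set.mem_ofPred_eq, Q0, Real.sqrt_zero, t2] at g1
  have g2 : t ≤ 2 * √(dist x₀ q) := abs_le_of_sq_le_sq' (by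
    rw [mul_pow, Real.sq_sqrt dist_nonneg]; linarith [dist_nonneg (x := x₀) (y := q)]) (by positivity) |>.2
  have g3 : 4 / √r * √(dist x₀ q) * Mx = b * (2 * √(dist x₀ q)) := by rw [hb0]; ring
  rw [g3]
  nlinarith [mul_le_mul_of_nonneg_left g2 b0.le, mul_nonneg b0.le (sq_nonneg t)]

end Pool.Agent.Lib.MP_40de08_gt
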