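import Pool.Agent.Lib.MP_40de08_gt.Inv
import Pool.Agent.Lib.MP_40de08_gt.HolderLoc

/-!
Conformal factors of metrics in the cone: differential inequalities and the Hoelder estimate.
-/

open scoped Manifold ContDiff Topology
open Matrix Filter Set Metric

namespace Pool.Agent.Lib.MP_40de08_gt

theorem conf_trace_vv (A : Mat) (a : Fin 3 → ℝ) : (A * vecMulVec a a).trace = a ⬝ᵥ A *ᵥ a := by
  rw [mul_vecMulVec, trace_vecMulVec, dotProduct_comm]

theorem conf_form_vv (a ξ : Fin 3 → ℝ) : ξ ⬝ᵥ vecMulVec a a *ᵥ ξ = (a ⬝ᵥ ξ) ^ 2 := by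
  simp only [dotProduct, mulVec, vecMulVec_apply, Fin.sum_univ_three]
  ring

theorem conf_scal {G : E3 → Mat} {U : Set E3} (hG : Good G U) {p : E3} (hp : p ∈ U) {u : E3 → ℝ}
    (hu : ContDiffAt ℝ ∞ u p) :
    scal (fun x => Real.exp (-2 * u x) • G x) p =
      Real.exp (2 * u p) * (scal G p + 4 * lap G u p - 2 * grd G u u p) := by
  have hd : IsUnit (G p).det := (hG.det_pos hp).ne'.isUnit
  have e1 : (Real.exp (-2 * u p) • G p)⁻¹ = Real.exp (2 * u p) • (G p)⁻¹ := by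
    refine Matrix.inv_eq_left_inv ?_
    rw [Matrix.smul_mul, Matrix.mul_smul, smul_smul, nonsing_inv_mul _ hd, ← Real.exp_add]
    simp
  rw [scal, hG.ric_conf hp hu, e1, Matrix.smul_mul, trace_smul, Matrix.mul_add, Matrix.mul_add,
    Matrix.mul_add, Matrix.mul_smul, nonsing_inv_mul _ hd, trace_add, trace_add, trace_add,
    trace_smul, trace_one, conf_trace_vv]
  simp only [smul_eq_mul, scal, lap, grd, Fintype.card_fin, Nat.cast_ofNat]
  ring

theorem conf_cone {G S : Mat} (hG : G.PosDef) (hS : S.IsSymm) (h1 : 0 ≤ (G⁻¹ * S).trace)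
    (h2 : (G⁻¹ * S * (G⁻¹ * S)).trace ≤ 3 / 8 * (G⁻¹ * S).trace ^ 2) (ξ : Fin 3 → ℝ) :
    0 ≤ 3 * (ξ ⬝ᵥ S *ᵥ ξ) - (G⁻¹ * S).trace * (ξ ⬝ᵥ G *ᵥ ξ) / 2 := by
  have hd : IsUnit G.det := hG.det_pos.ne'.isUnit
  have hGs : G.IsSymm := by
    have := hG.1
    rwa [Matrix.IsHermitian, conjTranspose_eq_transpose_of_trivial] at this
  set t := (G⁻¹ * S).trace with ht
  have e1 : G⁻¹ * (S - (t / 4) • G) = G⁻¹ * S - (t / 4) • (1 : Mat) := by
    rw [Matrix.mul_sub, Matrix.mul_smul, nonsing_inv_mul _ hd]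
  have e2 : (G⁻¹ * (S - (t / 4) • G)).trace = t / 4 := by
    rw [e1, trace_sub, trace_smul, trace_one, ← ht]
    simp only [smul_eq_mul, Fintype.card_fin, Nat.cast_ofNat]
    ring
  have e3 : (G⁻¹ * (S - (t / 4) • G) * (G⁻¹ * (S - (t / 4) • G))).trace
      = (G⁻¹ * S * (G⁻¹ * S)).trace - 5 / 16 * t ^ 2 := by
    rw [e1]
    simp only [Matrix.sub_mul, Matrix.mul_sub, Matrix.mul_smul, Matrix.smul_mul, Matrix.mul_one,
      Matrix.one_mul, trace_sub, trace_smul, trace_one, ← ht, smul_eq_mul, Fintype.card_fin,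
      Nat.cast_ofNat]
    ring
  have key := la_cone hG (hS.sub (hGs.smul (t / 4))) (by rw [e2]; linarith)
    (by rw [e3, e2]; linarith) ξ
  rw [e2, sub_mulVec, smul_mulVec, dotProduct_sub, dotProduct_smul, smul_eq_mul] at key
  linarith

variable {M : Type} [TopologicalSpace M] [ChartedSpace E3 M] [IsManifold (𝓡 3) ∞ M]

/-- `g = e^{-2u} g₀` with `u` smooth. -/
def Cf (g₀ g : Met M) (u : M → ℝ) : Prop :=
  Sm u ∧ ∀ x v w, g.inner x v w = Real.exp (-2 * u x) * g₀.inner x v w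

theorem Cf.coef_eq {g₀ g : Met M} {u : M → ℝ} (h : Cf g₀ g u) (e : OpenPartialHomeomorph M E3) :
    coef g e = fun p => Real.exp (-2 * (u ∘ e.symm) p) • coef g₀ e p := by
  funext p
  ext i j
  simp only [coef, Matrix.of_apply, Matrix.smul_apply, smul_eq_mul, Function.comp_apply]
  exact h.2 _ _ _

/- Sketch: `Good.ric_conf` in the chart at `x`; `(c • G)⁻¹ = c⁻¹ • G⁻¹`;
`tr (G⁻¹ (ric + hes u + du du + (lap u - grd u u) G)) = R + 4 lap u - 2 grd u u`. -/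
theorem Cf.sigma1_eq {g₀ g : Met M} {u : M → ℝ} (h : Cf g₀ g u) (x : M) :
    sigma1 g x = Real.exp (2 * u x) * (Lap g₀ u x - Grd g₀ u u x / 2 + sigma1 g₀ x) := by
  have he := sc_chartAt (M := M) x
  have hp : chartAt E3 x x ∈ (chartAt E3 x).target := mem_chart_target E3 x
  have hu := (he.smooth_loc h.1).contDiffAt ((chartAt E3 x).open_target.mem_nhds hp)
  have hx : (u ∘ (chartAt E3 x).symm) (chartAt E3 x x) = u x := by
    simp only [Function.comp_apply, (chartAt E3 x).left_inv (mem_chart_source E3 x)]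
  rw [sigma1, h.coef_eq, conf_scal (he.good g₀) hp hu, hx, sigma1, Lap, Grd]
  ring

/- With `w = exp (-u / 2)`: by `lap_exp`, `Lap w = w (- Lap u / 2 + Grd u u / 4)`. -/
theorem Cf.lap_w {g₀ g : Met M} {u : M → ℝ} (h : Cf g₀ g u) (x : M) :
    Real.exp (-3 * u x) * sigma1 g x = Real.exp (-(1 / 2) * u x) *
      (-2 * Lap g₀ (fun y => Real.exp (-(1 / 2) * u y)) x +
        sigma1 g₀ x * Real.exp (-(1 / 2) * u x)) := by
  rw [h.sigma1_eq, lap_exp g₀ _ h.1]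
  have e1 : Real.exp (-3 * u x) * Real.exp (2 * u x)
      = Real.exp (-(1 / 2) * u x) * Real.exp (-(1 / 2) * u x) := by
    rw [← Real.exp_add, ← Real.exp_add]
    congr 1
    ring
  rw [← mul_assoc, e1]
  ring

/- Sketch. In a smooth chart `e`, `G = coef g₀ e`, `G' = coef g e = exp (-2u) G`,
`W = ric G' - (scal G' / 4) G' = ric G - (scal G / 4) G + hes u + du du - (grd u u / 2) G`.
`la_cone` for `G', W` (`SC.sigma1_eq`, `SC.sigma2_eq`) gives
`0 ≤ tr (G⁻¹ W) G(ξ,ξ) + 3 W(ξ,ξ)`. By `hes_exp` with `c = 1/4`, `V = exp (u / 4)`: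
`(4 / V) (G(ξ,ξ) lap V + 3 hes V (ξ,ξ)) = tr (G⁻¹ W) G(ξ,ξ) + 3 W(ξ,ξ)
  + (9/4) (grd u u G(ξ,ξ) - du(ξ)²) - (3 ric(ξ,ξ) - (scal / 2) G(ξ,ξ))`, and `la_cs`. -/
theorem Cf.ineq_V {g₀ g : Met M} {u : M → ℝ} (h : Cf g₀ g u)
    (hg : ∀ x, 0 < sigma1 g x ∧ 0 < sigma2 g x) {e : OpenPartialHomeomorph M E3} (he : SC e)
    {p : E3} (hp : p ∈ e.target) (ξ : Fin 3 → ℝ) :
    0 ≤ (ξ ⬝ᵥ coef g₀ e p *ᵥ ξ) * lap (coef g₀ e) (fun y => Real.exp ((1 / 4) * u (e.symm y))) p +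
      3 * (ξ ⬝ᵥ hes (coef g₀ e) (fun y => Real.exp ((1 / 4) * u (e.symm y))) p *ᵥ ξ) +
      (ξ ⬝ᵥ ((3 / 4 : ℝ) • ric (coef g₀ e) p - (scal (coef g₀ e) p / 8) • coef g₀ e p) *ᵥ ξ) *
        Real.exp ((1 / 4) * u (e.symm p)) := by
  have hG := he.good g₀
  have hG' := he.good g
  have hu := (he.smooth_loc h.1).contDiffAt (e.open_target.mem_nhds hp)
  have hx : e.symm p ∈ e.source := e.map_target hp
  have s1 := (hg (e.symm p)).1
  have s2 := (hg (e.symm p)).2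
  rw [he.sigma1_eq g hx, e.right_inv hp] at s1
  rw [he.sigma2_eq g hx, e.right_inv hp] at s2
  have key := conf_cone (hG'.pos p hp) (hG'.ric_symm hp) (by rw [scal] at s1; linarith)
    (by rw [scal, ricSq] at s2; linarith) ξ
  have e1 : ((coef g e p)⁻¹ * ric (coef g e) p).trace = scal (coef g e) p := rfl
  rw [e1, h.coef_eq, conf_scal hG hp hu, hG.ric_conf hp hu] at key
  have e2 : hes (coef g₀ e) (fun y => Real.exp ((1 / 4) * u (e.symm y))) p = _ :=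
    hes_exp (coef g₀ e) hu (1 / 4)
  have e3 : lap (coef g₀ e) (fun y => Real.exp ((1 / 4) * u (e.symm y))) p
      = Real.exp ((1 / 4) * u (e.symm p)) * (lap (coef g₀ e) (u ∘ e.symm) p / 4 +
        grd (coef g₀ e) (u ∘ e.symm) (u ∘ e.symm) p / 16) := by
    rw [lap, e2, Matrix.mul_add, Matrix.mul_smul, Matrix.mul_smul, trace_add, trace_smul,
      trace_smul, conf_trace_vv, lap, grd]
    simp only [smul_eq_mul, Function.comp_apply]
    ring
  have cs := la_cs (hG.pos p hp) (dv (u ∘ e.symm) p) ξ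
  have e4 : dv (u ∘ e.symm) p ⬝ᵥ (coef g₀ e p)⁻¹ *ᵥ dv (u ∘ e.symm) p
      = grd (coef g₀ e) (u ∘ e.symm) (u ∘ e.symm) p := rfl
  have e5 : Real.exp (2 * u (e.symm p)) * Real.exp (-2 * u (e.symm p)) = 1 := by
    rw [← Real.exp_add]; simp
  rw [e4] at cs
  rw [e3, e2]
  simp only [add_mulVec, sub_mulVec, smul_mulVec, dotProduct_add, dotProduct_sub, dotProduct_smul,
    smul_eq_mul, conf_form_vv, Function.comp_apply] at key ⊢
  have hV := Real.exp_pos ((1 / 4) * u (e.symm p))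
  generalize Real.exp ((1 / 4) * u (e.symm p)) = V at hV ⊢
  generalize ξ ⬝ᵥ coef g₀ e p *ᵥ ξ = γ at key cs ⊢
  generalize ξ ⬝ᵥ ric (coef g₀ e) p *ᵥ ξ = r at key ⊢
  generalize ξ ⬝ᵥ hes (coef g₀ e) (u ∘ e.symm) p *ᵥ ξ = H at key ⊢
  generalize dv (u ∘ e.symm) p ⬝ᵥ ξ = a at key cs ⊢
  generalize lap (coef g₀ e) (u ∘ e.symm) p = L at key ⊢
  generalize grd (coef g₀ e) (u ∘ e.symm) (u ∘ e.symm) p = n at key cs ⊢
  generalize scal (coef g₀ e) p = R at key ⊢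
  generalize Real.exp (2 * u (e.symm p)) = c₁ at key e5
  generalize Real.exp (-2 * u (e.symm p)) = c₂ at key e5
  have k2 : 0 ≤ γ * (L + n / 4) + 3 * H + 3 / 4 * a ^ 2 + 3 * r - R / 2 * γ := by
    have e6 : c₁ * (R + 4 * L - 2 * n) * (c₂ * γ) = (R + 4 * L - 2 * n) * γ := by
      linear_combination (R + 4 * L - 2 * n) * γ * e5
    nlinarith
  nlinarith [mul_nonneg hV.le k2]

/- `exists_norm_chart`, `holder_loc`, `Cf.ineq_V`. -/
theorem holder_chart (g₀ : Met M) (z : M) :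
    ∃ e : OpenPartialHomeomorph M E3, SC e ∧ z ∈ e.source ∧ coef g₀ e (e z) = 1 ∧
      ∃ r : ℝ, 0 < r ∧ ∃ K : ℝ, 0 < K ∧ ball (e z) r ⊆ e.target ∧
        ∀ (g : Met M) (u : M → ℝ) (b : ℝ), Cf g₀ g u →
          (∀ x, 0 < sigma1 g x ∧ 0 < sigma2 g x) → (∀ x, u x ≤ b) →
          ∀ q ∈ ball (e z) r, ∀ p ∈ ball (e z) r,
            Real.exp ((1 / 4) * u (e.symm p)) ≤ Real.exp ((1 / 4) * u (e.symm q)) +
              K * Real.sqrt (dist p q) * Real.exp ((1 / 4) * b) := by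
  obtain ⟨e, he, hz, h1⟩ := exists_norm_chart g₀ z
  have hG := he.good g₀
  obtain ⟨r, r0, K, K0, hb, hK⟩ := holder_loc hG (e.map_source hz) h1
    (fun p => (3 / 4 : ℝ) • ric (coef g₀ e) p - (scal (coef g₀ e) p / 8) • coef g₀ e p)
    (fun i j => by
      simp only [Matrix.sub_apply, Matrix.smul_apply, smul_eq_mul]
      exact ((continuousOn_const.mul (hG.smooth_ric i j).continuousOn).sub
        ((hG.smooth_scal.continuousOn.div_const 8).mul (hG.smooth i j).continuousOn)))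
  refine ⟨e, he, hz, h1, r, r0, K, K0, hb, fun g u b h hg hu q hq p hp => ?_⟩
  refine hK (fun y => Real.exp ((1 / 4) * u (e.symm y))) _ ?_ (fun y _ => ⟨Real.exp_pos _, ?_⟩)
    (fun y hy ξ => h.ineq_V hg he hy ξ) q hq p hp
  · exact (contDiffOn_const.mul (he.smooth_loc h.1)).exp
  · exact Real.exp_le_exp.2 (by linarith [hu (e.symm y)])

end Pool.Agent.Lib.MP_40de08_gt
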