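import Pool.Agent.Lib.MP_40de08_gt.Dense

/-!
The inequality vol times the integral of sigma_2 at most a third of the square of the integral
of sigma_1, on the cone.
-/

open scoped Manifold ContDiff Topology
open Matrix Filter Set MeasureTheory Metric

namespace Pool.Agent.Lib.MP_40de08_gt

theorem dlt_trace (P A : Mat) (t : ℝ) :
    (P - t • (1 : Mat) - A).trace = P.trace - 3 * t - A.trace ∧
    ((P - t • (1 : Mat) - A) * (P - t • (1 : Mat) - A)).trace =
      (P * P).trace + (A * A).trace + 3 * t ^ 2 - 2 * (P * A).trace - 2 * t * P.trace +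
        2 * t * A.trace := by
  constructor
  · simp only [Matrix.trace_sub, Matrix.trace_smul, Matrix.trace_one, Fintype.card_fin,
      smul_eq_mul, Nat.cast_ofNat]
    ring
  · simp only [Matrix.sub_mul, Matrix.mul_sub, Matrix.smul_mul, Matrix.mul_smul, Matrix.one_mul,
      Matrix.mul_one, Matrix.trace_sub, Matrix.trace_smul, Matrix.trace_one, Fintype.card_fin,
      smul_eq_mul, Nat.cast_ofNat, Matrix.trace_mul_comm A P]
    ring

theorem dlt_inv_mul {G : Mat} (hG : G.PosDef) (R H : Mat) (t : ℝ) :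
    G⁻¹ * (R - t • G - H) = G⁻¹ * R - t • (1 : Mat) - G⁻¹ * H := by
  have h : G⁻¹ * G = 1 := Matrix.nonsing_inv_mul G (isUnit_iff_ne_zero.2 hG.det_pos.ne')
  rw [Matrix.mul_sub, Matrix.mul_sub, Matrix.mul_smul, h]

theorem dlt_symm {G : Mat} (hG : G.PosDef) {R H : Mat} (hR : R.IsSymm) (hH : H.IsSymm) (t : ℝ) :
    (R - t • G - H).IsSymm := by
  have h : G.IsSymm := by
    have h1 := hG.1
    rwa [Matrix.IsHermitian, Matrix.conjTranspose_eq_transpose_of_trivial] at h1
  exact (hR.sub (h.smul t)).sub hH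

variable {M : Type} [TopologicalSpace M] [ChartedSpace E3 M] [IsManifold (𝓡 3) ∞ M]
  [T2Space M] [CompactSpace M] [MeasurableSpace M] [BorelSpace M]

omit [T2Space M] [CompactSpace M] [MeasurableSpace M] [BorelSpace M] in
/- Sketch: in the chart at `x`, `la_trace_sq` for the symmetric matrix
`S = ric - (R / 4) G - hes f - c G` (`Good.ric_symm`, `Good.hes_symm`); with `P = G⁻¹ ric`,
`A = G⁻¹ hes f`, `X = G⁻¹ S = P - (R / 4 + c) 1 - A`, expand `(tr X)² - tr X² ≤ (2 / 3) (tr X)²`. -/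
theorem dlt_point (g : Met M) {f : M → ℝ} (hf : Sm f) (c : ℝ) (x : M) :
    2 * sigma2 g x + (Lap g f x * Lap g f x - HH g f f x) +
      2 * (PH g f x - 2 * sigma1 g x * Lap g f x) + 4 * c * Lap g f x - 4 * c * sigma1 g x +
      6 * c ^ 2 ≤ (2 / 3) * (sigma1 g x - Lap g f x - 3 * c) ^ 2 := by
  have hG := (sc_chartAt x).good g
  have hp : chartAt E3 x x ∈ (chartAt E3 x).target := mem_chart_target E3 x
  have hf' : ContDiffAt ℝ ∞ (f ∘ (chartAt E3 x).symm) (chartAt E3 x x) :=
    ((sc_chartAt x).smooth_loc hf).contDiffAt (hG.isOpen.mem_nhds hp)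
  have hpos := hG.pos _ hp
  have key := la_trace_sq hpos (dlt_symm hpos (hG.ric_symm hp) (hG.hes_symm hp hf')
    (sigma1 g x + c))
  rw [dlt_inv_mul hpos, (dlt_trace _ _ _).1, (dlt_trace _ _ _).2] at key
  simp only [sigma1, sigma2, Lap, HH, PH, scal, ricSq, lap, hh, ph] at key ⊢
  nlinarith [key]

omit [T2Space M] [CompactSpace M] [MeasurableSpace M] [BorelSpace M] in
/- Sketch: `la_cone` for `S = ric - (R / 4) G`: `tr (G⁻¹ S) = σ₁`,
`(tr (G⁻¹ S))² - tr ((G⁻¹ S)²) = 2 σ₂`; so `Ric(ξ, ξ) = S(ξ, ξ) + σ₁ G(ξ, ξ) ≥ 0`. -/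
theorem rg_nonneg (g : Met M) {x : M} (h1 : 0 < sigma1 g x) (h2 : 0 < sigma2 g x) (f : M → ℝ) :
    0 ≤ RG g f f x := by
  have hG := (sc_chartAt x).good g
  have hp : chartAt E3 x x ∈ (chartAt E3 x).target := mem_chart_target E3 x
  have hpos := hG.pos _ hp
  have hz : (0 : Mat).IsSymm := Matrix.isSymm_zero
  have hS := dlt_symm hpos (hG.ric_symm hp) hz (sigma1 g x)
  have e1 := (dlt_trace ((coef g (chartAt E3 x) (chartAt E3 x x))⁻¹ *
    ric (coef g (chartAt E3 x)) (chartAt E3 x x))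
    ((coef g (chartAt E3 x) (chartAt E3 x x))⁻¹ * 0) (sigma1 g x)).1
  have e2 := (dlt_trace ((coef g (chartAt E3 x) (chartAt E3 x x))⁻¹ *
    ric (coef g (chartAt E3 x)) (chartAt E3 x x))
    ((coef g (chartAt E3 x) (chartAt E3 x x))⁻¹ * 0) (sigma1 g x)).2
  rw [← dlt_inv_mul hpos] at e1 e2
  simp only [Matrix.mul_zero, Matrix.trace_zero] at e1 e2
  have hR : ((coef g (chartAt E3 x) (chartAt E3 x x))⁻¹ *
      ric (coef g (chartAt E3 x)) (chartAt E3 x x)).trace = 4 * sigma1 g x := by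
    simp only [sigma1, scal]
    ring
  have hQ : ((coef g (chartAt E3 x) (chartAt E3 x x))⁻¹ *
      ric (coef g (chartAt E3 x)) (chartAt E3 x x) * ((coef g (chartAt E3 x) (chartAt E3 x x))⁻¹ *
      ric (coef g (chartAt E3 x)) (chartAt E3 x x))).trace =
      6 * sigma1 g x ^ 2 - 2 * sigma2 g x := by
    simp only [sigma1, sigma2, scal, ricSq]
    ring
  rw [hR] at e1
  rw [hR, hQ] at e2
  set ξ := (coef g (chartAt E3 x) (chartAt E3 x x))⁻¹ *ᵥ
    dv (f ∘ (chartAt E3 x).symm) (chartAt E3 x x) with hξ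
  have key := la_cone hpos hS (by rw [e1]; linarith) (by rw [e1, e2]; nlinarith) ξ
  have hnn : 0 ≤ ξ ⬝ᵥ coef g (chartAt E3 x) (chartAt E3 x x) *ᵥ ξ := by
    simpa using hpos.posSemidef.dotProduct_mulVec_nonneg ξ
  rw [e1] at key
  simp only [sub_zero, Matrix.sub_mulVec, Matrix.smul_mulVec, dotProduct_sub, dotProduct_smul,
    smul_eq_mul] at key
  have hRG : RG g f f x = ξ ⬝ᵥ ric (coef g (chartAt E3 x)) (chartAt E3 x x) *ᵥ ξ := rfl
  rw [hRG]
  nlinarith [mul_nonneg h1.le hnn]

/- Sketch: let `v = vol(M) > 0`, `m = (∫ σ₁) / v`, `c = m / 3`, `φ = σ₁ - m`; take `f` from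
`lap_dense`, integrate `dlt_point` using `int_bochner`, `int_bianchi`, `int_lap`, `rg_nonneg`:
`2 ∫ σ₂ - 4 c ∫ σ₁ + 6 c² v ≤ (2 / 3) η`; let `η → 0`. -/
theorem dlt [ConnectedSpace M] (g : Met M) (hg : ∀ x, 0 < sigma1 g x ∧ 0 < sigma2 g x) :
    (vol g).real univ * ∫ x, sigma2 g x ∂(vol g) ≤ (∫ x, sigma1 g x ∂(vol g)) ^ 2 / 3 := by
  have hv : 0 < (vol g).real univ := by
    refine ENNReal.toReal_pos ?_ (measure_ne_top _ _)
    exact isOpen_univ.measure_ne_zero (vol g) univ_nonempty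
  set v := (vol g).real univ with hvdef
  set I1 := ∫ x, sigma1 g x ∂(vol g) with hI1
  set I2 := ∫ x, sigma2 g x ∂(vol g) with hI2
  set c := I1 / v / 3 with hc
  have c1 : Continuous (sigma1 g) := (sm_sigma1 g).continuous
  have c2 : Continuous (sigma2 g) := (sm_sigma2 g).continuous
  have hint := fun (F : M → ℝ) (hF : Continuous F) => integrable_of_continuous g hF
  have hI1c : I1 = 3 * c * v := by
    rw [hc]
    field_simp
  have hφ : Sm (fun x => sigma1 g x - 3 * c) := (sm_sigma1 g).sub contMDiff_const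
  have hφ0 : ∫ x, (sigma1 g x - 3 * c) ∂(vol g) = 0 := by
    rw [integral_sub (hint _ c1) (hint _ continuous_const), integral_const, smul_eq_mul,
      ← hI1, ← hvdef, hI1c]
    ring
  have main : ∀ η : ℝ, 0 < η → 2 * I2 - 4 * c * I1 + 6 * c ^ 2 * v ≤ (2 / 3) * η := by
    intro η hη
    obtain ⟨f, hf, hfη⟩ := lap_dense g hφ hφ0 hη
    have cL : Continuous (Lap g f) := (sm_lap g hf).continuous
    have cH : Continuous (HH g f f) := (sm_hh g hf hf).continuous
    have cP : Continuous (PH g f) := (sm_ph g hf).continuous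
    have cR : Continuous (RG g f f) := (sm_rg g hf hf).continuous
    have iB : Integrable (fun x => Lap g f x * Lap g f x - HH g f f x - RG g f f x) (vol g) :=
      hint _ (by fun_prop)
    have iC : Integrable (fun x => 2 * (PH g f x - 2 * sigma1 g x * Lap g f x)) (vol g) :=
      hint _ (by fun_prop)
    have i2 : Integrable (fun x => 2 * sigma2 g x) (vol g) := hint _ (by fun_prop)
    have iL : Integrable (fun x => 4 * c * Lap g f x) (vol g) := hint _ (by fun_prop)
    have i1 : Integrable (fun x => 4 * c * sigma1 g x) (vol g) := hint _ (by fun_prop)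
    have i0 : Integrable (fun _ : M => 6 * c ^ 2) (vol g) := hint _ continuous_const
    have hle : ∫ x, (2 * sigma2 g x + (Lap g f x * Lap g f x - HH g f f x - RG g f f x) +
        2 * (PH g f x - 2 * sigma1 g x * Lap g f x) + 4 * c * Lap g f x - 4 * c * sigma1 g x +
        6 * c ^ 2) ∂(vol g) ≤ ∫ x, (2 / 3) * (sigma1 g x - 3 * c - Lap g f x) ^ 2 ∂(vol g) := by
      refine integral_mono (hint _ (by fun_prop)) (hint _ (by fun_prop)) fun x => ?_
      have a1 := dlt_point g hf c x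
      have a2 := rg_nonneg g (hg x).1 (hg x).2 f
      have a3 : sigma1 g x - 3 * c - Lap g f x = sigma1 g x - Lap g f x - 3 * c := by ring
      simp only [a3]
      linarith
    rw [integral_add (hint _ (by fun_prop)) i0, integral_sub (hint _ (by fun_prop)) i1,
      integral_add (hint _ (by fun_prop)) iL, integral_add (hint _ (by fun_prop)) iC,
      integral_add i2 iB, int_bochner g hf hf, integral_const_mul,
      integral_const_mul, integral_const_mul, integral_const_mul, integral_const_mul,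
      int_bianchi g hf, int_lap g hf, integral_const, smul_eq_mul, integral_const_mul,
      ← hI1, ← hI2, ← hvdef] at hle
    linarith
  have h2 : 2 * I2 - 4 * c * I1 + 6 * c ^ 2 * v ≤ 0 := by
    refine le_of_forall_pos_le_add fun η hη => ?_
    have := main η hη
    linarith
  rw [hI1c] at h2 ⊢
  nlinarith [mul_le_mul_of_nonneg_left h2 hv.le]

end Pool.Agent.Lib.MP_40de08_gt
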