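import Mathlib

/-!
Riemannian geometry of closed 3-manifolds in local coordinates: Christoffel symbols, Ricci
tensor, the curvatures sigma_1 and sigma_2 of the Schouten tensor, the Riemannian volume measure,
the functional J_2 and the cone C_2 of a conformal class.
-/

open scoped Manifold ContDiff
open MeasureTheory

namespace Pool.Agent.Lib.MP_40de08_gt

/-- Euclidean 3-space, the model space of the charts. -/
abbrev E3 : Type := EuclideanSpace ℝ (Fin 3)

/-- Real 3 by 3 matrices. -/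
abbrev Mat : Type := Matrix (Fin 3) (Fin 3) ℝ

/-- The `i`-th coordinate vector. -/
noncomputable def bas (i : Fin 3) : E3 := EuclideanSpace.single i 1

/-- The derivative `∂_i f` at `p`. -/
noncomputable def pd (i : Fin 3) (f : E3 → ℝ) (p : E3) : ℝ := fderiv ℝ f p (bas i)

/-- Christoffel symbols `Γ^k_{ij} = 1/2 ∑_l G^{kl} (∂_i G_{jl} + ∂_j G_{il} - ∂_l G_{ij})` of a
field `G` of metric coefficients. -/
noncomputable def chr (G : E3 → Mat) (k i j : Fin 3) (p : E3) : ℝ :=
  (1 / 2) * ∑ l, (G p)⁻¹ k l *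
    (pd i (fun x => G x j l) p + pd j (fun x => G x i l) p - pd l (fun x => G x i j) p)

/-- The Ricci tensor
`R_{jk} = ∑_i (∂_i Γ^i_{jk} - ∂_j Γ^i_{ik} + ∑_m (Γ^i_{im} Γ^m_{jk} - Γ^i_{jm} Γ^m_{ik}))`. -/
noncomputable def ric (G : E3 → Mat) (p : E3) : Mat :=
  Matrix.of fun j k => ∑ i, (pd i (chr G i j k) p - pd j (chr G i i k) p +
    ∑ m, (chr G i i m p * chr G m j k p - chr G i j m p * chr G m i k p))

/-- The scalar curvature `R = tr (G⁻¹ Ric)`. -/
noncomputable def scal (G : E3 → Mat) (p : E3) : ℝ := ((G p)⁻¹ * ric G p).trace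

/-- The squared norm `|Ric|^2 = tr ((G⁻¹ Ric)^2)`. -/
noncomputable def ricSq (G : E3 → Mat) (p : E3) : ℝ :=
  ((G p)⁻¹ * ric G p * ((G p)⁻¹ * ric G p)).trace

section Gen

variable {E : Type} [NormedAddCommGroup E] [NormedSpace ℝ E]

/-- Smooth Riemannian metrics on a manifold `M` modelled on `E`. -/
abbrev RMet (E : Type) [NormedAddCommGroup E] [NormedSpace ℝ E] (M : Type) [TopologicalSpace M]
    [ChartedSpace E M] [IsManifold 𝓘(ℝ, E) ∞ M] : Type :=
  Bundle.ContMDiffRiemannianMetric 𝓘(ℝ, E) ∞ E (TangentSpace 𝓘(ℝ, E) : M → Type)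

variable {M : Type} [TopologicalSpace M] [ChartedSpace E M]

/-- The differential at `p` of a map `φ : E → M`, applied to `v`. -/
noncomputable def push (φ : E → M) (p v : E) : TangentSpace 𝓘(ℝ, E) (φ p) :=
  mfderiv 𝓘(ℝ, E) 𝓘(ℝ, E) φ p v

/-- The scalar product `g_x(v, w)` of two tangent vectors at `x`. -/
noncomputable def ip [IsManifold 𝓘(ℝ, E) ∞ M] (g : RMet E M) (x : M)
    (v w : TangentSpace 𝓘(ℝ, E) x) : ℝ := g.inner x v w

end Gen

/-- Smooth Riemannian metrics on the 3-manifold `M`. -/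
abbrev Met (M : Type) [TopologicalSpace M] [ChartedSpace E3 M] [IsManifold 𝓘(ℝ, E3) ∞ M] : Type :=
  RMet E3 M

section Mfd

variable {M : Type} [TopologicalSpace M] [ChartedSpace E3 M] [IsManifold 𝓘(ℝ, E3) ∞ M]

/-- The coefficients `g_{ij}` of the metric `g` in the chart `e`. -/
noncomputable def coef (g : Met M) (e : OpenPartialHomeomorph M E3) (p : E3) : Mat :=
  Matrix.of fun i j => ip g (e.symm p) (push e.symm p (bas i)) (push e.symm p (bas j))

/-- `σ_1(g) = R / 4` at `x`, computed in the chart at `x`. -/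
noncomputable def sigma1 (g : Met M) (x : M) : ℝ :=
  scal (coef g (chartAt E3 x)) (chartAt E3 x x) / 4

/-- `σ_2(g) = (-|Ric|^2 + 3/8 R^2) / 2` at `x`, computed in the chart at `x`. -/
noncomputable def sigma2 (g : Met M) (x : M) : ℝ :=
  (1 / 2) * (-ricSq (coef g (chartAt E3 x)) (chartAt E3 x x) +
    (3 / 8) * scal (coef g (chartAt E3 x)) (chartAt E3 x x) ^ 2)

/-- The cone `C_2([g₀])`: metrics `g = e^{-2u} g₀` with `u` smooth and `σ_1(g), σ_2(g) > 0`
everywhere. -/
def C2 (g₀ : Met M) : Set (Met M) :=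
  {g | (∃ u : M → ℝ, ContMDiff 𝓘(ℝ, E3) 𝓘(ℝ, ℝ) ∞ u ∧
      ∀ x v w, ip g x v w = Real.exp (-2 * u x) * ip g₀ x v w) ∧
    ∀ x, 0 < sigma1 g x ∧ 0 < sigma2 g x}

variable [MeasurableSpace M]

/-- The measure `√(det g_{ij}) dy` of the chart `e`, carried over to `M`. -/
noncomputable def chartVol (g : Met M) (e : OpenPartialHomeomorph M E3) : Measure M :=
  Measure.map e.symm
    ((volume.restrict e.target).withDensity fun p => ENNReal.ofReal (Real.sqrt (coef g e p).det))

/-- The Riemannian volume measure: the least measure dominating the measures of all the charts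
(these agree on overlaps, so this glues them together). -/
noncomputable def vol (g : Met M) : Measure M := ⨆ x : M, chartVol g (chartAt E3 x)

/-- `J_2(g) = vol(g)^{1/3} ∫ σ_2(g) dv(g)`. -/
noncomputable def J2 (g : Met M) : ℝ :=
  (vol g).real Set.univ ^ (1 / 3 : ℝ) * ∫ x, sigma2 g x ∂(vol g)

end Mfd

end Pool.Agent.Lib.MP_40de08_gt
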