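import Pool.Agent.Lib.MP_40de08_gt.Loc

/-!
Solving `F - ε² Δ F = φ` on Euclidean space, with the energy identity.
-/

open scoped ContDiff Topology
open MeasureTheory

namespace Pool.Agent.Lib.MP_40de08_gt

open scoped SchwartzMap LineDeriv Laplacian FourierTransform

/-- The complex equation on Schwartz space. -/
theorem flat_complex (ε : ℝ) (Φ : 𝓢(E3, ℂ)) : ∃ Ψ : 𝓢(E3, ℂ), Ψ - ε ^ 2 • Δ Ψ = Φ := by
  set c : ℝ := ε * (2 * Real.pi) with hc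
  let m : E3 → ℝ := fun ξ => (1 + ‖c • ξ‖ ^ 2) ^ (-1 : ℝ)
  have hm : m.HasTemperateGrowth :=
    (Function.hasTemperateGrowth_one_add_norm_sq_rpow E3 (-1)).comp
      (c • ContinuousLinearMap.id ℝ E3).hasTemperateGrowth
  have hn : (fun ξ : E3 => ‖ξ‖ ^ 2).HasTemperateGrowth := Function.hasTemperateGrowth_norm_sq E3
  refine ⟨SchwartzMap.fourierMultiplierCLM ℂ m Φ, ?_⟩
  rw [SchwartzMap.laplacian_eq_fourierMultiplierCLM,
    SchwartzMap.fourierMultiplierCLM_fourierMultiplierCLM_apply hn hm, smul_smul]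
  have key : SchwartzMap.smulLeftCLM ℂ m (𝓕 Φ) - (ε ^ 2 * -(2 * Real.pi) ^ 2) •
      SchwartzMap.smulLeftCLM ℂ ((fun ξ : E3 => ‖ξ‖ ^ 2) * m) (𝓕 Φ) = 𝓕 Φ := by
    ext ξ
    rw [_root_.sub_apply, _root_.smul_apply, SchwartzMap.smulLeftCLM_apply_apply hm,
      SchwartzMap.smulLeftCLM_apply_apply (hn.mul hm), smul_smul, ← sub_smul]
    have h1 : m ξ - ε ^ 2 * -(2 * Real.pi) ^ 2 * ((fun ξ : E3 => ‖ξ‖ ^ 2) * m) ξ = 1 := by
      have h2 : ‖c • ξ‖ ^ 2 = c ^ 2 * ‖ξ‖ ^ 2 := by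
        rw [norm_smul, mul_pow, Real.norm_eq_abs, sq_abs]
      have h3 : m ξ = (1 + c ^ 2 * ‖ξ‖ ^ 2)⁻¹ := by
        simp only [m, h2, Real.rpow_neg_one]
      have h4 : (0 : ℝ) < 1 + c ^ 2 * ‖ξ‖ ^ 2 := by positivity
      rw [Pi.mul_apply, h3]
      field_simp
      rw [hc]
      ring
    rw [h1, one_smul]
  have h5 := congrArg (FourierTransform.fourierInvCLM ℝ 𝓢(E3, ℂ)) key
  rw [map_sub, map_smul] at h5
  simp only [FourierTransform.fourierInvCLM_apply, FourierTransform.fourierInv_fourier_eq] at h5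
  exact h5

/-- Taking real parts commutes with directional derivatives. -/
theorem flat_re (Ψ : 𝓢(E3, ℂ)) (v : E3) :
    ∂_{v} (SchwartzMap.postcompCLM Complex.reCLM Ψ)
      = SchwartzMap.postcompCLM Complex.reCLM (∂_{v} Ψ) := by
  ext x
  rw [SchwartzMap.lineDerivOp_apply_eq_fderiv, SchwartzMap.postcompCLM_apply,
    SchwartzMap.lineDerivOp_apply_eq_fderiv]
  have h : (SchwartzMap.postcompCLM Complex.reCLM Ψ : E3 → ℝ) = Complex.reCLM ∘ Ψ := by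
    funext y
    exact SchwartzMap.postcompCLM_apply _ _ _
  rw [h, (Complex.reCLM.hasFDerivAt.comp x (Ψ.hasFDerivAt x)).fderiv]
  rfl

theorem flat_pd (F : 𝓢(E3, ℝ)) (i : Fin 3) : pd i F = (∂_{bas i} F : 𝓢(E3, ℝ)) := rfl

theorem flat_int (f g : 𝓢(E3, ℝ)) : Integrable (fun p => f p * g p) :=
  (f.memLp 2).integrable_mul (g.memLp 2)

theorem flat_int_sq (f : 𝓢(E3, ℝ)) : Integrable (fun p => f p ^ 2) := by
  simpa only [sq] using flat_int f f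

theorem flat_comm (F : 𝓢(E3, ℝ)) (i j : Fin 3) :
    (∂_{bas i} (∂_{bas j} F) : 𝓢(E3, ℝ)) = ∂_{bas j} (∂_{bas i} F) := by
  ext p
  exact pd_comm (F.smooth ⊤).contDiffAt i j

/-- The energy identity for real Schwartz functions. -/
theorem flat_energy (ε : ℝ) (F : 𝓢(E3, ℝ)) :
    (∫ p, F p ^ 2) + 2 * ε ^ 2 * (∑ i, ∫ p, (∂_{bas i} F : 𝓢(E3, ℝ)) p ^ 2) +
        ε ^ 4 * (∑ i, ∑ j, ∫ p, (∂_{bas i} (∂_{bas j} F) : 𝓢(E3, ℝ)) p ^ 2)
      = ∫ p, (F p - ε ^ 2 * ∑ i, (∂_{bas i} (∂_{bas i} F) : 𝓢(E3, ℝ)) p) ^ 2 := by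
  have h1 : ∀ i, ∫ p, F p * (∂_{bas i} (∂_{bas i} F) : 𝓢(E3, ℝ)) p
      = -∫ p, (∂_{bas i} F : 𝓢(E3, ℝ)) p ^ 2 := by
    intro i
    rw [SchwartzMap.integral_mul_lineDerivOp_right_eq_neg_left]
    simp only [sq]
  have h2 : ∀ i j, ∫ p, (∂_{bas i} (∂_{bas i} F) : 𝓢(E3, ℝ)) p
        * (∂_{bas j} (∂_{bas j} F) : 𝓢(E3, ℝ)) p
      = ∫ p, (∂_{bas i} (∂_{bas j} F) : 𝓢(E3, ℝ)) p ^ 2 := by
    intro i j
    have e1 := SchwartzMap.integral_mul_lineDerivOp_right_eq_neg_left (μ := volume)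
      (∂_{bas i} (∂_{bas i} F) : 𝓢(E3, ℝ)) (∂_{bas j} F) (bas j)
    have e2 := SchwartzMap.integral_mul_lineDerivOp_right_eq_neg_left (μ := volume)
      (∂_{bas i} (∂_{bas j} F) : 𝓢(E3, ℝ)) (∂_{bas j} F) (bas i)
    rw [e1, flat_comm (∂_{bas i} F) j i, flat_comm F j i, ← e2]
    simp only [sq]
  have h3 : ∀ p, (F p - ε ^ 2 * ∑ i, (∂_{bas i} (∂_{bas i} F) : 𝓢(E3, ℝ)) p) ^ 2
      = F p ^ 2 - 2 * ε ^ 2 * (∑ i, F p * (∂_{bas i} (∂_{bas i} F) : 𝓢(E3, ℝ)) p)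
        + ε ^ 4 * ∑ i, ∑ j, (∂_{bas i} (∂_{bas i} F) : 𝓢(E3, ℝ)) p
          * (∂_{bas j} (∂_{bas j} F) : 𝓢(E3, ℝ)) p := by
    intro p
    rw [← Finset.sum_mul_sum, ← Finset.mul_sum]
    ring
  have i1 : Integrable fun p => ∑ i, F p * (∂_{bas i} (∂_{bas i} F) : 𝓢(E3, ℝ)) p :=
    integrable_finsetSum _ fun i _ => flat_int _ _
  have i2 : ∀ i, Integrable fun p => ∑ j, (∂_{bas i} (∂_{bas i} F) : 𝓢(E3, ℝ)) p
      * (∂_{bas j} (∂_{bas j} F) : 𝓢(E3, ℝ)) p :=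
    fun i => integrable_finsetSum _ fun j _ => flat_int _ _
  have i3 : Integrable fun p => ∑ i, ∑ j, (∂_{bas i} (∂_{bas i} F) : 𝓢(E3, ℝ)) p
      * (∂_{bas j} (∂_{bas j} F) : 𝓢(E3, ℝ)) p :=
    integrable_finsetSum _ fun i _ => i2 i
  simp only [h3]
  have i4 : Integrable fun p => F p ^ 2
      - 2 * ε ^ 2 * ∑ i, F p * (∂_{bas i} (∂_{bas i} F) : 𝓢(E3, ℝ)) p :=
    (flat_int_sq F).sub (i1.const_mul _)
  rw [integral_add i4 (i3.const_mul _),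
    integral_sub (flat_int_sq F) (i1.const_mul _), integral_const_mul, integral_const_mul,
    integral_finsetSum _ fun i _ => flat_int _ _, integral_finsetSum _ fun i _ => i2 i]
  simp only [integral_finsetSum _ fun j _ => flat_int _ _, h1, h2, Finset.sum_neg_distrib]
  ring

/- Sketch. Let `Φ : 𝓢(E3, ℂ)` be the Schwartz map of `fun p => (φ p : ℂ)`
(`HasCompactSupport.toSchwartzMap`), `m ξ = (1 + ε² (2π)² ‖ξ‖²)⁻¹` (temperate growth: rewrite as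
`(1 + ‖c • ξ‖²) ^ (-1 : ℝ)`, see `Function.hasTemperateGrowth_one_add_norm_sq_rpow` and
`HasTemperateGrowth.comp`), `Ψ = SchwartzMap.fourierMultiplierCLM ℂ m Φ`. By
`SchwartzMap.laplacian_eq_fourierMultiplierCLM` and
`fourierMultiplierCLM_fourierMultiplierCLM_apply`, `Ψ - ε² Δ Ψ = Φ`. Take `F = re Ψ` (a real
Schwartz map, `SchwartzMap.postcompCLM` or `bilinLeftCLM`); the Laplacian is the sum of the pure
second derivatives in the standard orthonormal basis `EuclideanSpace.basisFun`. Energy identity: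
expand `∫ (F - ε² Δ F)²`, integrate by parts for Schwartz maps
(`SchwartzMap.integral_mul_lineDerivOp_right_eq_neg_left`):
`∫ F ∂_i∂_i F = - ∫ (∂_i F)²` and `∫ ∂_i∂_i F ∂_j∂_j F = ∫ (∂_i∂_j F)²` (use `pd_comm`). -/
theorem flat_solve (ε : ℝ) {φ : E3 → ℝ} (hφ : ContDiff ℝ ∞ φ) (hc : HasCompactSupport φ) :
    ∃ F : E3 → ℝ, ContDiff ℝ ∞ F ∧ (∀ p, F p - ε ^ 2 * ∑ i, pd i (pd i F) p = φ p) ∧
      Integrable (fun p => F p ^ 2) ∧ (∀ i, Integrable (fun p => pd i F p ^ 2)) ∧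
      (∀ i j, Integrable (fun p => pd i (pd j F) p ^ 2)) ∧
      (∫ p, F p ^ 2) + 2 * ε ^ 2 * (∑ i, ∫ p, pd i F p ^ 2) +
        ε ^ 4 * (∑ i, ∑ j, ∫ p, pd i (pd j F) p ^ 2) = ∫ p, φ p ^ 2 := by
  have hφ' : ContDiff ℝ ∞ fun p => (φ p : ℂ) := Complex.ofRealCLM.contDiff.comp hφ
  have hc' : HasCompactSupport fun p => (φ p : ℂ) :=
    hc.comp_left (g := fun x : ℝ => (x : ℂ)) Complex.ofReal_zero
  obtain ⟨Ψ, hΨ⟩ := flat_complex ε (hc'.toSchwartzMap hφ')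
  let F : 𝓢(E3, ℝ) := SchwartzMap.postcompCLM Complex.reCLM Ψ
  have hb : ∀ i, EuclideanSpace.basisFun (Fin 3) ℝ i = bas i := fun i => by
    simp [bas]
  have hF : ∀ p, F p - ε ^ 2 * ∑ i, (∂_{bas i} (∂_{bas i} F) : 𝓢(E3, ℝ)) p = φ p := by
    intro p
    have h1 := congrArg (fun G : 𝓢(E3, ℂ) => (G p).re) hΨ
    rw [SchwartzMap.laplacian_eq_sum (EuclideanSpace.basisFun (Fin 3) ℝ)] at h1
    simp only [hb, _root_.sub_apply, _root_.smul_apply, _root_.sum_apply,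
      Complex.sub_re, Complex.smul_re, Complex.re_sum, smul_eq_mul] at h1
    simp only [F, flat_re, SchwartzMap.postcompCLM_apply, Complex.reCLM_apply]
    exact h1
  refine ⟨F, F.smooth ⊤, hF, flat_int_sq F, fun i => flat_int_sq (∂_{bas i} F),
    fun i j => flat_int_sq (∂_{bas i} (∂_{bas j} F)), ?_⟩
  have h2 := flat_energy ε F
  simp only [hF] at h2
  exact h2

end Pool.Agent.Lib.MP_40de08_gt
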