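import Pool.Agent.Lib.MP_40de08_gt.Inv
import Pool.Agent.Lib.MP_40de08_gt.Vol
import Pool.Agent.Lib.MP_40de08_gt.Flat

/-!
A parametrix for the operator 1 - eps^2 Laplacian.
-/

open scoped Manifold ContDiff Topology
open Matrix Filter Set MeasureTheory Metric

namespace Pool.Agent.Lib.MP_40de08_gt

theorem param_cs {ι : Type*} (s : Finset ι) (m h : ι → ℝ) {δ : ℝ} (hm : ∀ i ∈ s, |m i| ≤ δ) :
    (∑ i ∈ s, m i * h i) ^ 2 ≤ s.card * δ ^ 2 * ∑ i ∈ s, h i ^ 2 := by
  refine (Finset.sum_mul_sq_le_sq_mul_sq s m h).trans ?_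
  refine mul_le_mul_of_nonneg_right ?_ (Finset.sum_nonneg fun _ _ => sq_nonneg _)
  calc ∑ i ∈ s, m i ^ 2 ≤ ∑ _i ∈ s, δ ^ 2 := Finset.sum_le_sum fun i hi => by
        rw [← sq_abs]; exact pow_le_pow_left₀ (abs_nonneg _) (hm i hi) 2
    _ = _ := by simp

/-- The coefficient of the first order error term. -/
noncomputable def paramBeta (G : E3 → Mat) (c : E3 → ℝ) (k : Fin 3) (p : E3) : ℝ :=
  -(c p * ∑ i, ∑ j, (G p)⁻¹ i j * chr G k j i p) + ∑ i, ((G p)⁻¹ i k + (G p)⁻¹ k i) * pd i c p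

/-- The second order error term. -/
noncomputable def paramA (G : E3 → Mat) (F : E3 → ℝ) (p : E3) : ℝ :=
  ∑ q : Fin 3 × Fin 3, ((G p)⁻¹ - 1) q.2 q.1 * pd q.1 (pd q.2 F) p

/-- The lower order error term. -/
noncomputable def paramB (G : E3 → Mat) (c F : E3 → ℝ) (p : E3) : ℝ :=
  ∑ k, paramBeta G c k p * pd k F p + lap G c p * F p

theorem param_lap (G : E3 → Mat) {c F : E3 → ℝ} {p : E3} (hc : ContDiffAt ℝ ∞ c p)
    (hF : ContDiffAt ℝ ∞ F p) : lap G (fun x => c x * F x) p =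
      c p * (∑ i, pd i (pd i F) p) + c p * paramA G F p + paramB G c F p := by
  rw [lap, hes_mul G hc hF]
  simp only [paramA, paramB, paramBeta, lap, hes, dv, Matrix.trace, Matrix.diag, Matrix.mul_apply,
    Fintype.sum_prod_type, Fin.sum_univ_three, Matrix.add_apply, Matrix.smul_apply,
    Matrix.of_apply, Matrix.vecMulVec_apply, Matrix.sub_apply, smul_eq_mul, Matrix.one_apply_eq,
    Matrix.one_apply_ne, ne_eq, Fin.reduceEq, not_false_eq_true]
  ring

theorem param_contA {G : E3 → Mat} {U : Set E3} (hG : Good G U) {F : E3 → ℝ}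
    (hF : ContDiff ℝ ∞ F) : ContinuousOn (paramA G F) U := by
  refine continuousOn_finsetSum _ fun q _ => ContinuousOn.mul ?_
    (contDiff_pd (contDiff_pd hF _) _).continuous.continuousOn
  simp only [Matrix.sub_apply]
  exact (hG.smooth_inv _ _).continuousOn.sub continuousOn_const

theorem param_contBeta {G : E3 → Mat} {U : Set E3} (hG : Good G U) {c : E3 → ℝ}
    (hc : ContDiffOn ℝ ∞ c U) (k : Fin 3) : ContinuousOn (paramBeta G c k) U :=
  (hc.continuousOn.mul (continuousOn_finsetSum _ fun _ _ => continuousOn_finsetSum _ fun _ _ =>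
    (hG.smooth_inv _ _).continuousOn.mul (hG.smooth_chr _ _ _).continuousOn)).neg.add
    (continuousOn_finsetSum _ fun _ _ => ((hG.smooth_inv _ _).continuousOn.add
      (hG.smooth_inv _ _).continuousOn).mul (contDiffOn_pd hG.isOpen hc _).continuousOn)

theorem param_contB {G : E3 → Mat} {U : Set E3} (hG : Good G U) {c F : E3 → ℝ}
    (hc : ContDiffOn ℝ ∞ c U) (hF : ContDiff ℝ ∞ F) : ContinuousOn (paramB G c F) U :=
  (continuousOn_finsetSum _ fun k _ => (param_contBeta hG hc k).mul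
    (contDiff_pd hF _).continuous.continuousOn).add
    ((hG.smooth_lap hc).continuousOn.mul hF.continuous.continuousOn)

theorem param_int_le {K : Set E3} (hK : IsCompact K) {ρ a u : E3 → ℝ} (hρ : ContinuousOn ρ K)
    (ha : ContinuousOn a K) (hρ2 : ∀ p ∈ K, ρ p ≤ 2) (hu : Integrable u) (hu0 : ∀ p, 0 ≤ u p)
    (hau : ∀ p ∈ K, a p ^ 2 ≤ u p) : ∫ p in K, ρ p * a p ^ 2 ≤ 2 * ∫ p, u p := by
  calc ∫ p in K, ρ p * a p ^ 2 ≤ ∫ p in K, 2 * u p :=
        setIntegral_mono_on ((hρ.mul (ha.pow 2)).integrableOn_compact hK)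
          (hu.const_mul 2).integrableOn hK.measurableSet fun p hp =>
          mul_le_mul (hρ2 p hp) (hau p hp) (sq_nonneg _) zero_le_two
    _ ≤ ∫ p, 2 * u p := setIntegral_le_integral (hu.const_mul 2)
          (ae_of_all _ fun p => by have := hu0 p; positivity)
    _ = _ := integral_const_mul _ _

/-- The local estimate on Euclidean space. -/
theorem param_flat {G : E3 → Mat} {U : Set E3} (hG : Good G U) {K : Set E3} (hK : IsCompact K)
    (hKU : K ⊆ U) {δ : ℝ} (hδ : ∀ p ∈ K, ∀ i j, |((G p)⁻¹ - 1) i j| ≤ δ)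
    (hρ : ∀ p ∈ K, rho G p ≤ 2) {c : E3 → ℝ} (hc : ContDiffOn ℝ ∞ c U) :
    ∃ A : ℝ, 0 ≤ A ∧ ∀ ε : ℝ, 0 < ε → ε ≤ 1 → ∀ φ : E3 → ℝ, ContDiff ℝ ∞ φ → HasCompactSupport φ →
      ∃ F : E3 → ℝ, ContDiff ℝ ∞ F ∧ (∀ p, F p - ε ^ 2 * ∑ i, pd i (pd i F) p = φ p) ∧
        ∫ p in K, rho G p * (ε ^ 2 * paramA G F p) ^ 2 ≤ 18 * δ ^ 2 * ∫ p, φ p ^ 2 ∧
        ∫ p in K, rho G p * (ε ^ 2 * paramB G c F p) ^ 2 ≤ A * ε ^ 2 * ∫ p, φ p ^ 2 := by
  have hb : ∀ k, ∃ B, ∀ p ∈ K, ‖paramBeta G c k p‖ ≤ B := fun k =>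
    hK.exists_bound_of_continuousOn ((param_contBeta hG hc k).mono hKU)
  choose B hB using hb
  obtain ⟨B', hB'⟩ := hK.exists_bound_of_continuousOn ((hG.smooth_lap hc).continuousOn.mono hKU)
  set D : ℝ := ∑ k, |B k| + |B'| with hD
  have hDk : ∀ k, ∀ p ∈ K, |paramBeta G c k p| ≤ D := fun k p hp => by
    have h1 : |B k| ≤ ∑ k, |B k| :=
      Finset.single_le_sum (f := fun k => |B k|) (fun _ _ => abs_nonneg _) (Finset.mem_univ k)
    have h2 : |paramBeta G c k p| ≤ B k := hB k p hp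
    linarith [le_abs_self (B k), abs_nonneg B']
  have hDl : ∀ p ∈ K, |lap G c p| ≤ D := fun p hp => by
    have h1 : 0 ≤ ∑ k, |B k| := Finset.sum_nonneg fun _ _ => abs_nonneg _
    have h2 : |lap G c p| ≤ B' := hB' p hp
    linarith [le_abs_self B']
  refine ⟨12 * D ^ 2, by positivity, fun ε hε hε1 φ hφ hφc => ?_⟩
  obtain ⟨F, hF, hsol, i0, i1, i2, hen⟩ := flat_solve ε hφ hφc
  have hρc := hG.smooth_rho.continuousOn.mono hKU
  have p0 : 0 ≤ ∫ p, F p ^ 2 := integral_nonneg fun _ => sq_nonneg _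
  have p1 : 0 ≤ ∑ i, ∫ p, pd i F p ^ 2 :=
    Finset.sum_nonneg fun _ _ => integral_nonneg fun _ => sq_nonneg _
  have p2 : 0 ≤ ∑ i, ∑ j, ∫ p, pd i (pd j F) p ^ 2 := Finset.sum_nonneg fun _ _ =>
    Finset.sum_nonneg fun _ _ => integral_nonneg fun _ => sq_nonneg _
  refine ⟨F, hF, hsol, ?_, ?_⟩
  · have hi : Integrable fun p => ∑ q : Fin 3 × Fin 3, pd q.1 (pd q.2 F) p ^ 2 :=
      integrable_finsetSum _ fun q _ => i2 q.1 q.2
    refine (param_int_le hK hρc (((param_contA hG hF).mono hKU).const_mul _) hρ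
      (hi.const_mul (ε ^ 4 * (9 * δ ^ 2))) (fun p => by positivity) fun p hp => ?_).trans ?_
    · have := param_cs Finset.univ (fun q : Fin 3 × Fin 3 => ((G p)⁻¹ - 1) q.2 q.1)
        (fun q => pd q.1 (pd q.2 F) p) fun q _ => hδ p hp q.2 q.1
      simp only [Finset.card_univ, Fintype.card_prod, Fintype.card_fin] at this
      rw [mul_pow, ← pow_mul, mul_assoc]
      exact mul_le_mul_of_nonneg_left (by exact_mod_cast this) (by positivity)
    · rw [integral_const_mul, integral_finsetSum _ fun q _ => i2 q.1 q.2, Fintype.sum_prod_type,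
        ← hen]
      have : 0 ≤ δ ^ 2 * ((∫ p, F p ^ 2) + 2 * ε ^ 2 * ∑ i, ∫ p, pd i F p ^ 2) := by positivity
      nlinarith
  · have hi : Integrable fun p => ∑ k, pd k F p ^ 2 := integrable_finsetSum _ fun k _ => i1 k
    refine (param_int_le hK hρc (((param_contB hG hc hF).mono hKU).const_mul _) hρ
      ((hi.add i0).const_mul (ε ^ 4 * (6 * D ^ 2))) (fun p => by
        simp only [Pi.add_apply]; positivity) fun p hp => ?_).trans ?_
    · have h1 := param_cs Finset.univ (fun k => paramBeta G c k p) (fun k => pd k F p)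
        fun k _ => hDk k p hp
      simp only [Finset.card_univ, Fintype.card_fin, Nat.cast_ofNat] at h1
      have h2 : (lap G c p * F p) ^ 2 ≤ D ^ 2 * F p ^ 2 := by
        rw [mul_pow, ← sq_abs (lap G c p)]
        exact mul_le_mul_of_nonneg_right (pow_le_pow_left₀ (abs_nonneg _) (hDl p hp) 2)
          (sq_nonneg _)
      rw [mul_pow, ← pow_mul, mul_assoc]
      refine mul_le_mul_of_nonneg_left ?_ (by positivity)
      simp only [paramB, Pi.add_apply]
      nlinarith [sq_nonneg (∑ k, paramBeta G c k p * pd k F p - lap G c p * F p),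
        mul_nonneg (sq_nonneg D) (sq_nonneg (F p))]
    · rw [integral_const_mul]
      simp only [Pi.add_apply]
      rw [integral_add hi i0, integral_finsetSum _ fun k _ => i1 k, ← hen]
      have h1 : ε ^ 2 ≤ 1 := pow_le_one₀ hε.le hε1
      have h2 : ε ^ 2 * ((∑ k, ∫ p, pd k F p ^ 2) + ∫ p, F p ^ 2) ≤ (∫ p, F p ^ 2) +
          2 * ε ^ 2 * (∑ i, ∫ p, pd i F p ^ 2) + ε ^ 4 * ∑ i, ∑ j, ∫ p, pd i (pd j F) p ^ 2 := by
        have : 0 ≤ ε ^ 4 * ∑ i, ∑ j, ∫ p, pd i (pd j F) p ^ 2 := by positivity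
        have : 0 ≤ ε ^ 2 * ∑ i, ∫ p, pd i F p ^ 2 := by positivity
        nlinarith
      calc _ = 12 * D ^ 2 * ε ^ 2 * (ε ^ 2 * ((∑ k, ∫ p, pd k F p ^ 2) + ∫ p, F p ^ 2)) := by ring
        _ ≤ _ := mul_le_mul_of_nonneg_left h2 (by positivity)

variable {M : Type} [TopologicalSpace M] [ChartedSpace E3 M] [IsManifold (𝓡 3) ∞ M]
  [T2Space M] [CompactSpace M] [MeasurableSpace M] [BorelSpace M]

omit [ChartedSpace E3 M] [IsManifold (𝓡 3) ∞ M] [T2Space M] [CompactSpace M] [MeasurableSpace M]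
  [BorelSpace M] in
theorem param_compact {e : OpenPartialHomeomorph M E3} {K : Set E3} (hK : IsCompact K)
    (hKe : K ⊆ e.target) : IsCompact (e.source ∩ e ⁻¹' K) := by
  rw [← e.symm_image_eq_source_inter_preimage hKe]
  exact hK.image_of_continuousOn (e.continuousOn_symm.mono hKe)

/-- Extension by zero of a continuous function on a compact subset of a chart. -/
theorem param_ext {e : OpenPartialHomeomorph M E3} (he : SC e) (g : Met M) {K : Set E3}
    (hK : IsCompact K) (hKe : K ⊆ e.target) {a : E3 → ℝ} (ha : ContinuousOn a K) :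
    Integrable (fun x => (e.source ∩ e ⁻¹' K).indicator (a ∘ e) x ^ 2) (vol g) ∧
      ∫ x, (e.source ∩ e ⁻¹' K).indicator (a ∘ e) x ^ 2 ∂(vol g) =
        ∫ p in K, rho (coef g e) p * a p ^ 2 := by
  classical
  have hW := param_compact hK hKe
  have hc : ContinuousOn (fun x => a (e x) ^ 2) (e.source ∩ e ⁻¹' K) :=
    (ha.comp (e.continuousOn.mono inter_subset_left) fun x hx => hx.2).pow 2
  have h1 : (fun x => (e.source ∩ e ⁻¹' K).indicator (a ∘ e) x ^ 2) =
      (e.source ∩ e ⁻¹' K).indicator fun x => a (e x) ^ 2 := by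
    ext x
    by_cases hx : x ∈ e.source ∩ e ⁻¹' K <;> simp [hx]
  have hm : Measurable ((e.source ∩ e ⁻¹' K).indicator fun x => a (e x) ^ 2) := by
    rw [← piecewise_eq_indicator]
    exact hc.measurable_piecewise (g := 0) continuousOn_const hW.measurableSet
  rw [h1]
  refine ⟨(integrable_indicator_iff hW.measurableSet).2 (hc.integrableOn_compact hW), ?_⟩
  rw [← setIntegral_eq_integral_of_forall_compl_eq_zero (s := e.source ∩ e ⁻¹' K)
    (fun x hx => indicator_of_notMem hx _), he.setIntegral_eq g hm hK.measurableSet hKe]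
  refine setIntegral_congr_fun hK.measurableSet fun p hp => ?_
  have h2 : e.symm p ∈ e.source ∩ e ⁻¹' K :=
    ⟨e.map_target (hKe hp), by simpa [e.right_inv (hKe hp)] using hp⟩
  simp only [indicator_of_mem h2, e.right_inv (hKe hp)]

/-- The parametrix in one chart. -/
theorem param_chart {e : OpenPartialHomeomorph M E3} (he : SC e) (g : Met M) {K : Set E3}
    (hK : IsCompact K) (hKe : K ⊆ e.target) {δ : ℝ}
    (hδ : ∀ p ∈ K, ∀ i j, |((coef g e p)⁻¹ - 1) i j| ≤ δ)
    (hρ : ∀ p ∈ K, 1 / 2 ≤ rho (coef g e) p ∧ rho (coef g e) p ≤ 2) {χ : M → ℝ} (hχ : Sm χ)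
    (hs : tsupport χ ⊆ e.source ∩ e ⁻¹' K) :
    ∃ A : ℝ, 0 ≤ A ∧ ∀ ε : ℝ, 0 < ε → ε ≤ 1 → ∀ φ : M → ℝ, Sm φ → ∃ f a b : M → ℝ, Sm f ∧
      (∀ x, f x - ε ^ 2 * Lap g f x = χ x ^ 2 * φ x - χ x * a x - b x) ∧
      Integrable (fun x => a x ^ 2) (vol g) ∧ Integrable (fun x => b x ^ 2) (vol g) ∧
      ∫ x, a x ^ 2 ∂(vol g) ≤ 36 * δ ^ 2 * ∫ x, (χ x * φ x) ^ 2 ∂(vol g) ∧
      ∫ x, b x ^ 2 ∂(vol g) ≤ A * ε ^ 2 * ∫ x, (χ x * φ x) ^ 2 ∂(vol g) := by
  have hG := he.good g
  have hc := he.smooth_loc hχ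
  obtain ⟨A, hA, H⟩ := param_flat hG hK hKe hδ (fun p hp => (hρ p hp).2) hc
  refine ⟨2 * A, by positivity, fun ε hε hε1 φ hφ => ?_⟩
  have hχφ : Sm fun x => χ x * φ x := hχ.mul hφ
  have hsupp : tsupport (fun x => χ x * φ x) ⊆ tsupport χ := tsupport_mul_subset_left
  obtain ⟨s1, s2⟩ := he.smooth_push hχφ (hsupp.trans (hs.trans inter_subset_left))
  set ψ := e.target.indicator ((fun x => χ x * φ x) ∘ e.symm) with hψ
  obtain ⟨F, hF, hsol, ea, eb⟩ := H ε hε hε1 ψ s1 s2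
  have hχ0 : ∀ x, x ∉ e.source ∩ e ⁻¹' K → χ x = 0 := fun x hx =>
    image_eq_zero_of_notMem_tsupport fun h => hx (hs h)
  have hc0 : ∀ p ∈ e.target, p ∉ K → χ (e.symm p) = 0 := fun p hp hpK =>
    hχ0 _ fun h => hpK (by simpa [e.right_inv hp] using h.2)
  have hψint : ∫ p, ψ p ^ 2 ≤ 2 * ∫ x, (χ x * φ x) ^ 2 ∂(vol g) := by
    have h1 := param_ext he g hK hKe s1.continuous.continuousOn
    have h2 : ∀ x, (e.source ∩ e ⁻¹' K).indicator (ψ ∘ e) x = χ x * φ x := by
      intro x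
      by_cases hx : x ∈ e.source ∩ e ⁻¹' K
      · rw [indicator_of_mem hx, Function.comp_apply, hψ, indicator_of_mem (e.map_source hx.1),
          Function.comp_apply, e.left_inv hx.1]
      · rw [indicator_of_notMem hx, hχ0 x hx, zero_mul]
    simp only [h2] at h1
    rw [h1.2, ← setIntegral_eq_integral_of_forall_compl_eq_zero (s := K), ← integral_const_mul]
    · refine setIntegral_mono_on ((s1.continuous.pow 2).continuousOn.integrableOn_compact hK)
        ((((hG.smooth_rho.continuousOn.mono hKe).mul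
          (s1.continuous.pow 2).continuousOn).const_mul 2).integrableOn_compact hK)
        hK.measurableSet fun p hp => ?_
      nlinarith [(hρ p hp).1, sq_nonneg (ψ p)]
    · intro p hp
      by_cases hpt : p ∈ e.target
      · simp [hψ, indicator_of_mem hpt, hc0 p hpt hp]
      · simp [hψ, indicator_of_notMem hpt]
  have hcF : ContDiffOn ℝ ∞ (fun p => (χ ∘ e.symm) p * F p) e.target := hc.mul hF.contDiffOn
  have hf := he.sm_ext hcF hK hKe fun p hp hpK => by simp [hc0 p hp hpK]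
  set f := e.source.indicator ((fun p => (χ ∘ e.symm) p * F p) ∘ e) with hfdef
  have xa := param_ext he g hK hKe (a := fun p => ε ^ 2 * paramA (coef g e) F p)
    (((param_contA hG hF).mono hKe).const_mul _)
  have xb := param_ext he g hK hKe (a := fun p => ε ^ 2 * paramB (coef g e) (χ ∘ e.symm) F p)
    (((param_contB hG hc hF).mono hKe).const_mul _)
  refine ⟨f, _, _, hf, fun x => ?_, xa.1, xb.1, ?_, ?_⟩
  · by_cases hx : x ∈ e.source ∩ e ⁻¹' K
    · have hxt := e.map_source hx.1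
      have h1 : f ∘ e.symm =ᶠ[𝓝 (e x)] fun p => (χ ∘ e.symm) p * F p := by
        filter_upwards [e.open_target.mem_nhds hxt] with p hp
        simp only [hfdef, Function.comp_apply, indicator_of_mem (e.map_target hp), e.right_inv hp]
      have h2 : Lap g f x = lap (coef g e) (fun p => (χ ∘ e.symm) p * F p) (e x) := by
        rw [he.lap_eq g hf hx.1, lap, lap, hes_congr _ h1]
      have h3 := hsol (e x)
      rw [hψ, indicator_of_mem hxt, Function.comp_apply, e.left_inv hx.1] at h3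
      rw [h2, param_lap _ (hc.contDiffAt (e.open_target.mem_nhds hxt)) hF.contDiffAt,
        indicator_of_mem hx, indicator_of_mem hx, hfdef, indicator_of_mem hx.1]
      simp only [Function.comp_apply, e.left_inv hx.1]
      linear_combination χ x * h3
    · have h0 : ∀ y, y ∉ tsupport χ → f y = 0 := fun y hy => by
        by_cases hys : y ∈ e.source
        · simp [hfdef, indicator_of_mem hys, e.left_inv hys, image_eq_zero_of_notMem_tsupport hy]
        · simp [hfdef, indicator_of_notMem hys]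
      have hxs : x ∉ tsupport χ := fun h => hx (hs h)
      have h1 : f =ᶠ[𝓝 x] fun _ => 0 := by
        filter_upwards [(isClosed_tsupport χ).isOpen_compl.mem_nhds hxs] with y hy using h0 y hy
      rw [(vanish g f h1).1, h0 x hxs, indicator_of_notMem hx, indicator_of_notMem hx, hχ0 x hx]
      simp
  · rw [xa.2]
    refine ea.trans ?_
    nlinarith [mul_le_mul_of_nonneg_left hψint (show 0 ≤ 18 * δ ^ 2 by positivity)]
  · rw [xb.2]
    refine eb.trans ?_
    nlinarith [mul_le_mul_of_nonneg_left hψint (show 0 ≤ A * ε ^ 2 by positivity)]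

omit [T2Space M] [CompactSpace M] [MeasurableSpace M] [BorelSpace M] in
theorem param_nbhd (g : Met M) (z : M) {δ : ℝ} (hδ : 0 < δ) :
    ∃ (e : OpenPartialHomeomorph M E3) (K : Set E3), SC e ∧ IsCompact K ∧ K ⊆ e.target ∧
      e.source ∩ e ⁻¹' K ∈ 𝓝 z ∧ (∀ p ∈ K, ∀ i j, |((coef g e p)⁻¹ - 1) i j| ≤ δ) ∧
      ∀ p ∈ K, 1 / 2 ≤ rho (coef g e) p ∧ rho (coef g e) p ≤ 2 := by
  obtain ⟨e, he, hz, h1⟩ := exists_norm_chart g z
  have hG := he.good g
  have ht : e.target ∈ 𝓝 (e z) := e.open_target.mem_nhds (e.map_source hz)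
  have a1 : ∀ᶠ p in 𝓝 (e z), ∀ i j, |((coef g e p)⁻¹ - 1) i j| ≤ δ := by
    refine eventually_all.2 fun i => eventually_all.2 fun j => ?_
    have hc : ContinuousAt (fun p => |((coef g e p)⁻¹ - 1) i j|) (e z) := by
      simp only [Matrix.sub_apply]
      exact ((((hG.smooth_inv i j).continuousOn.continuousAt ht).sub continuousAt_const)).abs
    refine hc.eventually_le_const ?_
    simpa [h1] using hδ
  have hr : ContinuousAt (rho (coef g e)) (e z) := hG.smooth_rho.continuousOn.continuousAt ht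
  have hr1 : rho (coef g e) (e z) = 1 := by simp [rho, h1]
  have a2 : ∀ᶠ p in 𝓝 (e z), rho (coef g e) p ∈ Icc (1 / 2 : ℝ) 2 :=
    hr.eventually_mem (by rw [hr1]; exact Icc_mem_nhds (by norm_num) (by norm_num))
  obtain ⟨r, hr0, hsub⟩ := nhds_basis_closedBall.mem_iff.1 ((a1.and a2).and ht)
  refine ⟨e, closedBall (e z) r, he, isCompact_closedBall _ _, fun p hp => (hsub hp).2, ?_,
    fun p hp => (hsub hp).1.1, fun p hp => (hsub hp).1.2⟩
  exact inter_mem (e.open_source.mem_nhds hz)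
    ((e.continuousAt hz).preimage_mem_nhds (closedBall_mem_nhds _ hr0))

omit [T2Space M] [CompactSpace M] [MeasurableSpace M] [BorelSpace M] in
theorem param_lap_sum (g : Met M) {ι : Type*} (t : Finset ι) {f : ι → M → ℝ}
    (hf : ∀ i ∈ t, Sm (f i)) (x : M) :
    Lap g (fun y => ∑ i ∈ t, f i y) x = ∑ i ∈ t, Lap g (f i) x := by
  classical
  induction t using Finset.induction_on with
  | empty => simpa using lap_const g 0 x
  | insert a s ha ih =>
    simp only [Finset.sum_insert ha]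
    rw [lap_add g (hf a (Finset.mem_insert_self _ _))
      (contMDiff_finsetSum fun i hi => hf i (Finset.mem_insert_of_mem hi)),
      ih fun i hi => hf i (Finset.mem_insert_of_mem hi)]

/- Sketch. Fix a small absolute `δ` (say `δ = 1/100`). For each `z` take a normalised chart `e_z`
(`exists_norm_chart`) and a closed ball `B_z` around `e_z z` in the target on which
`|(G⁻¹ - 1) i j| ≤ δ` and `1/2 ≤ rho ≤ 2`; `U z = e_z.source ∩ e_z ⁻¹' (ball)`; take `t, χ` from
`exists_sq_partition`. Given `φ`, let `φ_z = e_z.target.indicator ((χ z * φ) ∘ e_z.symm)`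
(`SC.smooth_push`), `F_z` from `flat_solve ε`, `f_z = e_z.source.indicator (F_z ∘ e_z)` times `χ z`
(smooth by `SC.sm_ext` applied to `(χ z ∘ e_z.symm) * F_z`), and `F = ∑ z ∈ t, f_z`. In the chart,
with `c = χ z ∘ e_z.symm`, by `hes_mul`:
`c F_z - ε² lap (c F_z) = c φ_z - c a_z - b_z` where
`a_z = ε² ∑ (G⁻¹ - 1) i j ∂_i∂_j F_z` and
`b_z = ε² (- c ∑ G⁻¹ i j Γ^k_ij ∂_k F_z + 2 grd c F_z + F_z lap c)`; `c φ_z = χ_z² φ` sums to `φ`.
So the error is `∑_z (χ_z a_z + b_z)` (each term extended by zero, supported over `B_z`).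
Pointwise Cauchy-Schwarz with `∑ χ_z² = 1`: `(∑ χ_z a_z)² ≤ ∑ 1_{U z} a_z²`, and
`∫_{U z} a_z² dvol ≤ 2 * 9 δ² ε⁴ ∑ ∫ (∂_i∂_j F_z)² ≤ 18 δ² ∫ φ_z² ≤ 36 δ² ∫_M χ_z² φ² dvol`, whose sum
over `z` is `36 δ² ∫ φ²` (no dependence on the number of charts). The coefficients in `b_z` are
bounded on `B_z` by some `A` depending only on `g, t, χ`, so
`∫ (∑ b_z)² ≤ card t * ∑ ∫ b_z² ≤ C (ε² + ε⁴) ∫ φ²`; choose `ε` small. It is convenient to prove first
a lemma on `E3` (for `Good G U`, a compact ball, a cut-off `c`) and then assemble. -/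
theorem parametrix (g : Met M) : ∃ ε : ℝ, 0 < ε ∧ ∀ φ : M → ℝ, Sm φ → ∃ F : M → ℝ, Sm F ∧
    ∫ x, (φ x - (F x - ε ^ 2 * Lap g F x)) ^ 2 ∂(vol g) ≤ (1 / 2) * ∫ x, φ x ^ 2 ∂(vol g) := by
  choose e K he hK hKe hU hδ hρ using fun z => param_nbhd g z (show (0 : ℝ) < 1 / 20 by norm_num)
  obtain ⟨t, χ, hχ, hs, hsum⟩ := exists_sq_partition _ hU
  choose A hA H using fun z => param_chart (he z) g (hK z) (hKe z) (hδ z) (hρ z) (hχ z) (hs z)
  set C : ℝ := t.card * ∑ z ∈ t, A z with hC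
  have hC0 : 0 ≤ C := mul_nonneg (Nat.cast_nonneg _) (Finset.sum_nonneg fun z _ => hA z)
  set ε : ℝ := 1 / (8 * C + 1) with hε
  have hε0 : 0 < ε := by positivity
  have hε1 : ε ≤ 1 := by rw [hε, div_le_one (by positivity)]; linarith
  have hεC : C * ε ^ 2 ≤ 1 / 8 := by
    have h1 : C * ε ≤ 1 / 8 := by
      rw [hε, mul_one_div, div_le_div_iff₀ (by positivity) (by norm_num)]; linarith
    nlinarith [mul_nonneg hC0 hε0.le]
  refine ⟨ε, hε0, fun φ hφ => ?_⟩
  choose f a b hf hid ia ib ea eb using fun z => H z ε hε0 hε1 φ hφ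
  have hF : Sm fun y => ∑ z ∈ t, f z y := contMDiff_finsetSum fun z _ => hf z
  refine ⟨_, hF, ?_⟩
  have icφ : ∀ z, Integrable (fun x => (χ z x * φ x) ^ 2) (vol g) := fun z =>
    integrable_of_continuous g (((hχ z).continuous.mul hφ.continuous).pow 2)
  have hsplit : ∑ z ∈ t, ∫ x, (χ z x * φ x) ^ 2 ∂(vol g) = ∫ x, φ x ^ 2 ∂(vol g) := by
    rw [← integral_finsetSum _ fun z _ => icφ z]
    congr 1; ext x
    simp only [mul_pow, ← Finset.sum_mul, hsum, one_mul]
  have hI0 : 0 ≤ ∫ x, φ x ^ 2 ∂(vol g) := integral_nonneg fun _ => sq_nonneg _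
  have hle : ∀ z ∈ t, ∫ x, (χ z x * φ x) ^ 2 ∂(vol g) ≤ ∫ x, φ x ^ 2 ∂(vol g) := fun z hz => by
    rw [← hsplit]
    exact Finset.single_le_sum (f := fun z => ∫ x, (χ z x * φ x) ^ 2 ∂(vol g))
      (fun _ _ => integral_nonneg fun _ => sq_nonneg _) hz
  have iA : Integrable (fun x => ∑ z ∈ t, a z x ^ 2) (vol g) :=
    integrable_finsetSum _ fun z _ => ia z
  have iB : Integrable (fun x => ∑ z ∈ t, b z x ^ 2) (vol g) :=
    integrable_finsetSum _ fun z _ => ib z
  calc ∫ x, (φ x - ((∑ z ∈ t, f z x) - ε ^ 2 * Lap g (fun y => ∑ z ∈ t, f z y) x)) ^ 2 ∂(vol g)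
      ≤ ∫ x, (2 * ∑ z ∈ t, a z x ^ 2 + 2 * t.card * ∑ z ∈ t, b z x ^ 2) ∂(vol g) := by
        refine integral_mono_of_nonneg (ae_of_all _ fun _ => sq_nonneg _)
          ((iA.const_mul _).add (iB.const_mul _)) (ae_of_all _ fun x => ?_)
        have h1 : φ x - ((∑ z ∈ t, f z x) - ε ^ 2 * Lap g (fun y => ∑ z ∈ t, f z y) x) =
            ∑ z ∈ t, χ z x * a z x + ∑ z ∈ t, b z x := by
          rw [param_lap_sum g t (fun z _ => hf z), Finset.mul_sum, ← Finset.sum_sub_distrib]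
          simp only [hid, Finset.sum_sub_distrib, ← Finset.sum_mul, hsum]
          ring
        have h2 := Finset.sum_mul_sq_le_sq_mul_sq t (fun z => χ z x) (fun z => a z x)
        rw [hsum, one_mul] at h2
        have h3 := sq_sum_le_card_mul_sum_sq (s := t) (f := fun z => b z x)
        simp only [h1]
        nlinarith [sq_nonneg (∑ z ∈ t, χ z x * a z x - ∑ z ∈ t, b z x)]
    _ = 2 * ∑ z ∈ t, ∫ x, a z x ^ 2 ∂(vol g) + 2 * t.card * ∑ z ∈ t, ∫ x, b z x ^ 2 ∂(vol g) := by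
        rw [integral_add (iA.const_mul _) (iB.const_mul _), integral_const_mul, integral_const_mul,
          integral_finsetSum _ fun z _ => ia z, integral_finsetSum _ fun z _ => ib z]
    _ ≤ 2 * ∑ z ∈ t, 36 * (1 / 20) ^ 2 * ∫ x, (χ z x * φ x) ^ 2 ∂(vol g) +
        2 * t.card * ∑ z ∈ t, A z * ε ^ 2 * ∫ x, φ x ^ 2 ∂(vol g) := by
        gcongr with z hz z hz
        · exact ea z
        · exact (eb z).trans (mul_le_mul_of_nonneg_left (hle z hz)
            (mul_nonneg (hA z) (sq_nonneg _)))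
    _ = (9 / 50 + 2 * (C * ε ^ 2)) * ∫ x, φ x ^ 2 ∂(vol g) := by
        rw [← Finset.mul_sum, hsplit, ← Finset.sum_mul, ← Finset.sum_mul, hC]; ring
    _ ≤ _ := mul_le_mul_of_nonneg_right (by linarith) hI0

end Pool.Agent.Lib.MP_40de08_gt
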