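import Pool.Agent.Lib.MP_40de08_gt.Glob
import Pool.Agent.Lib.MP_40de08_gt.Param
import Pool.Agent.Lib.MP_40de08_gt.Poinc

/-!
The Laplacians of smooth functions are dense among functions of mean zero.
-/

open scoped Manifold ContDiff Topology
open Matrix Filter Set MeasureTheory Metric

namespace Pool.Agent.Lib.MP_40de08_gt

variable {M : Type} [TopologicalSpace M] [ChartedSpace E3 M] [IsManifold (𝓡 3) ∞ M]
  [T2Space M] [CompactSpace M] [MeasurableSpace M] [BorelSpace M]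

omit [T2Space M] [CompactSpace M] [BorelSpace M] in
/-- Iteration of an approximate solution operator. -/
theorem dense_iter (g : Met M) (T : (M → ℝ) → M → ℝ)
    (hT : ∀ f h, Sm f → Sm h → ∀ x, T (fun y => f y + h y) x = T f x + T h x)
    (S : (M → ℝ) → Prop) {θ : ℝ} (h0 : 0 ≤ θ) (h1 : θ < 1)
    (hstep : ∀ φ, S φ → ∃ f, Sm f ∧ S (fun x => φ x - T f x) ∧
      ∫ x, (φ x - T f x) ^ 2 ∂(vol g) ≤ θ * ∫ x, φ x ^ 2 ∂(vol g))
    (φ : M → ℝ) (hφ : S φ) {η : ℝ} (hη : 0 < η) :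
    ∃ f, Sm f ∧ ∫ x, (φ x - T f x) ^ 2 ∂(vol g) ≤ η := by
  have key : ∀ n : ℕ, ∃ f, Sm f ∧ S (fun x => φ x - T f x) ∧
      ∫ x, (φ x - T f x) ^ 2 ∂(vol g) ≤ θ ^ (n + 1) * ∫ x, φ x ^ 2 ∂(vol g) := by
    intro n
    induction n with
    | zero => simpa using hstep φ hφ
    | succ n ih =>
      obtain ⟨f, hf, hS, hQ⟩ := ih
      obtain ⟨h, hh, hS', hQ'⟩ := hstep _ hS
      have e : ∀ x, φ x - T (fun y => f y + h y) x = φ x - T f x - T h x := by
        intro x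
        rw [hT f h hf hh x]
        ring
      refine ⟨fun y => f y + h y, hf.add hh, ?_, ?_⟩
      · simp only [e]
        exact hS'
      · simp only [e]
        refine le_trans hQ' (le_trans (mul_le_mul_of_nonneg_left hQ h0) (le_of_eq ?_))
        ring
  have hlim : Tendsto (fun n : ℕ => θ ^ (n + 1) * ∫ x, φ x ^ 2 ∂(vol g)) atTop (𝓝 0) := by
    have h2 := ((tendsto_pow_atTop_nhds_zero_of_lt_one h0 h1).comp
      (tendsto_add_atTop_nat 1)).mul_const (∫ x, φ x ^ 2 ∂(vol g))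
    rw [zero_mul] at h2
    exact h2
  obtain ⟨n, hn⟩ := (hlim.eventually (gt_mem_nhds hη)).exists
  obtain ⟨f, hf, _, hQ⟩ := key n
  exact ⟨f, hf, le_trans hQ hn.le⟩

/-- The operator `1 - ε² Lap` has dense range. -/
theorem dense_res (g : Met M) : ∃ ε : ℝ, 0 < ε ∧ ∀ φ : M → ℝ, Sm φ → ∀ η : ℝ, 0 < η →
    ∃ F : M → ℝ, Sm F ∧ ∫ x, (φ x - (F x - ε ^ 2 * Lap g F x)) ^ 2 ∂(vol g) ≤ η := by
  obtain ⟨ε, hε, hpar⟩ := parametrix g
  refine ⟨ε, hε, fun φ hφ η hη => ?_⟩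
  refine dense_iter g (fun F x => F x - ε ^ 2 * Lap g F x) (fun f h hf hh x => ?_) Sm
    (θ := 1 / 2) (by norm_num) (by norm_num) (fun ψ hψ => ?_) φ hφ hη
  · rw [lap_add g hf hh x]
    ring
  · obtain ⟨F, hF, hQ⟩ := hpar ψ hψ
    exact ⟨F, hF, hψ.sub (hF.sub (contMDiff_const.mul (sm_lap g hF))), hQ⟩

/-- One contraction step for the Laplacian on functions of mean zero. -/
theorem dense_step [ConnectedSpace M] (g : Met M) : ∃ θ : ℝ, 0 ≤ θ ∧ θ < 1 ∧
    ∀ φ : M → ℝ, Sm φ → ∫ x, φ x ∂(vol g) = 0 → ∃ f, Sm f ∧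
      ∫ x, (φ x - Lap g f x) ^ 2 ∂(vol g) ≤ θ * ∫ x, φ x ^ 2 ∂(vol g) := by
  obtain ⟨ε, hε, hres⟩ := dense_res g
  obtain ⟨C, hC, hpoin⟩ := poincare g
  have hε2 : 0 < ε ^ 2 := by positivity
  have hden : 0 < C + ε ^ 2 := by linarith
  refine ⟨(C + ε ^ 2 / 2) / (C + ε ^ 2), by positivity, ?_, fun φ hφ h0 => ?_⟩
  · rw [div_lt_one hden]
    linarith
  have hq0 : 0 ≤ ∫ x, φ x ^ 2 ∂(vol g) := integral_nonneg (fun x => sq_nonneg _)
  rcases hq0.eq_or_lt with hq | hq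
  · refine ⟨fun _ => 0, contMDiff_const, ?_⟩
    simp only [lap_const, sub_zero]
    rw [← hq, mul_zero]
  obtain ⟨F, hF, hr⟩ := hres φ hφ (ε ^ 2 * (∫ x, φ x ^ 2 ∂(vol g)) / (2 * (C + 2 * ε ^ 2)))
    (by positivity)
  obtain ⟨c, hc⟩ := hpoin F hF
  refine ⟨fun y => -ε ^ 2 * F y, contMDiff_const.mul hF, ?_⟩
  simp only [lap_const_mul g _ hF]
  have cφ : Continuous φ := hφ.continuous
  have cF : Continuous F := hF.continuous
  have cL : Continuous (Lap g F) := (sm_lap g hF).continuous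
  have cG : Continuous (Grd g F F) := (sm_grd g hF hF).continuous
  have I : ∀ {u : M → ℝ}, Continuous u → Integrable u (vol g) :=
    fun hu => integrable_of_continuous g hu
  have hgreen := int_green g hF hF
  rw [integral_add (I (by fun_prop)) (I cG)] at hgreen
  have hlap := int_lap g hF
  have h1 : ∫ x, (φ x - -ε ^ 2 * Lap g F x) ^ 2 ∂(vol g) ≤
      ∫ x, (φ x ^ 2 + 2 * ε ^ 2 * (F x * Lap g F x) +
        (φ x - (F x - ε ^ 2 * Lap g F x)) ^ 2) ∂(vol g) := by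
    refine integral_mono (I (by fun_prop)) (I (by fun_prop)) (fun x => ?_)
    nlinarith [sq_nonneg (φ x - F x)]
  rw [integral_add (I (by fun_prop)) (I (by fun_prop)),
    integral_add (I (by fun_prop)) (I (by fun_prop)), integral_const_mul] at h1
  have h2 : ∫ x, (φ x - -ε ^ 2 * Lap g F x) ^ 2 ∂(vol g) ≤
      ∫ x, (2 * (F x - c) ^ 2 + 2 * (φ x - (F x - ε ^ 2 * Lap g F x)) ^ 2 +
        (2 * c * φ x + 2 * c * ε ^ 2 * Lap g F x)) ∂(vol g) := by
    refine integral_mono (I (by fun_prop)) (I (by fun_prop)) (fun x => ?_)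
    nlinarith [sq_nonneg c, sq_nonneg (F x - c - (φ x - (F x - ε ^ 2 * Lap g F x)))]
  rw [integral_add (I (by fun_prop)) (I (by fun_prop)),
    integral_add (I (by fun_prop)) (I (by fun_prop)),
    integral_add (I (by fun_prop)) (I (by fun_prop)), integral_const_mul, integral_const_mul,
    integral_const_mul, integral_const_mul, h0, hlap] at h2
  rw [le_div_iff₀ (by positivity)] at hr
  rw [div_mul_eq_mul_div, le_div_iff₀ hden]
  generalize ∫ x, (φ x - -ε ^ 2 * Lap g F x) ^ 2 ∂(vol g) = a at h1 h2 ⊢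
  generalize ∫ x, (φ x - (F x - ε ^ 2 * Lap g F x)) ^ 2 ∂(vol g) = r at h1 h2 hr
  generalize ∫ x, φ x ^ 2 ∂(vol g) = q at h1 hr ⊢
  generalize ∫ x, (F x - c) ^ 2 ∂(vol g) = w at h2 hc
  generalize ∫ x, Grd g F F x ∂(vol g) = D at hc hgreen
  generalize ∫ x, F x * Lap g F x ∂(vol g) = E at h1 hgreen
  generalize ε ^ 2 = e at *
  have hE : E = -D := by linarith
  rw [hE] at h1
  have h3 := mul_le_mul_of_nonneg_left h1 hC
  have h4 := mul_le_mul_of_nonneg_left h2 hε2.le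
  have h5 := mul_le_mul_of_nonneg_left hc hε2.le
  nlinarith

/- Sketch. Write `Q φ = ∫ φ²`. Iteration lemma: if `T` is additive on smooth functions, `S` is a
class of smooth functions, `0 ≤ θ < 1` and every `φ ∈ S` has a smooth `f` with `φ - T f ∈ S` and
`Q (φ - T f) ≤ θ Q φ`, then `Q (φ - T f)` can be made `≤ θ^n Q φ`, hence arbitrarily small.
Apply it first to `T F = F - ε² Lap F` (`parametrix`). For `φ` of mean zero get `F` with small
`r = φ - F + ε² Lap F`; subtracting a constant from `F` we may assume `∫ F = 0` (then `∫ r = 0` and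
`Q r` does not increase). Then `Q F ≤ C ∫ Grd F F` (`poincare`, as `∫ F² ≤ ∫ (F - c)²` for mean zero
`F`), and by `int_green`, `∫ φ F = Q F + ε² ∫ Grd F F + ∫ r F`, so with `κ = 1 + ε² / (C + 1)`:
`κ Q F ≤ ∫ (φ - r) F ≤ √(Q (φ - r)) √(Q F)`. With `f = -ε² F`, `φ - Lap f = F + r` has mean zero and
`Q (F + r) ≤ θ Q φ` for a fixed `θ < 1` once `Q r ≤ η Q φ` with `η` small (if `Q φ = 0` take
`f = 0`). Apply the iteration lemma to `T = Lap` on smooth functions of mean zero. -/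
theorem lap_dense [ConnectedSpace M] (g : Met M) {φ : M → ℝ} (hφ : Sm φ)
    (h0 : ∫ x, φ x ∂(vol g) = 0) {η : ℝ} (hη : 0 < η) :
    ∃ f : M → ℝ, Sm f ∧ ∫ x, (φ x - Lap g f x) ^ 2 ∂(vol g) ≤ η := by
  obtain ⟨θ, hθ0, hθ1, hstep⟩ := dense_step g
  refine dense_iter g (Lap g) (fun f h hf hh x => lap_add g hf hh x)
    (fun ψ => Sm ψ ∧ ∫ x, ψ x ∂(vol g) = 0) hθ0 hθ1 (fun ψ hψ => ?_) φ ⟨hφ, h0⟩ hη
  obtain ⟨f, hf, hQ⟩ := hstep ψ hψ.1 hψ.2
  refine ⟨f, hf, ⟨hψ.1.sub (sm_lap g hf), ?_⟩, hQ⟩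
  rw [integral_sub (integrable_of_continuous g hψ.1.continuous)
    (integrable_of_continuous g (sm_lap g hf).continuous), hψ.2, int_lap g hf, sub_zero]

end Pool.Agent.Lib.MP_40de08_gt
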