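import Pool.Agent.Lib.MP_40de08_gt.Conf
import Pool.Agent.Lib.MP_40de08_gt.BumpG

/-!
The two estimates: a lower bound for the volume and an upper bound for the total scalar curvature.
-/

open scoped Manifold ContDiff Topology
open Matrix Filter Set MeasureTheory Metric

namespace Pool.Agent.Lib.MP_40de08_gt

variable {M : Type} [TopologicalSpace M] [ChartedSpace E3 M] [IsManifold (𝓡 3) ∞ M]
  [T2Space M] [CompactSpace M] [MeasurableSpace M] [BorelSpace M]

omit [ChartedSpace E3 M] [IsManifold (𝓡 3) ∞ M] [T2Space M] [MeasurableSpace M] [BorelSpace M] in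
theorem est_cover {ι : Type} (a₀ : ι) (P : ι → M → Prop)
    (hd : ∀ a b, ∃ c, (∀ q, P a q → P c q) ∧ ∀ q, P b q → P c q)
    (h : ∀ z, ∃ a, ∀ᶠ q in 𝓝 z, P a q) : ∃ a, ∀ q, P a q := by
  have key : ∃ a, ∀ q ∈ (univ : Set M), P a q := by
    refine isCompact_univ.induction_on (p := fun S => ∃ a, ∀ q ∈ S, P a q) ⟨a₀, by simp⟩
      ?_ ?_ ?_
    · rintro s t hst ⟨a, ha⟩
      exact ⟨a, fun q hq => ha q (hst hq)⟩
    · rintro s t ⟨a, ha⟩ ⟨b, hb⟩
      obtain ⟨c, h1, h2⟩ := hd a b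
      exact ⟨c, fun q hq => hq.elim (fun h => h1 q (ha q h)) fun h => h2 q (hb q h)⟩
    · intro z _
      obtain ⟨a, ha⟩ := h z
      exact ⟨_, mem_nhdsWithin_of_mem_nhds ha, a, fun q hq => hq⟩
  obtain ⟨a, ha⟩ := key
  exact ⟨a, fun q => ha q (mem_univ q)⟩

theorem est_log {s t : ℝ} (h : Real.exp ((1 / 4) * s) ≤ 2 * Real.exp ((1 / 4) * t)) :
    s ≤ t + 4 * Real.log 2 := by
  have h2 : 2 * Real.exp ((1 / 4) * t) = Real.exp (Real.log 2 + (1 / 4) * t) := by
    rw [Real.exp_add, Real.exp_log (by norm_num)]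
  rw [h2, Real.exp_le_exp] at h
  linarith

theorem est_vol_loc (g₀ : Met M) (z : M) : ∃ c : ℝ, 0 < c ∧ ∀ᶠ q in 𝓝 z,
    ∀ (g : Met M) (u : M → ℝ) (b : ℝ), Cf g₀ g u → (∀ x, 0 < sigma1 g x ∧ 0 < sigma2 g x) →
    (∀ x, u x ≤ b) → c * Real.exp (-(3 / 2) * (u q + b)) ≤ (vol g).real univ := by
  obtain ⟨e, he, hz, h1, r, hr, K, hK, hre, hH⟩ := holder_chart g₀ z
  have hG := he.good g₀
  have hc : ContinuousAt (rho (coef g₀ e)) (e z) :=
    (hG.smooth_rho.contDiffAt (e.open_target.mem_nhds (e.map_source hz))).continuousAt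
  have hrho : ∀ᶠ p in 𝓝 (e z), 1 / 2 < rho (coef g₀ e) p :=
    hc.eventually (lt_mem_nhds (by simp [rho, h1]; norm_num))
  obtain ⟨r₁, hr₁, hrho⟩ := Metric.eventually_nhds_iff_ball.1 hrho
  set R := min r r₁ with hR
  have hR0 : 0 < R := lt_min hr hr₁
  set δ := min (1 / K) (min 1 (R / 2)) with hδ
  have hδ0 : 0 < δ := lt_min (by positivity) (lt_min one_pos (by positivity))
  have hδK : K * δ ≤ 1 := by
    have : δ ≤ 1 / K := min_le_left _ _
    rwa [le_div_iff₀' hK] at this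
  have hδ1 : δ ≤ 1 := (min_le_right _ _).trans (min_le_left _ _)
  have hδR : δ ≤ R / 2 := (min_le_right _ _).trans (min_le_right _ _)
  have hB : 0 < (volume : Measure E3).real (ball 0 1) :=
    ENNReal.toReal_pos (measure_ball_pos _ _ one_pos).ne' measure_ball_lt_top.ne
  refine ⟨1 / 2 * Real.exp (-12 * Real.log 2) * δ ^ 6 * (volume : Measure E3).real (ball 0 1),
    by positivity, ?_⟩
  have hO : e.source ∩ e ⁻¹' ball (e z) (R / 2) ∈ 𝓝 z :=
    (e.isOpen_inter_preimage isOpen_ball).mem_nhds ⟨hz, mem_ball_self (by positivity)⟩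
  filter_upwards [hO] with q hq g u b hg hs hb
  set t := Real.exp ((1 / 4) * (u q - b)) with ht
  have ht0 : 0 < t := Real.exp_pos _
  have ht1 : t ≤ 1 := Real.exp_le_one_iff.2 (by linarith [hb q])
  have hdt : δ * t ≤ δ := mul_le_of_le_one_right hδ0.le ht1
  have hdt0 : 0 < δ * t := by positivity
  have hr₀ : (δ * t) ^ 2 ≤ R / 2 := by nlinarith
  have hsub : closedBall (e q) ((δ * t) ^ 2) ⊆ ball (e z) R := by
    refine closedBall_subset_ball' ?_
    have := mem_ball.1 hq.2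
    linarith
  have hsr : ball (e z) R ⊆ ball (e z) r := ball_subset_ball (min_le_left _ _)
  have hsr₁ : ball (e z) R ⊆ ball (e z) r₁ := ball_subset_ball (min_le_right _ _)
  have hst := (hsub.trans hsr).trans hre
  have hu : Continuous u := hg.1.continuous
  have hF : Continuous fun x => Real.exp (-3 * u x) := by fun_prop
  have e1 : (vol g).real univ = ∫ x, Real.exp (-3 * u x) ∂(vol g₀) := by
    have := integral_conf hu hg.2 (fun _ => 1)
    simpa using this
  have e2 : ∫ x in e.source ∩ e ⁻¹' closedBall (e q) ((δ * t) ^ 2), Real.exp (-3 * u x) ∂(vol g₀) ≤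
      ∫ x, Real.exp (-3 * u x) ∂(vol g₀) :=
    setIntegral_le_integral (integrable_of_continuous g₀ hF)
      (Eventually.of_forall fun x => (Real.exp_pos _).le)
  rw [he.setIntegral_eq g₀ hF.measurable measurableSet_closedBall hst] at e2
  have hint : IntegrableOn (fun p => rho (coef g₀ e) p * Real.exp (-3 * u (e.symm p)))
      (closedBall (e q) ((δ * t) ^ 2)) volume := by
    refine ContinuousOn.integrableOn_compact (isCompact_closedBall _ _) ?_
    exact ((hG.smooth_rho.continuousOn).mul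
      (hF.comp_continuousOn e.continuousOn_symm)).mono hst
  have hpt : ∀ p ∈ closedBall (e q) ((δ * t) ^ 2),
      1 / 2 * (Real.exp (-12 * Real.log 2) * Real.exp (-3 * u q)) ≤
        rho (coef g₀ e) p * Real.exp (-3 * u (e.symm p)) := by
    intro p hp
    have hq' : e q ∈ ball (e z) r := hsr (hsub (mem_closedBall_self (by positivity)))
    have h2 := hH g u b hg hs hb (e q) hq' p (hsr (hsub hp))
    rw [e.left_inv hq.1] at h2
    have h3 : Real.sqrt (dist p (e q)) ≤ δ * t := Real.sqrt_le_iff.2 ⟨hdt0.le, mem_closedBall.1 hp⟩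
    have h4 : t * Real.exp ((1 / 4) * b) = Real.exp ((1 / 4) * u q) := by
      rw [ht, ← Real.exp_add]; congr 1; ring
    have h5 : K * Real.sqrt (dist p (e q)) ≤ t :=
      calc K * Real.sqrt (dist p (e q)) ≤ K * (δ * t) := by gcongr
        _ = K * δ * t := by ring
        _ ≤ t := mul_le_of_le_one_left ht0.le hδK
    have h6 : K * Real.sqrt (dist p (e q)) * Real.exp ((1 / 4) * b) ≤
        t * Real.exp ((1 / 4) * b) := by gcongr
    have h7 := est_log (s := u (e.symm p)) (t := u q) (by linarith)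
    have h8 : Real.exp (-12 * Real.log 2) * Real.exp (-3 * u q) ≤
        Real.exp (-3 * u (e.symm p)) := by
      rw [← Real.exp_add, Real.exp_le_exp]; linarith
    exact mul_le_mul (hrho p (hsr₁ (hsub hp))).le h8 (by positivity)
      (hG.rho_pos (hst hp)).le
  have e3 := setIntegral_ge_of_const_le_real measurableSet_closedBall
    measure_closedBall_lt_top.ne hpt hint
  have e4 : (volume : Measure E3).real (closedBall (e q) ((δ * t) ^ 2)) =
      ((δ * t) ^ 2) ^ 3 * (volume : Measure E3).real (ball 0 1) := by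
    rw [Measure.real, Measure.addHaar_closedBall _ _ (by positivity), ENNReal.toReal_mul,
      ENNReal.toReal_ofReal (by positivity), Measure.real]
    simp
  have e5 : Real.exp (-(3 / 2) * (u q + b)) = Real.exp (-3 * u q) * t ^ 6 := by
    rw [ht, ← Real.exp_nat_mul, ← Real.exp_add]; congr 1; push_cast; ring
  rw [e1, e5]
  refine le_trans (le_of_eq ?_) (e3.trans e2)
  rw [e4]
  ring

omit [IsManifold (𝓡 3) ∞ M] [T2Space M] [CompactSpace M] [MeasurableSpace M] [BorelSpace M] in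
theorem est_sm_w {u : M → ℝ} (hu : Sm u) : Sm fun x => Real.exp (-(1 / 2) * u x) :=
  Real.contDiff_exp.contMDiff.comp (contMDiff_const.mul hu)

omit [T2Space M] [CompactSpace M] [MeasurableSpace M] [BorelSpace M] in
theorem est_bracket {g₀ g : Met M} {u : M → ℝ} (hg : Cf g₀ g u) {x : M} (hs : 0 < sigma1 g x) :
    0 < -2 * Lap g₀ (fun y => Real.exp (-(1 / 2) * u y)) x +
      sigma1 g₀ x * Real.exp (-(1 / 2) * u x) := by
  have h1 : 0 < Real.exp (-3 * u x) * sigma1 g x := by positivity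
  rw [hg.lap_w x] at h1
  exact (mul_pos_iff_of_pos_left (Real.exp_pos _)).1 h1

theorem est_w_loc [ConnectedSpace M] (g₀ : Met M) (z : M) : ∃ K : ℝ, 0 ≤ K ∧ ∀ᶠ p in 𝓝 z,
    ∀ (g : Met M) (u : M → ℝ), Cf g₀ g u → (∀ x, 0 < sigma1 g x ∧ 0 < sigma2 g x) →
    (∀ x, u x ≤ u p) →
    ∫ x, Real.exp (-(1 / 2) * u x) ∂(vol g₀) ≤ K * Real.exp (-(1 / 2) * u p) := by
  obtain ⟨e, he, hz, -, r, hr, K, hK, hre, hH⟩ := holder_chart g₀ z
  set R := min r ((1 / (2 * K)) ^ 2 / 2) with hR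
  have hR0 : 0 < R := lt_min hr (by positivity)
  have hsr : ball (e z) R ⊆ ball (e z) r := ball_subset_ball (min_le_left _ _)
  have hO : IsOpen (e.source ∩ e ⁻¹' ball (e z) R) := e.isOpen_inter_preimage isOpen_ball
  have hzO : z ∈ e.source ∩ e ⁻¹' ball (e z) R := ⟨hz, mem_ball_self hR0⟩
  have hc : Continuous fun x => sigma1 g₀ x / 2 := (sm_sigma1 g₀).continuous.div_const 2
  obtain ⟨K', hK', hB⟩ := bump_glob g₀ hc hO ⟨z, hzO⟩
  refine ⟨K' * ((vol g₀).real (e.source ∩ e ⁻¹' ball (e z) R) * Real.exp (2 * Real.log 2)),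
    by positivity, ?_⟩
  filter_upwards [hO.mem_nhds hzO] with p hp g u hg hs hb
  have hw := est_sm_w hg.1
  have h1 := hB _ hw (fun x => (Real.exp_pos _).le) fun x => by
    have := est_bracket hg (hs x).1
    linarith
  have hpt : ∀ x ∈ e.source ∩ e ⁻¹' ball (e z) R, Real.exp (-(1 / 2) * u x) ≤
      Real.exp (2 * Real.log 2) * Real.exp (-(1 / 2) * u p) := by
    intro x hx
    have h2 := hH g u (u p) hg hs hb (e x) (hsr hx.2) (e p) (hsr hp.2)
    rw [e.left_inv hx.1, e.left_inv hp.1] at h2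
    have h3 : dist (e p) (e x) ≤ (1 / (2 * K)) ^ 2 := by
      have a1 := mem_ball.1 hp.2
      have a2 := mem_ball.1 hx.2
      have a3 := dist_triangle_right (e p) (e x) (e z)
      have a4 : R ≤ (1 / (2 * K)) ^ 2 / 2 := min_le_right _ _
      linarith
    have h4 : Real.sqrt (dist (e p) (e x)) ≤ 1 / (2 * K) := Real.sqrt_le_iff.2 ⟨by positivity, h3⟩
    have h5 : K * Real.sqrt (dist (e p) (e x)) ≤ 1 / 2 :=
      calc K * Real.sqrt (dist (e p) (e x)) ≤ K * (1 / (2 * K)) := by gcongr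
        _ = 1 / 2 := by field_simp
    have h6 : K * Real.sqrt (dist (e p) (e x)) * Real.exp ((1 / 4) * u p) ≤
        1 / 2 * Real.exp ((1 / 4) * u p) := by gcongr
    have h7 := est_log (s := u p) (t := u x) (by linarith)
    rw [← Real.exp_add, Real.exp_le_exp]
    linarith
  have h2 := setIntegral_mono_on (μ := vol g₀) (integrable_of_continuous g₀ hw.continuous).integrableOn
    (integrableOn_const (measure_ne_top _ _)) hO.measurableSet hpt
  rw [setIntegral_const, smul_eq_mul] at h2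
  refine h1.trans ?_
  rw [mul_assoc K', mul_assoc]
  gcongr

/- Sketch. Local to global: if each `z` has a neighbourhood `O` and `c > 0` such that the bound
holds whenever the minimum point `q` lies in `O`, take a finite subcover and the least `c`.
For `z` take `e, r, K` from `holder_chart`, shrink `r` so that `rho ≥ 1/2` on the ball, enlarge `K` so
that `K⁻² ≤ r / 2`; `O = e.source ∩ e ⁻¹' ball (e z) (r / 2)`. Put `m = exp (u q / 4)`,
`Mx = exp (b / 4) ≥ m`, `r₀ = (m / (K Mx))² ≤ r / 2`. On `ball (e q) r₀`, `exp (u / 4) ≤ 2 m`, so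
`exp (-3 u) ≥ (2 m)⁻¹²`, and `vol g univ = ∫ exp (-3 u) dvol g₀ ≥ (2 m)⁻¹² (1 / 2) |ball 0 1| r₀³`
(`integral_conf`, `SC.setIntegral_eq`, `Measure.addHaar_ball`). -/
theorem est_vol (g₀ : Met M) : ∃ c : ℝ, 0 < c ∧ ∀ (g : Met M) (u : M → ℝ) (b : ℝ) (q : M),
    Cf g₀ g u → (∀ x, 0 < sigma1 g x ∧ 0 < sigma2 g x) → (∀ x, u x ≤ b) →
    c * Real.exp (-(3 / 2) * (u q + b)) ≤ (vol g).real univ := by
  obtain ⟨c, hc⟩ := est_cover (ι := {c : ℝ // 0 < c}) ⟨1, one_pos⟩
    (fun c q => ∀ (g : Met M) (u : M → ℝ) (b : ℝ), Cf g₀ g u →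
      (∀ x, 0 < sigma1 g x ∧ 0 < sigma2 g x) → (∀ x, u x ≤ b) →
      c.1 * Real.exp (-(3 / 2) * (u q + b)) ≤ (vol g).real univ)
    (fun a b => ⟨⟨min a.1 b.1, lt_min a.2 b.2⟩,
      fun q h g u b' h1 h2 h3 => le_trans
        (mul_le_mul_of_nonneg_right (min_le_left _ _) (Real.exp_pos _).le) (h g u b' h1 h2 h3),
      fun q h g u b' h1 h2 h3 => le_trans
        (mul_le_mul_of_nonneg_right (min_le_right _ _) (Real.exp_pos _).le) (h g u b' h1 h2 h3)⟩)
    (fun z => by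
      obtain ⟨c, hc, h⟩ := est_vol_loc g₀ z
      exact ⟨⟨c, hc⟩, h⟩)
  exact ⟨c.1, c.2, fun g u b q => hc q g u b⟩

/- Sketch. For `z` take `e, r, K` from `holder_chart` and `r' ≤ r` with `K √(2 r') ≤ 1 / 2`;
`O = e.source ∩ e ⁻¹' ball (e z) r'`. If the maximum point `p` lies in `O` then
`exp (u / 4) ≥ exp (u p / 4) / 2` on `O`, so `w = exp (-u / 2) ≤ 4 exp (-u p / 2)` on `O`; by `Cf.lap_w`
and `σ₁(g) > 0`, `Lap w ≤ (σ₁(g₀) / 2) w`; `bump_glob` gives
`∫ w ≤ K' * 4 exp (-u p / 2) * vol g₀ univ`. Finite subcover. -/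
theorem est_w [ConnectedSpace M] (g₀ : Met M) : ∃ K : ℝ, 0 ≤ K ∧
    ∀ (g : Met M) (u : M → ℝ) (p : M), Cf g₀ g u → (∀ x, 0 < sigma1 g x ∧ 0 < sigma2 g x) →
    (∀ x, u x ≤ u p) →
    ∫ x, Real.exp (-(1 / 2) * u x) ∂(vol g₀) ≤ K * Real.exp (-(1 / 2) * u p) := by
  obtain ⟨c, hc⟩ := est_cover (ι := {c : ℝ // 0 ≤ c}) ⟨0, le_rfl⟩
    (fun c p => ∀ (g : Met M) (u : M → ℝ), Cf g₀ g u →
      (∀ x, 0 < sigma1 g x ∧ 0 < sigma2 g x) → (∀ x, u x ≤ u p) →
      ∫ x, Real.exp (-(1 / 2) * u x) ∂(vol g₀) ≤ c.1 * Real.exp (-(1 / 2) * u p))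
    (fun a b => ⟨⟨max a.1 b.1, le_max_of_le_left a.2⟩,
      fun q h g u h1 h2 h3 => le_trans (h g u h1 h2 h3)
        (mul_le_mul_of_nonneg_right (le_max_left _ _) (Real.exp_pos _).le),
      fun q h g u h1 h2 h3 => le_trans (h g u h1 h2 h3)
        (mul_le_mul_of_nonneg_right (le_max_right _ _) (Real.exp_pos _).le)⟩)
    (fun z => by
      obtain ⟨c, hc, h⟩ := est_w_loc g₀ z
      exact ⟨⟨c, hc⟩, h⟩)
  exact ⟨c.1, c.2, fun g u p => hc p g u⟩

/- Sketch. `integral_conf`, `Cf.lap_w`: `∫ σ₁(g) dvol g = ∫ w (-2 Lap w + σ₁(g₀) w) dvol g₀`; the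
bracket is nonnegative and `w ≤ exp (-u q / 2)`; `int_lap`; `σ₁(g₀) ≤ A`; `est_w`. -/
theorem est_sigma1 [ConnectedSpace M] (g₀ : Met M) : ∃ K : ℝ, 0 ≤ K ∧
    ∀ (g : Met M) (u : M → ℝ) (p q : M), Cf g₀ g u → (∀ x, 0 < sigma1 g x ∧ 0 < sigma2 g x) →
    (∀ x, u q ≤ u x) → (∀ x, u x ≤ u p) →
    ∫ x, sigma1 g x ∂(vol g) ≤ K * Real.exp (-(1 / 2) * (u q + u p)) := by
  obtain ⟨K, hK, hw⟩ := est_w g₀
  obtain ⟨A, hA⟩ := (isCompact_range (sm_sigma1 g₀).continuous).bddAbove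
  have hA' : ∀ x, sigma1 g₀ x ≤ max A 0 := fun x => le_max_of_le_left (hA ⟨x, rfl⟩)
  have hA0 : 0 ≤ max A 0 := le_max_right _ _
  refine ⟨max A 0 * K, by positivity, fun g u p q hg hs hq hp => ?_⟩
  have hsm := est_sm_w hg.1
  have hc := hsm.continuous
  have hL := (sm_lap g₀ hsm).continuous
  have hs₀ := (sm_sigma1 g₀).continuous
  rw [integral_conf hg.1.continuous hg.2]
  simp only [hg.lap_w]
  have h1 : ∫ x, Real.exp (-(1 / 2) * u x) *
      (-2 * Lap g₀ (fun y => Real.exp (-(1 / 2) * u y)) x +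
        sigma1 g₀ x * Real.exp (-(1 / 2) * u x)) ∂(vol g₀) ≤
      ∫ x, Real.exp (-(1 / 2) * u q) * (-2 * Lap g₀ (fun y => Real.exp (-(1 / 2) * u y)) x +
        max A 0 * Real.exp (-(1 / 2) * u x)) ∂(vol g₀) := by
    refine integral_mono (integrable_of_continuous g₀ (by fun_prop))
      (integrable_of_continuous g₀ (by fun_prop)) fun x => ?_
    have a1 := est_bracket hg (hs x).1
    have a2 : Real.exp (-(1 / 2) * u x) ≤ Real.exp (-(1 / 2) * u q) :=
      Real.exp_le_exp.2 (by linarith [hq x])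
    have a3 : sigma1 g₀ x * Real.exp (-(1 / 2) * u x) ≤ max A 0 * Real.exp (-(1 / 2) * u x) :=
      mul_le_mul_of_nonneg_right (hA' x) (Real.exp_pos _).le
    exact mul_le_mul a2 (by linarith) a1.le (Real.exp_pos _).le
  refine h1.trans ?_
  rw [integral_const_mul, integral_add (integrable_of_continuous g₀ (by fun_prop))
    (integrable_of_continuous g₀ (by fun_prop)), integral_const_mul, integral_const_mul,
    int_lap g₀ hsm, mul_zero, zero_add, mul_add, Real.exp_add]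
  have h2 := hw g u p hg hs hp
  calc Real.exp (-(1 / 2) * u q) * (max A 0 * ∫ x, Real.exp (-(1 / 2) * u x) ∂(vol g₀))
      ≤ Real.exp (-(1 / 2) * u q) * (max A 0 * (K * Real.exp (-(1 / 2) * u p))) := by gcongr
    _ = _ := by ring

end Pool.Agent.Lib.MP_40de08_gt
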