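import Pool.Agent.Lib.MP_40de08_gt.Loc
import Pool.Agent.Lib.MP_40de08_gt.Alg2

/-!
The ring of smooth germs at a point, and transfer of algebraic identities to functions.
-/

open scoped ContDiff Topology
open Matrix Filter Set

namespace Pool.Agent.Lib.MP_40de08_gt

/-- Germs at `p` of functions smooth at `p`. -/
def SG (p : E3) : Subring (Germ (𝓝 p) ℝ) where
  carrier := {γ | ∃ f : E3 → ℝ, ContDiffAt ℝ ∞ f p ∧ γ = (f : Germ (𝓝 p) ℝ)}
  mul_mem' := by
    rintro _ _ ⟨f, hf, rfl⟩ ⟨g, hg, rfl⟩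
    exact ⟨f * g, hf.mul hg, rfl⟩
  one_mem' := ⟨1, contDiffAt_const, rfl⟩
  add_mem' := by
    rintro _ _ ⟨f, hf, rfl⟩ ⟨g, hg, rfl⟩
    exact ⟨f + g, hf.add hg, rfl⟩
  zero_mem' := ⟨0, contDiffAt_const, rfl⟩
  neg_mem' := by
    rintro _ ⟨f, hf, rfl⟩
    exact ⟨-f, hf.neg, rfl⟩

/-- Derivative of a germ. -/
noncomputable def gD (p : E3) (i : Fin 3) : Germ (𝓝 p) ℝ → Germ (𝓝 p) ℝ :=
  Germ.map' (pd i) fun _ _ e => pd_congr e i

/-- Derivative of a smooth germ. -/
noncomputable def sD (p : E3) (i : Fin 3) (a : SG p) : SG p :=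
  ⟨gD p i a.1, by
    obtain ⟨f, hf, e⟩ := a.2
    exact ⟨pd i f, contDiffAt_pd hf i, by rw [e]; rfl⟩⟩

/-- The smooth germ `a` is represented by `f`. -/
def Rep {p : E3} (a : SG p) (f : E3 → ℝ) : Prop := a.1 = (f : Germ (𝓝 p) ℝ)

/-- The germ of a smooth function. -/
def gm {p : E3} (f : E3 → ℝ) (hf : ContDiffAt ℝ ∞ f p) : SG p := ⟨f, f, hf, rfl⟩

theorem rep_gm {p : E3} (f : E3 → ℝ) (hf : ContDiffAt ℝ ∞ f p) : Rep (gm f hf) f := rfl

namespace Rep

variable {p : E3} {a b : SG p} {f g : E3 → ℝ}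

theorem ex (a : SG p) : ∃ f, ContDiffAt ℝ ∞ f p ∧ Rep a f := a.2

theorem evEq (ha : Rep a f) (hb : Rep a g) : f =ᶠ[𝓝 p] g :=
  Germ.coe_eq.1 ((Eq.symm ha).trans hb)

theorem eq_at (ha : Rep a f) (hb : Rep b g) (e : a = b) : f p = g p :=
  (ha.evEq (e ▸ hb)).eq_of_nhds

theorem ext (ha : Rep a f) (hb : Rep b g) (e : f =ᶠ[𝓝 p] g) : a = b :=
  Subtype.ext ((Eq.trans ha (Germ.coe_eq.2 e)).trans (Eq.symm hb))

theorem congr (ha : Rep a f) (e : f =ᶠ[𝓝 p] g) : Rep a g := Eq.trans ha (Germ.coe_eq.2 e)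

theorem smooth (ha : Rep a f) : ContDiffAt ℝ ∞ f p := by
  obtain ⟨g, hg, hb⟩ := ex a
  exact hg.congr_of_eventuallyEq (ha.evEq hb)

theorem add (ha : Rep a f) (hb : Rep b g) : Rep (a + b) fun x => f x + g x := by
  change a.1 + b.1 = _
  rw [ha, hb]
  rfl

theorem mul (ha : Rep a f) (hb : Rep b g) : Rep (a * b) fun x => f x * g x := by
  change a.1 * b.1 = _
  rw [ha, hb]
  rfl

theorem neg (ha : Rep a f) : Rep (-a) fun x => -f x := by
  change -a.1 = _
  rw [ha]
  rfl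

theorem sub (ha : Rep a f) (hb : Rep b g) : Rep (a - b) fun x => f x - g x := by
  rw [sub_eq_add_neg]
  simp only [sub_eq_add_neg]
  exact ha.add hb.neg

theorem one : Rep (1 : SG p) fun _ => 1 := rfl

theorem zero : Rep (0 : SG p) fun _ => 0 := rfl

theorem two : Rep (2 : SG p) fun _ => 2 := by
  have h := (one (p := p)).add one
  rw [one_add_one_eq_two] at h
  exact h.congr (Eventually.of_forall fun _ => one_add_one_eq_two)

theorem sum {a : Fin 3 → SG p} {f : Fin 3 → E3 → ℝ} (h : ∀ i, Rep (a i) (f i)) :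
    Rep (∑ i, a i) fun x => ∑ i, f i x := by
  simp only [Fin.sum_univ_three]
  exact ((h 0).add (h 1)).add (h 2)

theorem d (ha : Rep a f) (i : Fin 3) : Rep (sD p i a) (pd i f) := by
  change gD p i a.1 = _
  rw [ha]
  rfl

end Rep

theorem ev_diff {f : E3 → ℝ} {p : E3} (hf : ContDiffAt ℝ ∞ f p) :
    ∀ᶠ q in 𝓝 p, DifferentiableAt ℝ f q := by
  have h1 : ContDiffAt ℝ 1 f p := hf.of_le (by exact_mod_cast le_top)
  filter_upwards [h1.eventually (by simp)] with q hq
  exact hq.differentiableAt (by simp)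

theorem der_sD (p : E3) : Alg.Der (sD p) := by
  constructor
  · intro i a b
    obtain ⟨f, hf, ha⟩ := Rep.ex a
    obtain ⟨g, hg, hb⟩ := Rep.ex b
    refine ((ha.add hb).d i).ext ((ha.d i).add (hb.d i)) ?_
    filter_upwards [ev_diff hf, ev_diff hg] with q h1 h2 using pd_add h1 h2 i
  · intro i a b
    obtain ⟨f, hf, ha⟩ := Rep.ex a
    obtain ⟨g, hg, hb⟩ := Rep.ex b
    refine ((ha.mul hb).d i).ext (((ha.d i).mul hb).add (ha.mul (hb.d i))) ?_
    filter_upwards [ev_diff hf, ev_diff hg] with q h1 h2 using pd_mul h1 h2 i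
  · intro i j a
    obtain ⟨f, hf, ha⟩ := Rep.ex a
    refine ((ha.d j).d i).ext ((ha.d i).d j) ?_
    have h2 : ContDiffAt ℝ 2 f p := hf.of_le (WithTop.coe_le_coe.2 le_top)
    filter_upwards [h2.eventually (by simp)] with q hq
    have hs : IsSymmSndFDerivAt ℝ f q := hq.isSymmSndFDerivAt (by simp)
    have hd : DifferentiableAt ℝ (fderiv ℝ f) q :=
      (hq.fderiv_right (m := 1) (by norm_num)).differentiableAt (by simp)
    have key : ∀ a b : Fin 3, pd a (pd b f) q = fderiv ℝ (fderiv ℝ f) q (bas a) (bas b) := by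
      intro a b
      have h1 : pd b f = fun q => fderiv ℝ f q (bas b) := rfl
      rw [pd, h1, fderiv_clm_apply hd (differentiableAt_const _)]
      simp
    rw [key, key, hs.eq]

/-- Representation of matrices of germs. -/
def RepM {p : E3} (A : Alg.MA (SG p)) (F : E3 → Mat) : Prop := ∀ i j, Rep (A i j) fun x => F x i j

/-- Representation of vectors of germs. -/
def RepV {p : E3} (v : Fin 3 → SG p) (F : E3 → Fin 3 → ℝ) : Prop := ∀ i, Rep (v i) fun x => F x i

section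

variable {p : E3} {A B : Alg.MA (SG p)} {F F' : E3 → Mat} {v w : Fin 3 → SG p}
  {X Y : E3 → Fin 3 → ℝ} {a : SG p} {f : E3 → ℝ}

theorem RepM.eq_at (hA : RepM A F) (hB : RepM B F') (e : A = B) : F p = F' p := by
  ext i j
  exact (hA i j).eq_at (hB i j) (by rw [e])

theorem RepV.eq_at (hA : RepV v X) (hB : RepV w Y) (e : v = w) : X p = Y p := by
  ext i
  exact (hA i).eq_at (hB i) (by rw [e])

theorem RepM.ext (hA : RepM A F) (hB : RepM B F') (e : F =ᶠ[𝓝 p] F') : A = B := by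
  ext1 i j
  refine (hA i j).ext (hB i j) ?_
  filter_upwards [e] with q hq
  rw [hq]

theorem RepM.mul (hA : RepM A F) (hB : RepM B F') : RepM (A * B) fun x => F x * F' x :=
  fun i j => by
    simp only [Matrix.mul_apply]
    exact Rep.sum fun k => (hA i k).mul (hB k j)

theorem RepM.add (hA : RepM A F) (hB : RepM B F') : RepM (A + B) fun x => F x + F' x :=
  fun i j => (hA i j).add (hB i j)

theorem RepM.smul (ha : Rep a f) (hB : RepM B F') : RepM (a • B) fun x => f x • F' x :=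
  fun i j => ha.mul (hB i j)

theorem RepM.tr (hA : RepM A F) : RepM Aᵀ fun x => (F x)ᵀ := fun i j => hA j i

theorem RepM.one : RepM (1 : Alg.MA (SG p)) fun _ => 1 := fun i j => by
  by_cases e : i = j
  · subst e
    simp only [Matrix.one_apply_eq]
    exact Rep.one
  · simp only [Matrix.one_apply_ne e]
    exact Rep.zero

theorem RepM.trace (hA : RepM A F) : Rep A.trace fun x => (F x).trace :=
  Rep.sum fun i => hA i i

theorem RepM.det (hA : RepM A F) : Rep A.det fun x => (F x).det := by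
  simp only [Matrix.det_fin_three]
  exact (((((((hA 0 0).mul (hA 1 1)).mul (hA 2 2)).sub (((hA 0 0).mul (hA 1 2)).mul (hA 2 1))).sub
    (((hA 0 1).mul (hA 1 0)).mul (hA 2 2))).add (((hA 0 1).mul (hA 1 2)).mul (hA 2 0))).add
    (((hA 0 2).mul (hA 1 0)).mul (hA 2 1))).sub (((hA 0 2).mul (hA 1 1)).mul (hA 2 0))

theorem RepM.mulVec (hA : RepM A F) (hv : RepV v X) : RepV (A *ᵥ v) fun x => F x *ᵥ X x :=
  fun i => by
    simp only [Matrix.mulVec, dotProduct]
    exact Rep.sum fun k => (hA i k).mul (hv k)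

theorem RepV.dot (hv : RepV v X) (hw : RepV w Y) : Rep (v ⬝ᵥ w) fun x => X x ⬝ᵥ Y x :=
  Rep.sum fun k => (hv k).mul (hw k)

theorem RepV.vv (hv : RepV v X) (hw : RepV w Y) :
    RepM (vecMulVec v w) fun x => vecMulVec (X x) (Y x) := fun i j => (hv i).mul (hw j)

theorem RepV.smul (ha : Rep a f) (hw : RepV w Y) : RepV (a • w) fun x => f x • Y x :=
  fun i => ha.mul (hw i)

theorem RepV.sub (hv : RepV v X) (hw : RepV w Y) : RepV (v - w) fun x => X x - Y x :=
  fun i => (hv i).sub (hw i)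

theorem Rep.dif (ha : Rep a f) : RepV (Alg.dif (sD p) a) (dv f) := fun i => ha.d i

end

/-- The germ of the constant one half. -/
noncomputable def sh (p : E3) : SG p := gm (fun _ => (1 / 2 : ℝ)) contDiffAt_const

section

variable {p : E3} {sG sH : Alg.MA (SG p)} {G : E3 → Mat}

theorem rep_om (h1 : RepM sG G) (h2 : RepM sH fun x => (G x)⁻¹) (i k j : Fin 3) :
    Rep (Alg.om (sD p) (sh p) sG sH i k j) (chr G k i j) :=
  (rep_gm _ _).mul (Rep.sum fun l =>
    (h2 k l).mul ((((h1 j l).d i).add ((h1 i l).d j)).sub ((h1 i j).d l)))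

theorem rep_ric {w : Fin 3 → Alg.MA (SG p)} (hw : ∀ i k j, Rep (w i k j) (chr G k i j)) :
    RepM (Alg.ricA (sD p) w) (ric G) := fun j k => by
  simp only [Alg.ricA, ric, Matrix.of_apply]
  exact Rep.sum fun i => (((hw j i k).d i).sub ((hw i i k).d j)).add (Rep.sum fun m =>
    ((hw i i m).mul (hw j m k)).sub ((hw j i m).mul (hw i m k)))

theorem rep_hes {w : Fin 3 → Alg.MA (SG p)} (hw : ∀ i k j, Rep (w i k j) (chr G k i j))
    {a : SG p} {f : E3 → ℝ} (ha : Rep a f) : RepM (Alg.hesA (sD p) w a) (hes G f) :=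
  fun i j => ((ha.d j).d i).sub (Rep.sum fun k => (hw i k j).mul (ha.d k))

end

/-- Germs of a good metric. -/
theorem Good.germs {G : E3 → Mat} {U : Set E3} (hG : Good G U) {p : E3} (hp : p ∈ U) :
    ∃ sG sH : Alg.MA (SG p), RepM sG G ∧ (RepM sH fun x => (G x)⁻¹) ∧ Alg.Mt (sh p) sG sH := by
  have hU := hG.isOpen.mem_nhds hp
  have h1 : RepM (Matrix.of fun i j => gm (fun x => G x i j) ((hG.smooth i j).contDiffAt hU)) G :=
    fun i j => rep_gm _ ((hG.smooth i j).contDiffAt hU)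
  have h2 : RepM (Matrix.of fun i j => gm (fun x => (G x)⁻¹ i j)
      ((hG.smooth_inv i j).contDiffAt hU)) fun x => (G x)⁻¹ :=
    fun i j => rep_gm _ ((hG.smooth_inv i j).contDiffAt hU)
  refine ⟨_, _, h1, h2, ?_, ?_, ?_⟩
  · exact ((rep_gm _ _).add (rep_gm _ _)).ext Rep.one (Eventually.of_forall fun _ => by norm_num)
  · intro i j
    refine (h1 i j).ext (h1 j i) ?_
    filter_upwards [hU] with q hq using hG.symm hq i j
  · refine (h1.mul h2).ext RepM.one ?_
    filter_upwards [hU] with q hq using Matrix.mul_nonsing_inv _ (hG.det_pos hq).ne'.isUnit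

/-- Composition of smooth germs with a smooth map. -/
noncomputable def pullG {τ : E3 → E3} {p : E3} (hτ : ContDiffAt ℝ ∞ τ p) : SG (τ p) →+* SG p where
  toFun a := ⟨a.1.compTendsto τ hτ.continuousAt, by
    obtain ⟨f, hf, e⟩ := a.2
    exact ⟨f ∘ τ, hf.comp p hτ, by rw [e]; rfl⟩⟩
  map_one' := rfl
  map_zero' := rfl
  map_mul' := by
    rintro ⟨_, f, hf, rfl⟩ ⟨_, g, hg, rfl⟩
    rfl
  map_add' := by
    rintro ⟨_, f, hf, rfl⟩ ⟨_, g, hg, rfl⟩
    rfl

theorem Rep.pull {τ : E3 → E3} {p : E3} (hτ : ContDiffAt ℝ ∞ τ p) {a : SG (τ p)} {f : E3 → ℝ}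
    (ha : Rep a f) : Rep (pullG hτ a) (f ∘ τ) := by
  change a.1.compTendsto τ hτ.continuousAt = _
  rw [ha]
  rfl

end Pool.Agent.Lib.MP_40de08_gt
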