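import Pool.Agent.Lib.MP_40de08_gt.Inv
import Pool.Agent.Lib.MP_40de08_gt.Vol

/-!
Integration by parts on a closed manifold: Green, Bochner and Bianchi identities.
-/

open scoped Manifold ContDiff Topology
open Matrix Filter Set MeasureTheory Metric

namespace Pool.Agent.Lib.MP_40de08_gt

variable {M : Type} [TopologicalSpace M] [ChartedSpace E3 M] [IsManifold (𝓡 3) ∞ M]
  [T2Space M] [CompactSpace M] [MeasurableSpace M] [BorelSpace M]

/- Sketch. Each integrand `Φ h x` is additive in the smooth function `h` (`lap_add`, `grd_add`,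
`hh_add`, ...), continuous in `x` (`sm_lap`, ...), and vanishes at `x` if `h` vanishes near `x`
(`vanish`). Write `h = ∑ z ∈ t, χ z ^ 2 * h` with `exists_sq_partition` for
`U z = (chartAt E3 z).source` (a general lemma by induction on finsets: an additive functional on
smooth functions vanishing on those supported in a chart source vanishes). For `h` supported in
`e.source`, use `SC.integral_eq`, the `_eq` lemmas and `Good.int_green` etc. with
`K = e '' tsupport h`. -/

theorem glob_local (g : Met M) (Φ : (M → ℝ) → M → ℝ)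
    (hadd : ∀ h h', Sm h → Sm h' → ∀ x, Φ (fun y => h y + h' y) x = Φ h x + Φ h' x)
    (hcont : ∀ h, Sm h → Continuous (Φ h))
    (hvan : ∀ h x, (h =ᶠ[𝓝 x] fun _ => 0) → Φ h x = 0)
    (hloc : ∀ (e : OpenPartialHomeomorph M E3) (h : M → ℝ), SC e → Sm h → ∀ K : Set E3,
      IsCompact K → K ⊆ e.target → (∀ p ∈ e.target, p ∉ K → (h ∘ e.symm) p = 0) →
      ∫ p in e.target, rho (coef g e) p * Φ h (e.symm p) = 0)
    {h : M → ℝ} (hh' : Sm h) : ∫ x, Φ h x ∂(vol g) = 0 := by
  classical
  have key : ∀ (e : OpenPartialHomeomorph M E3) (k : M → ℝ), SC e → Sm k →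
      tsupport k ⊆ e.source → ∫ x, Φ k x ∂(vol g) = 0 := by
    intro e k he hk hs
    rw [he.integral_eq g (hcont k hk).measurable]
    · refine hloc e k he hk (e '' tsupport k) ?_ ?_ ?_
      · exact (isClosed_tsupport k).isCompact.image_of_continuousOn (e.continuousOn.mono hs)
      · rintro _ ⟨x, hx, rfl⟩
        exact e.map_source (hs hx)
      · intro p hp hpK
        by_contra hne
        exact hpK ⟨e.symm p, subset_tsupport k hne, e.right_inv hp⟩
    · intro x hx
      exact hvan k x (notMem_tsupport_iff_eventuallyEq.1 fun hx' => hx (hs hx'))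
  obtain ⟨t, χ, hχ, hsupp, hsum⟩ := exists_sq_partition (M := M)
    (fun z => (chartAt E3 z).source) (fun z => chart_source_mem_nhds E3 z)
  have hpiece : ∀ z, Sm (fun x => χ z x ^ 2 * h x) := fun z => ((hχ z).pow 2).mul hh'
  have hfin : ∀ s : Finset M, Sm (fun x => ∑ z ∈ s, χ z x ^ 2 * h x) ∧
      ∫ x, Φ (fun x => ∑ z ∈ s, χ z x ^ 2 * h x) x ∂(vol g) = 0 := by
    intro s
    induction s using Finset.induction_on with
    | empty =>
      refine ⟨by simpa using contMDiff_const, ?_⟩
      have h0 : ∀ x, Φ (fun x => ∑ z ∈ (∅ : Finset M), χ z x ^ 2 * h x) x = 0 :=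
        fun x => hvan _ x (Eventually.of_forall fun y => by simp)
      simp only [h0, integral_zero]
    | insert a s ha ih =>
      have he : (fun x => ∑ z ∈ insert a s, χ z x ^ 2 * h x) =
          fun x => χ a x ^ 2 * h x + ∑ z ∈ s, χ z x ^ 2 * h x := by
        funext x
        rw [Finset.sum_insert ha]
      rw [he]
      refine ⟨(hpiece a).add ih.1, ?_⟩
      simp only [hadd _ _ (hpiece a) ih.1]
      rw [integral_add (integrable_of_continuous g (hcont _ (hpiece a)))
        (integrable_of_continuous g (hcont _ ih.1)), ih.2, add_zero]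
      refine key (chartAt E3 a) _ (sc_chartAt a) (hpiece a) (subset_trans ?_ (hsupp a))
      refine closure_mono fun x hx hx0 => hx ?_
      simp [hx0]
  have he : (fun x => ∑ z ∈ t, χ z x ^ 2 * h x) = h := by
    funext x
    rw [← Finset.sum_mul, hsum, one_mul]
  have h2 := (hfin t).2
  rwa [he] at h2

theorem int_green (g : Met M) {f h : M → ℝ} (hf : Sm f) (hh' : Sm h) :
    ∫ x, (f x * Lap g h x + Grd g f h x) ∂(vol g) = 0 := by
  refine glob_local g (fun h x => f x * Lap g h x + Grd g f h x) ?_ ?_ ?_ ?_ hh'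
  · intro h h' h1 h2 x
    simp only [lap_add g h1 h2, grd_add g h1 h2]
    ring
  · intro h h1
    exact (hf.continuous.mul (sm_lap g h1).continuous).add (sm_grd g hf h1).continuous
  · intro h x h0
    obtain ⟨a1, a2, -, -, -⟩ := vanish g f h0
    simp only [a1, a2, mul_zero, add_zero]
  · intro e h he h1 K hK hKe h0
    rw [← (he.good g).int_green (he.smooth_loc hf) (he.smooth_loc h1) hK hKe h0]
    refine setIntegral_congr_fun e.open_target.measurableSet fun p hp => ?_
    have hx := e.map_target hp
    simp only [he.lap_eq g h1 hx, he.grd_eq g hf h1 hx, e.right_inv hp, Function.comp_apply]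

theorem int_bochner (g : Met M) {f h : M → ℝ} (hf : Sm f) (hh' : Sm h) :
    ∫ x, (Lap g f x * Lap g h x - HH g f h x - RG g f h x) ∂(vol g) = 0 := by
  refine glob_local g (fun h x => Lap g f x * Lap g h x - HH g f h x - RG g f h x)
    ?_ ?_ ?_ ?_ hh'
  · intro h h' h1 h2 x
    simp only [lap_add g h1 h2, hh_add g h1 h2, rg_add g h1 h2]
    ring
  · intro h h1
    exact (((sm_lap g hf).continuous.mul (sm_lap g h1).continuous).sub
      (sm_hh g hf h1).continuous).sub (sm_rg g hf h1).continuous
  · intro h x h0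
    obtain ⟨a1, -, a3, -, a5⟩ := vanish g f h0
    simp only [a1, a3, a5, mul_zero, sub_zero]
  · intro e h he h1 K hK hKe h0
    rw [← (he.good g).int_bochner (he.smooth_loc hf) (he.smooth_loc h1) hK hKe h0]
    refine setIntegral_congr_fun e.open_target.measurableSet fun p hp => ?_
    have hx := e.map_target hp
    simp only [he.lap_eq g h1 hx, he.lap_eq g hf hx, he.hh_eq g hf h1 hx, he.rg_eq g hf h1 hx,
      e.right_inv hp]

theorem int_bianchi (g : Met M) {h : M → ℝ} (hh' : Sm h) :
    ∫ x, (PH g h x - 2 * sigma1 g x * Lap g h x) ∂(vol g) = 0 := by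
  refine glob_local g (fun h x => PH g h x - 2 * sigma1 g x * Lap g h x) ?_ ?_ ?_ ?_ hh'
  · intro h h' h1 h2 x
    simp only [lap_add g h1 h2, ph_add g h1 h2]
    ring
  · intro h h1
    exact (sm_ph g h1).continuous.sub ((continuous_const.mul (sm_sigma1 g).continuous).mul
      (sm_lap g h1).continuous)
  · intro h x h0
    obtain ⟨a1, -, -, a4, -⟩ := vanish g h h0
    simp only [a1, a4, mul_zero, sub_zero]
  · intro e h he h1 K hK hKe h0
    rw [← (he.good g).int_bianchi (he.smooth_loc h1) hK hKe h0]
    refine setIntegral_congr_fun e.open_target.measurableSet fun p hp => ?_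
    have hx := e.map_target hp
    simp only [he.lap_eq g h1 hx, he.ph_eq g h1 hx, he.sigma1_eq g hx, e.right_inv hp]
    ring

theorem int_lap (g : Met M) {h : M → ℝ} (hh' : Sm h) : ∫ x, Lap g h x ∂(vol g) = 0 := by
  have h1 := int_green g (f := fun _ => (1 : ℝ)) contMDiff_const hh'
  have h2 : ∀ x, Grd g (fun _ => (1 : ℝ)) h x = 0 := fun x => by
    rw [grd_comm, grd_const]
  simpa only [h2, one_mul, add_zero] using h1

theorem int_lap_symm (g : Met M) {f h : M → ℝ} (hf : Sm f) (hh' : Sm h) :
    ∫ x, f x * Lap g h x ∂(vol g) = ∫ x, h x * Lap g f x ∂(vol g) := by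
  have h1 := int_green g hf hh'
  have h2 := int_green g hh' hf
  have i1 : Integrable (fun x => f x * Lap g h x) (vol g) :=
    integrable_of_continuous g (hf.continuous.mul (sm_lap g hh').continuous)
  have i2 : Integrable (fun x => h x * Lap g f x) (vol g) :=
    integrable_of_continuous g (hh'.continuous.mul (sm_lap g hf).continuous)
  rw [integral_add i1 (integrable_of_continuous g (sm_grd g hf hh').continuous)] at h1
  rw [integral_add i2 (integrable_of_continuous g (sm_grd g hh' hf).continuous)] at h2
  have h3 : ∫ x, Grd g h f x ∂(vol g) = ∫ x, Grd g f h x ∂(vol g) := by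
    simp only [grd_comm g h f]
  linarith

end Pool.Agent.Lib.MP_40de08_gt
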