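import Pool.Agent.Lib.MP_40de08_gt.Germ

/-!
Local identities of Riemannian geometry.
-/

open scoped ContDiff Topology
open Matrix Filter Set MeasureTheory

namespace Pool.Agent.Lib.MP_40de08_gt

/-- The Jacobian matrix. -/
noncomputable def jac (τ : E3 → E3) (p : E3) : Mat := Matrix.of fun i a => pd a (fun y => τ y i) p

theorem chr_congr {G G' : E3 → Mat} {p : E3} (e : G =ᶠ[𝓝 p] G') (k i j : Fin 3) :
    chr G k i j =ᶠ[𝓝 p] chr G' k i j := by
  filter_upwards [e.eventually_nhds] with q hq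
  have h1 : ∀ a b c, pd c (fun x => G x a b) q = pd c (fun x => G' x a b) q := by
    intro a b c
    refine (pd_congr ?_ c).eq_of_nhds
    filter_upwards [hq] with x hx
    rw [hx]
  simp only [chr, h1, hq.self_of_nhds]

theorem ric_congr {G G' : E3 → Mat} {p : E3} (e : G =ᶠ[𝓝 p] G') : ric G p = ric G' p := by
  have h1 := fun k i j => (chr_congr e k i j).eq_of_nhds
  have h2 := fun k i j a => (pd_congr (chr_congr e k i j) a).eq_of_nhds
  simp only [ric, h1, h2]

theorem dv_congr {f f' : E3 → ℝ} {p : E3} (e : f =ᶠ[𝓝 p] f') : dv f p = dv f' p :=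
  funext fun i => (pd_congr e i).eq_of_nhds

theorem hes_congr (G : E3 → Mat) {f f' : E3 → ℝ} {p : E3} (e : f =ᶠ[𝓝 p] f') :
    hes G f p = hes G f' p := by
  have h1 := fun i => (pd_congr e i).eq_of_nhds
  have h2 := fun i j => (pd_congr (pd_congr e i) j).eq_of_nhds
  simp only [hes, h1, h2]

theorem hes_const (G : E3 → Mat) (c : ℝ) (p : E3) : hes G (fun _ => c) p = 0 := by
  have h1 : ∀ j, pd j (fun _ => c) = fun _ => 0 := fun j => funext fun q => pd_const c q j
  ext i j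
  simp [hes, h1, pd_const]

theorem hes_add (G : E3 → Mat) {f h : E3 → ℝ} {p : E3} (hf : ContDiffAt ℝ ∞ f p)
    (hh : ContDiffAt ℝ ∞ h p) : hes G (fun x => f x + h x) p = hes G f p + hes G h p := by
  have e : ∀ j, pd j (fun x => f x + h x) =ᶠ[𝓝 p] fun x => pd j f x + pd j h x := by
    intro j
    filter_upwards [ev_diff hf, ev_diff hh] with q h1 h2 using pd_add h1 h2 j
  ext i j
  simp only [hes, Matrix.of_apply, Matrix.add_apply, (pd_congr (e j) i).eq_of_nhds,
    fun k => (e k).eq_of_nhds,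
    pd_add (diffAt (contDiffAt_pd hf j)) (diffAt (contDiffAt_pd hh j)), Fin.sum_univ_three]
  ring

theorem hes_mul (G : E3 → Mat) {f h : E3 → ℝ} {p : E3} (hf : ContDiffAt ℝ ∞ f p)
    (hh : ContDiffAt ℝ ∞ h p) : hes G (fun x => f x * h x) p = f p • hes G h p + h p • hes G f p +
      vecMulVec (dv f p) (dv h p) + vecMulVec (dv h p) (dv f p) := by
  have e : ∀ j, pd j (fun x => f x * h x) =ᶠ[𝓝 p] fun x => pd j f x * h x + f x * pd j h x := by
    intro j
    filter_upwards [ev_diff hf, ev_diff hh] with q h1 h2 using pd_mul h1 h2 j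
  ext i j
  have d1 := diffAt (contDiffAt_pd hf j)
  have d2 := diffAt (contDiffAt_pd hh j)
  have e2 : pd i (fun x => pd j f x * h x + f x * pd j h x) p =
      (pd i (pd j f) p * h p + pd j f p * pd i h p) + (pd i f p * pd j h p + f p * pd i (pd j h) p) := by
    rw [pd_add (d1.fun_mul (diffAt hh)) ((diffAt hf).fun_mul d2), pd_mul d1 (diffAt hh),
      pd_mul (diffAt hf) d2]
  simp only [hes, dv, Matrix.of_apply, Matrix.add_apply, Matrix.smul_apply, smul_eq_mul,
    vecMulVec_apply, (pd_congr (e j) i).eq_of_nhds, fun k => (e k).eq_of_nhds, e2,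
    Fin.sum_univ_three]
  ring

theorem pd_exp {u : E3 → ℝ} {p : E3} (hu : DifferentiableAt ℝ u p) (c : ℝ) (j : Fin 3) :
    pd j (fun x => Real.exp (c * u x)) p = c * Real.exp (c * u p) * pd j u p := by
  have h := pd_comp (φ := fun t => Real.exp (c * t)) (f := u) (p := p)
    (((hasDerivAt_id (u p)).const_mul c).exp) hu j
  rw [h]
  simp only [id]
  ring

theorem hes_exp (G : E3 → Mat) {u : E3 → ℝ} {p : E3} (hu : ContDiffAt ℝ ∞ u p) (c : ℝ) :
    hes G (fun x => Real.exp (c * u x)) p = (c * Real.exp (c * u p)) • hes G u p +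
      (c * c * Real.exp (c * u p)) • vecMulVec (dv u p) (dv u p) := by
  have e : ∀ j, pd j (fun x => Real.exp (c * u x)) =ᶠ[𝓝 p]
      fun x => (c * Real.exp (c * u x)) * pd j u x := by
    intro j
    filter_upwards [ev_diff hu] with q h1 using pd_exp h1 c j
  ext i j
  have d0 : DifferentiableAt ℝ (fun x => Real.exp (c * u x)) p := ((diffAt hu).const_mul c).exp
  have e2 : pd i (fun x => (c * Real.exp (c * u x)) * pd j u x) p =
      c * (c * Real.exp (c * u p) * pd i u p) * pd j u p +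
        c * Real.exp (c * u p) * pd i (pd j u) p := by
    rw [pd_mul (d0.const_mul c) (diffAt (contDiffAt_pd hu j)),
      pd_mul (differentiableAt_const c) d0, pd_const, pd_exp (diffAt hu)]
    ring
  simp only [hes, dv, Matrix.of_apply, Matrix.add_apply, Matrix.smul_apply, smul_eq_mul,
    vecMulVec_apply, (pd_congr (e j) i).eq_of_nhds, fun k => (e k).eq_of_nhds, e2,
    Fin.sum_univ_three]
  ring

theorem integral_pd_eq_zero {U K : Set E3} (hU : IsOpen U) (hK : IsCompact K) (hKU : K ⊆ U)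
    {Z : E3 → ℝ} (hZ : ContDiffOn ℝ ∞ Z U) (h0 : ∀ p ∈ U, p ∉ K → Z p = 0) (i : Fin 3) :
    IntegrableOn (pd i Z) U ∧ ∫ p in U, pd i Z p = 0 := by
  have hc : HasCompactSupport (U.indicator Z) := by
    refine HasCompactSupport.intro hK fun x hx => ?_
    by_cases h : x ∈ U
    · rw [indicator_of_mem h, h0 x h hx]
    · exact indicator_of_notMem h _
  have hev : ∀ p ∈ U, U.indicator Z =ᶠ[𝓝 p] Z := fun p hp => by
    filter_upwards [hU.mem_nhds hp] with q hq using indicator_of_mem hq _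
  have hev0 : ∀ p, p ∉ K → U.indicator Z =ᶠ[𝓝 p] fun _ => 0 := fun p hp => by
    filter_upwards [hK.isClosed.isOpen_compl.mem_nhds hp] with x hx
    by_cases h : x ∈ U
    · rw [indicator_of_mem h, h0 x h hx]
    · exact indicator_of_notMem h _
  have hs : ContDiff ℝ ∞ (U.indicator Z) := by
    refine contDiff_iff_contDiffAt.2 fun p => ?_
    by_cases h : p ∈ U
    · exact (hZ.contDiffAt (hU.mem_nhds h)).congr_of_eventuallyEq (hev p h)
    · exact contDiffAt_const.congr_of_eventuallyEq (hev0 p fun hp => h (hKU hp))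
  have hi : Integrable (pd i (U.indicator Z)) :=
    (contDiff_pd hs i).continuous.integrable_of_hasCompactSupport (hc.fderiv_apply ℝ (bas i))
  have he : EqOn (pd i (U.indicator Z)) (pd i Z) U := fun p hp => (pd_congr (hev p hp) i).eq_of_nhds
  refine ⟨hi.integrableOn.congr_fun he hU.measurableSet, ?_⟩
  rw [← setIntegral_congr_fun hU.measurableSet he, setIntegral_eq_integral_of_forall_compl_eq_zero]
  · have h := integral_mul_fderiv_eq_neg_fderiv_mul_of_integrable (μ := (volume : Measure E3))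
      (f := fun _ => (1 : ℝ)) (g := U.indicator Z) (v := bas i) (by simp)
      (by simp only [one_mul]; exact hi) (by simpa using hs.continuous.integrable_of_hasCompactSupport hc)
      (fun _ _ => differentiableAt_const _) (fun x _ => hs.differentiable (by simp) x)
    simpa [pd] using h
  · intro x hx
    rw [(pd_congr (hev0 x fun hp => hx (hKU hp)) i).eq_of_nhds, pd_const]

theorem dv_eq_zero {U K : Set E3} (hU : IsOpen U) (hK : IsCompact K) {h : E3 → ℝ}
    (h0 : ∀ p ∈ U, p ∉ K → h p = 0) {p : E3} (hp : p ∈ U) (hpK : p ∉ K) : dv h p = 0 := by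
  have e : h =ᶠ[𝓝 p] fun _ => 0 := by
    filter_upwards [hU.mem_nhds hp, hK.isClosed.isOpen_compl.mem_nhds hpK] with x h1 h2
    exact h0 x h1 h2
  rw [dv_congr e]
  exact funext fun i => pd_const 0 p i

namespace Good

variable {G : E3 → Mat} {U : Set E3}

theorem ric_symm (hG : Good G U) {p : E3} (hp : p ∈ U) : (ric G p).IsSymm := by
  obtain ⟨sG, sH, h1, h2, hM⟩ := hG.germs hp
  have hr := rep_ric (rep_om h1 h2)
  ext i j
  exact (hr j i).eq_at (hr i j) ((Alg.lc_om hM).ric_symm (der_sD p) hM j i)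

theorem hes_symm (hG : Good G U) {p : E3} (hp : p ∈ U) {f : E3 → ℝ} (hf : ContDiffAt ℝ ∞ f p) :
    (hes G f p).IsSymm := by
  obtain ⟨sG, sH, h1, h2, hM⟩ := hG.germs hp
  have hr := rep_hes (rep_om h1 h2) (rep_gm f hf)
  ext i j
  exact (hr j i).eq_at (hr i j) (Alg.hesA_symm (der_sD p) (Alg.om_symm hM) _ j i)

theorem ric_conf (hG : Good G U) {p : E3} (hp : p ∈ U) {u : E3 → ℝ} (hu : ContDiffAt ℝ ∞ u p) :
    ric (fun x => Real.exp (-2 * u x) • G x) p = ric G p + hes G u p +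
      vecMulVec (dv u p) (dv u p) + (lap G u p - grd G u u p) • G p := by
  obtain ⟨sG, sH, h1, h2, hM⟩ := hG.germs hp
  have ru := rep_gm u hu
  have rφ := rep_gm (fun x => Real.exp (-2 * u x)) ((contDiffAt_const.mul hu).exp)
  have rψ := rep_gm (fun x => Real.exp (2 * u x)) ((contDiffAt_const.mul hu).exp)
  set su := gm u hu
  set sφ := gm (fun x => Real.exp (-2 * u x)) ((contDiffAt_const.mul hu).exp)
  set sψ := gm (fun x => Real.exp (2 * u x)) ((contDiffAt_const.mul hu).exp)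
  have hexp : ∀ x, Real.exp (-2 * u x) * Real.exp (2 * u x) = 1 := fun x => by
    rw [← Real.exp_add]
    simp
  have hφψ : sφ * sψ = 1 := (rφ.mul rψ).ext Rep.one (Eventually.of_forall hexp)
  have hφ : ∀ i, sD p i sφ = -2 * sφ * sD p i su := by
    intro i
    refine (rφ.d i).ext ((Rep.two.neg.mul rφ).mul (ru.d i)) ?_
    filter_upwards [ev_diff hu] with q hq using pd_exp hq (-2) i
  have hM' : Alg.Mt (sh p) (sφ • sG) (sψ • sH) := by
    refine ⟨hM.hh, fun i j => ?_, ?_⟩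
    · simp only [Matrix.smul_apply, hM.symm i j]
    · rw [Matrix.smul_mul, Matrix.mul_smul, smul_smul, hφψ, hM.inv, one_smul]
  have h1' := RepM.smul rφ h1
  have h2' : RepM (sψ • sH) fun x => (Real.exp (-2 * u x) • G x)⁻¹ := by
    intro i j
    refine (RepM.smul rψ h2 i j).congr ?_
    filter_upwards [hG.isOpen.mem_nhds hp] with q hq
    have : (Real.exp (-2 * u q) • G q)⁻¹ = Real.exp (2 * u q) • (G q)⁻¹ := by
      refine Matrix.inv_eq_right_inv ?_
      rw [Matrix.smul_mul, Matrix.mul_smul, smul_smul, hexp,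
        Matrix.mul_nonsing_inv _ (hG.det_pos hq).ne'.isUnit, one_smul]
    rw [this]
  have hw := Alg.lc_om (D := sD p) hM
  have e1 := Alg.lc_unique hM' (hw.conf (der_sD p) hM hφ)
  have e2 := hw.ric_conf (der_sD p) hM su
  rw [e1] at e2
  have ro := rep_om h1 h2
  exact (rep_ric (rep_om h1' h2')).eq_at ((((rep_ric ro).add (rep_hes ro ru)).add
    (ru.dif.vv ru.dif)).add (RepM.smul ((h2.mul (rep_hes ro ru)).trace.sub
      (ru.dif.dot (h2.mulVec ru.dif))) h1)) e2

theorem nat (hG : Good G U) {G' : E3 → Mat} {U' : Set E3} (hG' : Good G' U') {τ : E3 → E3}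
    {p : E3} (hp : p ∈ U) (hp' : τ p ∈ U') (hτ : ContDiffAt ℝ ∞ τ p)
    (e : G =ᶠ[𝓝 p] fun y => (jac τ y)ᵀ * G' (τ y) * jac τ y) :
    ric G p = (jac τ p)ᵀ * ric G' (τ p) * jac τ p ∧
    ∀ f : E3 → ℝ, ContDiffAt ℝ ∞ f (τ p) →
      dv (f ∘ τ) p = (jac τ p)ᵀ *ᵥ dv f (τ p) ∧
      hes G (f ∘ τ) p = (jac τ p)ᵀ * hes G' f (τ p) * jac τ p := by
  obtain ⟨sG, sH, h1, h2, hM⟩ := hG.germs hp
  obtain ⟨sG', sH', h1', h2', hM'⟩ := hG'.germs hp'
  have hτi : ∀ i, ContDiffAt ℝ ∞ (fun y => τ y i) p := fun i =>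
    (EuclideanSpace.proj (𝕜 := ℝ) i).contDiff.contDiffAt.comp p hτ
  have rτ := fun i => rep_gm _ (hτi i)
  set J : Alg.MA (SG p) := Matrix.of fun i a => sD p a (gm _ (hτi i)) with hJ
  have rJ : RepM J (jac τ) := fun i a => (rτ i).d a
  have rmap : ∀ {A : Alg.MA (SG (τ p))} {F : E3 → Mat}, RepM A F →
      RepM (A.map (pullG hτ)) fun y => F (τ y) := fun hA i j => (hA i j).pull hτ
  have eG : sG = Jᵀ * sG'.map (pullG hτ) * J := h1.ext ((rJ.tr.mul (rmap h1')).mul rJ) e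
  have hS : Alg.Sub (sD p) (sD (τ p)) (pullG hτ) J (sH * Jᵀ * sG'.map (pullG hτ)) := by
    refine ⟨fun a γ => ?_, fun a b i => (der_sD p).comm a b _, ?_⟩
    · obtain ⟨f, hf, hγ⟩ := Rep.ex γ
      refine ((hγ.pull hτ).d a).ext (Rep.sum fun i => ((hγ.d i).pull hτ).mul (rJ i a)) ?_
      have hτ1 : ContDiffAt ℝ 1 τ p := hτ.of_le (by exact_mod_cast le_top)
      filter_upwards [hτ.continuousAt.eventually (ev_diff hf), hτ1.eventually (by simp)]
        with q hq1 hq2
      have hd : DifferentiableAt ℝ τ q := hq2.differentiableAt (by simp)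
      rw [pd, fderiv_comp q hq1 hd, ContinuousLinearMap.comp_apply, fderiv_eq_sum]
      refine Finset.sum_congr rfl fun i _ => ?_
      have : jac τ q i a = fderiv ℝ τ q (bas a) i := by
        have h3 := ((EuclideanSpace.proj (𝕜 := ℝ) i).hasFDerivAt.comp q hd.hasFDerivAt).fderiv
        have h4 : (fun y => τ y i) = (EuclideanSpace.proj (𝕜 := ℝ) i) ∘ τ := rfl
        simp only [jac, Matrix.of_apply, pd, h4, h3]
        rfl
      rw [this, mul_comm]
      rfl
    · rw [Matrix.mul_assoc, Matrix.mul_assoc, ← Matrix.mul_assoc Jᵀ, ← eG, hM.inv']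
  have hlc := hS.lc (der_sD p) (Alg.lc_om (D := sD (τ p)) hM')
  rw [← eG] at hlc
  have hw : ∀ a, J * Alg.om (sD p) (sh p) sG sH a = J.map (sD p a) +
      Alg.pull (pullG hτ) J (Alg.om (sD (τ p)) (sh (τ p)) sG' sH') a * J := by
    intro a
    rw [← Alg.lc_unique hM hlc, ← Matrix.mul_assoc, hS.inv', Matrix.one_mul]
  have ro := rep_om h1 h2
  have ro' := rep_om h1' h2'
  refine ⟨(rep_ric ro).eq_at ((rJ.tr.mul (rmap (rep_ric ro'))).mul rJ) (hS.ric (der_sD p) hw),
    fun f hf => ⟨?_, ?_⟩⟩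
  · have rf := rep_gm f hf
    exact (rf.pull hτ).dif.eq_at (rJ.tr.mulVec fun i => (rf.dif i).pull hτ) (hS.dif _)
  · have rf := rep_gm f hf
    exact (rep_hes ro (rf.pull hτ)).eq_at ((rJ.tr.mul (rmap (rep_hes ro' rf))).mul rJ)
      (hS.hes (der_sD p) hw _)

theorem int_div (hG : Good G U) {Φ : E3 → ℝ} {Z : E3 → Fin 3 → ℝ} {K : Set E3} (hK : IsCompact K)
    (hKU : K ⊆ U) (h0 : ∀ p ∈ U, p ∉ K → Z p = 0)
    (hΦ : ∀ p ∈ U, ∀ sG sH : Alg.MA (SG p), RepM sG G → (RepM sH fun x => (G x)⁻¹) →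
      Alg.Mt (sh p) sG sH → ∃ sZ, RepV sZ Z ∧
        Rep (Alg.dvg (sD p) (Alg.om (sD p) (sh p) sG sH) sZ) Φ) :
    ∫ p in U, rho G p * Φ p = 0 := by
  have hZ : ∀ i, ContDiffOn ℝ ∞ (fun x => rho G x * Z x i) U := by
    intro i
    refine hG.smooth_rho.mul fun p hp => ?_
    obtain ⟨sG, sH, h1, h2, hM⟩ := hG.germs hp
    obtain ⟨sZ, hz, -⟩ := hΦ p hp sG sH h1 h2 hM
    exact (hz i).smooth.contDiffWithinAt
  have hI := fun i => integral_pd_eq_zero hG.isOpen hK hKU (hZ i)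
    (fun p hp hpK => by simp [h0 p hp hpK]) i
  have he : EqOn (fun p => rho G p * Φ p) (fun p => ∑ i, pd i (fun x => rho G x * Z x i) p) U := by
    intro p hp
    obtain ⟨sG, sH, h1, h2, hM⟩ := hG.germs hp
    obtain ⟨sZ, hz, hd⟩ := hΦ p hp sG sH h1 h2 hM
    have hU := hG.isOpen.mem_nhds hp
    have hρ := hG.smooth_rho.contDiffAt hU
    have rρ := rep_gm _ hρ
    have rσ := rep_gm _ (hρ.inv (hG.rho_pos hp).ne')
    refine (rρ.mul hd).eq_at (Rep.sum fun i => (rρ.mul (hz i)).d i)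
      ((Alg.lc_om hM).rho_dvg (der_sD p) hM ?_ ?_ sZ (σ := gm _ (hρ.inv (hG.rho_pos hp).ne')))
    · refine (rρ.mul rρ).ext h1.det ?_
      filter_upwards [hU] with q hq using Real.mul_self_sqrt (hG.det_pos hq).le
    · refine (rρ.mul rσ).ext Rep.one ?_
      filter_upwards [hU] with q hq using mul_inv_cancel₀ (hG.rho_pos hq).ne'
  rw [setIntegral_congr_fun hG.isOpen.measurableSet he, integral_finsetSum _ fun i _ => (hI i).1]
  exact Finset.sum_eq_zero fun i _ => (hI i).2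

theorem int_green (hG : Good G U) {f h : E3 → ℝ} (hf : ContDiffOn ℝ ∞ f U)
    (hh' : ContDiffOn ℝ ∞ h U) {K : Set E3} (hK : IsCompact K) (hKU : K ⊆ U)
    (h0 : ∀ p ∈ U, p ∉ K → h p = 0) :
    ∫ p in U, rho G p * (f p * lap G h p + grd G f h p) = 0 := by
  refine hG.int_div (Z := fun x => f x • ((G x)⁻¹ *ᵥ dv h x)) hK hKU
    (fun p hp hpK => by simp [dv_eq_zero hG.isOpen hK h0 hp hpK]) fun p hp sG sH h1 h2 hM => ?_
  have hU := hG.isOpen.mem_nhds hp
  have rf := rep_gm f (hf.contDiffAt hU)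
  have rh := rep_gm h (hh'.contDiffAt hU)
  refine ⟨_, RepV.smul rf (h2.mulVec rh.dif), ?_⟩
  rw [Alg.dvg_smul (der_sD p), ← Alg.trace_cov, (Alg.lc_om hM).cov_grad (der_sD p) hM,
    dotProduct_comm]
  exact (rf.mul (h2.mul (rep_hes (rep_om h1 h2) rh)).trace).add (rf.dif.dot (h2.mulVec rh.dif))

theorem int_bochner (hG : Good G U) {f h : E3 → ℝ} (hf : ContDiffOn ℝ ∞ f U)
    (hh' : ContDiffOn ℝ ∞ h U) {K : Set E3} (hK : IsCompact K) (hKU : K ⊆ U)
    (h0 : ∀ p ∈ U, p ∉ K → h p = 0) :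
    ∫ p in U, rho G p * (lap G f p * lap G h p - hh G f h p - rg G f h p) = 0 := by
  refine hG.int_div (Z := fun x => lap G f x • ((G x)⁻¹ *ᵥ dv h x) -
      ((G x)⁻¹ * hes G f x) *ᵥ ((G x)⁻¹ *ᵥ dv h x)) hK hKU
    (fun p hp hpK => by simp [dv_eq_zero hG.isOpen hK h0 hp hpK]) fun p hp sG sH h1 h2 hM => ?_
  have hU := hG.isOpen.mem_nhds hp
  have rf := rep_gm f (hf.contDiffAt hU)
  have rh := rep_gm h (hh'.contDiffAt hU)
  have ro := rep_om h1 h2
  have af := h2.mul (rep_hes ro rf)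
  have ah := h2.mul (rep_hes ro rh)
  refine ⟨_, (RepV.smul af.trace (h2.mulVec rh.dif)).sub (af.mulVec (h2.mulVec rh.dif)), ?_⟩
  have hw := Alg.lc_om (D := sD p) hM
  have hb := Alg.bochner (der_sD p) hw.symm (sH *ᵥ Alg.dif (sD p) (gm f (hf.contDiffAt hU)))
    (sH *ᵥ Alg.dif (sD p) (gm h (hh'.contDiffAt hU)))
  simp only [← Alg.trace_cov, hw.cov_grad (der_sD p) hM] at hb
  rw [← Alg.trace_cov, hb]
  refine (((af.trace.mul ah.trace).sub (af.mul ah).trace).sub
    ((h2.mulVec rh.dif).dot ((rep_ric ro).mulVec (h2.mulVec rf.dif)))).congr ?_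
  filter_upwards [hU] with q hq
  have hs := hG.ric_symm hq
  simp only [lap, hh, rg]
  congr 1
  rw [Matrix.dotProduct_mulVec, ← Matrix.mulVec_transpose, hs.eq, dotProduct_comm]

theorem int_bianchi (hG : Good G U) {h : E3 → ℝ}
    (hh' : ContDiffOn ℝ ∞ h U) {K : Set E3} (hK : IsCompact K) (hKU : K ⊆ U)
    (h0 : ∀ p ∈ U, p ∉ K → h p = 0) :
    ∫ p in U, rho G p * (ph G h p - scal G p / 2 * lap G h p) = 0 := by
  refine hG.int_div (Z := fun x => ((G x)⁻¹ * ric G x) *ᵥ ((G x)⁻¹ *ᵥ dv h x) -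
      (1 / 2 * scal G x) • ((G x)⁻¹ *ᵥ dv h x)) hK hKU
    (fun p hp hpK => by simp [dv_eq_zero hG.isOpen hK h0 hp hpK]) fun p hp sG sH h1 h2 hM => ?_
  have hU := hG.isOpen.mem_nhds hp
  have rh := rep_gm h (hh'.contDiffAt hU)
  have ro := rep_om h1 h2
  have aP := h2.mul (rep_ric ro)
  have ah := h2.mul (rep_hes ro rh)
  have rs : Rep (sh p) fun _ => 1 / 2 := rep_gm _ _
  refine ⟨_, (aP.mulVec (h2.mulVec rh.dif)).sub
    (RepV.smul (rs.mul aP.trace) (h2.mulVec rh.dif)), ?_⟩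
  have hw := Alg.lc_om (D := sD p) hM
  rw [hw.bianchi (der_sD p) hM, ← Alg.trace_cov, hw.cov_grad (der_sD p) hM]
  refine ((aP.mul ah).trace.sub ((rs.mul aP.trace).mul ah.trace)).congr
    (Eventually.of_forall fun q => ?_)
  simp only [lap, ph, scal]
  ring

end Good

end Pool.Agent.Lib.MP_40de08_gt
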