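import Pool.Agent.Lib.MP_40de08_gt.Chart

/-!
Global scalar quantities, their independence of the chart, smoothness and algebra.
-/

open scoped Manifold ContDiff Topology
open Matrix Filter Set

namespace Pool.Agent.Lib.MP_40de08_gt

variable {M : Type} [TopologicalSpace M] [ChartedSpace E3 M] [IsManifold (𝓡 3) ∞ M]

/-- Laplacian. -/
noncomputable def Lap (g : Met M) (f : M → ℝ) (x : M) : ℝ :=
  lap (coef g (chartAt E3 x)) (f ∘ (chartAt E3 x).symm) (chartAt E3 x x)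

/-- Inner product of gradients. -/
noncomputable def Grd (g : Met M) (f h : M → ℝ) (x : M) : ℝ :=
  grd (coef g (chartAt E3 x)) (f ∘ (chartAt E3 x).symm) (h ∘ (chartAt E3 x).symm) (chartAt E3 x x)

/-- Inner product of Hessians. -/
noncomputable def HH (g : Met M) (f h : M → ℝ) (x : M) : ℝ :=
  hh (coef g (chartAt E3 x)) (f ∘ (chartAt E3 x).symm) (h ∘ (chartAt E3 x).symm) (chartAt E3 x x)

/-- Inner product of the Ricci tensor and a Hessian. -/
noncomputable def PH (g : Met M) (h : M → ℝ) (x : M) : ℝ :=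
  ph (coef g (chartAt E3 x)) (h ∘ (chartAt E3 x).symm) (chartAt E3 x x)

/-- Ricci tensor on two gradients. -/
noncomputable def RG (g : Met M) (f h : M → ℝ) (x : M) : ℝ :=
  rg (coef g (chartAt E3 x)) (f ∘ (chartAt E3 x).symm) (h ∘ (chartAt E3 x).symm) (chartAt E3 x x)

/- Sketch for the `_eq` lemmas. Put `e' = chartAt E3 x`, `p = e x`, `τ = e' ∘ e.symm`,
`J = jac τ p`. `SC.coef_trans` and `Good.nat` give `G = Jᵀ G' J`, `ric = Jᵀ ric' J`,
`hes (f' ∘ τ) = Jᵀ hes' f' J`, `dv (f' ∘ τ) = Jᵀ dv f'` for `f' = f ∘ e'.symm`, and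
`f' ∘ τ = f ∘ e.symm` near `p` (`hes_congr`, `dv_congr`). `J` is invertible as `det G > 0`, so
`G⁻¹ (Jᵀ X J) = J⁻¹ (G'⁻¹ X) J` and traces of products are invariant. -/

theorem inv_conj {J G : Mat} (hJ : IsUnit J.det) (X : Mat) :
    (Jᵀ * G * J)⁻¹ * (Jᵀ * X * J) = J⁻¹ * (G⁻¹ * X) * J := by
  have h : IsUnit Jᵀ.det := by rwa [Matrix.det_transpose]
  rw [Matrix.mul_inv_rev, Matrix.mul_inv_rev]
  simp only [Matrix.mul_assoc]
  rw [Matrix.nonsing_inv_mul_cancel_left _ _ h]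

theorem inv_trace {J : Mat} (hJ : IsUnit J.det) (A : Mat) : (J⁻¹ * A * J).trace = A.trace := by
  rw [Matrix.trace_mul_comm, ← Matrix.mul_assoc, Matrix.mul_nonsing_inv _ hJ, Matrix.one_mul]

theorem inv_trace2 {J : Mat} (hJ : IsUnit J.det) (A B : Mat) :
    (J⁻¹ * A * J * (J⁻¹ * B * J)).trace = (A * B).trace := by
  rw [← inv_trace hJ (A * B)]
  simp only [Matrix.mul_assoc]
  rw [Matrix.mul_nonsing_inv_cancel_left _ _ hJ]

theorem inv_vec {J G : Mat} (hJ : IsUnit J.det) (a : Fin 3 → ℝ) :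
    (Jᵀ * G * J)⁻¹ *ᵥ (Jᵀ *ᵥ a) = J⁻¹ *ᵥ (G⁻¹ *ᵥ a) := by
  have h : IsUnit Jᵀ.det := by rwa [Matrix.det_transpose]
  rw [Matrix.mul_inv_rev, Matrix.mul_inv_rev]
  simp only [Matrix.mulVec_mulVec, Matrix.mul_assoc]
  rw [Matrix.nonsing_inv_mul _ h, Matrix.mul_one]

theorem inv_dot {J : Mat} (hJ : IsUnit J.det) (a c : Fin 3 → ℝ) :
    (Jᵀ *ᵥ a) ⬝ᵥ (J⁻¹ *ᵥ c) = a ⬝ᵥ c := by
  rw [Matrix.mulVec_transpose, ← Matrix.dotProduct_mulVec, Matrix.mulVec_mulVec,
    Matrix.mul_nonsing_inv _ hJ, Matrix.one_mulVec]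

theorem inv_dot2 {J : Mat} (hJ : IsUnit J.det) (R : Mat) (c d : Fin 3 → ℝ) :
    (J⁻¹ *ᵥ c) ⬝ᵥ ((Jᵀ * R * J) *ᵥ (J⁻¹ *ᵥ d)) = c ⬝ᵥ (R *ᵥ d) := by
  have h : (Jᵀ * R * J) *ᵥ (J⁻¹ *ᵥ d) = Jᵀ *ᵥ (R *ᵥ d) := by
    simp only [Matrix.mulVec_mulVec, Matrix.mul_assoc]
    rw [Matrix.mul_nonsing_inv _ hJ, Matrix.mul_one]
  rw [h, dotProduct_comm, inv_dot hJ, dotProduct_comm]

theorem inv_trace_vv (H : Mat) (a b : Fin 3 → ℝ) :
    (H * vecMulVec a b).trace = b ⬝ᵥ (H *ᵥ a) := by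
  rw [Matrix.mul_vecMulVec, Matrix.trace_vecMulVec, dotProduct_comm]

section

variable {e : OpenPartialHomeomorph M E3} (g : Met M) {f h : M → ℝ} {x : M}

omit [IsManifold (𝓡 3) ∞ M] in
theorem inv_at (he : SC e) (hf : Sm f) (hx : x ∈ e.source) :
    ContDiffAt ℝ ∞ (f ∘ e.symm) (e x) :=
  (he.smooth_loc hf).contDiffAt (e.open_target.mem_nhds (e.map_source hx))

theorem inv_at0 (hf : Sm f) (x : M) :
    ContDiffAt ℝ ∞ (f ∘ (chartAt E3 x).symm) (chartAt E3 x x) :=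
  inv_at (sc_chartAt x) hf (mem_chart_source E3 x)

theorem inv_pack (he : SC e) (hx : x ∈ e.source) : ∃ J : Mat, IsUnit J.det ∧
    coef g e (e x) = Jᵀ * coef g (chartAt E3 x) (chartAt E3 x x) * J ∧
    ric (coef g e) (e x) = Jᵀ * ric (coef g (chartAt E3 x)) (chartAt E3 x x) * J ∧
    ∀ f : M → ℝ, Sm f →
      dv (f ∘ e.symm) (e x) = Jᵀ *ᵥ dv (f ∘ (chartAt E3 x).symm) (chartAt E3 x x) ∧
      hes (coef g e) (f ∘ e.symm) (e x) =
        Jᵀ * hes (coef g (chartAt E3 x)) (f ∘ (chartAt E3 x).symm) (chartAt E3 x x) * J := by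
  have he' := sc_chartAt x
  have hx' := mem_chart_source E3 x
  generalize chartAt E3 x = e' at he' hx' ⊢
  have hp := e.map_source hx
  have hp' : e.symm (e x) ∈ e'.source := by rwa [e.left_inv hx]
  have hτ : (e' ∘ e.symm) (e x) = e' x := by simp [e.left_inv hx]
  have hc := he.coef_trans he' g hp hp'
  have hn := (he.good g).nat (he'.good g) hp (hτ ▸ e'.map_source hx') (he.smooth_trans he' hp hp') hc
  have h0 := hc.eq_of_nhds
  simp only [hτ] at hn h0
  refine ⟨jac (e' ∘ e.symm) (e x), ?_, h0, hn.1, fun f hf => ?_⟩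
  · have h1 := (he.good g).det_pos hp
    rw [h0, Matrix.det_mul] at h1
    exact isUnit_iff_ne_zero.2 fun h2 => by simp [h2] at h1
  · have h1 := hn.2 _ (inv_at he' hf hx')
    have h2 : f ∘ e.symm =ᶠ[𝓝 (e x)] (f ∘ e'.symm) ∘ (e' ∘ e.symm) := by
      have h3 : ∀ᶠ y in 𝓝 (e x), e.symm y ∈ e'.source :=
        (e.continuousAt_symm hp).preimage_mem_nhds (e'.open_source.mem_nhds hp')
      filter_upwards [h3] with y hy
      simp [e'.left_inv hy]
    exact ⟨(dv_congr h2).trans h1.1, (hes_congr _ h2).trans h1.2⟩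

theorem inv_scal (he : SC e) (hx : x ∈ e.source) :
    scal (coef g (chartAt E3 x)) (chartAt E3 x x) = scal (coef g e) (e x) := by
  obtain ⟨J, hJ, h1, h2, -⟩ := inv_pack g he hx
  rw [scal, scal, h1, h2, inv_conj hJ, inv_trace hJ]

theorem inv_ricSq (he : SC e) (hx : x ∈ e.source) :
    ricSq (coef g (chartAt E3 x)) (chartAt E3 x x) = ricSq (coef g e) (e x) := by
  obtain ⟨J, hJ, h1, h2, -⟩ := inv_pack g he hx
  rw [ricSq, ricSq, h1, h2, inv_conj hJ, inv_trace2 hJ]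

omit [IsManifold (𝓡 3) ∞ M] in
theorem inv_congr {f' : M → ℝ} (hx : f =ᶠ[𝓝 x] f') :
    f ∘ (chartAt E3 x).symm =ᶠ[𝓝 (chartAt E3 x x)] f' ∘ (chartAt E3 x).symm := by
  have hx' := mem_chart_source E3 x
  have h1 := (chartAt E3 x).continuousAt_symm ((chartAt E3 x).map_source hx')
  rw [ContinuousAt, (chartAt E3 x).left_inv hx'] at h1
  exact h1.eventually hx

theorem inv_dv_const (c : ℝ) (p : E3) : dv (fun _ => c) p = 0 := by
  funext i
  exact pd_const c p i

theorem inv_dv_add {a b : E3 → ℝ} {p : E3} (ha : ContDiffAt ℝ ∞ a p) (hb : ContDiffAt ℝ ∞ b p) :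
    dv (fun y => a y + b y) p = dv a p + dv b p := by
  funext i
  exact pd_add (diffAt ha) (diffAt hb) i

theorem inv_symm (x : M) : ((coef g (chartAt E3 x) (chartAt E3 x x))⁻¹)ᵀ =
    (coef g (chartAt E3 x) (chartAt E3 x x))⁻¹ := by
  have h1 := ((sc_chartAt x).good g).pos _ (mem_chart_target E3 x)
  have h2 := h1.inv.1
  rwa [Matrix.IsHermitian, Matrix.conjTranspose_eq_transpose_of_trivial] at h2

end

section

variable {e : OpenPartialHomeomorph M E3} (g : Met M) {f h : M → ℝ} {x : M}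

theorem SC.lap_eq (he : SC e) (hf : Sm f) (hx : x ∈ e.source) :
    Lap g f x = lap (coef g e) (f ∘ e.symm) (e x) := by
  obtain ⟨J, hJ, h1, -, h3⟩ := inv_pack g he hx
  rw [Lap, lap, lap, h1, (h3 f hf).2, inv_conj hJ, inv_trace hJ]

theorem SC.grd_eq (he : SC e) (hf : Sm f) (hh' : Sm h) (hx : x ∈ e.source) :
    Grd g f h x = grd (coef g e) (f ∘ e.symm) (h ∘ e.symm) (e x) := by
  obtain ⟨J, hJ, h1, -, h3⟩ := inv_pack g he hx
  rw [Grd, grd, grd, h1, (h3 f hf).1, (h3 h hh').1, inv_vec hJ, inv_dot hJ]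

theorem SC.hh_eq (he : SC e) (hf : Sm f) (hh' : Sm h) (hx : x ∈ e.source) :
    HH g f h x = hh (coef g e) (f ∘ e.symm) (h ∘ e.symm) (e x) := by
  obtain ⟨J, hJ, h1, -, h3⟩ := inv_pack g he hx
  rw [HH, hh, hh, h1, (h3 f hf).2, (h3 h hh').2, inv_conj hJ, inv_conj hJ, inv_trace2 hJ]

theorem SC.ph_eq (he : SC e) (hh' : Sm h) (hx : x ∈ e.source) :
    PH g h x = ph (coef g e) (h ∘ e.symm) (e x) := by
  obtain ⟨J, hJ, h1, h2, h3⟩ := inv_pack g he hx
  rw [PH, ph, ph, h1, h2, (h3 h hh').2, inv_conj hJ, inv_conj hJ, inv_trace2 hJ]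

theorem SC.rg_eq (he : SC e) (hf : Sm f) (hh' : Sm h) (hx : x ∈ e.source) :
    RG g f h x = rg (coef g e) (f ∘ e.symm) (h ∘ e.symm) (e x) := by
  obtain ⟨J, hJ, h1, h2, h3⟩ := inv_pack g he hx
  rw [RG, rg, rg, h1, h2, (h3 f hf).1, (h3 h hh').1, inv_vec hJ, inv_vec hJ, inv_dot2 hJ]

theorem SC.sigma1_eq (he : SC e) (hx : x ∈ e.source) :
    sigma1 g x = scal (coef g e) (e x) / 4 := by
  rw [sigma1, inv_scal g he hx]

theorem SC.sigma2_eq (he : SC e) (hx : x ∈ e.source) :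
    sigma2 g x = (1 / 2) * (-ricSq (coef g e) (e x) + (3 / 8) * scal (coef g e) (e x) ^ 2) := by
  rw [sigma2, inv_scal g he hx, inv_ricSq g he hx]

/- Smoothness: `sm_of_loc` with the chart at the point, the `_eq` lemmas and `Good.smooth_*`. -/

theorem sm_lap (hf : Sm f) : Sm (Lap g f) := by
  refine sm_of_loc fun z => ?_
  have he := sc_chartAt z
  have hG := he.good g
  exact ⟨_, _, he, mem_chart_source E3 z, hG.smooth_lap (he.smooth_loc hf),
    fun x hx => he.lap_eq g hf hx⟩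

theorem sm_grd (hf : Sm f) (hh' : Sm h) : Sm (Grd g f h) := by
  refine sm_of_loc fun z => ?_
  have he := sc_chartAt z
  have hG := he.good g
  exact ⟨_, _, he, mem_chart_source E3 z, hG.smooth_grd (he.smooth_loc hf) (he.smooth_loc hh'),
    fun x hx => he.grd_eq g hf hh' hx⟩

theorem sm_hh (hf : Sm f) (hh' : Sm h) : Sm (HH g f h) := by
  refine sm_of_loc fun z => ?_
  have he := sc_chartAt z
  have hG := he.good g
  exact ⟨_, _, he, mem_chart_source E3 z, hG.smooth_hh (he.smooth_loc hf) (he.smooth_loc hh'),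
    fun x hx => he.hh_eq g hf hh' hx⟩

theorem sm_ph (hh' : Sm h) : Sm (PH g h) := by
  refine sm_of_loc fun z => ?_
  have he := sc_chartAt z
  have hG := he.good g
  exact ⟨_, _, he, mem_chart_source E3 z, hG.smooth_ph (he.smooth_loc hh'),
    fun x hx => he.ph_eq g hh' hx⟩

theorem sm_rg (hf : Sm f) (hh' : Sm h) : Sm (RG g f h) := by
  refine sm_of_loc fun z => ?_
  have he := sc_chartAt z
  have hG := he.good g
  exact ⟨_, _, he, mem_chart_source E3 z, hG.smooth_rg (he.smooth_loc hf) (he.smooth_loc hh'),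
    fun x hx => he.rg_eq g hf hh' hx⟩

theorem sm_sigma1 : Sm (sigma1 g) := by
  refine sm_of_loc fun z => ?_
  have he := sc_chartAt z
  have hG := he.good g
  exact ⟨_, _, he, mem_chart_source E3 z, hG.smooth_scal.div_const 4,
    fun x hx => he.sigma1_eq g hx⟩

theorem sm_sigma2 : Sm (sigma2 g) := by
  refine sm_of_loc fun z => ?_
  have he := sc_chartAt z
  have hG := he.good g
  exact ⟨_, _, he, mem_chart_source E3 z, contDiffOn_const.mul (hG.smooth_ricSq.neg.add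
      (contDiffOn_const.mul (hG.smooth_scal.pow 2))),
    fun x hx => he.sigma2_eq g hx⟩

/- Algebra: in the chart at `x`, by `hes_add`, `hes_mul`, `hes_const`, `hes_exp`, `pd_add`, ... -/

theorem inv_grd_comm (f h : M → ℝ) (x : M) : Grd g f h x = Grd g h f x := by
  rw [Grd, Grd, grd, grd, Matrix.dotProduct_mulVec, ← Matrix.mulVec_transpose, inv_symm,
    dotProduct_comm]

theorem inv_grd_const (f : M → ℝ) (c : ℝ) (x : M) : Grd g f (fun _ => c) x = 0 := by
  have h1 := inv_dv_const c (chartAt E3 x x)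
  rw [Grd, grd]
  erw [h1]
  simp

theorem lap_const (c : ℝ) (x : M) : Lap g (fun _ => c) x = 0 := by
  have h1 := hes_const (coef g (chartAt E3 x)) c (chartAt E3 x x)
  rw [Lap, lap]
  erw [h1]
  simp

theorem lap_add (hf : Sm f) (hh' : Sm h) (x : M) :
    Lap g (fun y => f y + h y) x = Lap g f x + Lap g h x := by
  have h1 := hes_add (coef g (chartAt E3 x)) (inv_at0 hf x) (inv_at0 hh' x)
  rw [Lap, Lap, Lap, lap, lap, lap]
  erw [h1]
  rw [Matrix.mul_add, Matrix.trace_add]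

theorem lap_mul (hf : Sm f) (hh' : Sm h) (x : M) :
    Lap g (fun y => f y * h y) x = f x * Lap g h x + h x * Lap g f x + 2 * Grd g f h x := by
  have h1 := hes_mul (coef g (chartAt E3 x)) (inv_at0 hf x) (inv_at0 hh' x)
  have h2 := inv_grd_comm g f h x
  rw [Grd, Grd, grd, grd] at h2
  rw [Lap, Lap, Lap, Grd, lap, lap, lap, grd]
  erw [h1]
  simp only [Matrix.mul_add, Matrix.trace_add, Matrix.mul_smul, Matrix.trace_smul, inv_trace_vv,
    Function.comp_apply, (chartAt E3 x).left_inv (mem_chart_source E3 x), smul_eq_mul, ← h2]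
  ring

theorem lap_const_mul (c : ℝ) (hf : Sm f) (x : M) :
    Lap g (fun y => c * f y) x = c * Lap g f x := by
  rw [lap_mul g (f := fun _ => c) contMDiff_const hf, lap_const, inv_grd_comm g, inv_grd_const]
  ring

theorem lap_exp (c : ℝ) (hf : Sm f) (x : M) :
    Lap g (fun y => Real.exp (c * f y)) x =
      Real.exp (c * f x) * (c * Lap g f x + c * c * Grd g f f x) := by
  have h1 := hes_exp (coef g (chartAt E3 x)) (inv_at0 hf x) c
  rw [Lap, Lap, Grd, lap, lap, grd]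
  erw [h1]
  simp only [Matrix.mul_add, Matrix.trace_add, Matrix.mul_smul, Matrix.trace_smul, inv_trace_vv,
    Function.comp_apply, (chartAt E3 x).left_inv (mem_chart_source E3 x), smul_eq_mul]
  ring

theorem lap_congr {f' : M → ℝ} (hx : f =ᶠ[𝓝 x] f') : Lap g f x = Lap g f' x := by
  rw [Lap, Lap, lap, lap, hes_congr _ (inv_congr hx)]

theorem grd_comm (f h : M → ℝ) (x : M) : Grd g f h x = Grd g h f x := by
  exact inv_grd_comm g f h x

theorem grd_self_nonneg (f : M → ℝ) (x : M) : 0 ≤ Grd g f f x := by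
  have h1 := (((sc_chartAt x).good g).pos _ (mem_chart_target E3 x)).inv.posSemidef
  simpa [Grd, grd] using h1.dotProduct_mulVec_nonneg
    (dv (f ∘ (chartAt E3 x).symm) (chartAt E3 x x))

theorem grd_const (f : M → ℝ) (c : ℝ) (x : M) : Grd g f (fun _ => c) x = 0 := by
  exact inv_grd_const g f c x

theorem grd_add {h' : M → ℝ} (h1 : Sm h) (h2 : Sm h') (x : M) :
    Grd g f (fun y => h y + h' y) x = Grd g f h x + Grd g f h' x := by
  have h3 := inv_dv_add (inv_at0 h1 x) (inv_at0 h2 x)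
  rw [Grd, Grd, Grd, grd, grd, grd]
  erw [h3]
  rw [Matrix.mulVec_add, dotProduct_add]

theorem hh_add {h' : M → ℝ} (h1 : Sm h) (h2 : Sm h') (x : M) :
    HH g f (fun y => h y + h' y) x = HH g f h x + HH g f h' x := by
  have h3 := hes_add (coef g (chartAt E3 x)) (inv_at0 h1 x) (inv_at0 h2 x)
  rw [HH, HH, HH, hh, hh, hh]
  erw [h3]
  rw [Matrix.mul_add, Matrix.mul_add, Matrix.trace_add]

theorem ph_add {h' : M → ℝ} (h1 : Sm h) (h2 : Sm h') (x : M) :
    PH g (fun y => h y + h' y) x = PH g h x + PH g h' x := by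
  have h3 := hes_add (coef g (chartAt E3 x)) (inv_at0 h1 x) (inv_at0 h2 x)
  rw [PH, PH, PH, ph, ph, ph]
  erw [h3]
  rw [Matrix.mul_add, Matrix.mul_add, Matrix.trace_add]

theorem rg_add {h' : M → ℝ} (h1 : Sm h) (h2 : Sm h') (x : M) :
    RG g f (fun y => h y + h' y) x = RG g f h x + RG g f h' x := by
  have h3 := inv_dv_add (inv_at0 h1 x) (inv_at0 h2 x)
  rw [RG, RG, RG, rg, rg, rg]
  erw [h3]
  rw [Matrix.mulVec_add, Matrix.mulVec_add, dotProduct_add]

/- If `h` vanishes near `x`, all these vanish at `x`. -/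
theorem vanish (f : M → ℝ) (h0 : h =ᶠ[𝓝 x] fun _ => 0) :
    Lap g h x = 0 ∧ Grd g f h x = 0 ∧ HH g f h x = 0 ∧ PH g h x = 0 ∧ RG g f h x = 0 := by
  have h1 := inv_congr h0
  have h2 : hes (coef g (chartAt E3 x)) (h ∘ (chartAt E3 x).symm) (chartAt E3 x x) = 0 :=
    (hes_congr _ h1).trans (hes_const _ 0 _)
  have h3 : dv (h ∘ (chartAt E3 x).symm) (chartAt E3 x x) = 0 :=
    (dv_congr h1).trans (inv_dv_const 0 _)
  simp [Lap, Grd, HH, PH, RG, lap, grd, hh, ph, rg, h2, h3]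

end

end Pool.Agent.Lib.MP_40de08_gt
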