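import Pool.Agent.Lib.MP_40de08_gt.Defs

/-!
Local objects of a field of metric coefficients: differential, Hessian, Laplacian, inner product
of gradients, volume density; their smoothness.
-/

open scoped ContDiff Topology
open Matrix Filter Set

namespace Pool.Agent.Lib.MP_40de08_gt

/-- The differential as a vector of derivatives. -/
noncomputable def dv (f : E3 → ℝ) (p : E3) : Fin 3 → ℝ := fun i => pd i f p

/-- The covariant Hessian. -/
noncomputable def hes (G : E3 → Mat) (f : E3 → ℝ) (p : E3) : Mat :=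
  Matrix.of fun i j => pd i (pd j f) p - ∑ k, chr G k i j p * pd k f p

/-- The Laplacian. -/
noncomputable def lap (G : E3 → Mat) (f : E3 → ℝ) (p : E3) : ℝ := ((G p)⁻¹ * hes G f p).trace

/-- The inner product of two gradients. -/
noncomputable def grd (G : E3 → Mat) (f h : E3 → ℝ) (p : E3) : ℝ :=
  dv f p ⬝ᵥ ((G p)⁻¹ *ᵥ dv h p)

/-- The inner product of two Hessians. -/
noncomputable def hh (G : E3 → Mat) (f h : E3 → ℝ) (p : E3) : ℝ :=
  ((G p)⁻¹ * hes G f p * ((G p)⁻¹ * hes G h p)).trace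

/-- The inner product of the Ricci tensor and a Hessian. -/
noncomputable def ph (G : E3 → Mat) (h : E3 → ℝ) (p : E3) : ℝ :=
  ((G p)⁻¹ * ric G p * ((G p)⁻¹ * hes G h p)).trace

/-- The Ricci tensor on two gradients. -/
noncomputable def rg (G : E3 → Mat) (f h : E3 → ℝ) (p : E3) : ℝ :=
  ((G p)⁻¹ *ᵥ dv f p) ⬝ᵥ (ric G p *ᵥ ((G p)⁻¹ *ᵥ dv h p))

/-- The volume density. -/
noncomputable def rho (G : E3 → Mat) (p : E3) : ℝ := Real.sqrt (G p).det

/-- `G` is a smooth field of positive definite matrices on the open set `U`. -/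
structure Good (G : E3 → Mat) (U : Set E3) : Prop where
  isOpen : IsOpen U
  smooth : ∀ i j, ContDiffOn ℝ ∞ (fun p => G p i j) U
  pos : ∀ p ∈ U, (G p).PosDef

theorem pd_congr {f h : E3 → ℝ} {p : E3} (e : f =ᶠ[𝓝 p] h) (i : Fin 3) :
    pd i f =ᶠ[𝓝 p] pd i h := by
  filter_upwards [e.fderiv (𝕜 := ℝ)] with q hq
  simp only [pd, hq]

theorem contDiffAt_pd {f : E3 → ℝ} {p : E3} (hf : ContDiffAt ℝ ∞ f p) (i : Fin 3) :
    ContDiffAt ℝ ∞ (pd i f) p := by
  have h : ContDiffAt ℝ ∞ (fderiv ℝ f) p := hf.fderiv_right (m := ∞) (by simp)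
  exact h.clm_apply contDiffAt_const

theorem contDiffOn_pd {f : E3 → ℝ} {U : Set E3} (hU : IsOpen U) (hf : ContDiffOn ℝ ∞ f U)
    (i : Fin 3) : ContDiffOn ℝ ∞ (pd i f) U := fun p hp =>
  (contDiffAt_pd (hf.contDiffAt (hU.mem_nhds hp)) i).contDiffWithinAt

theorem contDiff_pd {f : E3 → ℝ} (hf : ContDiff ℝ ∞ f) (i : Fin 3) : ContDiff ℝ ∞ (pd i f) :=
  contDiff_iff_contDiffAt.2 fun _ => contDiffAt_pd hf.contDiffAt i

theorem diffAt {f : E3 → ℝ} {p : E3} (hf : ContDiffAt ℝ ∞ f p) : DifferentiableAt ℝ f p :=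
  hf.differentiableAt (by simp)

theorem pd_add {f h : E3 → ℝ} {p : E3} (hf : DifferentiableAt ℝ f p)
    (hh : DifferentiableAt ℝ h p) (i : Fin 3) :
    pd i (fun x => f x + h x) p = pd i f p + pd i h p := by
  simp only [pd, fderiv_fun_add hf hh, _root_.add_apply]

theorem pd_sub {f h : E3 → ℝ} {p : E3} (hf : DifferentiableAt ℝ f p)
    (hh : DifferentiableAt ℝ h p) (i : Fin 3) :
    pd i (fun x => f x - h x) p = pd i f p - pd i h p := by
  simp only [pd, fderiv_fun_sub hf hh, _root_.sub_apply]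

theorem pd_mul {f h : E3 → ℝ} {p : E3} (hf : DifferentiableAt ℝ f p)
    (hh : DifferentiableAt ℝ h p) (i : Fin 3) :
    pd i (fun x => f x * h x) p = pd i f p * h p + f p * pd i h p := by
  simp only [pd, fderiv_fun_mul hf hh, _root_.add_apply,
    _root_.smul_apply, smul_eq_mul]
  ring

theorem pd_const (c : ℝ) (p : E3) (i : Fin 3) : pd i (fun _ => c) p = 0 := by
  simp [pd]

theorem pd_comp {φ : ℝ → ℝ} {φ' : ℝ} {f : E3 → ℝ} {p : E3} (hφ : HasDerivAt φ φ' (f p))
    (hf : DifferentiableAt ℝ f p) (i : Fin 3) :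
    pd i (fun x => φ (f x)) p = φ' * pd i f p := by
  have h := (hφ.comp_hasFDerivAt p hf.hasFDerivAt).fderiv
  have h2 : (fun x => φ (f x)) = φ ∘ f := rfl
  simp only [pd, h2, h, _root_.smul_apply, smul_eq_mul]

theorem pd_coord (j : Fin 3) (p : E3) (i : Fin 3) :
    pd i (fun x : E3 => x j) p = if j = i then 1 else 0 := by
  have h : (fun x : E3 => x j) = (EuclideanSpace.proj j : E3 →L[ℝ] ℝ) := rfl
  simp only [pd, h, ContinuousLinearMap.fderiv]
  simp [bas]

theorem pd_comm {f : E3 → ℝ} {p : E3} (hf : ContDiffAt ℝ ∞ f p) (i j : Fin 3) :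
    pd i (pd j f) p = pd j (pd i f) p := by
  have hs : IsSymmSndFDerivAt ℝ f p := hf.isSymmSndFDerivAt (by
    simp only [minSmoothness_of_isRCLikeNormedField]; exact WithTop.coe_le_coe.2 le_top)
  have hd : DifferentiableAt ℝ (fderiv ℝ f) p :=
    (hf.fderiv_right (m := ∞) (by simp)).differentiableAt (by simp)
  have key : ∀ a b : Fin 3, pd a (pd b f) p = fderiv ℝ (fderiv ℝ f) p (bas a) (bas b) := by
    intro a b
    have h1 : pd b f = fun q => fderiv ℝ f q (bas b) := rfl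
    rw [pd, h1, fderiv_clm_apply hd (differentiableAt_const _)]
    simp
  rw [key, key, hs.eq]

/-- The derivative in a direction in terms of the coordinate derivatives. -/
theorem fderiv_eq_sum (f : E3 → ℝ) (p v : E3) : fderiv ℝ f p v = ∑ i, v i * pd i f p := by
  have hv : v = ∑ i, v i • bas i := by
    ext j
    simp [bas, Finset.sum_apply, Pi.single_apply]
  conv_lhs => rw [hv]
  simp [pd]

namespace Good

variable {G : E3 → Mat} {U : Set E3}

theorem mono (hG : Good G U) {V : Set E3} (hV : IsOpen V) (h : V ⊆ U) : Good G V :=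
  ⟨hV, fun i j => (hG.smooth i j).mono h, fun p hp => hG.pos p (h hp)⟩

theorem symm (hG : Good G U) {p : E3} (hp : p ∈ U) (i j : Fin 3) : G p i j = G p j i := by
  have h := (hG.pos p hp).1
  have := congrFun (congrFun h j) i
  simpa using this

theorem det_pos (hG : Good G U) {p : E3} (hp : p ∈ U) : 0 < (G p).det := (hG.pos p hp).det_pos

theorem rho_pos (hG : Good G U) {p : E3} (hp : p ∈ U) : 0 < rho G p :=
  Real.sqrt_pos.2 (hG.det_pos hp)

theorem smooth_det (hG : Good G U) : ContDiffOn ℝ ∞ (fun p => (G p).det) U := by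
  have h := hG.smooth
  simp only [Matrix.det_fin_three]
  exact (((((((h 0 0).mul (h 1 1)).mul (h 2 2)).sub (((h 0 0).mul (h 1 2)).mul (h 2 1))).sub
    (((h 0 1).mul (h 1 0)).mul (h 2 2))).add (((h 0 1).mul (h 1 2)).mul (h 2 0))).add
    (((h 0 2).mul (h 1 0)).mul (h 2 1))).sub (((h 0 2).mul (h 1 1)).mul (h 2 0))

theorem smooth_rho (hG : Good G U) : ContDiffOn ℝ ∞ (rho G) U :=
  hG.smooth_det.sqrt fun _ hp => (hG.det_pos hp).ne'

theorem smooth_inv (hG : Good G U) (i j : Fin 3) :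
    ContDiffOn ℝ ∞ (fun p => (G p)⁻¹ i j) U := by
  have h := hG.smooth
  have h1 : ContDiffOn ℝ ∞ (fun p => (G p).adjugate i j) U := by
    simp only [Matrix.adjugate_fin_three]
    fin_cases i <;> fin_cases j <;> simp <;>
      first
      | exact ((h _ _).mul (h _ _)).sub ((h _ _).mul (h _ _))
      | exact ((h _ _).mul (h _ _)).neg.add ((h _ _).mul (h _ _))
  have h2 : ContDiffOn ℝ ∞ (fun p => ((G p).det)⁻¹ * (G p).adjugate i j) U :=
    (hG.smooth_det.inv fun _ hp => (hG.det_pos hp).ne').mul h1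
  refine h2.congr fun p _ => ?_
  simp [Matrix.inv_def]

theorem smooth_chr (hG : Good G U) (k i j : Fin 3) : ContDiffOn ℝ ∞ (chr G k i j) U := by
  have h := fun a b c => contDiffOn_pd hG.isOpen (hG.smooth a b) c
  exact contDiffOn_const.mul (ContDiffOn.sum fun l _ =>
    (hG.smooth_inv k l).mul (((h j l i).add (h i l j)).sub (h i j l)))

theorem smooth_ric (hG : Good G U) (j k : Fin 3) :
    ContDiffOn ℝ ∞ (fun p => ric G p j k) U := by
  have h := hG.smooth_chr
  simp only [ric, Matrix.of_apply]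
  exact ContDiffOn.sum fun i _ => ((contDiffOn_pd hG.isOpen (h i j k) i).sub
    (contDiffOn_pd hG.isOpen (h i i k) j)).add (ContDiffOn.sum fun m _ =>
      ((h i i m).mul (h m j k)).sub ((h i j m).mul (h m i k)))

theorem smooth_hes (hG : Good G U) {f : E3 → ℝ} (hf : ContDiffOn ℝ ∞ f U) (i j : Fin 3) :
    ContDiffOn ℝ ∞ (fun p => hes G f p i j) U :=
  (contDiffOn_pd hG.isOpen (contDiffOn_pd hG.isOpen hf j) i).sub (ContDiffOn.sum fun k _ =>
    (hG.smooth_chr k i j).mul (contDiffOn_pd hG.isOpen hf k))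

end Good

theorem smooth_mul {A B : E3 → Mat} {U : Set E3} (hA : ∀ i j, ContDiffOn ℝ ∞ (fun p => A p i j) U)
    (hB : ∀ i j, ContDiffOn ℝ ∞ (fun p => B p i j) U) (i j : Fin 3) :
    ContDiffOn ℝ ∞ (fun p => (A p * B p) i j) U := by
  simp only [Matrix.mul_apply]
  exact ContDiffOn.sum fun k _ => (hA i k).mul (hB k j)

theorem smooth_trace {A : E3 → Mat} {U : Set E3}
    (hA : ∀ i j, ContDiffOn ℝ ∞ (fun p => A p i j) U) :
    ContDiffOn ℝ ∞ (fun p => (A p).trace) U :=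
  ContDiffOn.sum fun k _ => hA k k

theorem smooth_mulVec {A : E3 → Mat} {v : E3 → Fin 3 → ℝ} {U : Set E3}
    (hA : ∀ i j, ContDiffOn ℝ ∞ (fun p => A p i j) U)
    (hv : ∀ i, ContDiffOn ℝ ∞ (fun p => v p i) U) (i : Fin 3) :
    ContDiffOn ℝ ∞ (fun p => (A p *ᵥ v p) i) U := by
  simp only [Matrix.mulVec, dotProduct]
  exact ContDiffOn.sum fun k _ => (hA i k).mul (hv k)

theorem smooth_dot {v w : E3 → Fin 3 → ℝ} {U : Set E3}
    (hv : ∀ i, ContDiffOn ℝ ∞ (fun p => v p i) U)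
    (hw : ∀ i, ContDiffOn ℝ ∞ (fun p => w p i) U) :
    ContDiffOn ℝ ∞ (fun p => v p ⬝ᵥ w p) U :=
  ContDiffOn.sum fun k _ => (hv k).mul (hw k)

namespace Good

variable {G : E3 → Mat} {U : Set E3}

theorem smooth_scal (hG : Good G U) : ContDiffOn ℝ ∞ (scal G) U :=
  smooth_trace (smooth_mul hG.smooth_inv hG.smooth_ric)

theorem smooth_ricSq (hG : Good G U) : ContDiffOn ℝ ∞ (ricSq G) U :=
  smooth_trace (smooth_mul (smooth_mul hG.smooth_inv hG.smooth_ric)
    (smooth_mul hG.smooth_inv hG.smooth_ric))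

theorem smooth_lap (hG : Good G U) {f : E3 → ℝ} (hf : ContDiffOn ℝ ∞ f U) :
    ContDiffOn ℝ ∞ (lap G f) U :=
  smooth_trace (smooth_mul hG.smooth_inv (hG.smooth_hes hf))

theorem smooth_grd (hG : Good G U) {f h : E3 → ℝ} (hf : ContDiffOn ℝ ∞ f U)
    (hh : ContDiffOn ℝ ∞ h U) : ContDiffOn ℝ ∞ (grd G f h) U :=
  smooth_dot (contDiffOn_pd hG.isOpen hf) (smooth_mulVec hG.smooth_inv (contDiffOn_pd hG.isOpen hh))

theorem smooth_hh (hG : Good G U) {f h : E3 → ℝ} (hf : ContDiffOn ℝ ∞ f U)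
    (hh' : ContDiffOn ℝ ∞ h U) : ContDiffOn ℝ ∞ (hh G f h) U :=
  smooth_trace (smooth_mul (smooth_mul hG.smooth_inv (hG.smooth_hes hf))
    (smooth_mul hG.smooth_inv (hG.smooth_hes hh')))

theorem smooth_ph (hG : Good G U) {h : E3 → ℝ} (hh' : ContDiffOn ℝ ∞ h U) :
    ContDiffOn ℝ ∞ (ph G h) U :=
  smooth_trace (smooth_mul (smooth_mul hG.smooth_inv hG.smooth_ric)
    (smooth_mul hG.smooth_inv (hG.smooth_hes hh')))

theorem smooth_rg (hG : Good G U) {f h : E3 → ℝ} (hf : ContDiffOn ℝ ∞ f U)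
    (hh : ContDiffOn ℝ ∞ h U) : ContDiffOn ℝ ∞ (rg G f h) U :=
  smooth_dot (smooth_mulVec hG.smooth_inv (contDiffOn_pd hG.isOpen hf))
    (smooth_mulVec hG.smooth_ric (smooth_mulVec hG.smooth_inv (contDiffOn_pd hG.isOpen hh)))

end Good

end Pool.Agent.Lib.MP_40de08_gt
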