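import Pool.Agent.Lib.MP_40de08_gt.Est
import Pool.Agent.Lib.MP_40de08_gt.DLT

/-!
Boundedness of J_2 on the cone.
-/

open scoped Manifold ContDiff Topology
open Matrix Filter Set MeasureTheory Metric

namespace Pool.Agent.Lib.MP_40de08_gt

variable {M : Type} [TopologicalSpace M] [ChartedSpace E3 M] [IsManifold (𝓡 3) ∞ M]
  [T2Space M] [CompactSpace M] [MeasurableSpace M] [BorelSpace M]

theorem main [ConnectedSpace M] (g₀ : Met M) : ∃ C : ℝ, ∀ g ∈ C2 g₀,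
    IsFiniteMeasure (vol g) ∧ Integrable (sigma2 g) (vol g) ∧ J2 g ≤ C := by
  obtain ⟨K, hK, h1⟩ := est_sigma1 g₀
  obtain ⟨c, hc, h2⟩ := est_vol g₀
  have hc3 : 0 < c ^ (2 / 3 : ℝ) := Real.rpow_pos_of_pos hc _
  refine ⟨K ^ 2 / (3 * c ^ (2 / 3 : ℝ)), ?_⟩
  rintro g ⟨⟨u, hu, hgu⟩, hpos⟩
  refine ⟨inferInstance, integrable_of_continuous g (sm_sigma2 g).continuous, ?_⟩
  have hcf : Cf g₀ g u := ⟨hu, hgu⟩
  obtain ⟨p, -, hp⟩ := isCompact_univ.exists_isMaxOn univ_nonempty hu.continuous.continuousOn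
  obtain ⟨q, -, hq⟩ := isCompact_univ.exists_isMinOn univ_nonempty hu.continuous.continuousOn
  have e1 := h1 g u p q hcf hpos (fun x => hq (mem_univ x)) fun x => hp (mem_univ x)
  have e2 := h2 g u (u p) q hcf hpos fun x => hp (mem_univ x)
  have e3 := dlt g hpos
  have e0 : 0 ≤ ∫ x, sigma1 g x ∂(vol g) := integral_nonneg fun x => (hpos x).1.le
  unfold J2
  generalize (vol g).real univ = v at *
  generalize ∫ x, sigma1 g x ∂(vol g) = I1 at *
  generalize ∫ x, sigma2 g x ∂(vol g) = I2 at *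
  generalize u q + u p = s at *
  have hv : 0 < v := lt_of_lt_of_le (by positivity) e2
  have ha : 0 < v ^ (2 / 3 : ℝ) := Real.rpow_pos_of_pos hv _
  have e4 : c ^ (2 / 3 : ℝ) * Real.exp (-s) ≤ v ^ (2 / 3 : ℝ) := by
    have := Real.rpow_le_rpow (by positivity) e2 (by norm_num : (0 : ℝ) ≤ 2 / 3)
    rwa [Real.mul_rpow hc.le (Real.exp_pos _).le, ← Real.exp_mul,
      show -(3 / 2) * s * (2 / 3) = -s by ring] at this
  have e5 : I1 ^ 2 ≤ K ^ 2 * Real.exp (-s) := by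
    have h3 : Real.exp (-s) = Real.exp (-(1 / 2) * s) ^ 2 := by
      rw [sq, ← Real.exp_add]
      congr 1
      ring
    rw [h3, ← mul_pow]
    exact pow_le_pow_left₀ e0 e1 2
  have e6 : v ^ (1 / 3 : ℝ) * v ^ (2 / 3 : ℝ) = v := by
    rw [← Real.rpow_add hv]
    norm_num
  refine le_of_mul_le_mul_right ?_ ha
  calc v ^ (1 / 3 : ℝ) * I2 * v ^ (2 / 3 : ℝ) = v * I2 := by rw [mul_right_comm, e6]
    _ ≤ K ^ 2 * Real.exp (-s) / 3 := by linarith
    _ = K ^ 2 / (3 * c ^ (2 / 3 : ℝ)) * (c ^ (2 / 3 : ℝ) * Real.exp (-s)) := by field_simp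
    _ ≤ K ^ 2 / (3 * c ^ (2 / 3 : ℝ)) * v ^ (2 / 3 : ℝ) :=
      mul_le_mul_of_nonneg_left e4 (by positivity)

end Pool.Agent.Lib.MP_40de08_gt
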