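import Pool.Agent.Lib.MP_40de08_gt.Dense

/-!
The range of the operator `-2 Δ + s`, `s > 0`, on smooth functions is dense in `L²`.
-/

open scoped Manifold ContDiff Topology
open Matrix Filter Set MeasureTheory Metric

namespace Pool.Agent.Lib.MP_40de08_gt

variable {M : Type} [TopologicalSpace M] [ChartedSpace E3 M] [IsManifold (𝓡 3) ∞ M]
  [T2Space M] [CompactSpace M] [MeasurableSpace M] [BorelSpace M]

/-- Perturbation of an operator with dense range. -/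
theorem od_pert (g : Met M) (T₀ T : (M → ℝ) → M → ℝ)
    (hT : ∀ f h, Sm f → Sm h → ∀ x, T (fun y => f y + h y) x = T f x + T h x)
    (s0 : ∀ f, Sm f → Sm (T₀ f)) (s1 : ∀ f, Sm f → Sm (T f))
    (hd : ∀ φ : M → ℝ, Sm φ → ∀ η : ℝ, 0 < η →
      ∃ F : M → ℝ, Sm F ∧ ∫ x, (φ x - T₀ F x) ^ 2 ∂(vol g) ≤ η)
    {κ : ℝ} (h0 : 0 ≤ κ) (h1 : κ < 1)
    (hk : ∀ F, Sm F → ∫ x, (T₀ F x - T F x) ^ 2 ∂(vol g) ≤ κ * ∫ x, T₀ F x ^ 2 ∂(vol g))
    (φ : M → ℝ) (hφ : Sm φ) (η : ℝ) (hη : 0 < η) :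
    ∃ F : M → ℝ, Sm F ∧ ∫ x, (φ x - T F x) ^ 2 ∂(vol g) ≤ η := by
  obtain ⟨β, hβ⟩ : ∃ β : ℝ, β = (1 - κ) / 4 := ⟨_, rfl⟩
  have b0 : 0 < β := by linarith
  have b1 : β ≤ 1 / 4 := by linarith
  refine dense_iter g T hT Sm (θ := 1 - β / 2) (by linarith) (by linarith) (fun ψ hψ => ?_)
    φ hφ hη
  have hq0 : 0 ≤ ∫ x, ψ x ^ 2 ∂(vol g) := integral_nonneg (fun x => sq_nonneg _)
  rcases hq0.eq_or_lt with hq | hq
  · have hz : ∀ x, T (fun _ => 0) x = 0 := by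
      intro x
      have h2 := hT (fun _ => 0) (fun _ => 0) contMDiff_const contMDiff_const x
      simp only [add_zero] at h2
      linarith
    refine ⟨fun _ => 0, contMDiff_const, hψ.sub (s1 _ contMDiff_const), ?_⟩
    simp only [hz, sub_zero]
    rw [← hq, mul_zero]
  obtain ⟨F, hF, hr⟩ := hd ψ hψ (β ^ 2 * (∫ x, ψ x ^ 2 ∂(vol g)) / 12) (by positivity)
  refine ⟨F, hF, hψ.sub (s1 F hF), ?_⟩
  have cψ : Continuous ψ := hψ.continuous
  have c0 : Continuous (T₀ F) := (s0 F hF).continuous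
  have c1 : Continuous (T F) := (s1 F hF).continuous
  have I : ∀ {u : M → ℝ}, Continuous u → Integrable u (vol g) :=
    fun hu => integrable_of_continuous g hu
  have h2 := hk F hF
  have h3 : ∫ x, β * (ψ x - T F x) ^ 2 ∂(vol g) ≤
      ∫ x, ((β + 1) * (ψ x - T₀ F x) ^ 2 + β * (1 + β) * (T₀ F x - T F x) ^ 2) ∂(vol g) := by
    refine integral_mono (I (by fun_prop)) (I (by fun_prop)) (fun x => ?_)
    nlinarith [sq_nonneg (ψ x - T₀ F x - β * (T₀ F x - T F x))]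
  have h4 : ∫ x, β * T₀ F x ^ 2 ∂(vol g) ≤
      ∫ x, ((β + 1) * (ψ x - T₀ F x) ^ 2 + β * (1 + β) * ψ x ^ 2) ∂(vol g) := by
    refine integral_mono (I (by fun_prop)) (I (by fun_prop)) (fun x => ?_)
    nlinarith [sq_nonneg (ψ x - T₀ F x + β * ψ x)]
  rw [integral_add (I (by fun_prop)) (I (by fun_prop)), integral_const_mul, integral_const_mul,
    integral_const_mul] at h3 h4
  have r0 : 0 ≤ ∫ x, (ψ x - T₀ F x) ^ 2 ∂(vol g) := integral_nonneg (fun x => sq_nonneg _)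
  generalize ∫ x, (ψ x - T F x) ^ 2 ∂(vol g) = a at h3 ⊢
  generalize ∫ x, (ψ x - T₀ F x) ^ 2 ∂(vol g) = r at h3 h4 hr r0
  generalize ∫ x, (T₀ F x - T F x) ^ 2 ∂(vol g) = d at h2 h3
  generalize ∫ x, T₀ F x ^ 2 ∂(vol g) = w at h2 h4
  generalize ∫ x, ψ x ^ 2 ∂(vol g) = q at hq h4 hr ⊢
  have h5 : β * (1 + β) * d ≤ β * (1 + β) * (κ * w) :=
    mul_le_mul_of_nonneg_left h2 (by positivity)
  have h6 : (1 + β) * κ * (β * w) ≤ (1 + β) * κ * ((β + 1) * r + β * (1 + β) * q) :=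
    mul_le_mul_of_nonneg_left h4 (by positivity)
  have h7 : (1 + β) ^ 2 * κ ≤ 1 - β := by
    have : κ = 1 - 4 * β := by linarith
    rw [this]
    nlinarith [mul_pos b0 b0, mul_pos (mul_pos b0 b0) b0]
  have h8 : (1 + β) ^ 2 * κ * r ≤ (1 - β) * r := mul_le_mul_of_nonneg_right h7 r0
  have h9 : (1 + β) ^ 2 * κ * (β * q) ≤ (1 - β) * (β * q) :=
    mul_le_mul_of_nonneg_right h7 (by positivity)
  refine le_of_mul_le_mul_left ?_ b0
  nlinarith [mul_pos (mul_pos b0 b0) hq]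

/-- The energy inequality for `1 - e Lap`. -/
theorem od_energy (g : Met M) {e : ℝ} (he : 0 ≤ e) {F : M → ℝ} (hF : Sm F) :
    ∫ x, F x ^ 2 ∂(vol g) + e ^ 2 * ∫ x, Lap g F x ^ 2 ∂(vol g) ≤
      ∫ x, (F x - e * Lap g F x) ^ 2 ∂(vol g) := by
  have cF : Continuous F := hF.continuous
  have cL : Continuous (Lap g F) := (sm_lap g hF).continuous
  have cG : Continuous (Grd g F F) := (sm_grd g hF hF).continuous
  have I : ∀ {u : M → ℝ}, Continuous u → Integrable u (vol g) :=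
    fun hu => integrable_of_continuous g hu
  have hgreen := int_green g hF hF
  have h1 : ∫ x, (F x ^ 2 + e ^ 2 * Lap g F x ^ 2 -
      2 * e * (F x * Lap g F x + Grd g F F x)) ∂(vol g) ≤
      ∫ x, (F x - e * Lap g F x) ^ 2 ∂(vol g) := by
    refine integral_mono (I (by fun_prop)) (I (by fun_prop)) (fun x => ?_)
    nlinarith [mul_nonneg he (grd_self_nonneg g F x)]
  rw [integral_sub (I (by fun_prop)) (I (by fun_prop)),
    integral_add (I (by fun_prop)) (I (by fun_prop)), integral_const_mul, integral_const_mul,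
    hgreen, mul_zero, sub_zero] at h1
  exact h1

/-- The operators `1 - e Lap` have dense range for all small `e > 0`. -/
theorem od_small (g : Met M) : ∃ ε : ℝ, 0 < ε ∧ ∀ e : ℝ, 0 < e → e ≤ ε → ∀ φ : M → ℝ, Sm φ →
    ∀ η : ℝ, 0 < η →
      ∃ F : M → ℝ, Sm F ∧ ∫ x, (φ x - (F x - e * Lap g F x)) ^ 2 ∂(vol g) ≤ η := by
  obtain ⟨ε, hε, hres⟩ := dense_res g
  have hε2 : 0 < ε ^ 2 := by positivity
  refine ⟨ε ^ 2, hε2, fun e he0 he1 => ?_⟩
  generalize ε ^ 2 = a at hres hε2 he1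
  have k0 : 0 ≤ 1 - e / a := by rw [sub_nonneg, div_le_one hε2]; exact he1
  have k1 : 0 < e / a := div_pos he0 hε2
  refine od_pert g (fun F x => F x - a * Lap g F x) (fun F x => F x - e * Lap g F x)
    (fun f h hf hh x => ?_) (fun f hf => hf.sub (contMDiff_const.mul (sm_lap g hf)))
    (fun f hf => hf.sub (contMDiff_const.mul (sm_lap g hf))) hres (κ := (1 - e / a) ^ 2)
    (sq_nonneg _) (by nlinarith) (fun F hF => ?_)
  · rw [lap_add g hf hh x]
    ring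
  · have h1 := od_energy g hε2.le hF
    have h2 : 0 ≤ ∫ x, F x ^ 2 ∂(vol g) := integral_nonneg (fun x => sq_nonneg _)
    have h3 : ∀ x, (F x - a * Lap g F x - (F x - e * Lap g F x)) ^ 2 =
        (1 - e / a) ^ 2 * a ^ 2 * Lap g F x ^ 2 := by
      intro x
      field_simp
      ring
    simp only [h3]
    rw [integral_const_mul, mul_assoc]
    exact mul_le_mul_of_nonneg_left (by linarith) (sq_nonneg _)

/- Sketch. Write `Q φ = ∫ φ²`. Perturbation lemma: if `T₀` has dense range, `T` is additive and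
`Q (T₀ F - T F) ≤ κ Q (T₀ F)` with `κ < 1`, then `T` has dense range (`dense_iter` with `S = Sm`:
take `F` with `r = φ - T₀ F` small, `φ - T F = r + (T₀ F - T F)`,
`(a + b)² ≤ (1 + 1 / β) a² + (1 + β) b²`). By `int_green`,
`Q (F - ε² Lap F) = Q F + 2 ε² ∫ Grd F F + ε⁴ Q (Lap F)`.
Step 1: `T₀ = 1 - ε² Lap` (`dense_res`), `T = 1 - ε'² Lap` with `0 < ε' ≤ ε`,
`T₀ F - T F = -(ε² - ε'²) Lap F`, `κ = (1 - ε'² / ε²)²`.
Step 2: `0 < s₀ ≤ s ≤ S`, `ε'² S ≤ 2`, `T₀ = 1 - ε'² Lap`, `T = (ε'² / 2) (-2 Lap + s)`,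
`T₀ F - T F = (1 - ε'² s / 2) F`, `κ = (1 - ε'² s₀ / 2)²`. Then `u = (ε'² / 2) F`. -/
theorem dense_L (g : Met M) {s : M → ℝ} (hs : Sm s) (hs0 : ∀ x, 0 < s x) {F : M → ℝ} (hF : Sm F)
    {η : ℝ} (hη : 0 < η) :
    ∃ u : M → ℝ, Sm u ∧ ∫ x, (F x - (-2 * Lap g u x + s x * u x)) ^ 2 ∂(vol g) ≤ η := by
  rcases isEmpty_or_nonempty M with hM | hM
  · exact ⟨F, hF, by rw [integral_of_isEmpty]; exact hη.le⟩
  have cs : Continuous s := hs.continuous
  obtain ⟨x₀, -, hx₀⟩ := isCompact_univ.exists_isMinOn univ_nonempty cs.continuousOn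
  obtain ⟨x₁, -, hx₁⟩ := isCompact_univ.exists_isMaxOn univ_nonempty cs.continuousOn
  have lo : ∀ x, s x₀ ≤ s x := fun x => hx₀ (mem_univ x)
  have hi : ∀ x, s x ≤ s x₁ := fun x => hx₁ (mem_univ x)
  obtain ⟨ε, hε, hres⟩ := od_small g
  obtain ⟨e, e0, e1, e2⟩ : ∃ e : ℝ, 0 < e ∧ e ≤ ε ∧ e * s x₁ ≤ 2 :=
    ⟨min ε (2 / s x₁), lt_min hε (div_pos two_pos (hs0 x₁)), min_le_left _ _,
      (le_div_iff₀ (hs0 x₁)).1 (min_le_right _ _)⟩
  have k0 : ∀ x, 0 ≤ 1 - e / 2 * s x := fun x => by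
    nlinarith [mul_le_mul_of_nonneg_left (hi x) e0.le]
  have k1 : ∀ x, 1 - e / 2 * s x ≤ 1 - e / 2 * s x₀ := fun x => by
    nlinarith [mul_le_mul_of_nonneg_left (lo x) e0.le]
  have k2 : 0 < e / 2 * s x₀ := mul_pos (by linarith) (hs0 x₀)
  obtain ⟨v, hv, hQ⟩ := od_pert g (fun F x => F x - e * Lap g F x)
    (fun F x => e / 2 * (-2 * Lap g F x + s x * F x)) (fun f h hf hh x => by
      rw [lap_add g hf hh x]
      ring) (fun f hf => hf.sub (contMDiff_const.mul (sm_lap g hf)))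
    (fun f hf => contMDiff_const.mul ((contMDiff_const.mul (sm_lap g hf)).add (hs.mul hf)))
    (hres e e0 e1) (κ := (1 - e / 2 * s x₀) ^ 2) (sq_nonneg _) (by nlinarith [k0 x₀])
    (fun v hv => by
      have cv : Continuous v := hv.continuous
      have cL : Continuous (Lap g v) := (sm_lap g hv).continuous
      have h1 := od_energy g e0.le hv
      have h2 : 0 ≤ ∫ x, Lap g v x ^ 2 ∂(vol g) := integral_nonneg (fun x => sq_nonneg _)
      have h3 : ∫ x, (v x - e * Lap g v x - e / 2 * (-2 * Lap g v x + s x * v x)) ^ 2 ∂(vol g) ≤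
          ∫ x, (1 - e / 2 * s x₀) ^ 2 * v x ^ 2 ∂(vol g) := by
        refine integral_mono (integrable_of_continuous g (by fun_prop))
          (integrable_of_continuous g (by fun_prop)) (fun x => ?_)
        have h4 : (v x - e * Lap g v x - e / 2 * (-2 * Lap g v x + s x * v x)) ^ 2 =
            (1 - e / 2 * s x) ^ 2 * v x ^ 2 := by ring
        simp only [h4]
        exact mul_le_mul_of_nonneg_right (pow_le_pow_left₀ (k0 x) (k1 x) 2) (sq_nonneg _)
      rw [integral_const_mul] at h3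
      refine h3.trans (mul_le_mul_of_nonneg_left ?_ (sq_nonneg _))
      nlinarith [mul_nonneg (sq_nonneg e) h2]) F hF η hη
  refine ⟨fun y => e / 2 * v y, contMDiff_const.mul hv, le_trans (le_of_eq ?_) hQ⟩
  refine integral_congr_ae (Eventually.of_forall fun x => ?_)
  simp only [lap_const_mul g _ hv]
  ring

end Pool.Agent.Lib.MP_40de08_gt
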