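import Pool.Agent.Lib.MP_40de08_gt.PoincLoc

/-!
A refined Sobolev inequality on a Euclidean ball.
-/

open scoped ContDiff Topology
open MeasureTheory Metric

namespace Pool.Agent.Lib.MP_40de08_gt

theorem sob_theta : ∃ Λ : ℝ, (∀ s, deriv Real.smoothTransition s ^ 2 ≤ Λ) ∧
    ∀ s, s < 0 ∨ 1 ≤ s → deriv Real.smoothTransition s = 0 := by
  have h0 : ∀ s, s < 0 ∨ 1 ≤ s → deriv Real.smoothTransition s = 0 := by
    rintro s (hs | hs)
    · refine IsLocalMin.deriv_eq_zero (Filter.Eventually.of_forall fun t => ?_)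
      rw [Real.smoothTransition.zero_of_nonpos hs.le]
      exact Real.smoothTransition.nonneg t
    · refine IsLocalMax.deriv_eq_zero (Filter.Eventually.of_forall fun t => ?_)
      rw [Real.smoothTransition.one_of_one_le hs]
      exact Real.smoothTransition.le_one t
  have hc : Continuous fun s => deriv Real.smoothTransition s ^ 2 :=
    ((Real.smoothTransition.contDiff (n := 1)).continuous_deriv le_rfl).pow 2
  obtain ⟨s0, -, hs0⟩ := (isCompact_Icc (a := (0 : ℝ)) (b := 1)).exists_isMaxOn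
    ⟨0, Set.left_mem_Icc.2 zero_le_one⟩ hc.continuousOn
  refine ⟨deriv Real.smoothTransition s0 ^ 2, fun s => ?_, h0⟩
  by_cases hs : s < 0 ∨ 1 ≤ s
  · rw [h0 s hs, zero_pow two_ne_zero]
    exact sq_nonneg _
  · push Not at hs
    exact hs0 ⟨hs.1, hs.2.le⟩

theorem sob_level {Λ : ℝ} (hΛ : ∀ s, deriv Real.smoothTransition s ^ 2 ≤ Λ)
    (h0 : ∀ s, s < 0 ∨ 1 ≤ s → deriv Real.smoothTransition s = 0) {z : E3} {a : ℝ}
    {w : E3 → ℝ} {U : Set E3} (hU : IsOpen U) (hB : closedBall z (2 * a) ⊆ U)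
    (hw : ContDiffOn ℝ ∞ w U) {l τ : ℝ} (hl : 0 < l) (hτ : 0 < τ) (hτa : l / τ ^ 2 ≤ a)
    (hd : ∀ x ∈ ball z a, ∀ ρ : ℝ, 0 < ρ → ρ ≤ a →
      volume (ball x ρ) ≤ 2 * volume (ball x ρ ∩ {p | w p ^ 2 ≤ l / ρ})) :
    ENNReal.ofReal (τ ^ 6) * volume (ball z a ∩ {p | 2 * τ ≤ w p}) ≤
      ENNReal.ofReal (8 * Λ * l ^ 2) * ∫⁻ p in ball z (2 * a) ∩ {p | τ ≤ w p ∧ w p < 2 * τ},
        ENNReal.ofReal (∑ i, pd i w p ^ 2) := by
  have hΛ0 : 0 ≤ Λ := (sq_nonneg _).trans (hΛ 0)
  set ρ := l / τ ^ 2 with hρ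
  have hρ0 : 0 < ρ := by positivity
  set h : E3 → ℝ := fun p => Real.smoothTransition (w p / τ - 1) with hh
  have hs : ContDiffOn ℝ ∞ h U :=
    Real.smoothTransition.contDiff.comp_contDiffOn ((hw.div_const τ).sub contDiffOn_const)
  set D : E3 → ENNReal := (ball z (2 * a)).indicator fun p => ENNReal.ofReal (∑ i, pd i h p ^ 2)
    with hDdef
  have hD : Measurable D := (poincloc_meas h).ennreal_ofReal.indicator measurableSet_ball
  obtain ⟨hW, hWint⟩ := poincloc_avg hD (ball (0 : E3) ρ)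
  set c : ENNReal := ENNReal.ofReal ((2 * ρ) ^ 2) with hc
  have hc1 : c ≠ ⊤ := ENNReal.ofReal_ne_top
  have e1 : ∀ x ∈ ball z a ∩ {p | 2 * τ ≤ w p}, volume (ball (0 : E3) ρ) ≤
      2 * c * ∫⁻ v in ball (0 : E3) ρ, ∫⁻ t in Set.Ioc (0 : ℝ) 1, D (x + t • v) := by
    rintro x ⟨hx, hxw⟩
    have hx' : dist x z < a := hx
    have b1 : closedBall x ρ ⊆ U :=
      (closedBall_subset_closedBall' (by linarith)).trans hB
    have b2 : ball x ρ ⊆ ball z (2 * a) := ball_subset_ball' (by linarith)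
    have m1 : Measurable fun q : E3 × ℝ => D (x + q.2 • q.1) := hD.comp (by fun_prop)
    have m2 : Measurable ((ball (0 : E3) ρ).indicator fun v =>
        c * ∫⁻ t in Set.Ioc (0 : ℝ) 1, D (x + t • v)) :=
      (m1.lintegral_prod_right'.const_mul c).indicator measurableSet_ball
    have m3 := mul_meas_ge_le_lintegral₀ (μ := volume) m2.aemeasurable 1
    rw [one_mul, lintegral_indicator measurableSet_ball, lintegral_const_mul' _ _ hc1,
      ← measure_preimage_add_right volume (-x)] at m3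
    rw [← Measure.addHaar_ball_center volume x, mul_assoc]
    refine (hd x hx ρ hρ0 hτa).trans (mul_le_mul_right ((measure_mono ?_).trans m3) _)
    rintro y ⟨hy, hyw⟩
    have hyx : y + -x ∈ ball (0 : E3) ρ := by
      rw [mem_ball_zero_iff, ← sub_eq_add_neg, ← dist_eq_norm]
      exact hy
    have v1 : h x = 1 := Real.smoothTransition.one_of_one_le (by
      rw [le_sub_iff_add_le, le_div_iff₀ hτ]
      have : 2 * τ ≤ w x := hxw
      linarith)
    have v2 : h y = 0 := Real.smoothTransition.zero_of_nonpos (by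
      have h1 : w y ^ 2 ≤ l / ρ := hyw
      have h2 : l / ρ = τ ^ 2 := by
        rw [hρ]
        field_simp
      rw [sub_nonpos, div_le_one hτ]
      exact (le_abs_self _).trans (abs_le_of_sq_le_sq (h2 ▸ h1) hτ.le))
    have k := poincloc_seg hU b1 hs hy (mem_ball_self hρ0)
    rw [v1, v2, zero_sub, neg_one_sq, ENNReal.ofReal_one] at k
    rw [Set.mem_preimage, Set.mem_ofPred_eq, Set.indicator_of_mem hyx, ← sub_eq_add_neg]
    exact k.trans (mul_le_mul_right (lintegral_mono fun t =>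
      Set.indicator_le_indicator_of_subset b2 (fun _ => zero_le) _) _)
  have e2 : volume (ball z a ∩ {p | 2 * τ ≤ w p}) ≤ 2 * c * ∫⁻ p, D p := by
    have m3 := mul_meas_ge_le_lintegral₀ (μ := volume) (hW.const_mul (2 * c)).aemeasurable
      (volume (ball (0 : E3) ρ))
    rw [lintegral_const_mul _ hW, hWint, ← mul_assoc, mul_comm _ (volume (ball (0 : E3) ρ))] at m3
    exact (measure_mono e1).trans ((ENNReal.mul_le_mul_iff_right (measure_ball_pos volume _ hρ0).ne'
      measure_ball_lt_top.ne).1 m3)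
  have e3 : ∫⁻ p, D p ≤ ENNReal.ofReal (Λ / τ ^ 2) *
      ∫⁻ p in ball z (2 * a) ∩ {p | τ ≤ w p ∧ w p < 2 * τ}, ENNReal.ofReal (∑ i, pd i w p ^ 2) := by
    rw [← lintegral_const_mul' _ _ ENNReal.ofReal_ne_top]
    refine (lintegral_mono fun p => ?_).trans (lintegral_indicator_le _ _)
    by_cases hp : p ∈ ball z (2 * a)
    swap
    · simp only [hDdef, Set.indicator_of_notMem hp]
      exact zero_le
    have dw := diffAt (hw.contDiffAt (hU.mem_nhds (hB (ball_subset_closedBall hp))))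
    have d1 : ∀ i, pd i h p = deriv Real.smoothTransition (w p / τ - 1) / τ * pd i w p := by
      intro i
      have d2 : HasDerivAt (fun s : ℝ => s / τ - 1) (1 / τ) (w p) :=
        ((hasDerivAt_id (w p)).div_const τ).sub_const 1
      have d3 := ((Real.smoothTransition.contDiff (n := 1)).differentiable one_ne_zero
        (w p / τ - 1)).hasDerivAt.comp (w p) d2
      rw [mul_one_div] at d3
      exact pd_comp d3 dw i
    simp only [hDdef, Set.indicator_of_mem hp, d1, mul_pow, ← Finset.mul_sum]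
    by_cases hq : τ ≤ w p ∧ w p < 2 * τ
    · rw [Set.indicator_of_mem
        (show p ∈ ball z (2 * a) ∩ {p | τ ≤ w p ∧ w p < 2 * τ} from ⟨hp, hq⟩),
        ← ENNReal.ofReal_mul (by positivity), div_pow]
      exact ENNReal.ofReal_le_ofReal (mul_le_mul_of_nonneg_right
        (div_le_div_of_nonneg_right (hΛ _) (sq_nonneg _))
        (Finset.sum_nonneg fun _ _ => sq_nonneg _))
    · rw [h0 _ (by
        rw [sub_neg, div_lt_one hτ, le_sub_iff_add_le, le_div_iff₀ hτ]
        rcases not_and_or.1 hq with h1 | h1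
        · exact Or.inl (not_le.1 h1)
        · exact Or.inr (by linarith [not_lt.1 h1]))]
      simp
  refine (mul_le_mul_right (e2.trans (mul_le_mul_right e3 _)) _).trans (le_of_eq ?_)
  rw [← mul_assoc, ← mul_assoc, hc]
  congr 1
  rw [← ENNReal.ofReal_ofNat 2, ← ENNReal.ofReal_mul (by norm_num),
    ← ENNReal.ofReal_mul (by positivity), ← ENNReal.ofReal_mul (by positivity)]
  congr 1
  rw [hρ]
  field_simp
  ring

/- Sketch. `θ = Real.smoothTransition`, `|θ'| ≤ Λ`, `θ' = 0` off `(0, 1)`. Level `τ > 0` with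
`ρ = ℓ / τ² ≤ a`: `h = θ (w / τ - 1)`, `D = (ball z (2 a)).indicator (ofReal (∑ (pd i h)²))`. For
`x ∈ A = ball z a ∩ {2 τ ≤ w}` and `v ∈ ball 0 ρ` with `w (x + v)² ≤ τ²`: `h x = 1`, `h (x + v) = 0`,
so `1 ≤ (2 ρ)² ∫⁻_t D (x + t v)` (`poincloc_seg` on `ball x ρ`). Integrate in `v` and `x`
(`poincloc_avg`): `|A| |ball 0 ρ| / 2 ≤ (2 ρ)² (∫⁻ D) |ball 0 ρ|`, so
`τ⁶ |A| ≤ 8 Λ² ℓ² ∫⁻_{ball z (2 a) ∩ {τ ≤ w < 2 τ}} ∑ (pd i w)²`. With `τ k = τ₀ 2 ^ k`, `τ₀² = ℓ / a`:
pointwise `w⁶ ≤ 16 (ℓ / a)² w² + ∑' k, (4 τ k)⁶ 1_{2 τ k ≤ w}` (`exists_nat_pow_near`); the sets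
`{τ k ≤ w < 2 τ k}` are disjoint (`lintegral_tsum`, `lintegral_iUnion`). Sets such as
`ball ∩ w ⁻¹' s` are measurable since `w` is continuous on `U`. -/
theorem sob_flat (z : E3) {a : ℝ} (ha : 0 < a) :
    ∃ C : ℝ, 0 ≤ C ∧ ∀ (w : E3 → ℝ) (U : Set E3), IsOpen U → closedBall z (2 * a) ⊆ U →
      ContDiffOn ℝ ∞ w U → (∀ p ∈ U, 0 ≤ w p) → ∀ l : ℝ, 0 < l →
      (∀ x ∈ ball z a, ∀ ρ : ℝ, 0 < ρ → ρ ≤ a →
        volume (ball x ρ) ≤ 2 * volume (ball x ρ ∩ {p | w p ^ 2 ≤ l / ρ})) →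
      ∫ p in ball z a, w p ^ 6 ≤
        C * l ^ 2 * ∫ p in ball z (2 * a), (∑ i, pd i w p ^ 2 + w p ^ 2) := by
  obtain ⟨Λ, hΛ, h0⟩ := sob_theta
  have hΛ0 : 0 ≤ Λ := (sq_nonneg _).trans (hΛ 0)
  refine ⟨16 / a ^ 2 + 4 ^ 6 * (8 * Λ), by positivity, fun w U hU hB hw hw0 l hl hd => ?_⟩
  have hBU : ball z (2 * a) ⊆ U := ball_subset_closedBall.trans hB
  have hab : ball z a ⊆ ball z (2 * a) := ball_subset_ball (by linarith)
  classical
  set w' : E3 → ℝ := (ball z (2 * a)).piecewise w 0 with hw'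
  have mw : Measurable w' :=
    (hw.continuousOn.mono hBU).measurable_piecewise continuousOn_const measurableSet_ball
  have ew : ∀ p ∈ ball z (2 * a), w' p = w p := fun p hp => Set.piecewise_eq_of_mem _ _ _ hp
  set τ : ℕ → ℝ := fun k => √(l / a) * 2 ^ k with hτ
  have t0 : 0 < √(l / a) := Real.sqrt_pos.2 (by positivity)
  have t1 : √(l / a) ^ 2 = l / a := Real.sq_sqrt (by positivity)
  have tp : ∀ k, 0 < τ k := fun k => by positivity
  have ta : ∀ k, l / τ k ^ 2 ≤ a := fun k => by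
    have h1 : √(l / a) ≤ τ k := le_mul_of_one_le_right t0.le (one_le_pow₀ one_le_two)
    have h2 := pow_le_pow_left₀ t0.le h1 2
    rw [t1, div_le_iff₀ ha] at h2
    rw [div_le_iff₀ (pow_pos (tp k) 2)]
    linarith
  set g : E3 → ENNReal := fun p => ENNReal.ofReal (∑ i, pd i w p ^ 2) with hg
  set E : ℕ → Set E3 := fun k => ball z (2 * a) ∩ {p | τ k ≤ w p ∧ w p < 2 * τ k} with hE
  have mE : ∀ k, MeasurableSet (E k) := fun k => by
    have : E k = ball z (2 * a) ∩ w' ⁻¹' Set.Ico (τ k) (2 * τ k) := by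
      ext p
      refine and_congr_right fun hp => ?_
      rw [Set.mem_preimage, ew p hp]
      rfl
    rw [this]
    exact measurableSet_ball.inter (mw measurableSet_Ico)
  have dE : Pairwise (Function.onFun Disjoint E) := by
    have key : ∀ j k, j < k → Disjoint (E j) (E k) := fun j k hjk => by
      refine Set.disjoint_left.2 fun p h1 h2 => ?_
      have h3 : τ (j + 1) ≤ τ k :=
        mul_le_mul_of_nonneg_left (pow_le_pow_right₀ one_le_two hjk) t0.le
      have h4 : τ (j + 1) = 2 * τ j := by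
        simp only [hτ]
        ring
      linarith [h1.2.2, h2.2.1]
    intro j k hjk
    rcases lt_or_gt_of_ne hjk with h | h
    · exact key j k h
    · exact (key k j h).symm
  have s1 : ∑' k, ∫⁻ p in E k, g p ≤ ∫⁻ p in ball z (2 * a), g p := by
    rw [← lintegral_iUnion mE dE]
    exact lintegral_mono_set (Set.iUnion_subset fun k => Set.inter_subset_left)
  have mA : ∀ k, MeasurableSet {p | 2 * τ k ≤ w' p} := fun k => mw measurableSet_Ici
  have s2 : ∀ p ∈ ball z a, ENNReal.ofReal (w p ^ 6) ≤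
      ENNReal.ofReal (16 / a ^ 2 * l ^ 2) * ENNReal.ofReal (w' p ^ 2) +
        ∑' k, {p | 2 * τ k ≤ w' p}.indicator (fun _ => ENNReal.ofReal ((4 * τ k) ^ 6)) p := by
    intro p hp
    have e := ew p (hab hp)
    have n0 := hw0 p (hBU (hab hp))
    by_cases h : w p ≤ 2 * √(l / a)
    · refine le_add_right ?_
      rw [← ENNReal.ofReal_mul (by positivity), e]
      refine ENNReal.ofReal_le_ofReal ?_
      have h1 := pow_le_pow_left₀ n0 h 4
      have h2 : (2 * √(l / a)) ^ 4 = 16 / a ^ 2 * l ^ 2 := by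
        rw [show (2 * √(l / a)) ^ 4 = 16 * (√(l / a) ^ 2) ^ 2 by ring, t1]
        field_simp
      rw [show w p ^ 6 = w p ^ 4 * w p ^ 2 by ring, ← h2]
      exact mul_le_mul_of_nonneg_right h1 (sq_nonneg _)
    · obtain ⟨k, k1, k2⟩ := exists_nat_pow_near (x := w p / (2 * √(l / a))) (y := 2)
        ((one_le_div (by positivity)).2 (not_le.1 h).le) one_lt_two
      rw [le_div_iff₀ (by positivity)] at k1
      rw [div_lt_iff₀ (by positivity), pow_succ] at k2
      refine le_add_left (le_trans ?_ (ENNReal.le_tsum k))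
      rw [Set.indicator_of_mem (show p ∈ {p | 2 * τ k ≤ w' p} from by
        simp only [Set.mem_ofPred_eq, e, hτ]
        linarith)]
      refine ENNReal.ofReal_le_ofReal (pow_le_pow_left₀ n0 ?_ 6)
      simp only [hτ]
      linarith
  have s3 : ∀ k, ∫⁻ p in ball z a,
      {p | 2 * τ k ≤ w' p}.indicator (fun _ => ENNReal.ofReal ((4 * τ k) ^ 6)) p ≤
      ENNReal.ofReal (4 ^ 6 * (8 * Λ) * l ^ 2) * ∫⁻ p in E k, g p := fun k => by
    have e : {p | 2 * τ k ≤ w' p} ∩ ball z a = ball z a ∩ {p | 2 * τ k ≤ w p} := by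
      rw [Set.inter_comm]
      ext p
      refine and_congr_right fun hp => ?_
      simp only [Set.mem_ofPred_eq, ew p (hab hp)]
    rw [lintegral_indicator_const (mA k), Measure.restrict_apply (mA k), e, mul_pow,
      ENNReal.ofReal_mul (by positivity), mul_assoc, mul_assoc (4 ^ 6 : ℝ),
      ENNReal.ofReal_mul (p := 4 ^ 6) (by positivity), mul_assoc]
    exact mul_le_mul_right (sob_level hΛ h0 hU hB hw hl (tp k) (ta k) hd) _
  have mw2 : Measurable fun p => ENNReal.ofReal (w' p ^ 2) := (mw.pow_const 2).ennreal_ofReal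
  have cw := hw.continuousOn.mono hB
  have i1 : IntegrableOn (fun p => w p ^ 6) (ball z a) :=
    ((cw.pow 6).integrableOn_compact (isCompact_closedBall _ _)).mono_set
      (hab.trans ball_subset_closedBall)
  have i2 : IntegrableOn (fun p => ∑ i, pd i w p ^ 2 + w p ^ 2) (ball z (2 * a)) :=
    (((continuousOn_finsetSum _ fun i _ =>
      ((contDiffOn_pd hU hw i).continuousOn.mono hB).pow 2).add (cw.pow 2)).integrableOn_compact
      (isCompact_closedBall _ _)).mono_set ball_subset_closedBall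
  have n2 : ∀ p, 0 ≤ ∑ i, pd i w p ^ 2 := fun p => Finset.sum_nonneg fun i _ => sq_nonneg _
  have n3 : ∀ p, 0 ≤ ∑ i, pd i w p ^ 2 + w p ^ 2 := fun p => add_nonneg (n2 p) (sq_nonneg _)
  set I := ∫⁻ p in ball z (2 * a), ENNReal.ofReal (∑ i, pd i w p ^ 2 + w p ^ 2) with hI
  have s4 : ∫⁻ p in ball z a, ENNReal.ofReal (w' p ^ 2) ≤ I :=
    (lintegral_mono_set hab).trans (setLIntegral_mono' measurableSet_ball fun p hp =>
      ENNReal.ofReal_le_ofReal (by rw [ew p hp]; linarith [n2 p]))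
  have s5 : ∫⁻ p in ball z (2 * a), g p ≤ I :=
    lintegral_mono fun p => ENNReal.ofReal_le_ofReal (le_add_of_nonneg_right (sq_nonneg _))
  refine (ENNReal.ofReal_le_ofReal_iff (mul_nonneg (by positivity) (integral_nonneg n3))).1 ?_
  rw [ENNReal.ofReal_mul (by positivity),
    ofReal_integral_eq_lintegral_ofReal i2 (Filter.Eventually.of_forall n3),
    ofReal_integral_eq_lintegral_ofReal i1 (Filter.Eventually.of_forall fun p => by positivity),
    ← hI, add_mul, ENNReal.ofReal_add (by positivity) (by positivity), add_mul]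
  refine (setLIntegral_mono' measurableSet_ball s2).trans ?_
  rw [lintegral_add_left (mw2.const_mul _), lintegral_const_mul _ mw2,
    lintegral_tsum fun k => (measurable_const.indicator (mA k)).aemeasurable]
  refine add_le_add (mul_le_mul_right s4 _) ((ENNReal.tsum_le_tsum s3).trans ?_)
  rw [ENNReal.tsum_mul_left]
  exact mul_le_mul_right (s1.trans s5) _

end Pool.Agent.Lib.MP_40de08_gt
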