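import Pool.Agent.Lib.MP_40de08_gt.OneTest
import Pool.Agent.Lib.MP_40de08_gt.OneDense
import Pool.Agent.Lib.MP_40de08_gt.OneSob

/-!
An approximate Green function at a given scale, and the resulting alternative.
-/

open scoped Manifold ContDiff Topology
open Matrix Filter Set MeasureTheory Metric

namespace Pool.Agent.Lib.MP_40de08_gt

theorem chi_point {F k v w m m₀ W a ρ σ : ℝ} (hm : 0 < m) (hm₀ : 0 < m₀) (hw : 0 < w) (h1 : m₀ ≤ v)
    (h2 : (w ^ 2)⁻¹ ≤ W) (h3 : k ^ 2 ≤ σ) (hF0 : 0 ≤ F) (ha : 0 ≤ a)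
    (h4 : F ≠ 0 → m ≤ v ∧ F ≤ ρ ∧ ρ ^ 2 / m ^ 2 * (w ^ 2)⁻¹ ≤ a) :
    ((F + k) / v) ^ 2 / w ^ 2 ≤ 2 * a + 2 * σ * (W / m₀ ^ 2) := by
  have hv : 0 < v := hm₀.trans_le h1
  have a1 : ((F + k) / v) ^ 2 / w ^ 2 ≤
      2 * (F ^ 2 / v ^ 2 * (w ^ 2)⁻¹) + 2 * k ^ 2 * ((w ^ 2)⁻¹ / v ^ 2) := by
    have : 2 * (F ^ 2 / v ^ 2 * (w ^ 2)⁻¹) + 2 * k ^ 2 * ((w ^ 2)⁻¹ / v ^ 2) -
        ((F + k) / v) ^ 2 / w ^ 2 = ((F - k) / v) ^ 2 / w ^ 2 := by
      field_simp
      ring
    have h5 : 0 ≤ ((F - k) / v) ^ 2 / w ^ 2 := by positivity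
    linarith
  have a2 : F ^ 2 / v ^ 2 * (w ^ 2)⁻¹ ≤ a := by
    by_cases h : F = 0
    · simpa [h] using ha
    · obtain ⟨b1, b2, b3⟩ := h4 h
      refine le_trans ?_ b3
      gcongr
  have hW : 0 ≤ W := le_trans (by positivity) h2
  have a3 : 2 * k ^ 2 * ((w ^ 2)⁻¹ / v ^ 2) ≤ 2 * σ * (W / m₀ ^ 2) := by
    have : 0 ≤ σ := (sq_nonneg k).trans h3
    gcongr
  linarith

variable {M : Type} [TopologicalSpace M] [ChartedSpace E3 M] [IsManifold (𝓡 3) ∞ M]
  [T2Space M] [CompactSpace M] [MeasurableSpace M] [BorelSpace M]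

omit [IsManifold (𝓡 3) ∞ M] [CompactSpace M] [MeasurableSpace M] [BorelSpace M] in
/-- A smooth source term. -/
theorem chi_source {e : OpenPartialHomeomorph M E3} (he : SC e) {p : E3} {r l : ℝ} (hr : 0 < r)
    (hl : 0 < l) (hK : closedBall p (2 * r) ⊆ e.target) {w : M → ℝ} (hw : Sm w) :
    ∃ F : M → ℝ, Sm F ∧ (∀ x, 0 ≤ F x) ∧ (∀ x, F x ≤ 1) ∧
      (∀ x ∈ e.source, e x ∈ ball p r → l / r ≤ w x ^ 2 → F x = 1) ∧
      ∀ x, F x ≠ 0 → x ∈ e.source ∩ e ⁻¹' closedBall p (2 * r) ∧ l / (2 * r) ≤ w x ^ 2 := by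
  set β : E3 → ℝ := fun q => Real.smoothTransition ((4 * r ^ 2 - ‖q - p‖ ^ 2) / (3 * r ^ 2))
    with hβ
  have hβs : ContDiff ℝ ∞ β := Real.smoothTransition.contDiff.comp
    ((contDiff_const.sub ((contDiff_id.sub contDiff_const).norm_sq ℝ)).div_const _)
  have hβ0 : ∀ q, q ∉ closedBall p (2 * r) → β q = 0 := fun q hq => by
    rw [mem_closedBall, not_le, dist_eq_norm] at hq
    refine Real.smoothTransition.zero_of_nonpos (div_nonpos_of_nonpos_of_nonneg ?_ (by positivity))
    nlinarith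
  have hB : Sm (e.source.indicator (β ∘ e)) :=
    he.sm_ext hβs.contDiffOn (isCompact_closedBall _ _) hK fun q _ hq => hβ0 q hq
  have hγ : Sm fun x => Real.smoothTransition (2 * r / l * (w x * w x) - 1) :=
    Real.smoothTransition.contDiff.contMDiff.comp ((contMDiff_const.mul (hw.mul hw)).sub
      contMDiff_const)
  have b0 : ∀ x, 0 ≤ e.source.indicator (β ∘ e) x := fun x =>
    indicator_nonneg (fun x _ => Real.smoothTransition.nonneg _) x
  have b1 : ∀ x, e.source.indicator (β ∘ e) x ≤ 1 := fun x => by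
    by_cases hx : x ∈ e.source
    · rw [indicator_of_mem hx]
      exact Real.smoothTransition.le_one _
    · rw [indicator_of_notMem hx]
      exact zero_le_one
  refine ⟨fun x => e.source.indicator (β ∘ e) x *
    Real.smoothTransition (2 * r / l * (w x * w x) - 1), hB.mul hγ,
    fun x => mul_nonneg (b0 x) (Real.smoothTransition.nonneg _),
    fun x => mul_le_one₀ (b1 x) (Real.smoothTransition.nonneg _) (Real.smoothTransition.le_one _),
    fun x hx h1 h2 => ?_, fun x hx => ?_⟩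
  · rw [mem_ball, dist_eq_norm] at h1
    have a1 : β (e x) = 1 := by
      refine Real.smoothTransition.one_of_one_le ((one_le_div (by positivity)).2 ?_)
      nlinarith [norm_nonneg (e x - p)]
    have a2 : 1 ≤ 2 * r / l * (w x * w x) - 1 := by
      rw [div_le_iff₀ hr] at h2
      rw [le_sub_iff_add_le, div_mul_eq_mul_div, le_div_iff₀ hl]
      nlinarith
    simp only [indicator_of_mem hx, Function.comp_apply, a1,
      Real.smoothTransition.one_of_one_le a2, mul_one]
  · obtain ⟨a1, a2⟩ := mul_ne_zero_iff.1 hx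
    have a3 : x ∈ e.source := by
      by_contra h
      exact a1 (indicator_of_notMem h _)
    rw [indicator_of_mem a3] at a1
    refine ⟨⟨a3, by_contra fun h => a1 (hβ0 _ h)⟩, by_contra fun h => a2 ?_⟩
    rw [not_le, lt_div_iff₀ (by positivity)] at h
    refine Real.smoothTransition.zero_of_nonpos ?_
    rw [sub_nonpos, div_mul_eq_mul_div, div_le_one hl]
    nlinarith

theorem chi_loc [ConnectedSpace M] (g : Met M) {s : M → ℝ} (hs : Sm s) (hs0 : ∀ x, 0 < s x)
    (z : M) : ∃ (e : OpenPartialHomeomorph M E3) (a C : ℝ), SC e ∧ z ∈ e.source ∧ 0 < a ∧ 0 ≤ C ∧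
      closedBall (e z) (2 * a) ⊆ e.target ∧ ∀ (w : M → ℝ) (l : ℝ), Sm w → (∀ x, 0 < w x) → 0 < l →
        ∀ p ∈ ball (e z) a, ∀ r : ℝ, 0 < r → r ≤ a →
          volume (ball p r) ≤ 2 * volume (ball p r ∩ {q | l / r ≤ (w ∘ e.symm) q ^ 2}) →
          ∃ v : M → ℝ, Sm v ∧ (∀ x, 0 < v x) ∧
            ∫ x, ((-2 * Lap g v x + s x * v x) / v x) ^ 2 / w x ^ 2 ∂(vol g) ≤ C / l := by
  have hsc := hs.continuous
  obtain ⟨e, b, C, he, hz, hb, hC, hKe, H⟩ := test_main g z hsc
  obtain ⟨CW, hCW, hW⟩ := test_wmp g hsc hs0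
  have hG := he.good g
  have hK : IsCompact (closedBall (e z) b) := isCompact_closedBall _ _
  have hrho : ContinuousOn (rho (coef g e)) (closedBall (e z) b) :=
    hG.smooth_rho.continuousOn.mono hKe
  obtain ⟨A, hA⟩ := hK.exists_bound_of_continuousOn hrho
  have hA0 : 0 ≤ A := (norm_nonneg _).trans (hA _ (mem_closedBall_self hb.le))
  obtain ⟨κ, hκ, hκρ⟩ := hK.exists_forall_le' hrho fun q hq => hG.rho_pos (hKe hq)
  obtain ⟨S, hS⟩ := isCompact_univ.exists_bound_of_continuousOn hsc.continuousOn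
  have hβ : 0 < (volume : Measure E3).real (ball 0 1) :=
    ENNReal.toReal_pos (measure_ball_pos _ _ one_pos).ne' measure_ball_lt_top.ne
  set β := (volume : Measure E3).real (ball 0 1) with hβd
  have hint := fun (F : M → ℝ) (hF : Continuous F) => integrable_of_continuous g hF
  refine ⟨e, b / 3, 32 * A * β * (96 * C / (κ * β)) ^ 2 + 1, he, hz, by positivity, by positivity,
    (closedBall_subset_closedBall (by linarith)).trans hKe,
    fun w l hw hw0 hl p hp r hr hra hvol => ?_⟩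
  have hK'b : closedBall p (2 * r) ⊆ ball (e z) b :=
    closedBall_subset_ball' (by linarith [mem_ball.1 hp])
  have hK'K := hK'b.trans ball_subset_closedBall
  have hK'e := hK'K.trans hKe
  have hrK : ball p r ⊆ closedBall p (2 * r) :=
    ball_subset_closedBall.trans (closedBall_subset_closedBall (by linarith))
  obtain ⟨F₁, hF₁, hF0, hF1, hFone, hFsupp⟩ := chi_source he hr hl hK'e hw
  have hF : Sm fun x => (r ^ 3)⁻¹ * F₁ x := contMDiff_const.mul hF₁
  have hF0' : ∀ x, 0 ≤ (r ^ 3)⁻¹ * F₁ x := fun x => mul_nonneg (by positivity) (hF0 x)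
  -- the mass of the source
  set T := ball p r ∩ {q | l / r ≤ (w ∘ e.symm) q ^ 2} with hT
  have hTm : MeasurableSet T := vol_meas (f := fun q => (w ∘ e.symm) q ^ 2) (s := Ici (l / r))
    (((hw.continuous.comp_continuousOn e.continuousOn_symm).mono (hrK.trans hK'e)).pow 2)
    measurableSet_ball measurableSet_Ici
  have hTK : T ⊆ closedBall p (2 * r) := inter_subset_left.trans hrK
  have hTf : volume T ≠ ⊤ := (measure_lt_top_of_subset inter_subset_left measure_ball_lt_top.ne).ne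
  have hTv : r ^ 3 * β ≤ 2 * (volume : Measure E3).real T := by
    have h1 := ENNReal.toReal_mono (ENNReal.mul_ne_top (by simp) hTf) hvol
    rw [Measure.addHaar_ball _ _ hr.le, ENNReal.toReal_mul, ENNReal.toReal_mul,
      ENNReal.toReal_ofReal (by positivity), finrank_euclideanSpace_fin,
      ENNReal.toReal_ofNat] at h1
    exact h1
  have hmass : κ * β / 2 ≤ ∫ x in e.source ∩ e ⁻¹' T, (r ^ 3)⁻¹ * F₁ x ∂(vol g) := by
    rw [he.setIntegral_eq g hF.continuous.measurable hTm (hTK.trans hK'e)]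
    refine le_trans ?_ (setIntegral_ge_of_const_le_real (c := κ * (r ^ 3)⁻¹) hTm hTf
      (fun q hq => ?_) ?_)
    · calc κ * β / 2 = κ * (r ^ 3)⁻¹ * (r ^ 3 * β / 2) := by field_simp
        _ ≤ _ := mul_le_mul_of_nonneg_left (by linarith) (by positivity)
    · have hqe := hK'e (hTK hq)
      rw [hFone _ (e.map_target hqe) (by rw [e.right_inv hqe]; exact hq.1) hq.2, mul_one]
      exact mul_le_mul_of_nonneg_right (hκρ q (hK'K (hTK hq))) (by positivity)
    · exact (((hrho.mono hK'K).mul (hF.continuous.comp_continuousOn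
        (e.continuousOn_symm.mono hK'e))).integrableOn_compact (isCompact_closedBall _ _)).mono_set
        hTK
  -- constants
  set m := κ * β / (96 * C * r) with hm
  have hm0 : 0 < m := by positivity
  have hpe : p ∈ e.target := hK'e (mem_closedBall_self (by positivity))
  obtain ⟨c', C', hc', hC', hlow⟩ := test_low g hsc (e.isOpen_inter_preimage (isOpen_ball (x := p)
    (ε := 2 * r))) ⟨e.symm p, e.map_target hpe, by
      rw [mem_preimage, e.right_inv hpe]
      exact mem_ball_self (by positivity)⟩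
  have cw := hw.continuous
  have cw2 : Continuous fun x => (w x ^ 2)⁻¹ := (cw.pow 2).inv₀ fun x => (pow_pos (hw0 x) 2).ne'
  obtain ⟨W, hWb⟩ := isCompact_univ.exists_bound_of_continuousOn cw2.continuousOn
  have hW0 : 0 ≤ W := (norm_nonneg _).trans (hWb z (mem_univ z))
  set D := (4 + 4 * (S * (CW + 1)) ^ 2 * (vol g).real univ) * (W / (c' * m / 2) ^ 2) with hD
  have hD0 : 0 ≤ D := by positivity
  obtain ⟨η, hη, hη1, hη2, hη3⟩ : ∃ η : ℝ, 0 < η ∧ η ≤ m ∧ C' * η ≤ c' * m / 2 ∧
      η ^ 2 * D ≤ 1 / l := by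
    have t1 : ∀ᶠ η : ℝ in 𝓝 0, η < m := eventually_lt_nhds hm0
    have t2 : ∀ᶠ η : ℝ in 𝓝 0, C' * η < c' * m / 2 :=
      (by fun_prop : Continuous fun η : ℝ => C' * η).continuousAt.eventually_lt continuousAt_const
        (by simpa using (by positivity : 0 < c' * m / 2))
    have t3 : ∀ᶠ η : ℝ in 𝓝 0, η ^ 2 * D < 1 / l :=
      (by fun_prop : Continuous fun η : ℝ => η ^ 2 * D).continuousAt.eventually_lt
        continuousAt_const (by simpa using hl)
    obtain ⟨η, h0, h1, h2, h3⟩ := (eventually_mem_nhdsWithin.and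
      ((t1.and (t2.and t3)).filter_mono (nhdsWithin_le_nhds (s := Ioi 0)))).exists
    exact ⟨η, h0, h1.le, h2.le, h3.le⟩
  -- the approximate solution
  obtain ⟨u, hu, hur⟩ := dense_L g hs hs0 hF (pow_pos hη 2)
  set R : M → ℝ := fun x => (r ^ 3)⁻¹ * F₁ x - (-2 * Lap g u x + s x * u x) with hR
  have cR : Continuous R := hF.continuous.sub
    ((continuous_const.mul (sm_lap g hu).continuous).add (hsc.mul hu.continuous))
  have hu0 := hW u R η hu cR (fun x => by simp only [hR]; linarith [hF0' x]) hη hur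
  have hv : Sm fun x => u x + (CW + 1) * η := hu.add contMDiff_const
  have hv0 : ∀ x, 0 < u x + (CW + 1) * η := fun x => by linarith [hu0 x]
  have hL : ∀ x, -2 * Lap g (fun x => u x + (CW + 1) * η) x + s x * (u x + (CW + 1) * η) =
      (r ^ 3)⁻¹ * F₁ x + (s x * ((CW + 1) * η) - R x) := fun x => by
    rw [lap_add g hu contMDiff_const, lap_const]
    simp only [hR]
    ring
  have hsη : ∀ x, 0 ≤ s x * ((CW + 1) * η) := fun x => mul_nonneg (hs0 x).le (by positivity)
  have hnear : ∀ y ∈ e.source ∩ e ⁻¹' closedBall p (2 * r), m ≤ u y + (CW + 1) * η := by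
    intro y hy
    have a1 := H y ⟨hy.1, hK'b hy.2⟩ _ _ R η (3 * r) hv (fun x => (hv0 x).le) hF.continuous hF0' cR
      (fun x => by rw [hL]; linarith [hsη x]) hη hur (by positivity) (by linarith)
    have a2 : 0 ≤ ∫ x in e.source ∩ e ⁻¹' ball (e z) b, (u x + (CW + 1) * η) ∂(vol g) :=
      integral_nonneg fun x => (hv0 x).le
    have a3 : ∫ x in e.source ∩ e ⁻¹' T, (r ^ 3)⁻¹ * F₁ x ∂(vol g) ≤
        ∫ x in e.source ∩ e ⁻¹' ball (e y) (3 * r), (r ^ 3)⁻¹ * F₁ x ∂(vol g) := by
      refine setIntegral_mono_set (hint _ hF.continuous).integrableOn (Eventually.of_forall hF0')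
        (LE.le.eventuallyLE fun x hx => ⟨hx.1, ?_⟩)
      have b1 := mem_ball.1 hx.2.1
      have b2 := mem_closedBall.1 hy.2
      exact mem_ball.2 (by linarith [dist_triangle_right (e x) (e y) p])
    have a4 := mul_le_mul_of_nonneg_left (hmass.trans a3) (by positivity : 0 ≤ 1 / (8 * (3 * r)))
    have a5 : 1 / (8 * (3 * r)) * (κ * β / 2) = C * (2 * m) := by
      rw [hm]
      field_simp
      ring
    have a6 : 2 * m ≤ u y + (CW + 1) * η + η := le_of_mul_le_mul_left (by linarith) hC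
    linarith
  have hfar := hlow _ R η m hv (fun x => (hv0 x).le) cR
    (fun x => by rw [hL]; linarith [hsη x, hF0' x]) hη hur hm0.le
    fun x hx => hnear x ⟨hx.1, ball_subset_closedBall hx.2⟩
  refine ⟨_, hv, hv0, ?_⟩
  have hKM := param_compact (isCompact_closedBall p (2 * r)) hK'e
  set a₀ := ((r ^ 3)⁻¹) ^ 2 / m ^ 2 * (2 * r / l) with ha₀
  have ha₀0 : 0 ≤ a₀ := by positivity
  have i1 : Integrable (fun x => 2 * (e.source ∩ e ⁻¹' closedBall p (2 * r)).indicator
      (fun _ => a₀) x) (vol g) := ((integrable_const a₀).indicator hKM.measurableSet).const_mul 2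
  have i2 : Integrable (fun x => 2 * (2 * R x ^ 2 + 2 * (S * (CW + 1) * η) ^ 2) *
      (W / (c' * m / 2) ^ 2)) (vol g) := hint _ (by fun_prop)
  have b1 : ∫ x, ((-2 * Lap g (fun x => u x + (CW + 1) * η) x + s x * (u x + (CW + 1) * η)) /
      (u x + (CW + 1) * η)) ^ 2 / w x ^ 2 ∂(vol g) ≤
      ∫ x, (2 * (e.source ∩ e ⁻¹' closedBall p (2 * r)).indicator (fun _ => a₀) x +
        2 * (2 * R x ^ 2 + 2 * (S * (CW + 1) * η) ^ 2) * (W / (c' * m / 2) ^ 2)) ∂(vol g) := by
    refine integral_mono_of_nonneg (Eventually.of_forall fun x => by positivity) (i1.add i2)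
      (Eventually.of_forall fun x => ?_)
    simp only [hL]
    refine chi_point (ρ := (r ^ 3)⁻¹) hm0 (by positivity) (hw0 x) (by linarith [hfar x])
      ((le_abs_self _).trans (hWb x (mem_univ x))) ?_ (hF0' x)
      (indicator_nonneg (fun _ _ => ha₀0) x) fun h => ?_
    · have d1 : s x * ((CW + 1) * η) ≤ S * (CW + 1) * η := by
        rw [mul_assoc]
        exact mul_le_mul_of_nonneg_right ((le_abs_self _).trans (hS x (mem_univ x)))
          (by positivity)
      have d2 := pow_le_pow_left₀ (hsη x) d1 2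
      nlinarith [sq_nonneg (s x * ((CW + 1) * η) + R x)]
    · obtain ⟨d1, d2⟩ := hFsupp x (right_ne_zero_of_mul h)
      refine ⟨hnear x d1, mul_le_of_le_one_right (by positivity) (hF1 x), ?_⟩
      rw [indicator_of_mem d1, ha₀]
      refine mul_le_mul_of_nonneg_left ?_ (by positivity)
      rw [← inv_div l]
      exact inv_anti₀ (by positivity) d2
  have b2 : (vol g).real (e.source ∩ e ⁻¹' closedBall p (2 * r)) ≤ A * ((2 * r) ^ 3 * β) := by
    have d1 := he.setIntegral_eq g (F := fun _ => (1 : ℝ)) measurable_const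
      measurableSet_closedBall hK'e
    rw [setIntegral_const, smul_eq_mul, mul_one] at d1
    have d2 : ∫ q in closedBall p (2 * r), rho (coef g e) q * 1 ≤
        ∫ _ in closedBall p (2 * r), A :=
      setIntegral_mono_on (((hrho.mono hK'K).mul continuousOn_const).integrableOn_compact
        (isCompact_closedBall _ _)) (integrableOn_const measure_closedBall_lt_top.ne)
        measurableSet_closedBall fun q hq => by
          rw [mul_one]
          exact (le_abs_self _).trans (hA q (hK'K hq))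
    rw [setIntegral_const, smul_eq_mul, Measure.real, Measure.addHaar_closedBall _ _
      (by positivity), ENNReal.toReal_mul, ENNReal.toReal_ofReal (by positivity),
      finrank_euclideanSpace_fin] at d2
    exact d1.trans_le (d2.trans_eq (mul_comm _ _))
  rw [integral_add i1 i2, integral_const_mul, integral_indicator_const _ hKM.measurableSet,
    integral_mul_const, integral_const_mul, integral_add (hint _ (by fun_prop))
      (integrable_const _), integral_const_mul, integral_const, smul_eq_mul, smul_eq_mul] at b1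
  have b3 : 2 * (2 * ∫ x, R x ^ 2 ∂(vol g) + (vol g).real univ * (2 * (S * (CW + 1) * η) ^ 2)) *
      (W / (c' * m / 2) ^ 2) ≤ η ^ 2 * D := by
    rw [hD, ← mul_assoc (η ^ 2)]
    refine mul_le_mul_of_nonneg_right ?_ (div_nonneg hW0 (sq_nonneg _))
    have : ∫ x, R x ^ 2 ∂(vol g) ≤ η ^ 2 := hur
    nlinarith
  have b4 := mul_le_mul_of_nonneg_right b2 ha₀0
  have b5 : 2 * (A * ((2 * r) ^ 3 * β) * a₀) = 32 * A * β * (96 * C / (κ * β)) ^ 2 / l := by
    rw [ha₀, hm]
    field_simp
    ring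
  rw [add_div]
  linarith

/-- The refined Sobolev inequality in a chart. -/
theorem chi_sob (g : Met M) {e : OpenPartialHomeomorph M E3} (he : SC e) {z : E3} {a : ℝ}
    (ha : 0 < a) (hKe : closedBall z (2 * a) ⊆ e.target) :
    ∃ C : ℝ, 0 ≤ C ∧ ∀ (w : M → ℝ) (l : ℝ), Sm w → (∀ x, 0 < w x) → 0 < l →
      (∀ x ∈ ball z a, ∀ ρ : ℝ, 0 < ρ → ρ ≤ a →
        volume (ball x ρ) ≤ 2 * volume (ball x ρ ∩ {p | (w ∘ e.symm) p ^ 2 ≤ l / ρ})) →
      ∫ x in e.source ∩ e ⁻¹' ball z a, w x ^ 6 ∂(vol g) ≤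
        C * l ^ 2 * ∫ x, (Grd g w w x + w x ^ 2) ∂(vol g) := by
  have hG := he.good g
  obtain ⟨C, hC, hP⟩ := sob_flat z ha
  have hK : IsCompact (closedBall z (2 * a)) := isCompact_closedBall _ _
  have hrho : ContinuousOn (rho (coef g e)) (closedBall z (2 * a)) :=
    hG.smooth_rho.continuousOn.mono hKe
  have htr : ContinuousOn (fun p => (|(coef g e p).trace| + 1) / rho (coef g e) p)
      (closedBall z (2 * a)) :=
    (((smooth_trace hG.smooth).continuousOn.mono hKe).abs.add continuousOn_const).div hrho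
      fun p hp => (hG.rho_pos (hKe hp)).ne'
  obtain ⟨A1, hA1⟩ := hK.exists_bound_of_continuousOn hrho
  obtain ⟨A2, hA2⟩ := hK.exists_bound_of_continuousOn htr
  have hz0 : z ∈ closedBall z (2 * a) := mem_closedBall_self (by positivity)
  have hA10 : 0 ≤ A1 := (norm_nonneg _).trans (hA1 _ hz0)
  have hA20 : 0 ≤ A2 := (norm_nonneg _).trans (hA2 _ hz0)
  have hb2 : ball z (2 * a) ⊆ closedBall z (2 * a) := ball_subset_closedBall
  have hb1 : ball z a ⊆ closedBall z (2 * a) := (ball_subset_ball (by linarith)).trans hb2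
  refine ⟨A1 * (C * A2), by positivity, fun w l hw hw0 hl hmed => ?_⟩
  have hwl := he.smooth_loc hw
  have hc := hP (w ∘ e.symm) e.target e.open_target hKe hwl (fun p _ => (hw0 _).le) l hl hmed
  have c1 : ContinuousOn (fun p => (w ∘ e.symm) p ^ 6) (closedBall z (2 * a)) :=
    (hwl.continuousOn.mono hKe).pow 6
  have c2 : ContinuousOn (fun p => ∑ i, pd i (w ∘ e.symm) p ^ 2 + (w ∘ e.symm) p ^ 2)
      (closedBall z (2 * a)) :=
    (continuousOn_finsetSum _ fun i _ =>
      ((contDiffOn_pd e.open_target hwl i).continuousOn.mono hKe).pow 2).add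
      ((hwl.continuousOn.mono hKe).pow 2)
  have hgc : Continuous fun x => Grd g w w x + w x ^ 2 :=
    (sm_grd g hw hw).continuous.add (hw.continuous.pow 2)
  have c3 : ContinuousOn (fun p => rho (coef g e) p * (Grd g w w (e.symm p) + w (e.symm p) ^ 2))
      (closedBall z (2 * a)) :=
    hrho.mul (hgc.comp_continuousOn (e.continuousOn_symm.mono hKe))
  have h1 : ∫ p in ball z a, rho (coef g e) p * w (e.symm p) ^ 6
      ≤ A1 * ∫ p in ball z a, (w ∘ e.symm) p ^ 6 := by
    rw [← integral_const_mul]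
    refine setIntegral_mono_on (((hrho.mul c1).integrableOn_compact hK).mono_set hb1)
      (((continuousOn_const.mul c1).integrableOn_compact hK).mono_set hb1)
      measurableSet_ball fun p hp => ?_
    exact mul_le_mul_of_nonneg_right ((le_abs_self _).trans (hA1 p (hb1 hp))) (by positivity)
  have h2 : ∫ p in ball z (2 * a), (∑ i, pd i (w ∘ e.symm) p ^ 2 + (w ∘ e.symm) p ^ 2) ≤
      A2 * ∫ p in ball z (2 * a), rho (coef g e) p * (Grd g w w (e.symm p) + w (e.symm p) ^ 2) := by
    rw [← integral_const_mul]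
    refine setIntegral_mono_on ((c2.integrableOn_compact hK).mono_set hb2)
      (((continuousOn_const.mul c3).integrableOn_compact hK).mono_set hb2)
      measurableSet_ball fun p hp => ?_
    have hp' := hKe (hb2 hp)
    have a1 := poinc_sum_le (hG.pos p hp') (dv (w ∘ e.symm) p)
    have a2 : Grd g w w (e.symm p) = grd (coef g e) (w ∘ e.symm) (w ∘ e.symm) p := by
      rw [he.grd_eq g hw hw (e.map_target hp'), e.right_inv hp']
    have a3 := grd_self_nonneg g w (e.symm p)
    have a5 : |(coef g e p).trace| + 1 ≤ A2 * rho (coef g e) p :=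
      (div_le_iff₀ (hG.rho_pos hp')).mp ((le_abs_self _).trans (hA2 p (hb2 hp)))
    have a6 : ∑ i, pd i (w ∘ e.symm) p ^ 2 ≤ Grd g w w (e.symm p) * (coef g e p).trace := by
      rw [a2]
      exact a1
    have a7 := mul_le_mul_of_nonneg_left (le_abs_self (coef g e p).trace) a3
    have a8 := mul_le_mul_of_nonneg_right a5 (add_nonneg a3 (sq_nonneg (w (e.symm p))))
    have a9 := mul_nonneg (abs_nonneg (coef g e p).trace) (sq_nonneg (w (e.symm p)))
    simp only [Function.comp_apply]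
    linarith
  have h3 : ∫ p in ball z (2 * a), rho (coef g e) p * (Grd g w w (e.symm p) + w (e.symm p) ^ 2)
      ≤ ∫ x, (Grd g w w x + w x ^ 2) ∂(vol g) := by
    rw [← he.setIntegral_eq g hgc.measurable measurableSet_ball (hb2.trans hKe)]
    exact setIntegral_le_integral (integrable_of_continuous g hgc)
      (Eventually.of_forall fun x => add_nonneg (grd_self_nonneg g w x) (sq_nonneg _))
  rw [he.setIntegral_eq g (F := fun x => w x ^ 6) (hw.continuous.pow 6).measurable
    measurableSet_ball (hb1.trans hKe)]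
  calc _ ≤ A1 * ∫ p in ball z a, (w ∘ e.symm) p ^ 6 := h1
    _ ≤ A1 * (C * l ^ 2 * (A2 * ∫ x, (Grd g w w x + w x ^ 2) ∂(vol g))) :=
      mul_le_mul_of_nonneg_left (hc.trans (mul_le_mul_of_nonneg_left
        (h2.trans (mul_le_mul_of_nonneg_left h3 hA20)) (by positivity))) hA10
    _ = _ := by ring

/-- The alternative: either a refined Sobolev inequality holds at the scale `l`, or there is a
positive function `v` with `(-2 Δ v + s v) / v` small in a weighted `L²` norm. -/
theorem chi_alt [ConnectedSpace M] (g : Met M) {s : M → ℝ} (hs : Sm s) (hs0 : ∀ x, 0 < s x) :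
    ∃ C : ℝ, 0 ≤ C ∧ ∀ (w : M → ℝ) (l : ℝ), Sm w → (∀ x, 0 < w x) → 0 < l →
      ∫ x, w x ^ 6 ∂(vol g) ≤ C * l ^ 2 * ∫ x, (Grd g w w x + w x ^ 2) ∂(vol g) ∨
      ∃ v : M → ℝ, Sm v ∧ (∀ x, 0 < v x) ∧
        ∫ x, ((-2 * Lap g v x + s x * v x) / v x) ^ 2 / w x ^ 2 ∂(vol g) ≤ C / l := by
  have key := isCompact_univ.induction_on (p := fun N : Set M => ∃ C : ℝ, 0 ≤ C ∧
    ∀ (w : M → ℝ) (l : ℝ), Sm w → (∀ x, 0 < w x) → 0 < l →
      ∫ x in N, w x ^ 6 ∂(vol g) ≤ C * l ^ 2 * ∫ x, (Grd g w w x + w x ^ 2) ∂(vol g) ∨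
      ∃ v : M → ℝ, Sm v ∧ (∀ x, 0 < v x) ∧
        ∫ x, ((-2 * Lap g v x + s x * v x) / v x) ^ 2 / w x ^ 2 ∂(vol g) ≤ C / l)
    ⟨0, le_rfl, fun w l _ _ _ => Or.inl (by simp)⟩ ?_ ?_ ?_
  · simpa only [Measure.restrict_univ] using key
  · rintro N N' hNN ⟨C, hC, h⟩
    refine ⟨C, hC, fun w l hw hw0 hl => (h w l hw hw0 hl).imp_left fun h1 => le_trans ?_ h1⟩
    exact setIntegral_mono_set (integrable_of_continuous g (hw.continuous.pow 6)).integrableOn
      (Eventually.of_forall fun x => by positivity) hNN.eventuallyLE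
  · rintro N N' ⟨C, hC, h⟩ ⟨C', hC', h'⟩
    refine ⟨C + C', by positivity, fun w l hw hw0 hl => ?_⟩
    have hi : Integrable (fun x => w x ^ 6) (vol g) :=
      integrable_of_continuous g (hw.continuous.pow 6)
    rcases h w l hw hw0 hl with h1 | ⟨v, hv, hv0, h1⟩
    · rcases h' w l hw hw0 hl with h2 | ⟨v, hv, hv0, h2⟩
      · have h3 : ∫ x in N ∪ N', w x ^ 6 ∂(vol g) ≤
            ∫ x in N, w x ^ 6 ∂(vol g) + ∫ x in N', w x ^ 6 ∂(vol g) := by
          rw [← integral_add_measure hi.integrableOn hi.integrableOn]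
          exact integral_mono_measure (Measure.restrict_union_le _ _)
            (Eventually.of_forall fun x => by positivity)
            (hi.restrict.add_measure hi.restrict)
        left
        linarith
      · exact Or.inr ⟨v, hv, hv0, h2.trans (by gcongr; linarith)⟩
    · exact Or.inr ⟨v, hv, hv0, h1.trans (by gcongr; linarith)⟩
  · intro z _
    obtain ⟨e, a, C, he, hz, ha, hC, hKe, H⟩ := chi_loc g hs hs0 z
    obtain ⟨C', hC', H'⟩ := chi_sob g he ha hKe
    refine ⟨e.source ∩ e ⁻¹' ball (e z) a, mem_nhdsWithin_of_mem_nhds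
      ((e.isOpen_inter_preimage isOpen_ball).mem_nhds ⟨hz, mem_ball_self ha⟩), C + C',
      by positivity, fun w l hw hw0 hl => ?_⟩
    by_cases hmed : ∀ x ∈ ball (e z) a, ∀ ρ : ℝ, 0 < ρ → ρ ≤ a →
        volume (ball x ρ) ≤ 2 * volume (ball x ρ ∩ {p | (w ∘ e.symm) p ^ 2 ≤ l / ρ})
    · refine Or.inl ((H' w l hw hw0 hl hmed).trans ?_)
      have : 0 ≤ ∫ x, (Grd g w w x + w x ^ 2) ∂(vol g) :=
        integral_nonneg fun x => add_nonneg (grd_self_nonneg g w x) (sq_nonneg _)
      gcongr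
      linarith
    · push Not at hmed
      obtain ⟨p, hp, r, hr, hra, hlt⟩ := hmed
      obtain ⟨v, hv, hv0, h1⟩ := H w l hw hw0 hl p hp r hr hra (by
        by_contra h2
        rw [not_le] at h2
        have h3 : volume (ball p r) ≤ volume (ball p r ∩ {p | (w ∘ e.symm) p ^ 2 ≤ l / r}) +
            volume (ball p r ∩ {q | l / r ≤ (w ∘ e.symm) q ^ 2}) := by
          refine le_trans (measure_mono fun q hq => ?_) (measure_union_le _ _)
          exact (le_total ((w ∘ e.symm) q ^ 2) (l / r)).imp (fun h => ⟨hq, h⟩) fun h => ⟨hq, h⟩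
        have h4 := ENNReal.add_lt_add hlt h2
        rw [← mul_add, ← two_mul] at h4
        exact absurd (mul_le_mul_right h3 2) (not_le.2 h4))
      exact Or.inr ⟨v, hv, hv0, h1.trans (by gcongr; linarith)⟩

end Pool.Agent.Lib.MP_40de08_gt
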