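import Pool.Agent.Lib.MP_40de08_gt.Defs

/-!
The cone of conformal metrics of positive scalar curvature.
-/

open scoped Manifold ContDiff

namespace Pool.Agent.Lib.MP_40de08_gt

variable {M : Type} [TopologicalSpace M] [ChartedSpace E3 M] [IsManifold 𝓘(ℝ, E3) ∞ M]

/-- The cone `C_1([g₀])`: metrics `g = e^{-2u} g₀` with `u` smooth and `σ_1(g) > 0` everywhere. -/
def C1 (g₀ : Met M) : Set (Met M) :=
  {g | (∃ u : M → ℝ, ContMDiff 𝓘(ℝ, E3) 𝓘(ℝ, ℝ) ∞ u ∧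
      ∀ x v w, ip g x v w = Real.exp (-2 * u x) * ip g₀ x v w) ∧
    ∀ x, 0 < sigma1 g x}

end Pool.Agent.Lib.MP_40de08_gt
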