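import Pool.Agent.Lib.MP_40de08_gt.HolderLoc
import Pool.Agent.Lib.MP_40de08_gt.BumpLoc

/-!
A compactly supported subsolution with an approximate pole.
-/

open scoped ContDiff Topology
open Matrix Metric

namespace Pool.Agent.Lib.MP_40de08_gt

/-- The chain rule for the Laplacian, with derivatives only at the values of `f`. -/
theorem gam_lap_comp (G : E3 → Mat) {φ φ₁ φ₂ : ℝ → ℝ} {f : E3 → ℝ} (hf : ContDiff ℝ ∞ f)
    (h₁ : ∀ x, HasDerivAt φ (φ₁ (f x)) (f x)) (h₂ : ∀ x, HasDerivAt φ₁ (φ₂ (f x)) (f x))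
    (p : E3) :
    lap G (fun x => φ (f x)) p = φ₂ (f p) * grd G f f p + φ₁ (f p) * lap G f p := by
  have hd : ∀ q, DifferentiableAt ℝ f q := fun q => diffAt hf.contDiffAt
  have e1 : ∀ j, pd j (fun x => φ (f x)) = fun q => φ₁ (f q) * pd j f q := fun j =>
    funext fun q => pd_comp (h₁ _) (hd q) j
  have e2 : ∀ i j, pd i (pd j (fun x => φ (f x))) p =
      φ₂ (f p) * pd i f p * pd j f p + φ₁ (f p) * pd i (pd j f) p := by
    intro i j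
    have hφ : DifferentiableAt ℝ (fun q => φ₁ (f q)) p :=
      (h₂ p).differentiableAt.comp p (hd p)
    rw [e1 j, pd_mul hφ (diffAt (contDiff_pd hf j).contDiffAt), pd_comp (h₂ _) (hd p)]
  simp only [lap, grd, hes, dv, Matrix.trace, Matrix.diag, Matrix.mul_apply, Matrix.of_apply,
    dotProduct, Matrix.mulVec, e2, Fin.sum_univ_three]
  simp only [e1]
  ring

theorem gam_pd_lin (v : Fin 3 → ℝ) (y x : E3) (i : Fin 3) :
    pd i (fun x : E3 => 2 * (v ⬝ᵥ (x - y).ofLp)) x = 2 * v i := by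
  simp only [dotProduct, Fin.sum_univ_three, PiLp.sub_apply]
  simp (disch := fun_prop) only [pd_add, pd_mul, pd_sub, pd_const, pd_coord]
  fin_cases i <;> simp

theorem gam_pd_quad {N : Mat} (hN : ∀ i j, N i j = N j i) (y : E3) (c : ℝ) (i : Fin 3) :
    pd i (fun x : E3 => (x - y).ofLp ⬝ᵥ N *ᵥ (x - y).ofLp + c) =
      fun x : E3 => 2 * (N i ⬝ᵥ (x - y).ofLp) := by
  funext x
  simp only [dotProduct, mulVec, Fin.sum_univ_three, PiLp.sub_apply]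
  simp (disch := fun_prop) only [pd_add, pd_mul, pd_sub, pd_const, pd_coord]
  have h1 := hN 1 0
  have h2 := hN 2 0
  have h3 := hN 2 1
  fin_cases i <;> simp [h1, h2, h3] <;> ring

/-- Laplacian and gradient of the frozen quadratic form. -/
theorem gam_quad {G : E3 → Mat} {U : Set E3} (hG : Good G U) {x y : E3} (hy : y ∈ U) {A : ℝ}
    (hA : 1 ≤ A) (n1 : ∀ i j, |(G y - 1) i j| ≤ 1 / 18) (c1 : ∀ i j, |(G x)⁻¹ i j| ≤ A)
    (c2 : ∀ k i j, |chr G k i j x| ≤ A)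
    (c5 : ∀ i j, |((G x)⁻¹ - (G y)⁻¹) i j| ≤ A * dist x y) (c : ℝ) {σ : E3 → ℝ}
    (hσ : σ = fun x : E3 => (x - y).ofLp ⬝ᵥ G y *ᵥ (x - y).ofLp + c) :
    |lap G σ x - 6| ≤ 1296 * A ^ 2 * ‖x - y‖ ∧
      |grd G σ σ x - 4 * (σ x - c)| ≤ 1296 * A ^ 2 * ‖x - y‖ ^ 3 := by
  have hS := hG.symm hy
  have p1 : ∀ i, pd i σ = fun x : E3 => 2 * (G y i ⬝ᵥ (x - y).ofLp) := fun i => by
    rw [hσ]
    exact gam_pd_quad hS y c i
  have p2 : ∀ i j, pd i (pd j σ) x = 2 * G y i j := fun i j => by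
    rw [p1, gam_pd_lin, hS]
  have p0 : σ x - c = (x - y).ofLp ⬝ᵥ G y *ᵥ (x - y).ofLp := by
    rw [hσ]
    ring
  rw [dist_eq_norm] at c5
  have u : IsUnit (G y).det := (hG.det_pos hy).ne'.isUnit
  have x1 : ∀ i, |(x - y).ofLp i| ≤ ‖x - y‖ := fun i => PiLp.norm_apply_le (x - y) i
  generalize G y = N at *
  have d0 := norm_nonneg (x - y)
  generalize ‖x - y‖ = d at *
  set ξ := (x - y).ofLp with hξ
  set m := N *ᵥ ξ with hm
  let Γ : Mat := Matrix.of fun i j => (fun k => chr G k i j x) ⬝ᵥ m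
  have e1 : dv σ x = (2 : ℝ) • m := by
    funext i
    simp only [dv, p1, Pi.smul_apply, smul_eq_mul]
    rfl
  have e2 : hes G σ x = (2 : ℝ) • (N - Γ) := by
    ext i j
    have e3 : ∀ k, pd k σ x = 2 * m k := fun k => congrFun e1 k
    simp only [hes, p2, e3, Γ, of_apply, Matrix.smul_apply, Matrix.sub_apply, smul_eq_mul,
      dotProduct, Fin.sum_univ_three]
    ring
  have n2 : ∀ i j, |N i j| ≤ 2 := fun i j => by
    have := abs_le.1 (n1 i j)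
    rw [Matrix.sub_apply, one_apply] at this
    rw [abs_le]
    split_ifs at this <;> constructor <;> linarith [this.1, this.2]
  have m1 : ∀ i, |m i| ≤ 3 * (2 * d) := fun i => holderloc_dot (n2 i) x1
  have G1 : ∀ i j, |Γ i j| ≤ 3 * (A * (3 * (2 * d))) := fun i j =>
    holderloc_dot (fun k => c2 k i j) m1
  have a2 := holderloc_form c5 m1
  have a3 := holderloc_trace c5 n2
  have a3' := holderloc_trace c1 G1
  rw [sub_mulVec, dotProduct_sub, hm, mulVec_mulVec ξ N⁻¹, nonsing_inv_mul _ u, one_mulVec, ← hm,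
    dotProduct_comm m ξ, ← p0] at a2
  rw [Matrix.sub_mul, nonsing_inv_mul _ u, trace_sub, trace_one] at a3
  have A2 : A ≤ A ^ 2 := by nlinarith
  have A3 : A * d ≤ A ^ 2 * d := mul_le_mul_of_nonneg_right A2 d0
  have A4 : A * d ^ 3 ≤ A ^ 2 * d ^ 3 := mul_le_mul_of_nonneg_right A2 (by positivity)
  have A5 : 0 ≤ A ^ 2 * d := by positivity
  simp only [Fintype.card_fin, Nat.cast_ofNat] at a3
  rw [abs_le] at a2 a3 a3'
  constructor
  · rw [lap, e2, Matrix.mul_smul, Matrix.mul_sub, trace_smul, trace_sub, smul_eq_mul, abs_le]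
    constructor <;> nlinarith [a3.1, a3.2, a3'.1, a3'.2]
  · rw [grd, e1, mulVec_smul, dotProduct_smul, smul_dotProduct, smul_eq_mul, smul_eq_mul, abs_le]
    constructor <;> nlinarith [a2.1, a2.2]

theorem gam_real {t δ q d L g E : ℝ} (ht : 1 ≤ t) (hσ : t ^ 4 * (q + δ ^ 2) = 1)
    (hd : d * t ^ 2 ≤ 2) (d0 : 0 ≤ d) (E0 : 0 ≤ E) (hL : |L - 6| ≤ E * d)
    (hg : |g - 4 * q| ≤ E * d ^ 3) :
    t ^ 5 / 4 - 3 * δ ^ 2 * t ^ 10 - 10 * E * t ^ 4 ≤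
      (3 / 4 * t ^ 10 - 5 / 16 * t ^ 9) * g + (-1 / 2 * t ^ 6 + 1 / 4 * t ^ 5) * L := by
  have t0 : 0 < t := by linarith
  have h9 : t ^ 9 ≤ t ^ 10 := pow_le_pow_right₀ ht (by norm_num)
  have h5 : t ^ 5 ≤ t ^ 6 := pow_le_pow_right₀ ht (by norm_num)
  have p9 := pow_pos t0 9
  have p5 := pow_pos t0 5
  have p4 := pow_pos t0 4
  have k1 : (3 / 4 * t ^ 10 - 5 / 16 * t ^ 9) * (4 * q - E * d ^ 3) ≤
      (3 / 4 * t ^ 10 - 5 / 16 * t ^ 9) * g :=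
    mul_le_mul_of_nonneg_left (by linarith [(abs_le.1 hg).1]) (by linarith)
  have k2 : (1 / 2 * t ^ 6 - 1 / 4 * t ^ 5) * L ≤ (1 / 2 * t ^ 6 - 1 / 4 * t ^ 5) * (6 + E * d) :=
    mul_le_mul_of_nonneg_left (by linarith [(abs_le.1 hL).2]) (by linarith)
  have k3 : (d * t ^ 2) ^ 3 ≤ 2 ^ 3 := pow_le_pow_left₀ (by positivity) hd 3
  have k4 : E * t ^ 4 * (d * t ^ 2) ^ 3 ≤ E * t ^ 4 * 2 ^ 3 :=
    mul_le_mul_of_nonneg_left k3 (by positivity)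
  have k5 : E * t ^ 4 * (d * t ^ 2) ≤ E * t ^ 4 * 2 :=
    mul_le_mul_of_nonneg_left hd (by positivity)
  have k6 : (3 / 4 * t ^ 10 - 5 / 16 * t ^ 9) * (4 * q) =
      (3 * t ^ 6 - 5 / 4 * t ^ 5) * (1 - δ ^ 2 * t ^ 4) := by
    rw [← hσ]
    ring
  have k7 : 0 ≤ t ^ 9 * (E * d ^ 3) := by positivity
  have k8 : 0 ≤ t ^ 5 * (E * d) := by positivity
  have k9 : 0 ≤ δ ^ 2 * t ^ 9 := by positivity
  have k10 : 0 ≤ E * t ^ 4 := by positivity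
  nlinarith

theorem gam_theta_one (s : ℝ) :
    HasDerivAt (fun s : ℝ => s * expNegInvGlue s) ((1 + s⁻¹) * expNegInvGlue s) s := by
  refine ((hasDerivAt_id s).mul (bumploc_deriv_one s)).congr_deriv ?_
  rcases eq_or_ne s 0 with rfl | h
  · simp
  · simp only [id]
    field_simp

theorem gam_theta_two (s : ℝ) :
    HasDerivAt (fun s : ℝ => (1 + s⁻¹) * expNegInvGlue s) (s⁻¹ ^ 3 * expNegInvGlue s) s := by
  have h := expNegInvGlue.hasDerivAt_polynomial_eval_inv_mul (1 + Polynomial.X) s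
  simp only [Polynomial.eval_pow, Polynomial.eval_X, Polynomial.eval_mul, Polynomial.eval_sub,
    Polynomial.eval_add, Polynomial.eval_one, Polynomial.derivative_add, Polynomial.derivative_X,
    Polynomial.derivative_one, Polynomial.eval_zero] at h
  convert h using 1
  ring

theorem gam_theta_est {s : ℝ} (hs : 0 < s) :
    1 - s⁻¹ ≤ expNegInvGlue s ∧ (1 + s⁻¹) * expNegInvGlue s ≤ 1 := by
  have e : expNegInvGlue s = Real.exp (-s⁻¹) := by simp [expNegInvGlue, not_le.2 hs]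
  rw [e]
  refine ⟨by linarith [Real.add_one_le_exp (-s⁻¹)], ?_⟩
  have h1 := mul_le_mul_of_nonneg_right (Real.add_one_le_exp s⁻¹) (Real.exp_pos (-s⁻¹)).le
  rw [← Real.exp_add, add_neg_cancel, Real.exp_zero] at h1
  linarith

theorem gam_tau {s : ℝ} (hs : 0 < s) :
    0 < s ^ (-1 / 4 : ℝ) ∧ (s ^ (-1 / 4 : ℝ)) ^ 4 * s = 1 ∧
      HasDerivAt (fun s : ℝ => s ^ (-1 / 4 : ℝ)) (-1 / 4 * (s ^ (-1 / 4 : ℝ)) ^ 5) s := by
  refine ⟨Real.rpow_pos_of_pos hs _, ?_, ?_⟩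
  · rw [← Real.rpow_natCast, ← Real.rpow_mul hs.le, ← Real.rpow_add_one hs.ne']
    norm_num
  · refine (Real.hasDerivAt_rpow_const (p := -1 / 4) (Or.inl hs.ne')).congr_deriv ?_
    rw [← Real.rpow_natCast, ← Real.rpow_mul hs.le]
    norm_num

/- Sketch. `A, R` from `holderloc_bounds` (with `Cm = 0`). `N = G y`, `d = ‖x - y‖`,
`q x = (x - y) ⬝ N (x - y)`, `d² / 2 ≤ q ≤ 2 d²` (`holderloc_quad`); `pd i q = 2 (N (x - y)) i`,
`pd i (pd j q) = 2 N i j`, so on `ball z R`: `|lap G q - 6| ≤ A' d`, `|grd G q q - 4 q| ≤ A' d³`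
(as `a2`, `a3`, `a3'` in `holder_loc`). `σ = q + δ² > 0`, `t = σ ^ (-1/4)`, `f = t² - t - T²`.
Chain rule (copy of `bumploc_lap_comp` with derivatives only at the values of `σ`):
`lap f = (3/4 t¹⁰ - 5/16 t⁹) grd q q + (-1/2 t⁶ + 1/4 t⁵) lap q ≥ t⁵ / 4 - 3 δ² t¹⁰ - 10 A' t⁴` for
`t ≥ 1` (`d ≤ 2 t⁻²`). `θ s = s * expNegInvGlue s`: `θ' = (1 + 1 / s) e^{-1/s} ∈ [0, 1]`,
`θ'' = s⁻³ e^{-1/s} ≥ 0`, `θ ≤ s θ'`, `θ s ≥ s - 1`, `θ' s ≥ 1 / 2` for `s ≥ 2`, all zero for `s ≤ 0`.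
`Γ = θ ∘ f`, `T ≥ max 2 (4 (20 A' + S))`, `b = 1 / (16 T²)`, `33 b < R`, `b ≤ b₀`. If `f > 0` then `t > T`,
`d < 2 T⁻² = 32 b` and `-2 lap Γ + S Γ ≤ θ' (6 δ² t¹⁰ - t⁵ / 4)`; `(δ + d)² ≤ 4 σ` gives
`t² ≤ 2 / (δ + d)`. If `d, δ ≤ ρ ≤ 2 b` then `σ ≤ 4 ρ²`, `t² ≥ 1 / (2 ρ) ≥ 4 T²`, `f ≥ t² / 2`,
`θ f ≥ t² / 4`. -/
theorem gam_flat {G : E3 → Mat} {U : Set E3} (hG : Good G U) {z : E3} (hz : z ∈ U) (h1 : G z = 1)
    {S b₀ : ℝ} (hS : 0 ≤ S) (hb₀ : 0 < b₀) :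
    ∃ b : ℝ, 0 < b ∧ b ≤ b₀ ∧ closedBall z (33 * b) ⊆ U ∧ ∀ y ∈ ball z b, ∀ δ : ℝ, 0 < δ → δ ≤ b →
      ∃ Γ : E3 → ℝ, ContDiff ℝ ∞ Γ ∧ (∀ x, 0 ≤ Γ x) ∧
        (∀ x, x ∉ closedBall z (33 * b) → Γ x = 0) ∧ (∀ x, Γ x ≤ 2 / (δ + ‖x - y‖)) ∧
        (∀ ρ : ℝ, δ ≤ ρ → ρ ≤ 2 * b → ∀ x, ‖x - y‖ ≤ ρ → 1 / (8 * ρ) ≤ Γ x) ∧
        ∀ x ∈ U, -2 * lap G Γ x + S * Γ x ≤
          (closedBall z (33 * b)).indicator (fun x => 192 * δ ^ 2 / (δ + ‖x - y‖) ^ 5) x -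
            (ball z b).indicator (fun _ => 1) x := by
  obtain ⟨A, hA, R, hR, hb⟩ := holderloc_bounds hG hz h1 (fun _ => 0) fun _ _ => continuousOn_const
  obtain ⟨E, hE⟩ : ∃ E : ℝ, E = 1296 * A ^ 2 := ⟨_, rfl⟩
  have E0 : 0 ≤ E := by
    rw [hE]
    positivity
  obtain ⟨T, T2, T3, T4, T5⟩ : ∃ T : ℝ, 2 ≤ T ∧ 4 * (20 * E + S) ≤ T ∧ 33 ≤ T * R ∧ 1 ≤ T * b₀ := by
    have h2 : 0 ≤ 33 / R := by positivity
    have h3 : 0 ≤ 1 / b₀ := by positivity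
    refine ⟨2 + 4 * (20 * E + S) + 33 / R + 1 / b₀, by linarith, by linarith, ?_, ?_⟩
    · rw [← div_le_iff₀ hR]
      linarith
    · rw [← div_le_iff₀ hb₀]
      linarith
  have T0 : 0 < T := by linarith
  obtain ⟨b, b0, hbT⟩ : ∃ b : ℝ, 0 < b ∧ 16 * T ^ 2 * b = 1 :=
    ⟨1 / (16 * T ^ 2), by positivity, by field_simp⟩
  have b1 : 32 * (T * b) ≤ 1 := by nlinarith [mul_pos T0 b0]
  have b2 : 33 * b < R := by nlinarith [mul_le_mul_of_nonneg_right T4 b0.le]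
  have b3 : b ≤ b₀ := by nlinarith [mul_le_mul_of_nonneg_right T5 b0.le]
  have hsub : closedBall z (33 * b) ⊆ ball z R := closedBall_subset_ball b2
  refine ⟨b, b0, b3, fun p hp => (hb p (hsub hp)).1, fun y hy δ δ0 δb => ?_⟩
  have hyR : y ∈ ball z R := ball_subset_ball (by linarith) hy
  obtain ⟨yU, n1, -⟩ := hb y hyR
  obtain ⟨σ, hσ⟩ : ∃ σ : E3 → ℝ,
    σ = fun x : E3 => (x - y).ofLp ⬝ᵥ G y *ᵥ (x - y).ofLp + δ ^ 2 := ⟨_, rfl⟩
  have s1 : ∀ x, ‖x - y‖ ^ 2 / 2 + δ ^ 2 ≤ σ x ∧ σ x ≤ 2 * ‖x - y‖ ^ 2 + δ ^ 2 := fun x => by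
    have h2 := holderloc_quad n1 (x - y)
    rw [hσ]
    constructor <;> linarith [h2.1, h2.2]
  have s0 : ∀ x, 0 < σ x := fun x => lt_of_lt_of_le (by positivity) (s1 x).1
  have sm : ContDiff ℝ ∞ σ := by
    rw [hσ]
    simp only [dotProduct, mulVec]
    fun_prop
  obtain ⟨τ, hτ⟩ : ∃ τ : ℝ → ℝ, τ = fun s : ℝ => s ^ (-1 / 4 : ℝ) := ⟨_, rfl⟩
  have t1 : ∀ x, 0 < τ (σ x) ∧ τ (σ x) ^ 4 * σ x = 1 ∧
      HasDerivAt τ (-1 / 4 * τ (σ x) ^ 5) (σ x) := fun x => by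
    rw [hτ]
    exact gam_tau (s0 x)
  have tm : ContDiff ℝ ∞ fun x => τ (σ x) := by
    rw [hτ]
    exact sm.rpow_const_of_ne fun x => (s0 x).ne'
  obtain ⟨f, hf⟩ : ∃ f : E3 → ℝ, f = fun x => τ (σ x) ^ 2 - τ (σ x) - T ^ 2 := ⟨_, rfl⟩
  have f1 : ∀ x, f x = τ (σ x) ^ 2 - τ (σ x) - T ^ 2 := fun x => by rw [hf]
  have fm : ContDiff ℝ ∞ f := by
    rw [hf]
    exact ((tm.pow 2).sub tm).sub contDiff_const
  have fl : ∀ x, lap G f x = (3 / 4 * τ (σ x) ^ 10 - 5 / 16 * τ (σ x) ^ 9) * grd G σ σ x +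
      (-1 / 2 * τ (σ x) ^ 6 + 1 / 4 * τ (σ x) ^ 5) * lap G σ x := fun x => by
    rw [hf]
    refine gam_lap_comp G (φ := fun s => τ s ^ 2 - τ s - T ^ 2)
      (φ₁ := fun s => -1 / 2 * τ s ^ 6 + 1 / 4 * τ s ^ 5)
      (φ₂ := fun s => 3 / 4 * τ s ^ 10 - 5 / 16 * τ s ^ 9) sm (fun p => ?_) (fun p => ?_) x
    · refine ((((t1 p).2.2.fun_pow 2).fun_sub (t1 p).2.2).sub_const (T ^ 2)).congr_deriv ?_
      push_cast
      ring
    · refine ((((t1 p).2.2.fun_pow 6).const_mul (-1 / 2)).fun_add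
        (((t1 p).2.2.fun_pow 5).const_mul (1 / 4))).congr_deriv ?_
      push_cast
      ring
  have u1 : ∀ x, (δ + ‖x - y‖) * τ (σ x) ^ 2 ≤ 2 := fun x => by
    obtain ⟨g1, g2, -⟩ := t1 x
    have g3 : (δ + ‖x - y‖) ^ 2 ≤ 4 * σ x := by
      nlinarith [(s1 x).1, sq_nonneg (δ - ‖x - y‖), sq_nonneg δ]
    have g4 := mul_le_mul_of_nonneg_left g3 (pow_pos g1 4).le
    exact (abs_le_of_sq_le_sq' (by nlinarith) (by norm_num)).2
  have u2 : ∀ x, 0 < f x → T < τ (σ x) ∧ x ∈ closedBall z (33 * b) := fun x hx => by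
    obtain ⟨g1, -⟩ := t1 x
    rw [f1] at hx
    have g2 : T ^ 2 < τ (σ x) ^ 2 := by linarith
    refine ⟨lt_of_pow_lt_pow_left₀ 2 g1.le g2, ?_⟩
    have g3 : (δ + ‖x - y‖) * T ^ 2 ≤ 2 :=
      (mul_le_mul_of_nonneg_left g2.le (by positivity)).trans (u1 x)
    have g4 : δ + ‖x - y‖ ≤ 32 * b := by nlinarith [mul_le_mul_of_nonneg_left g3 b0.le]
    have g5 : ‖x - z‖ ≤ ‖x - y‖ + ‖y - z‖ := norm_sub_le_norm_sub_add_norm_sub _ _ _
    rw [mem_ball, dist_eq_norm] at hy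
    rw [mem_closedBall, dist_eq_norm]
    linarith
  have u3 : ∀ ρ : ℝ, δ ≤ ρ → ρ ≤ 2 * b → ∀ x, ‖x - y‖ ≤ ρ →
      1 ≤ 2 * ρ * τ (σ x) ^ 2 ∧ 4 ≤ τ (σ x) ∧ τ (σ x) ^ 2 / 2 ≤ f x := fun ρ r1 r2 x r3 => by
    obtain ⟨g1, g2, -⟩ := t1 x
    have r0 : 0 < ρ := by linarith
    have g3 : σ x ≤ 4 * ρ ^ 2 := by
      nlinarith [(s1 x).2, pow_le_pow_left₀ δ0.le r1 2, pow_le_pow_left₀ (norm_nonneg _) r3 2]
    have g4 := mul_le_mul_of_nonneg_left g3 (pow_pos g1 4).le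
    have g5 : 1 ≤ 2 * ρ * τ (σ x) ^ 2 :=
      (abs_le_of_sq_le_sq' (by nlinarith) (by positivity)).2
    have g6 : 2 * ρ * τ (σ x) ^ 2 ≤ 4 * b * τ (σ x) ^ 2 :=
      mul_le_mul_of_nonneg_right (by linarith) (by positivity)
    have g7 : (2 * T) ^ 2 ≤ τ (σ x) ^ 2 := by
      have g8 : 4 * T ^ 2 * 1 ≤ 4 * T ^ 2 * (4 * b * τ (σ x) ^ 2) :=
        mul_le_mul_of_nonneg_left (g5.trans g6) (by positivity)
      have g9 : 4 * T ^ 2 * (4 * b * τ (σ x) ^ 2) = 16 * T ^ 2 * b * τ (σ x) ^ 2 := by ring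
      rw [g9, hbT] at g8
      nlinarith
    have g8 : 2 * T ≤ τ (σ x) := (abs_le_of_sq_le_sq' g7 g1.le).2
    refine ⟨g5, by linarith, ?_⟩
    rw [f1]
    nlinarith
  have v1 : ∀ x, f x ≤ τ (σ x) ^ 2 := fun x => by
    rw [f1]
    nlinarith [(t1 x).1]
  have v2 : ∀ x, 0 < δ + ‖x - y‖ := fun x => by positivity
  refine ⟨fun x => f x * expNegInvGlue (f x), fm.mul (expNegInvGlue.contDiff.comp fm),
    fun x => ?_, fun x hx => ?_, fun x => ?_, fun ρ r1 r2 x r3 => ?_, fun x hx => ?_⟩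
  · rcases le_or_gt (f x) 0 with h | h
    · simp [expNegInvGlue.zero_of_nonpos h]
    · exact mul_nonneg h.le (expNegInvGlue.nonneg _)
  · simp [expNegInvGlue.zero_of_nonpos (not_lt.1 fun h => hx (u2 x h).2)]
  · rcases le_or_gt (f x) 0 with h | h
    · simp only [expNegInvGlue.zero_of_nonpos h, mul_zero]
      exact div_nonneg (by norm_num) (v2 x).le
    · have g1 := (gam_theta_est h).2
      have g2 := mul_nonneg (inv_pos.2 h).le (expNegInvGlue.nonneg (f x))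
      have g3 : f x * expNegInvGlue (f x) ≤ f x * 1 :=
        mul_le_mul_of_nonneg_left (by linarith) h.le
      have g4 := mul_le_mul_of_nonneg_left (v1 x) (v2 x).le
      have g5 := mul_le_mul_of_nonneg_left g3 (v2 x).le
      rw [le_div_iff₀ (v2 x)]
      nlinarith [u1 x]
  · obtain ⟨g1, g2, g3⟩ := u3 ρ r1 r2 x r3
    have r0 : 0 < ρ := by linarith
    have g4 : 16 ≤ τ (σ x) ^ 2 := by nlinarith
    have h : 0 < f x := by linarith
    have g5 := mul_le_mul_of_nonneg_left (gam_theta_est h).1 h.le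
    rw [mul_sub, mul_inv_cancel₀ h.ne'] at g5
    have g6 : τ (σ x) ^ 2 / 4 ≤ f x * expNegInvGlue (f x) := by linarith
    rw [div_le_iff₀ (by positivity)]
    nlinarith [mul_le_mul_of_nonneg_left g6 r0.le]
  · have hl := gam_lap_comp G (φ := fun s => s * expNegInvGlue s)
      (φ₁ := fun s => (1 + s⁻¹) * expNegInvGlue s) (φ₂ := fun s => s⁻¹ ^ 3 * expNegInvGlue s) fm
      (fun p => gam_theta_one (f p)) (fun p => gam_theta_two (f p)) x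
    have hball : x ∈ ball z b → 4 ≤ τ (σ x) ∧ 8 ≤ f x := fun h => by
      have g5 : ‖x - y‖ ≤ ‖x - z‖ + ‖z - y‖ := norm_sub_le_norm_sub_add_norm_sub _ _ _
      rw [mem_ball, dist_eq_norm] at h
      rw [mem_ball, dist_comm, dist_eq_norm] at hy
      obtain ⟨-, g2, g3⟩ := u3 (2 * b) (by linarith) le_rfl x (by linarith)
      exact ⟨g2, by nlinarith⟩
    rw [hl]
    rcases le_or_gt (f x) 0 with h | h
    · rw [Set.indicator_of_notMem (s := ball z b) fun h' => by linarith [(hball h').2]]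
      simp only [expNegInvGlue.zero_of_nonpos h, mul_zero, zero_mul, add_zero, sub_zero]
      exact Set.indicator_nonneg (fun p _ => div_nonneg (by positivity) (pow_pos (v2 p) 5).le) x
    obtain ⟨g1, g2⟩ := u2 x h
    obtain ⟨-, -, c1, c2, -, c4⟩ := hb x (hsub g2)
    obtain ⟨q1, q2⟩ := gam_quad hG yU hA n1 c1 c2 (c4 y hyR).2 (δ ^ 2) hσ
    rw [← hE] at q1 q2
    obtain ⟨t0, t4, -⟩ := t1 x
    have w0 : ‖x - y‖ * τ (σ x) ^ 2 ≤ 2 := by nlinarith [u1 x, mul_pos δ0 (pow_pos t0 2)]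
    have w1 := gam_real (δ := δ) (by linarith) (by rwa [sub_add_cancel]) w0 (norm_nonneg _) E0 q1 q2
    rw [← fl] at w1
    have w2 : 0 ≤ grd G f f x := by
      simpa [grd] using (hG.pos x hx).inv.posSemidef.dotProduct_mulVec_nonneg (dv f x)
    obtain ⟨k1, k2⟩ := gam_theta_est h
    have e0 := expNegInvGlue.nonneg (f x)
    have i0 := inv_pos.2 h
    have w3 : 0 ≤ (f x)⁻¹ ^ 3 * expNegInvGlue (f x) * grd G f f x := by positivity
    have w4 : τ (σ x) ^ 10 ≤ 32 / (δ + ‖x - y‖) ^ 5 := by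
      rw [le_div_iff₀ (pow_pos (v2 x) 5)]
      have g3 := pow_le_pow_left₀ (mul_pos (v2 x) (pow_pos t0 2)).le (u1 x) 5
      nlinarith
    have w5 := v1 x
    rw [Set.indicator_of_mem g2]
    have w6 : 192 * δ ^ 2 / (δ + ‖x - y‖) ^ 5 = 6 * δ ^ 2 * (32 / (δ + ‖x - y‖) ^ 5) := by ring
    rw [w6]
    generalize 32 / (δ + ‖x - y‖) ^ 5 = P at *
    generalize τ (σ x) = t at *
    generalize lap G f x = L at *
    generalize (f x)⁻¹ ^ 3 * expNegInvGlue (f x) * grd G f f x = Z at *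
    have k3 : expNegInvGlue (f x) ≤ (1 + (f x)⁻¹) * expNegInvGlue (f x) := by
      nlinarith [mul_nonneg i0.le e0]
    have k4 : x ∈ ball z b → 1 / 2 ≤ (1 + (f x)⁻¹) * expNegInvGlue (f x) := fun h' => by
      have g3 : (f x)⁻¹ ≤ 1 / 2 := by
        rw [inv_le_comm₀ h (by norm_num)]
        linarith [(hball h').2]
      linarith
    generalize (1 + (f x)⁻¹) * expNegInvGlue (f x) = θ at *
    have θ0 : 0 ≤ θ := e0.trans k3
    have t2 : t ^ 2 ≤ t ^ 4 := pow_le_pow_right₀ (by linarith) (by norm_num)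
    have k5 : f x * expNegInvGlue (f x) ≤ t ^ 4 * θ :=
      mul_le_mul (w5.trans t2) k3 e0 (by positivity)
    have k6 := mul_le_mul_of_nonneg_left k5 hS
    have k7 := mul_le_mul_of_nonneg_left w1 θ0
    have k8 : 4 * (20 * E + S) * (t ^ 4 * θ) ≤ t * (t ^ 4 * θ) :=
      mul_le_mul_of_nonneg_right (by linarith) (by positivity)
    have k9 : δ ^ 2 * (θ * t ^ 10) ≤ δ ^ 2 * (1 * P) :=
      mul_le_mul_of_nonneg_left (mul_le_mul k2 w4 (by positivity) zero_le_one) (by positivity)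
    have k10 : (ball z b).indicator (fun _ => (1 : ℝ)) x ≤ θ * t ^ 5 / 4 := by
      by_cases h' : x ∈ ball z b
      · rw [Set.indicator_of_mem h']
        have g3 : 4 ^ 5 ≤ t ^ 5 := pow_le_pow_left₀ (by norm_num) (hball h').1 5
        nlinarith [k4 h']
      · rw [Set.indicator_of_notMem h']
        positivity
    nlinarith

end Pool.Agent.Lib.MP_40de08_gt
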