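import Pool.Agent.Lib.MP_40de08_gt.Glob
import Pool.Agent.Lib.MP_40de08_gt.Conf

/-!
An upper bound for the total sigma_2 curvature in terms of an arbitrary smooth function.
-/

open scoped Manifold ContDiff Topology
open Matrix Filter Set MeasureTheory Metric

namespace Pool.Agent.Lib.MP_40de08_gt

theorem Alg.LC.d_grd {A : Type} [CommRing A] {D : Fin 3 → A → A} {h : A} {G H : Alg.MA A}
    {w : Fin 3 → Alg.MA A} (hw : Alg.LC D G w) (hD : Alg.Der D) (hM : Alg.Mt h G H) (f : A) :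
    Alg.dif D (Alg.dif D f ⬝ᵥ H *ᵥ Alg.dif D f) ⬝ᵥ H *ᵥ Alg.dif D f =
      2 * ((H *ᵥ Alg.dif D f) ⬝ᵥ Alg.hesA D w f *ᵥ (H *ᵥ Alg.dif D f)) := by
  have h1 : ∀ i k l, D i (H k l) = -((w i * H) k l + (H * (w i)ᵀ) k l) := fun i k l =>
    congrFun (congrFun (hw.dH hD hM i) k) l
  simp only [Alg.hesA, Alg.dif, Matrix.of_apply, Matrix.mulVec, dotProduct, Matrix.mul_apply,
    Matrix.transpose_apply, hD.add, hD.mul, h1, Fin.sum_univ_three, hM.symmH 1 0, hM.symmH 2 0,
    hM.symmH 2 1, hw.symm 1 _ 0, hw.symm 2 _ 0, hw.symm 2 _ 1]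
  ring

theorem Good.grd_grd {G : E3 → Mat} {U : Set E3} (hG : Good G U) {p : E3} (hp : p ∈ U)
    {f : E3 → ℝ} (hf : ContDiffAt ℝ ∞ f p) :
    grd G (grd G f f) f p =
      2 * (((G p)⁻¹ *ᵥ dv f p) ⬝ᵥ hes G f p *ᵥ ((G p)⁻¹ *ᵥ dv f p)) := by
  obtain ⟨sG, sH, h1, h2, hM⟩ := hG.germs hp
  have rf := rep_gm f hf
  have ro := rep_om h1 h2
  have rv := h2.mulVec rf.dif
  exact ((rf.dif.dot rv).dif.dot rv).eq_at (Rep.two.mul (rv.dot ((rep_hes ro rf).mulVec rv)))
    ((Alg.lc_om hM).d_grd (der_sD p) hM _)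

theorem onek_trace {H : Mat} (hH : Hᵀ = H) (R S : Mat) (a : Fin 3 → ℝ) :
    (H * (R - (2 : ℝ) • S + (2 : ℝ) • vecMulVec a a)).trace =
      (H * R).trace - 2 * (H * S).trace + 2 * (a ⬝ᵥ H *ᵥ a) ∧
    (H * (R - (2 : ℝ) • S + (2 : ℝ) • vecMulVec a a) *
      (H * (R - (2 : ℝ) • S + (2 : ℝ) • vecMulVec a a))).trace =
      (H * R * (H * R)).trace + 4 * (H * S * (H * S)).trace + 4 * (a ⬝ᵥ H *ᵥ a) ^ 2 -
        4 * (H * R * (H * S)).trace + 4 * ((H *ᵥ a) ⬝ᵥ R *ᵥ (H *ᵥ a)) -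
        8 * ((H *ᵥ a) ⬝ᵥ S *ᵥ (H *ᵥ a)) := by
  have s : ∀ i j, H i j = H j i := fun i j => (congrFun (congrFun hH j) i)
  constructor <;>
  · simp only [Matrix.trace, Matrix.diag, Matrix.mul_apply, Matrix.add_apply, Matrix.sub_apply,
      Matrix.smul_apply, vecMulVec_apply, smul_eq_mul, dotProduct, Matrix.mulVec,
      Fin.sum_univ_three, s 1 0, s 2 0, s 2 1]
    ring

variable {M : Type} [TopologicalSpace M] [ChartedSpace E3 M] [IsManifold (𝓡 3) ∞ M]

theorem onek_point (g : Met M) {φ : M → ℝ} (hφ : Sm φ) (x : M) :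
    2 * sigma2 g x ≤ 6 * sigma1 g x ^ 2 + 4 * HH g φ φ x + 4 * Grd g φ φ x ^ 2 - 4 * PH g φ x +
      4 * RG g φ φ x - 4 * Grd g (Grd g φ φ) φ x -
      (4 * sigma1 g x - 2 * Lap g φ x + 2 * Grd g φ φ x) ^ 2 / 3 := by
  have he := sc_chartAt (M := M) x
  have hG := he.good g
  have hp : chartAt E3 x x ∈ (chartAt E3 x).target := mem_chart_target E3 x
  have hf := inv_at0 hφ x
  have hpos := hG.pos _ hp
  have hvv : (vecMulVec (dv (φ ∘ (chartAt E3 x).symm) (chartAt E3 x x))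
      (dv (φ ∘ (chartAt E3 x).symm) (chartAt E3 x x))).IsSymm := by
    ext i j
    simp only [Matrix.transpose_apply, vecMulVec_apply, mul_comm]
  have key := la_trace_sq hpos
    (((hG.ric_symm hp).sub ((hG.hes_symm hp hf).smul (2 : ℝ))).add (hvv.smul (2 : ℝ)))
  rw [(onek_trace (inv_symm g x) _ _ _).1, (onek_trace (inv_symm g x) _ _ _).2] at key
  have e1 : Grd g φ φ ∘ (chartAt E3 x).symm =ᶠ[𝓝 (chartAt E3 x x)]
      grd (coef g (chartAt E3 x)) (φ ∘ (chartAt E3 x).symm) (φ ∘ (chartAt E3 x).symm) := by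
    filter_upwards [(chartAt E3 x).open_target.mem_nhds hp] with q hq
    rw [Function.comp_apply, he.grd_eq g hφ hφ ((chartAt E3 x).map_target hq),
      (chartAt E3 x).right_inv hq]
  have e2 : Grd g (Grd g φ φ) φ x = grd (coef g (chartAt E3 x)) (grd (coef g (chartAt E3 x))
      (φ ∘ (chartAt E3 x).symm) (φ ∘ (chartAt E3 x).symm)) (φ ∘ (chartAt E3 x).symm)
      (chartAt E3 x x) := by
    rw [Grd, grd, dv_congr e1, ← grd]
  rw [e2, hG.grd_grd hp hf]
  simp only [sigma1, sigma2, Lap, HH, PH, RG, Grd, scal, ricSq, lap, hh, ph, rg, grd] at key ⊢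
  nlinarith [key]

theorem Cf.conf_two {g₀ g : Met M} {u : M → ℝ} (h : Cf g₀ g u) {k : M → ℝ} (hk : Sm k) (x : M) :
    sigma1 g x + Lap g k x - Grd g k k x / 2 = Real.exp (2 * u x) *
      (sigma1 g₀ x + Lap g₀ (fun y => u y + k y) x -
        Grd g₀ (fun y => u y + k y) (fun y => u y + k y) x / 2) := by
  have he := sc_chartAt (M := M) x
  have hp : chartAt E3 x x ∈ (chartAt E3 x).target := mem_chart_target E3 x
  have a1 := conf_scal (he.good g) hp (inv_at0 hk x)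
  have a2 := conf_scal (he.good g₀) hp (inv_at0 (h.1.add hk) x)
  have e : (fun p => Real.exp (-2 * (k ∘ (chartAt E3 x).symm) p) • coef g (chartAt E3 x) p) =
      fun p => Real.exp (-2 * ((u + k) ∘ (chartAt E3 x).symm) p) • coef g₀ (chartAt E3 x) p := by
    funext p
    rw [h.coef_eq, smul_smul, ← Real.exp_add]
    congr 2
    simp only [Function.comp_apply, Pi.add_apply]
    ring
  rw [e, a2] at a1
  simp only [Function.comp_apply, (chartAt E3 x).left_inv (mem_chart_source E3 x), Pi.add_apply,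
    mul_add (2 : ℝ), Real.exp_add] at a1
  have a3 := mul_left_cancel₀ (Real.exp_pos (2 * k x)).ne' (a1.symm.trans (by
    rw [mul_comm (Real.exp (2 * u x)), mul_assoc]))
  have e2 : (fun y => u y + k y) = u + k := rfl
  rw [e2]
  simp only [sigma1, Lap, Grd]
  linarith

/-- Conformal covariance of the quantity `σ₁ - 2 Δφ - 2 |∇φ|²`. -/
theorem Cf.f_eq {g₀ g : Met M} {u : M → ℝ} (h : Cf g₀ g u) {v : M → ℝ} (hv : Sm v)
    (hv0 : ∀ x, 0 < v x) : ∃ φ : M → ℝ, Sm φ ∧ ∀ x,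
      sigma1 g x - 2 * Lap g φ x - 2 * Grd g φ φ x =
        Real.exp (2 * u x) * ((-2 * Lap g₀ v x + sigma1 g₀ x * v x) / v x) := by
  have hl : Sm fun y => Real.log (v y) := fun y =>
    ((Real.contDiffAt_log.2 (hv0 y).ne').contMDiffAt).comp y (hv y)
  have hφ : Sm fun y => (1 / 2) * u y + Real.log (v y) := (contMDiff_const.mul h.1).add hl
  have hk : Sm fun y => -2 * ((1 / 2) * u y + Real.log (v y)) := contMDiff_const.mul hφ
  refine ⟨_, hφ, fun x => ?_⟩
  have a1 := h.conf_two hk x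
  have a2 := lap_exp g 1 hφ x
  have a3 := lap_exp g (-(1 / 2)) hk x
  have a4 := lap_exp g₀ (-(1 / 2)) (h.1.add hk) x
  have e1 : (fun y => Real.exp (-(1 / 2) * (-2 * ((1 / 2) * u y + Real.log (v y))))) =
      fun y => Real.exp (1 * ((1 / 2) * u y + Real.log (v y))) := by
    funext y
    congr 1
    ring
  have e2 : ∀ y, Real.exp (-(1 / 2) * (u + fun y => -2 * ((1 / 2) * u y + Real.log (v y))) y) =
      v y := fun y => by
    rw [← Real.exp_log (hv0 y)]
    congr 1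
    simp only [Pi.add_apply]
    ring
  rw [e1, a2, congrFun e1 x] at a3
  have a5 := mul_left_cancel₀ (Real.exp_pos _).ne' a3
  simp only [e2] at a4
  have e3 : (fun y => u y + -2 * ((1 / 2) * u y + Real.log (v y))) =
      u + fun y => -2 * ((1 / 2) * u y + Real.log (v y)) := rfl
  rw [e3] at a1
  have e4 : (fun y => v y) = v := rfl
  rw [e4] at a4
  have e5 : ∀ a b : ℝ, (-2 * (v x * a) + b * v x) / v x = -2 * a + b := fun a b => by
    field_simp [(hv0 x).ne']
  rw [a4, e5]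
  linear_combination a1 - 2 * a5

variable [T2Space M] [CompactSpace M] [MeasurableSpace M] [BorelSpace M]

/-- The basic inequality: with `f = σ₁ - 2 Δφ - 2 |∇φ|²` and `σ₁ ≥ 0`,
`∫ σ₂ ≤ (∫ f² - ∫ |∇φ|⁴) / 2`. -/
theorem onek_int (g : Met M) (hg : ∀ x, 0 ≤ sigma1 g x) {φ : M → ℝ} (hφ : Sm φ) :
    2 * ∫ x, sigma2 g x ∂(vol g) ≤
      ∫ x, (sigma1 g x - 2 * Lap g φ x - 2 * Grd g φ φ x) ^ 2 ∂(vol g) -
        ∫ x, Grd g φ φ x ^ 2 ∂(vol g) := by
  have hint := fun (F : M → ℝ) (hF : Continuous F) => integrable_of_continuous g hF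
  have c1 : Continuous (sigma1 g) := (sm_sigma1 g).continuous
  have c2 : Continuous (sigma2 g) := (sm_sigma2 g).continuous
  have cL : Continuous (Lap g φ) := (sm_lap g hφ).continuous
  have cH : Continuous (HH g φ φ) := (sm_hh g hφ hφ).continuous
  have cP : Continuous (PH g φ) := (sm_ph g hφ).continuous
  have cR : Continuous (RG g φ φ) := (sm_rg g hφ hφ).continuous
  have st := sm_grd g hφ hφ
  have ct : Continuous (Grd g φ φ) := st.continuous
  have cT : Continuous (Grd g (Grd g φ φ) φ) := (sm_grd g st hφ).continuous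
  have hle : ∫ x, (2 * sigma2 g x + 4 * (Lap g φ x * Lap g φ x - HH g φ φ x - RG g φ φ x) +
      4 * (PH g φ x - 2 * sigma1 g x * Lap g φ x) +
      4 * (Grd g φ φ x * Lap g φ x + Grd g (Grd g φ φ) φ x)) ∂(vol g) ≤
      ∫ x, ((sigma1 g x - 2 * Lap g φ x - 2 * Grd g φ φ x) ^ 2 - Grd g φ φ x ^ 2) ∂(vol g) := by
    refine integral_mono (hint _ (by fun_prop)) (hint _ (by fun_prop)) fun x => ?_
    have a1 := onek_point g hφ x
    have a2 := mul_nonneg (hg x) (grd_self_nonneg g φ x)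
    have a3 := sq_nonneg (sigma1 g x - 2 * Lap g φ x - Grd g φ φ x)
    nlinarith
  rw [integral_add (hint _ (by fun_prop)) (hint _ (by fun_prop)),
    integral_add (hint _ (by fun_prop)) (hint _ (by fun_prop)),
    integral_add (hint _ (by fun_prop)) (hint _ (by fun_prop)), integral_const_mul,
    integral_const_mul, integral_const_mul, integral_const_mul, int_bochner g hφ hφ,
    int_bianchi g hφ, int_green g st hφ,
    integral_sub (hint _ (by fun_prop)) (hint _ (by fun_prop))] at hle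
  linarith

end Pool.Agent.Lib.MP_40de08_gt
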