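import Pool.Agent.Lib.MP_40de08_gt.OneDefs
import Pool.Agent.Lib.MP_40de08_gt.OneK
import Pool.Agent.Lib.MP_40de08_gt.OneChi

/-!
Boundedness of J_2 on the cone of conformal metrics of positive scalar curvature.
-/

open scoped Manifold ContDiff Topology
open Matrix Filter Set MeasureTheory Metric

namespace Pool.Agent.Lib.MP_40de08_gt

variable {M : Type} [TopologicalSpace M] [ChartedSpace E3 M] [IsManifold (𝓡 3) ∞ M]
  [T2Space M] [CompactSpace M] [MeasurableSpace M] [BorelSpace M]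

/-- The total scalar curvature in terms of an arbitrary smooth function. -/
theorem one_sigma1 (g : Met M) {φ : M → ℝ} (hφ : Sm φ) (μ : ℝ) :
    2 * μ * ∫ x, sigma1 g x ∂(vol g) ≤
      ∫ x, (sigma1 g x - 2 * Lap g φ x - 2 * Grd g φ φ x) ^ 2 ∂(vol g) +
        2 * ∫ x, Grd g φ φ x ^ 2 ∂(vol g) + 3 * μ ^ 2 * (vol g).real univ := by
  have hint := fun (F : M → ℝ) (hF : Continuous F) => integrable_of_continuous g hF
  have c1 : Continuous (sigma1 g) := (sm_sigma1 g).continuous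
  have cL : Continuous (Lap g φ) := (sm_lap g hφ).continuous
  have ct : Continuous (Grd g φ φ) := (sm_grd g hφ hφ).continuous
  have hle : ∫ x, (2 * μ * sigma1 g x - 4 * μ * Lap g φ x) ∂(vol g) ≤
      ∫ x, ((sigma1 g x - 2 * Lap g φ x - 2 * Grd g φ φ x) ^ 2 + 2 * Grd g φ φ x ^ 2 +
        3 * μ ^ 2) ∂(vol g) := by
    refine integral_mono (hint _ (by fun_prop)) (hint _ (by fun_prop)) fun x => ?_
    nlinarith [sq_nonneg (sigma1 g x - 2 * Lap g φ x - 2 * Grd g φ φ x - μ),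
      sq_nonneg (Grd g φ φ x - μ)]
  rw [integral_sub (hint _ (by fun_prop)) (hint _ (by fun_prop)),
    integral_add (hint _ (by fun_prop)) (hint _ (by fun_prop)),
    integral_add (hint _ (by fun_prop)) (hint _ (by fun_prop)), integral_const_mul,
    integral_const_mul, integral_const_mul, int_lap g hφ, integral_const, smul_eq_mul] at hle
  linarith

theorem one_energy {g₁ g : Met M} {u : M → ℝ} (h : Cf g₁ g u) {κ : ℝ} (h2 : κ ≤ 2)
    (hκ : ∀ x, κ ≤ sigma1 g₁ x) :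
    κ * ∫ x, (Grd g₁ (fun y => Real.exp (-(1 / 2) * u y)) (fun y => Real.exp (-(1 / 2) * u y)) x +
      Real.exp (-(1 / 2) * u x) ^ 2) ∂(vol g₁) ≤ ∫ x, sigma1 g x ∂(vol g) := by
  have hint := fun (F : M → ℝ) (hF : Continuous F) => integrable_of_continuous g₁ hF
  have hw := est_sm_w h.1
  rw [integral_conf h.1.continuous h.2]
  simp only [h.lap_w]
  set w := fun y => Real.exp (-(1 / 2) * u y) with hwd
  have cw : Continuous w := hw.continuous
  have c1 : Continuous (sigma1 g₁) := (sm_sigma1 g₁).continuous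
  have cL : Continuous (Lap g₁ w) := (sm_lap g₁ hw).continuous
  have ct : Continuous (Grd g₁ w w) := (sm_grd g₁ hw hw).continuous
  have hle : ∫ x, (κ * (Grd g₁ w w x + w x ^ 2) - 2 * (w x * Lap g₁ w x + Grd g₁ w w x))
      ∂(vol g₁) ≤ ∫ x, w x * (-2 * Lap g₁ w x + sigma1 g₁ x * w x) ∂(vol g₁) := by
    refine integral_mono (hint _ (by fun_prop)) (hint _ (by fun_prop)) fun x => ?_
    nlinarith [mul_le_mul_of_nonneg_right (hκ x) (sq_nonneg (w x)),
      mul_le_mul_of_nonneg_right h2 (grd_self_nonneg g₁ w x)]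
  rw [integral_sub (hint _ (by fun_prop)) (hint _ (by fun_prop)), integral_const_mul,
    integral_const_mul, int_green g₁ hw hw] at hle
  linarith

theorem one_core [ConnectedSpace M] (g₀ : Met M) : ∃ K : ℝ, 0 ≤ K ∧ ∀ g ∈ C1 g₀,
    ∫ x, sigma2 g x ∂(vol g) ≤ 0 ∨ ∃ l : ℝ, 0 < l ∧ ∫ x, sigma2 g x ∂(vol g) ≤ K / l ∧
      ∫ x, sigma1 g x ∂(vol g) ≤ K * l ∧ (vol g).real univ ≤ K * l ^ 3 := by
  rcases (C1 g₀).eq_empty_or_nonempty with h0 | ⟨g₁, ⟨u₁, hu₁, hg₁⟩, hs0⟩
  · exact ⟨0, le_rfl, by simp [h0]⟩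
  have hs := sm_sigma1 g₁
  obtain ⟨s₀, hs₀, hss⟩ := isCompact_univ.exists_forall_le' hs.continuous.continuousOn
    fun x _ => hs0 x
  obtain ⟨C, hC, H⟩ := chi_alt g₁ hs hs0
  have hκ : 0 < min 2 s₀ := lt_min two_pos hs₀
  obtain ⟨B, hB⟩ : ∃ B, B = (C + 1) / min 2 s₀ := ⟨_, rfl⟩
  have hB0 : 0 < B := by
    rw [hB]
    positivity
  refine ⟨C + 9 * B * C + 9 * B ^ 2 * C, by positivity, ?_⟩
  rintro g ⟨⟨u₀, hu₀, hg⟩, hpos⟩
  have hcf : Cf g₁ g fun x => u₀ x - u₁ x := ⟨hu₀.sub hu₁, fun x v w => by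
    have a1 : g.inner x v w = Real.exp (-2 * u₀ x) * g₀.inner x v w := hg x v w
    have a2 : g₁.inner x v w = Real.exp (-2 * u₁ x) * g₀.inner x v w := hg₁ x v w
    rw [a1, a2, ← mul_assoc, ← Real.exp_add]
    congr 2
    ring⟩
  generalize (fun x => u₀ x - u₁ x) = u at hcf
  have hw := est_sm_w hcf.1
  have e1 := one_energy hcf (min_le_left 2 s₀) fun x => (min_le_right _ _).trans (hss x (mem_univ x))
  have e2 : (vol g).real univ = ∫ x, Real.exp (-(1 / 2) * u x) ^ 6 ∂(vol g₁) := by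
    have := integral_conf hcf.1.continuous hcf.2 (fun _ => 1)
    rw [integral_const, smul_eq_mul, mul_one] at this
    refine this.trans (integral_congr_ae (Eventually.of_forall fun x => ?_))
    simp only [mul_one, ← Real.exp_nat_mul]
    congr 1
    push_cast
    ring
  have hV : 0 < (vol g).real univ :=
    ENNReal.toReal_pos (isOpen_univ.measure_ne_zero (vol g) univ_nonempty) (measure_ne_top _ _)
  have hS : 0 < ∫ x, sigma1 g x ∂(vol g) := by
    rw [integral_pos_iff_support_of_nonneg (fun x => (hpos x).le)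
      (integrable_of_continuous g (sm_sigma1 g).continuous),
      eq_univ_of_forall (s := Function.support (sigma1 g)) fun x => (hpos x).ne']
    exact isOpen_univ.measure_pos _ univ_nonempty
  obtain ⟨V, hVd⟩ : ∃ V, (vol g).real univ = V := ⟨_, rfl⟩
  obtain ⟨S, hSd⟩ : ∃ S, ∫ x, sigma1 g x ∂(vol g) = S := ⟨_, rfl⟩
  rw [hVd] at hV e2 ⊢
  rw [hSd] at hS e1 ⊢
  obtain ⟨l, hl, hlV⟩ : ∃ l : ℝ, 0 < l ∧ V = B * l ^ 2 * S :=
    ⟨√(V / (B * S)), Real.sqrt_pos.2 (by positivity), by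
      rw [Real.sq_sqrt (by positivity)]
      field_simp⟩
  rcases H _ l hw (fun x => Real.exp_pos _) hl with h | ⟨v, hv, hv0, h⟩
  · exfalso
    rw [← e2, hlV, hB] at h
    rw [← le_div_iff₀' hκ] at e1
    have h1 := h.trans (mul_le_mul_of_nonneg_left e1 (by positivity))
    have h2 : 0 < l ^ 2 * (S / min 2 s₀) := by positivity
    have h3 : (C + 1) / min 2 s₀ * l ^ 2 * S = (C + 1) * (l ^ 2 * (S / min 2 s₀)) := by ring
    linarith
  obtain ⟨φ, hφ, hf⟩ := hcf.f_eq hv hv0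
  have e3 : ∫ x, (sigma1 g x - 2 * Lap g φ x - 2 * Grd g φ φ x) ^ 2 ∂(vol g) ≤ C / l := by
    rw [integral_conf hcf.1.continuous hcf.2]
    refine le_trans (le_of_eq (integral_congr_ae (Eventually.of_forall fun x => ?_))) h
    have : Real.exp (-3 * u x) * Real.exp (2 * u x) ^ 2 = (Real.exp (-(1 / 2) * u x) ^ 2)⁻¹ := by
      simp only [← Real.exp_nat_mul, ← Real.exp_add, ← Real.exp_neg]
      congr 1
      push_cast
      ring
    simp only [hf, mul_pow]
    rw [← mul_assoc, this, div_eq_inv_mul _ (Real.exp _ ^ 2)]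
  have e4 := onek_int g (fun x => (hpos x).le) hφ
  have e5 := one_sigma1 g hφ (1 / (3 * B * l ^ 2))
  have e6 : 0 ≤ ∫ x, Grd g φ φ x ^ 2 ∂(vol g) := integral_nonneg fun x => sq_nonneg _
  refine (le_or_gt _ _).imp_right fun hA => ⟨l, hl, ?_, ?_⟩
  · have : C / l ≤ (C + 9 * B * C + 9 * B ^ 2 * C) / l := by
      gcongr
      nlinarith [mul_nonneg hB0.le hC, mul_nonneg (sq_nonneg B) hC]
    linarith
  have e7 : S ≤ 9 * B * C * l := by
    rw [hSd, hVd, hlV] at e5
    have a1 : 3 * (1 / (3 * B * l ^ 2)) ^ 2 * (B * l ^ 2 * S) = 1 / (3 * B * l ^ 2) * S := by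
      field_simp
    have a2 : 1 / (3 * B * l ^ 2) * S ≤ 3 * (C / l) := by linarith
    rw [div_mul_eq_mul_div, div_le_iff₀ (by positivity)] at a2
    have a3 : 3 * (C / l) * (3 * B * l ^ 2) = 9 * B * C * l := by
      field_simp
      ring
    linarith
  have a4 : 0 ≤ C * l := by positivity
  have a5 : 0 ≤ B ^ 2 * C * l := by positivity
  have a6 : 0 ≤ (C + 9 * B * C) * l ^ 3 := by positivity
  have a7 := mul_le_mul_of_nonneg_left e7 (by positivity : 0 ≤ B * l ^ 2)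
  exact ⟨by linarith, by linarith⟩

theorem main_one [ConnectedSpace M] (g₀ : Met M) : ∃ C : ℝ, ∀ g ∈ C1 g₀,
    IsFiniteMeasure (vol g) ∧ Integrable (sigma2 g) (vol g) ∧ J2 g ≤ C := by
  obtain ⟨K, hK, H⟩ := one_core g₀
  refine ⟨K ^ (1 / 3 : ℝ) * K, fun g hg =>
    ⟨inferInstance, integrable_of_continuous g (sm_sigma2 g).continuous, ?_⟩⟩
  have h0 : 0 ≤ (vol g).real univ ^ (1 / 3 : ℝ) := Real.rpow_nonneg measureReal_nonneg _
  rcases H g hg with h | ⟨l, hl, h1, -, h2⟩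
  · exact (mul_nonpos_of_nonneg_of_nonpos h0 h).trans (by positivity)
  · have h3 := Real.rpow_le_rpow measureReal_nonneg h2 (by norm_num : (0 : ℝ) ≤ 1 / 3)
    rw [Real.mul_rpow hK (by positivity), ← Real.rpow_natCast, ← Real.rpow_mul hl.le] at h3
    norm_num at h3
    calc J2 g ≤ (vol g).real univ ^ (1 / 3 : ℝ) * (K / l) := mul_le_mul_of_nonneg_left h1 h0
      _ ≤ K ^ (1 / 3 : ℝ) * l * (K / l) := mul_le_mul_of_nonneg_right h3 (by positivity)
      _ = _ := by field_simp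

/-- The product of the total `σ₁` and the total `σ₂` curvature is bounded above on the cone. -/
theorem main_prod [ConnectedSpace M] (g₀ : Met M) : ∃ C : ℝ, ∀ g ∈ C1 g₀,
    (∫ x, sigma1 g x ∂(vol g)) * ∫ x, sigma2 g x ∂(vol g) ≤ C := by
  obtain ⟨K, hK, H⟩ := one_core g₀
  refine ⟨K * K, fun g hg => ?_⟩
  have h0 : 0 ≤ ∫ x, sigma1 g x ∂(vol g) := integral_nonneg fun x => (hg.2 x).le
  rcases H g hg with h | ⟨l, hl, h1, h2, -⟩
  · exact (mul_nonpos_of_nonneg_of_nonpos h0 h).trans (by positivity)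
  · calc _ ≤ (∫ x, sigma1 g x ∂(vol g)) * (K / l) := mul_le_mul_of_nonneg_left h1 h0
      _ ≤ K * l * (K / l) := mul_le_mul_of_nonneg_right h2 (by positivity)
      _ = _ := by field_simp

end Pool.Agent.Lib.MP_40de08_gt
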