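import Pool.Agent.Lib.MP_40de08_gt.Est
import Pool.Agent.Lib.MP_40de08_gt.Param
import Pool.Agent.Lib.MP_40de08_gt.OneGam

/-!
Pointwise lower bounds for functions which are supersolutions up to an error small in `L²`.
-/

open scoped Manifold ContDiff Topology
open Matrix Filter Set MeasureTheory Metric

namespace Pool.Agent.Lib.MP_40de08_gt

theorem test_peak : ∃ c : ℝ, 0 < c ∧ ∀ (f : E3 → ℝ) (y : E3), Integrable f → ContinuousAt f y →
    Tendsto (fun δ : ℝ => ∫ x, δ ^ 2 / (δ + ‖x - y‖) ^ 5 * f x) (𝓝[>] 0) (𝓝 (c * f y)) := by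
  have hi : Integrable fun x : E3 => ((1 + ‖x‖) ^ 5)⁻¹ := by
    have h := integrable_one_add_norm (E := E3) (μ := volume) (r := 5) (by simp; norm_num)
    refine h.congr (Eventually.of_forall fun x => ?_)
    have : (0 : ℝ) ≤ 1 + ‖x‖ := by positivity
    simp only [Real.rpow_neg this]
    norm_cast
  have hc : 0 < ∫ x : E3, ((1 + ‖x‖) ^ 5)⁻¹ := by
    rw [integral_pos_iff_support_of_nonneg (fun x => by positivity) hi]
    have : Function.support (fun x : E3 => ((1 + ‖x‖) ^ 5)⁻¹) = univ :=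
      eq_univ_of_forall fun x => by
        rw [Function.mem_support]
        positivity
    rw [this]
    exact isOpen_univ.measure_pos _ univ_nonempty
  set c := ∫ x : E3, ((1 + ‖x‖) ^ 5)⁻¹ with hcd
  refine ⟨c, hc, fun f y hf hy => ?_⟩
  have h1 : ∫ x : E3, c⁻¹ * ((1 + ‖x‖) ^ 5)⁻¹ = 1 := by
    rw [integral_const_mul, ← hcd, inv_mul_cancel₀ hc.ne']
  have h2 : Tendsto (fun x : E3 => ‖x‖ ^ Module.finrank ℝ E3 * (c⁻¹ * ((1 + ‖x‖) ^ 5)⁻¹))
      (Bornology.cobounded E3) (𝓝 0) := by
    have h3 : Tendsto (fun x : E3 => c⁻¹ * (1 + ‖x‖)⁻¹) (Bornology.cobounded E3) (𝓝 (c⁻¹ * 0)) :=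
      (tendsto_inv_atTop_zero.comp (tendsto_atTop_add_const_left _ 1
        (tendsto_norm_cobounded_atTop (E := E3)))).const_mul _
    rw [mul_zero] at h3
    refine squeeze_zero (fun x => by positivity) (fun x => ?_) h3
    have h4 : ‖x‖ ^ 3 ≤ (1 + ‖x‖) ^ 4 :=
      (pow_le_pow_left₀ (norm_nonneg x) (by linarith) 3).trans
        (pow_le_pow_right₀ (by linarith [norm_nonneg x]) (by norm_num))
    have h5 : (0 : ℝ) < 1 + ‖x‖ := by positivity
    rw [finrank_euclideanSpace_fin]
    calc ‖x‖ ^ 3 * (c⁻¹ * ((1 + ‖x‖) ^ 5)⁻¹) ≤ (1 + ‖x‖) ^ 4 * (c⁻¹ * ((1 + ‖x‖) ^ 5)⁻¹) := by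
          gcongr
      _ = _ := by field_simp
  have h6 := ((tendsto_integral_comp_smul_smul_of_integrable' (fun x => by positivity) h1 h2 hf
    hy).comp tendsto_inv_nhdsGT_zero).const_mul c
  refine h6.congr' ?_
  filter_upwards [self_mem_nhdsWithin] with δ (hδ : 0 < δ)
  rw [Function.comp_apply, ← integral_const_mul]
  refine integral_congr_ae (Eventually.of_forall fun x => ?_)
  have h7 : 0 < δ + ‖x - y‖ := by positivity
  simp only [finrank_euclideanSpace_fin, norm_smul, norm_inv, Real.norm_of_nonneg hδ.le,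
    norm_sub_rev y x, smul_eq_mul]
  field_simp

theorem test_sq (z : E3) (R : ℝ) : ∃ I : ℝ, 0 ≤ I ∧ ∀ y ∈ closedBall z R, ∀ δ : ℝ, 0 < δ →
    ∫ x in closedBall z R, (2 / (δ + ‖x - y‖)) ^ 2 ≤ I := by
  have hi : IntegrableOn (fun x : E3 => 4 / ‖x‖ ^ 2) (ball 0 (2 * R + 1)) := by
    refine integrableOn_ball_of_norm_le_rpow (C := 4) (α := 2) (by simp) (by simp; norm_num)
      (Eventually.of_forall fun x => ?_) (Measurable.aestronglyMeasurable (by fun_prop))
    rw [Real.norm_of_nonneg (by positivity), Real.rpow_neg (norm_nonneg x), div_eq_mul_inv]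
    norm_cast
  rw [← integrable_indicator_iff measurableSet_ball] at hi
  have h0 : ∀ x, 0 ≤ (ball (0 : E3) (2 * R + 1)).indicator (fun x : E3 => 4 / ‖x‖ ^ 2) x :=
    indicator_nonneg fun x _ => by positivity
  refine ⟨∫ x, (ball (0 : E3) (2 * R + 1)).indicator (fun x : E3 => 4 / ‖x‖ ^ 2) x,
    integral_nonneg h0, fun y hy δ hδ => ?_⟩
  rw [← integral_indicator measurableSet_closedBall, ← integral_sub_right_eq_self
    ((ball (0 : E3) (2 * R + 1)).indicator fun x : E3 => 4 / ‖x‖ ^ 2) y]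
  refine integral_mono_of_nonneg (Eventually.of_forall
    (indicator_nonneg fun x _ => by positivity)) (hi.comp_sub_right y) ?_
  filter_upwards [compl_mem_ae_iff.2 (measure_singleton y)] with x hx
  by_cases hxK : x ∈ closedBall z R
  · have h1 : x - y ∈ ball (0 : E3) (2 * R + 1) := by
      rw [mem_ball_zero_iff, ← dist_eq_norm]
      linarith [dist_triangle_right x y z, mem_closedBall.1 hxK, mem_closedBall.1 hy]
    have h2 : 0 < ‖x - y‖ := norm_pos_iff.2 (sub_ne_zero.2 hx)
    rw [indicator_of_mem hxK, indicator_of_mem h1, div_pow]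
    norm_num
    gcongr
    linarith
  · rw [indicator_of_notMem hxK]
    exact h0 _

variable {M : Type} [TopologicalSpace M] [ChartedSpace E3 M] [IsManifold (𝓡 3) ∞ M]
  [T2Space M] [CompactSpace M] [MeasurableSpace M] [BorelSpace M]

theorem test_ext {e : OpenPartialHomeomorph M E3} (he : SC e) (g : Met M) {K : Set E3}
    (hK : IsCompact K) (hKe : K ⊆ e.target) {a : E3 → ℝ} (ha : ContinuousOn a K) :
    Integrable ((e.source ∩ e ⁻¹' K).indicator (a ∘ e)) (vol g) ∧
      ∫ x, (e.source ∩ e ⁻¹' K).indicator (a ∘ e) x ∂(vol g) =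
        ∫ p in K, rho (coef g e) p * a p := by
  classical
  have hW := param_compact hK hKe
  have hc : ContinuousOn (a ∘ e) (e.source ∩ e ⁻¹' K) :=
    ha.comp (e.continuousOn.mono inter_subset_left) fun x hx => hx.2
  have hm : Measurable ((e.source ∩ e ⁻¹' K).indicator (a ∘ e)) := by
    rw [← piecewise_eq_indicator]
    exact hc.measurable_piecewise (g := 0) continuousOn_const hW.measurableSet
  refine ⟨(integrable_indicator_iff hW.measurableSet).2 (hc.integrableOn_compact hW), ?_⟩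
  rw [← setIntegral_eq_integral_of_forall_compl_eq_zero (s := e.source ∩ e ⁻¹' K)
    (fun x hx => indicator_of_notMem hx _), he.setIntegral_eq g hm hK.measurableSet hKe]
  refine setIntegral_congr_fun hK.measurableSet fun p hp => ?_
  have h2 : e.symm p ∈ e.source ∩ e ⁻¹' K :=
    ⟨e.map_target (hKe hp), by simpa [e.right_inv (hKe hp)] using hp⟩
  simp only [indicator_of_mem h2, Function.comp_apply, e.right_inv (hKe hp)]

omit [CompactSpace M] [MeasurableSpace M] [BorelSpace M] in
/-- The Laplacian of an extension by zero. -/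
theorem test_lap {e : OpenPartialHomeomorph M E3} (he : SC e) (g : Met M) {K : Set E3}
    (hK : IsCompact K) (hKe : K ⊆ e.target) {ψ : E3 → ℝ} (hψ : ContDiff ℝ ∞ ψ)
    (h0 : ∀ p, p ∉ K → ψ p = 0) (x : M) :
    Lap g (e.source.indicator (ψ ∘ e)) x = e.source.indicator (lap (coef g e) ψ ∘ e) x := by
  have hs : Sm (e.source.indicator (ψ ∘ e)) :=
    he.sm_ext hψ.contDiffOn hK hKe fun p _ hp => h0 p hp
  by_cases hx : x ∈ e.source
  · have e1 : e.source.indicator (ψ ∘ e) ∘ e.symm =ᶠ[𝓝 (e x)] ψ := by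
      filter_upwards [e.open_target.mem_nhds (e.map_source hx)] with p hp
      simp only [Function.comp, indicator_of_mem (e.map_target hp), e.right_inv hp]
    rw [he.lap_eq g hs hx, indicator_of_mem hx, Function.comp_apply]
    unfold lap
    rw [hes_congr _ e1]
  · have hC : IsClosed (e.source ∩ e ⁻¹' K) := (param_compact hK hKe).isClosed
    have e1 : e.source.indicator (ψ ∘ e) =ᶠ[𝓝 x] fun _ => 0 := by
      filter_upwards [hC.isOpen_compl.mem_nhds fun h => hx h.1] with x' hx'
      by_cases h : x' ∈ e.source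
      · rw [indicator_of_mem h, Function.comp_apply]
        exact h0 _ fun hb => hx' ⟨h, hb⟩
      · exact indicator_of_notMem h _
    rw [(vanish g (fun _ => 0) e1).1, indicator_of_notMem hx]

/-- The test function estimate. -/
theorem test_main (g : Met M) (z : M) {s : M → ℝ} (hs : Continuous s) :
    ∃ (e : OpenPartialHomeomorph M E3) (b C : ℝ), SC e ∧ z ∈ e.source ∧ 0 < b ∧ 0 < C ∧
      closedBall (e z) b ⊆ e.target ∧ ∀ y ∈ e.source ∩ e ⁻¹' ball (e z) b,
      ∀ (v F r : M → ℝ) (η ρ : ℝ), Sm v → (∀ x, 0 ≤ v x) → Continuous F → (∀ x, 0 ≤ F x) →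
        Continuous r → (∀ x, F x - r x ≤ -2 * Lap g v x + s x * v x) → 0 < η →
        ∫ x, r x ^ 2 ∂(vol g) ≤ η ^ 2 → 0 < ρ → ρ ≤ 2 * b →
        ∫ x in e.source ∩ e ⁻¹' ball (e z) b, v x ∂(vol g) +
          1 / (8 * ρ) * ∫ x in e.source ∩ e ⁻¹' ball (e y) ρ, F x ∂(vol g) ≤ C * (v y + η) := by
  obtain ⟨e, he, hz, h1⟩ := exists_norm_chart g z
  have hG := he.good g
  obtain ⟨S, hS⟩ := isCompact_univ.exists_bound_of_continuousOn hs.continuousOn
  have hS0 : 0 ≤ S := (norm_nonneg _).trans (hS z (mem_univ z))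
  obtain ⟨b, hb, -, hKe, H⟩ := gam_flat hG (e.map_source hz) h1 hS0 one_pos
  set K := closedBall (e z) (33 * b) with hKd
  have hK : IsCompact K := isCompact_closedBall _ _
  have hbK : closedBall (e z) b ⊆ K := closedBall_subset_closedBall (by linarith)
  have hrho : ContinuousOn (rho (coef g e)) K := hG.smooth_rho.continuousOn.mono hKe
  obtain ⟨A, hA⟩ := hK.exists_bound_of_continuousOn hrho
  have hA0 : 0 ≤ A := (norm_nonneg _).trans (hA _ (mem_closedBall_self (by positivity)))
  obtain ⟨c, hc, hpeak⟩ := test_peak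
  obtain ⟨I, hI, hsq⟩ := test_sq (e z) (33 * b)
  refine ⟨e, b, 192 * c * A + (A * I + 1) / 2, he, hz, hb, by positivity, hbK.trans hKe,
    fun y hy v F r η ρ hv hv0 hF hF0 hr hL hη hrη hρ hρb => ?_⟩
  have hyK : e y ∈ K := hbK (ball_subset_closedBall hy.2)
  have hint := fun (F : M → ℝ) (hF : Continuous F) => integrable_of_continuous g hF
  have hvl : ContinuousOn (v ∘ e.symm) K :=
    hv.continuous.comp_continuousOn (e.continuousOn_symm.mono hKe)
  set B := e.source ∩ e ⁻¹' ball (e z) b with hB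
  set B' := e.source ∩ e ⁻¹' ball (e y) ρ with hB'
  have hBo : IsOpen B := e.isOpen_inter_preimage isOpen_ball
  have hB'o : IsOpen B' := e.isOpen_inter_preimage isOpen_ball
  set f : E3 → ℝ := K.indicator fun p => rho (coef g e) p * (v ∘ e.symm) p with hf
  have hfi : Integrable f :=
    (integrable_indicator_iff hK.measurableSet).2 ((hrho.mul hvl).integrableOn_compact hK)
  have hKy : K ∈ 𝓝 (e y) :=
    mem_of_superset (isOpen_ball.mem_nhds hy.2) (ball_subset_closedBall.trans hbK)
  have hfc : ContinuousAt f (e y) := by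
    refine ((hrho.mul hvl).continuousAt hKy).congr ?_
    filter_upwards [hKy] with p hp
    rw [hf, indicator_of_mem hp]
    rfl
  have hfy : f (e y) ≤ A * v y := by
    rw [hf, indicator_of_mem hyK, Function.comp_apply, e.left_inv hy.1]
    exact mul_le_mul_of_nonneg_right ((le_abs_self _).trans (hA _ hyK)) (hv0 y)
  have key : ∀ᶠ δ : ℝ in 𝓝[>] 0, ∫ x in B, v x ∂(vol g) + 1 / (8 * ρ) * ∫ x in B', F x ∂(vol g) ≤
      192 * (∫ x, δ ^ 2 / (δ + ‖x - e y‖) ^ 5 * f x) + η * ((A * I + 1) / 2) := by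
    filter_upwards [Ioc_mem_nhdsGT (lt_min hb hρ)] with δ hδ
    have hδ0 : 0 < δ := hδ.1
    obtain ⟨Γ, hΓ, hΓ0, hΓK, hΓu, hΓl, hΓL⟩ := H (e y) hy.2 δ hδ0 (hδ.2.trans (min_le_left _ _))
    set Ψ : M → ℝ := e.source.indicator (Γ ∘ e) with hΨ
    have hΨs : Sm Ψ := he.sm_ext hΓ.contDiffOn hK hKe fun p _ hp => hΓK p hp
    have hΨ0 : ∀ x, 0 ≤ Ψ x := fun x => indicator_nonneg (fun x _ => hΓ0 (e x)) x
    have cP : Continuous fun p : E3 => 192 * δ ^ 2 / (δ + ‖p - e y‖) ^ 5 :=
      continuous_const.div (by fun_prop) fun p => by positivity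
    have cQ : Continuous fun p : E3 => (2 / (δ + ‖p - e y‖)) ^ 2 :=
      (continuous_const.div (by fun_prop) fun p => by positivity).pow 2
    obtain ⟨i1, e1⟩ := test_ext he g hK hKe (a := fun p => (v ∘ e.symm) p *
      (192 * δ ^ 2 / (δ + ‖p - e y‖) ^ 5)) (hvl.mul cP.continuousOn)
    obtain ⟨i2, e2⟩ := test_ext he g hK hKe cQ.continuousOn
    have i3 : Integrable (B.indicator v) (vol g) := (hint v hv.continuous).indicator hBo.measurableSet
    have i4 : Integrable (B'.indicator fun x => 1 / (8 * ρ) * F x) (vol g) :=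
      ((hint F hF).const_mul _).indicator hB'o.measurableSet
    have i5 : Integrable (fun x => B'.indicator (fun x => 1 / (8 * ρ) * F x) x -
        η / 2 * (e.source ∩ e ⁻¹' K).indicator ((fun p => (2 / (δ + ‖p - e y‖)) ^ 2) ∘ e) x)
        (vol g) := i4.sub (i2.const_mul _)
    have cv := hv.continuous
    have cΨ := hΨs.continuous
    have cLv := (sm_lap g hv).continuous
    have cLΨ := (sm_lap g hΨs).continuous
    have a1 : ∫ x, (-2 * (v x * Lap g Ψ x) + s x * v x * Ψ x) ∂(vol g) ≤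
        ∫ x, ((e.source ∩ e ⁻¹' K).indicator ((fun p => (v ∘ e.symm) p *
          (192 * δ ^ 2 / (δ + ‖p - e y‖) ^ 5)) ∘ e) x - B.indicator v x) ∂(vol g) := by
      refine integral_mono (hint _ (by fun_prop)) (i1.sub i3) fun x => ?_
      simp only [hΨ, test_lap he g hK hKe hΓ hΓK]
      by_cases hx : x ∈ e.source
      · have b1 := mul_le_mul_of_nonneg_left (hΓL (e x) (e.map_source hx)) (hv0 x)
        have b2 : s x * Γ (e x) ≤ S * Γ (e x) :=
          mul_le_mul_of_nonneg_right ((le_abs_self _).trans (hS x (mem_univ x))) (hΓ0 _)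
        have b3 := mul_le_mul_of_nonneg_left b2 (hv0 x)
        have b4 : B.indicator v x = v x * (ball (e z) b).indicator (fun _ => 1) (e x) := by
          by_cases h : e x ∈ ball (e z) b
          · rw [indicator_of_mem h, indicator_of_mem (show x ∈ B from ⟨hx, h⟩), mul_one]
          · rw [indicator_of_notMem h, indicator_of_notMem (fun h' : x ∈ B => h h'.2), mul_zero]
        have b5 : (e.source ∩ e ⁻¹' K).indicator ((fun p => (v ∘ e.symm) p *
            (192 * δ ^ 2 / (δ + ‖p - e y‖) ^ 5)) ∘ e) x =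
            v x * K.indicator (fun p => 192 * δ ^ 2 / (δ + ‖p - e y‖) ^ 5) (e x) := by
          by_cases h : e x ∈ K
          · rw [indicator_of_mem h, indicator_of_mem (show x ∈ e.source ∩ e ⁻¹' K from ⟨hx, h⟩)]
            simp only [Function.comp_apply, e.left_inv hx]
          · rw [indicator_of_notMem h,
              indicator_of_notMem (fun h' : x ∈ e.source ∩ e ⁻¹' K => h h'.2), mul_zero]
        rw [b4, b5, indicator_of_mem hx, indicator_of_mem hx]
        simp only [Function.comp_apply]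
        linarith
      · rw [indicator_of_notMem hx, indicator_of_notMem hx,
          indicator_of_notMem (fun h' : x ∈ B => hx h'.1),
          indicator_of_notMem (fun h' : x ∈ e.source ∩ e ⁻¹' K => hx h'.1)]
        simp
    have a2 : ∫ x, (B'.indicator (fun x => 1 / (8 * ρ) * F x) x -
        η / 2 * (e.source ∩ e ⁻¹' K).indicator ((fun p => (2 / (δ + ‖p - e y‖)) ^ 2) ∘ e) x -
        1 / (2 * η) * r x ^ 2) ∂(vol g) ≤
        ∫ x, (-2 * (Ψ x * Lap g v x) + s x * v x * Ψ x) ∂(vol g) := by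
      refine integral_mono (i5.sub (hint _ (by fun_prop)))
        (hint _ (by fun_prop)) fun x => ?_
      have b1 := mul_le_mul_of_nonneg_left (hL x) (hΨ0 x)
      have b2 : B'.indicator (fun x => 1 / (8 * ρ) * F x) x ≤ Ψ x * F x := by
        by_cases h : x ∈ B'
        · rw [indicator_of_mem h, hΨ, indicator_of_mem h.1]
          exact mul_le_mul_of_nonneg_right (hΓl ρ (hδ.2.trans (min_le_right _ _)) hρb _
            (by rw [← dist_eq_norm]; exact (mem_ball.1 h.2).le)) (hF0 x)
        · rw [indicator_of_notMem h]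
          exact mul_nonneg (hΨ0 x) (hF0 x)
      have b3 : Ψ x ^ 2 ≤
          (e.source ∩ e ⁻¹' K).indicator ((fun p => (2 / (δ + ‖p - e y‖)) ^ 2) ∘ e) x := by
        by_cases h : x ∈ e.source ∩ e ⁻¹' K
        · rw [indicator_of_mem h, hΨ, indicator_of_mem h.1]
          exact pow_le_pow_left₀ (hΓ0 _) (hΓu _) 2
        · rw [indicator_of_notMem h]
          by_cases hx : x ∈ e.source
          · rw [hΨ, indicator_of_mem hx, Function.comp_apply, hΓK _ fun h' => h ⟨hx, h'⟩]
            simp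
          · rw [hΨ, indicator_of_notMem hx]
            simp
      have b4 : Ψ x * r x ≤ η / 2 * Ψ x ^ 2 + 1 / (2 * η) * r x ^ 2 := by
        have : η / 2 * Ψ x ^ 2 + 1 / (2 * η) * r x ^ 2 - Ψ x * r x =
            (η * Ψ x - r x) ^ 2 / (2 * η) := by
          field_simp
          ring
        have b5 : 0 ≤ (η * Ψ x - r x) ^ 2 / (2 * η) := by positivity
        linarith
      have b6 := mul_le_mul_of_nonneg_left b3 (by positivity : 0 ≤ η / 2)
      simp only
      linarith
    rw [integral_add (hint _ (by fun_prop)) (hint _ (by fun_prop)), integral_const_mul,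
      integral_sub i1 i3, e1, integral_indicator hBo.measurableSet, int_lap_symm g hv hΨs] at a1
    rw [integral_add (hint _ (by fun_prop)) (hint _ (by fun_prop)), integral_const_mul,
      integral_sub i5 (hint _ (by fun_prop)), integral_sub i4 (i2.const_mul _), integral_const_mul, integral_const_mul, e2,
      integral_indicator hB'o.measurableSet, integral_const_mul] at a2
    have a3 : ∫ p in K, rho (coef g e) p * (2 / (δ + ‖p - e y‖)) ^ 2 ≤ A * I := by
      refine le_trans ?_ (mul_le_mul_of_nonneg_left (hsq (e y) hyK δ hδ0) hA0)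
      rw [← integral_const_mul]
      exact setIntegral_mono_on ((hrho.mul cQ.continuousOn).integrableOn_compact hK)
        ((continuous_const.mul cQ).continuousOn.integrableOn_compact hK) hK.measurableSet
        fun p hp => mul_le_mul_of_nonneg_right ((le_abs_self _).trans (hA p hp)) (sq_nonneg _)
    have a4 : ∫ p in K, rho (coef g e) p * ((v ∘ e.symm) p * (192 * δ ^ 2 / (δ + ‖p - e y‖) ^ 5)) =
        192 * ∫ x, δ ^ 2 / (δ + ‖x - e y‖) ^ 5 * f x := by
      rw [← integral_const_mul, ← integral_indicator hK.measurableSet]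
      refine integral_congr_ae (Eventually.of_forall fun p => ?_)
      by_cases hp : p ∈ K
      · simp only [hf, indicator_of_mem hp]
        ring
      · simp only [hf, indicator_of_notMem hp, mul_zero]
    have a5 : 1 / (2 * η) * ∫ x, r x ^ 2 ∂(vol g) ≤ η / 2 :=
      (mul_le_mul_of_nonneg_left hrη (by positivity)).trans_eq (by field_simp)
    have a6 := mul_le_mul_of_nonneg_left a3 (by positivity : 0 ≤ η / 2)
    linarith
  have lim := ge_of_tendsto (((hpeak f (e y) hfi hfc).const_mul 192).add_const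
    (η * ((A * I + 1) / 2))) key
  have a7 := mul_le_mul_of_nonneg_left hfy hc.le
  have a8 : 0 ≤ c * A * η := by positivity
  have a9 : 0 ≤ (A * I + 1) * v y := mul_nonneg (by positivity) (hv0 y)
  linarith

/-- Weak maximum principle with an error in `L²`. -/
theorem test_wmp (g : Met M) {s : M → ℝ} (hs : Continuous s) (hs0 : ∀ x, 0 < s x) :
    ∃ C : ℝ, 0 ≤ C ∧ ∀ (u r : M → ℝ) (η : ℝ), Sm u → Continuous r →
      (∀ x, -r x ≤ -2 * Lap g u x + s x * u x) → 0 < η → ∫ x, r x ^ 2 ∂(vol g) ≤ η ^ 2 →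
      ∀ x, -(C * η) ≤ u x := by
  obtain ⟨s₀, hs₀, hss⟩ := isCompact_univ.exists_forall_le' hs.continuousOn fun x _ => hs0 x
  obtain ⟨C, hC⟩ := est_cover (ι := {c : ℝ // 0 ≤ c}) ⟨0, le_rfl⟩
    (fun c q => ∀ (u r : M → ℝ) (η : ℝ), Sm u → Continuous r →
      (∀ x, -r x ≤ -2 * Lap g u x + s x * u x) → 0 < η → ∫ x, r x ^ 2 ∂(vol g) ≤ η ^ 2 →
      (∀ x, u q ≤ u x) → -(c.1 * η) ≤ u q)
    (fun a b => ⟨⟨max a.1 b.1, le_max_of_le_left a.2⟩,
      fun q h u r η h1 h2 h3 h4 h5 h6 => le_trans (neg_le_neg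
        (mul_le_mul_of_nonneg_right (le_max_left _ _) h4.le)) (h u r η h1 h2 h3 h4 h5 h6),
      fun q h u r η h1 h2 h3 h4 h5 h6 => le_trans (neg_le_neg
        (mul_le_mul_of_nonneg_right (le_max_right _ _) h4.le)) (h u r η h1 h2 h3 h4 h5 h6)⟩)
    (fun z => by
      obtain ⟨e, b, C, he, hz, hb, hC, hbe, H⟩ := test_main g z hs
      have hBo : IsOpen (e.source ∩ e ⁻¹' ball (e z) b) := e.isOpen_inter_preimage isOpen_ball
      have hzB : z ∈ e.source ∩ e ⁻¹' ball (e z) b := ⟨hz, mem_ball_self hb⟩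
      have hm : 0 < (vol g).real (e.source ∩ e ⁻¹' ball (e z) b) :=
        ENNReal.toReal_pos (hBo.measure_ne_zero _ ⟨z, hzB⟩) (measure_ne_top _ _)
      set m := (vol g).real (e.source ∩ e ⁻¹' ball (e z) b) with hmd
      refine ⟨⟨C * (16 * b) / (m * s₀), by positivity⟩, ?_⟩
      filter_upwards [hBo.mem_nhds hzB] with q hq u r η hu hr hL hη hrη hmin
      rcases le_or_gt 0 (u q) with h | h
      · exact le_trans (neg_nonpos.2 (by positivity)) h
      have hv : Sm fun x => u x + -u q := hu.add contMDiff_const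
      have h1 := H q hq (fun x => u x + -u q) (fun _ => s₀ * -u q) r η (2 * b) hv
        (fun x => by linarith [hmin x]) continuous_const (fun _ => by nlinarith) hr (fun x => by
          rw [lap_add g hu contMDiff_const, lap_const]
          nlinarith [hL x, hss x (mem_univ x)]) hη hrη (by positivity) le_rfl
      have h2 : 0 ≤ ∫ x in e.source ∩ e ⁻¹' ball (e z) b, (u x + -u q) ∂(vol g) :=
        integral_nonneg fun x => by
          simp only [Pi.zero_apply]
          linarith [hmin x]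
      have h3 : m ≤ (vol g).real (e.source ∩ e ⁻¹' ball (e q) (2 * b)) := by
        refine measureReal_mono (fun x hx => ⟨hx.1, ?_⟩)
        have a1 := mem_ball.1 hx.2
        have a2 := mem_ball.1 hq.2
        exact mem_ball.2 (by linarith [dist_triangle_right (e x) (e q) (e z)])
      rw [setIntegral_const, smul_eq_mul, add_neg_cancel, zero_add] at h1
      have h4 : 1 / (8 * (2 * b)) * (m * (s₀ * -u q)) ≤ C * η := by
        refine le_trans ?_ (le_trans (le_add_of_nonneg_left h2) h1)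
        have : 0 ≤ s₀ * -u q := by nlinarith
        gcongr
      rw [div_mul_eq_mul_div, div_le_iff₀ (by positivity)] at h4
      rw [neg_le, div_mul_eq_mul_div, le_div_iff₀ (by positivity)]
      linarith)
  refine ⟨C.1, C.2, fun u r η hu hr hL hη hrη x => ?_⟩
  obtain ⟨q, -, hq⟩ := isCompact_univ.exists_isMinOn ⟨x, mem_univ x⟩ hu.continuous.continuousOn
  exact (hC q u r η hu hr hL hη hrη fun x => hq (mem_univ x)).trans (hq (mem_univ x))

/-- A lower bound on an open set spreads to the whole manifold. -/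
theorem test_low [ConnectedSpace M] (g : Met M) {s : M → ℝ} (hs : Continuous s) {O : Set M}
    (hO : IsOpen O) (hne : O.Nonempty) :
    ∃ c C : ℝ, 0 < c ∧ 0 ≤ C ∧ ∀ (v r : M → ℝ) (η m : ℝ), Sm v → (∀ x, 0 ≤ v x) → Continuous r →
      (∀ x, -r x ≤ -2 * Lap g v x + s x * v x) → 0 < η → ∫ x, r x ^ 2 ∂(vol g) ≤ η ^ 2 →
      0 ≤ m → (∀ x ∈ O, m ≤ v x) → ∀ x, c * m - C * η ≤ v x := by
  have key := spread (M := M) (fun N => ∃ c C : ℝ, 0 < c ∧ 0 ≤ C ∧ ∀ (v r : M → ℝ) (η m : ℝ),
    Sm v → (∀ x, 0 ≤ v x) → Continuous r → (∀ x, -r x ≤ -2 * Lap g v x + s x * v x) → 0 < η →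
    ∫ x, r x ^ 2 ∂(vol g) ≤ η ^ 2 → 0 ≤ m → (∀ x ∈ O, m ≤ v x) → ∀ x ∈ N, c * m - C * η ≤ v x) ?_
    ⟨O, hO, hne, 1, 0, one_pos, le_rfl, fun v r η m _ _ _ _ _ _ _ h x hx => by
      simpa using h x hx⟩ ?_
  · obtain ⟨c, C, hc, hC, h⟩ := key
    exact ⟨c, C, hc, hC, fun v r η m h1 h2 h3 h4 h5 h6 h7 h8 x =>
      h v r η m h1 h2 h3 h4 h5 h6 h7 h8 x (mem_univ x)⟩
  · rintro N N' - - ⟨c, C, hc, hC, h⟩ ⟨c', C', hc', hC', h'⟩
    refine ⟨min c c', max C C', lt_min hc hc', le_max_of_le_left hC,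
      fun v r η m h1 h2 h3 h4 h5 h6 h7 h8 x hx => ?_⟩
    have a1 := mul_le_mul_of_nonneg_right (min_le_left c c') h7
    have a2 := mul_le_mul_of_nonneg_right (min_le_right c c') h7
    have a3 := mul_le_mul_of_nonneg_right (le_max_left C C') h5.le
    have a4 := mul_le_mul_of_nonneg_right (le_max_right C C') h5.le
    rcases hx with hx | hx
    · linarith [h v r η m h1 h2 h3 h4 h5 h6 h7 h8 x hx]
    · linarith [h' v r η m h1 h2 h3 h4 h5 h6 h7 h8 x hx]
  · intro z
    obtain ⟨e, b, C', he, hz, hb, hC', hbe, H⟩ := test_main g z hs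
    have hBo : IsOpen (e.source ∩ e ⁻¹' ball (e z) b) := e.isOpen_inter_preimage isOpen_ball
    refine ⟨_, hBo, ⟨hz, mem_ball_self hb⟩, ?_⟩
    rintro N hN ⟨c, C, hc, hC, h⟩ hNB
    set B := e.source ∩ e ⁻¹' ball (e z) b with hB
    have hm : 0 < (vol g).real (N ∩ B) :=
      ENNReal.toReal_pos ((hN.inter hBo).measure_ne_zero _ hNB) (measure_ne_top _ _)
    refine ⟨(vol g).real (N ∩ B) * c / C', (vol g).real (N ∩ B) * C / C' + 1, by positivity,
      by positivity, fun v r η m h1 h2 h3 h4 h5 h6 h7 h8 x hx => ?_⟩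
    have a1 := H x hx v (fun _ => 0) r η b h1 h2 continuous_const (fun _ => le_rfl) h3
      (fun x => by linarith [h4 x]) h5 h6 hb (by linarith)
    have hvi := integrable_of_continuous g h1.continuous
    have a2 : ∫ x in N ∩ B, v x ∂(vol g) ≤ ∫ x in B, v x ∂(vol g) :=
      setIntegral_mono_set hvi.integrableOn (Eventually.of_forall h2) inter_subset_right.eventuallyLE
    have a3 := setIntegral_ge_of_const_le_real (hN.inter hBo).measurableSet (measure_ne_top _ _)
      (fun y hy => h v r η m h1 h2 h3 h4 h5 h6 h7 h8 y hy.1) hvi.integrableOn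
    rw [integral_zero, mul_zero, add_zero] at a1
    have a4 : (c * m - C * η) * (vol g).real (N ∩ B) / C' ≤ v x + η := by
      rw [div_le_iff₀ hC']
      linarith
    have a5 : (vol g).real (N ∩ B) * c / C' * m - ((vol g).real (N ∩ B) * C / C' + 1) * η =
        (c * m - C * η) * (vol g).real (N ∩ B) / C' - η := by ring
    linarith

end Pool.Agent.Lib.MP_40de08_gt
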